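import Pool.Agent.Work.MP_43381c_ag.CI.Newton

/-!
# Arcs on a complete intersection through a point of the tropical degeneration
-/

set_option autoImplicit false

namespace Pool.Agent.Work.MP_43381c_ag

open Finset MvPolynomial Matrix

variable {k L : Type*} [Field k] [Field L] [Algebra k L] {n : ℕ}

/-- `t ^ (- phi) x ^ N f(x t ^ w)`, with an extra factor `κ m` -/
noncomputable def arcG (L : Type*) [Field L] [Algebra k L] (κ : (Fin n → ℤ) → ℕ)
    (f : (Fin n → ℤ) →₀ k) (w : Fin n → ℤ) : MvPolynomial (Fin n) (PowerSeries L) :=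
  ∑ m ∈ f.support, monomial
    (Finsupp.equivFunOnFinite.symm fun b => (m b + shN f.support b).toNat)
    ((κ m : PowerSeries L) * (PowerSeries.C (algebraMap k L (f m)) *
      PowerSeries.X ^ (m ⬝ᵥ w - phi f w).toNat))

theorem X_mul_pderiv_arcG (f : (Fin n → ℤ) →₀ k) (w : Fin n → ℤ) (b : Fin n) :
    X b * pderiv b (arcG L (fun _ => 1) f w) =
      arcG L (fun m => (m b + shN f.support b).toNat) f w := by
  unfold arcG
  rw [map_sum, Finset.mul_sum]
  refine Finset.sum_congr rfl fun m _ => ?_
  rw [X_mul_pderiv_monomial, ← map_nsmul]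
  congr 1
  rw [Finsupp.equivFunOnFinite_symm_apply_apply, nsmul_eq_mul, Nat.cast_one, one_mul]

theorem eval_arcG {F : Type*} [Field F] (φ : PowerSeries L →+* F) (κ : (Fin n → ℤ) → ℕ)
    (f : (Fin n → ℤ) →₀ k) (w : Fin n → ℤ) (y : Fin n → PowerSeries L) (hy : ∀ b, φ (y b) ≠ 0) :
    φ (eval y (arcG L κ f w)) = mono (fun b => φ (y b)) (fun b => (shN f.support b : ℤ)) *
      ∑ m ∈ f.support, (κ m : F) * (φ (PowerSeries.C (algebraMap k L (f m))) *
        φ PowerSeries.X ^ (m ⬝ᵥ w - phi f w).toNat) * mono (fun b => φ (y b)) m := by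
  unfold arcG
  rw [map_sum, map_sum, Finset.mul_sum]
  refine Finset.sum_congr rfl fun m hm => ?_
  rw [eval_monomial, Finsupp.prod_fintype _ _ (fun i => pow_zero _), map_mul, map_prod]
  have : ∏ i, φ (y i ^ ((Finsupp.equivFunOnFinite.symm fun b =>
      (m b + shN f.support b).toNat : Fin n →₀ ℕ) i)) =
      mono (fun b => φ (y b)) (m + fun i => (shN f.support i : ℤ)) := by
    unfold mono
    refine Finset.prod_congr rfl fun i _ => ?_
    rw [map_pow, ← zpow_natCast, Finsupp.equivFunOnFinite_symm_apply_apply,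
      Int.toNat_of_nonneg (shN_le hm i)]
    rfl
  rw [this, mono_add hy, map_mul, map_mul, map_natCast, map_pow]
  ring

/-- at the closed point -/
theorem cc_arcG (κ : (Fin n → ℤ) → ℕ) (f : (Fin n → ℤ) →₀ k) (w : Fin n → ℤ)
    (y : Fin n → PowerSeries L) (hy : ∀ b, PowerSeries.constantCoeff (y b) ≠ 0) :
    PowerSeries.constantCoeff (eval y (arcG L κ f w)) =
      mono (fun b => PowerSeries.constantCoeff (y b)) (fun b => (shN f.support b : ℤ)) *
      ∑ m ∈ (init f w).support, (κ m : L) * algebraMap k L (init f w m) *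
        mono (fun b => PowerSeries.constantCoeff (y b)) m := by
  classical
  rw [eval_arcG PowerSeries.constantCoeff κ f w y hy]
  congr 1
  have h2 : (init f w).support = f.support.filter fun m => m ⬝ᵥ w = phi f w :=
    Finsupp.support_filter _ _
  rw [h2, Finset.sum_filter]
  refine Finset.sum_congr rfl fun m hm => ?_
  rw [PowerSeries.constantCoeff_C, PowerSeries.constantCoeff_X]
  by_cases h : m ⬝ᵥ w = phi f w
  · have h1 : init f w m = f m := Finsupp.filter_apply_pos _ _ h
    rw [if_pos h, h, sub_self, Int.toNat_zero, pow_zero, mul_one, h1]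
  · have h3 := phi_le w hm
    rw [if_neg h, zero_pow (by omega), mul_zero, mul_zero, zero_mul]

theorem exists_arc {c d : ℕ} (g : Fin c → (Fin n → ℤ) →₀ k) (w : Fin n → ℤ) (z : Fin n → L)
    (hz : ∀ b, z b ≠ 0) (hg : ∀ l, ev z (init (g l) w) = 0) (e : Fin d ⊕ Fin c ≃ Fin n)
    (hdet : (Matrix.of fun l j => dev z (e (Sum.inr j)) (init (g l) w)).det ≠ 0) :
    ∃ y : Fin n → PowerSeries L, (∀ b, PowerSeries.constantCoeff (y b) = z b) ∧
      (∀ i, y (e (Sum.inl i)) = PowerSeries.C (z (e (Sum.inl i)))) ∧
      ∀ l, ev (fun b => (HahnSeries.ofPowerSeries ℤ L (y b)) *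
        (HahnSeries.single (1 : ℤ) (1 : L)) ^ w b) (g l) = 0 := by
  classical
  let a : Fin n → PowerSeries L := fun b => PowerSeries.C (z b)
  have ha : ∀ b, PowerSeries.constantCoeff (a b) = z b := fun b => PowerSeries.constantCoeff_C _
  have ha0 : ∀ b, PowerSeries.constantCoeff (a b) ≠ 0 := fun b => by rw [ha]; exact hz b
  have haz : (fun b => PowerSeries.constantCoeff (a b)) = z := funext ha
  have hz0 : ∀ N : Fin n → ℤ, mono z N ≠ 0 := fun N => mono_ne_zero hz N
  -- the values
  have h1 : ∀ l, PowerSeries.constantCoeff (eval a (arcG L (fun _ => 1) (g l) w)) = 0 := by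
    intro l
    rw [cc_arcG _ _ _ _ ha0, haz]
    have h2 : ∑ m ∈ (init (g l) w).support, ((1 : ℕ) : L) * algebraMap k L (init (g l) w m) *
        mono z m = ev z (init (g l) w) := by
      rw [ev_eq]
      refine Finset.sum_congr rfl fun m _ => ?_
      rw [Nat.cast_one, one_mul]
    rw [h2, hg, mul_zero]
  -- the derivatives
  have h2 : ∀ l b, z b * PowerSeries.constantCoeff
      (eval a (pderiv b (arcG L (fun _ => 1) (g l) w))) =
      mono z (fun b => (shN (g l).support b : ℤ)) * dev z b (init (g l) w) := by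
    intro l b
    have h3 : z b * PowerSeries.constantCoeff
        (eval a (pderiv b (arcG L (fun _ => 1) (g l) w))) = PowerSeries.constantCoeff
        (eval a (X b * pderiv b (arcG L (fun _ => 1) (g l) w))) := by
      rw [map_mul, map_mul, eval_X, ha]
    rw [h3, X_mul_pderiv_arcG, cc_arcG _ _ _ _ ha0, haz]
    congr 1
    have h4 : ∀ m ∈ (init (g l) w).support,
        (((m b + shN (g l).support b).toNat : ℕ) : L) * algebraMap k L (init (g l) w m) *
          mono z m = algebraMap k L (init (g l) w m) * (m b : L) * mono z m +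
          (shN (g l).support b : L) * (algebraMap k L (init (g l) w m) * mono z m) := by
      intro m hm
      have h5 : m ∈ (g l).support := by
        have h2 : (init (g l) w).support = (g l).support.filter fun m => m ⬝ᵥ w = phi (g l) w :=
          Finsupp.support_filter _ _
        rw [h2, Finset.mem_filter] at hm
        exact hm.1
      have h6 : (((m b + shN (g l).support b).toNat : ℕ) : L) =
          (m b : L) + (shN (g l).support b : L) := by
        have h7 : (((m b + shN (g l).support b).toNat : ℕ) : ℤ) = m b + shN (g l).support b :=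
          Int.toNat_of_nonneg (shN_le h5 b)
        rw [← Int.cast_natCast (R := L), h7]
        push_cast
        rfl
      rw [h6]
      ring
    rw [Finset.sum_congr rfl h4, Finset.sum_add_distrib, ← Finset.mul_sum, ← ev_eq, hg, mul_zero,
      add_zero, dev_eq]
  have h3 : PowerSeries.constantCoeff (Matrix.of fun l j =>
      eval a (pderiv (e (Sum.inr j)) (arcG L (fun _ => 1) (g l) w))).det ≠ 0 := by
    rw [RingHom.map_det]
    set J : Matrix (Fin c) (Fin c) L := (PowerSeries.constantCoeff (R := L)).mapMatrix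
      (Matrix.of fun l j => eval a (pderiv (e (Sum.inr j)) (arcG L (fun _ => 1) (g l) w))) with hJ
    have hJ' : ∀ l j, J l j = PowerSeries.constantCoeff
      (eval a (pderiv (e (Sum.inr j)) (arcG L (fun _ => 1) (g l) w))) := fun l j => rfl
    have h4 : (Matrix.of fun l j => z (e (Sum.inr j)) * J l j) =
        Matrix.of fun l j => mono z (fun b => (shN (g l).support b : ℤ)) *
          (Matrix.of fun l j => dev z (e (Sum.inr j)) (init (g l) w)) l j := by
      ext l j
      rw [Matrix.of_apply, Matrix.of_apply, Matrix.of_apply, hJ', h2]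
    have h5 := congrArg Matrix.det h4
    rw [Matrix.det_mul_row, Matrix.det_mul_column] at h5
    intro h6
    rw [h6, mul_zero] at h5
    refine mul_ne_zero ?_ hdet h5.symm
    exact Finset.prod_ne_zero_iff.2 fun l _ => hz0 _
  obtain ⟨y, hy1, hy2, hy3⟩ := newton (fun l => arcG L (fun _ => 1) (g l) w) e a h1 h3
  refine ⟨y, fun b => (hy1 b).trans (ha b), hy2, fun l => ?_⟩
  -- the equations
  set ψ : PowerSeries L →+* HahnSeries ℤ L := HahnSeries.ofPowerSeries ℤ L with hψ
  set t : HahnSeries ℤ L := HahnSeries.single (1 : ℤ) (1 : L) with ht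
  have ht0 : t ≠ 0 := HahnSeries.single_ne_zero one_ne_zero
  have hψX : ψ PowerSeries.X = t := HahnSeries.ofPowerSeries_X
  have hyne : ∀ b, ψ (y b) ≠ 0 := by
    intro b hb
    have h4 : y b = 0 := HahnSeries.ofPowerSeries_injective (by rw [← hψ, hb, map_zero])
    have h5 := hy1 b
    rw [h4, map_zero, ha] at h5
    exact hz b h5.symm
  have h4 := eval_arcG ψ (fun _ => 1) (g l) w y hyne
  rw [hy3 l, map_zero] at h4
  have h5 := (mul_eq_zero.1 h4.symm).resolve_left (mono_ne_zero hyne _)
  have halg : ∀ c : k, algebraMap k (HahnSeries ℤ L) c = ψ (PowerSeries.C (algebraMap k L c)) := by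
    intro c
    rw [HahnSeries.algebraMap_apply', PowerSeries.algebraMap_apply]
  have h6 : t ^ (phi (g l) w) * ∑ m ∈ (g l).support, (((fun _ => 1) m : ℕ) : HahnSeries ℤ L) *
      (ψ (PowerSeries.C (algebraMap k L ((g l) m))) *
        ψ PowerSeries.X ^ (m ⬝ᵥ w - phi (g l) w).toNat) * mono (fun b => ψ (y b)) m =
      ev (fun b => ψ (y b) * t ^ w b) (g l) := by
    rw [ev_eq, Finset.mul_sum]
    refine Finset.sum_congr rfl fun m hm => ?_
    rw [halg, mono_mul (fun b => ψ (y b)) (fun b => t ^ w b), mono_zpow ht0, hψX,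
      ← zpow_natCast t, Int.toNat_of_nonneg (by have := phi_le w hm; omega), zpow_sub₀ ht0]
    have h7 : t ^ phi (g l) w ≠ 0 := zpow_ne_zero _ ht0
    field_simp
    simp
  rw [← h6, h5, mul_zero]

end Pool.Agent.Work.MP_43381c_ag
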