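import Mathlib

/-!
# Derivations with prescribed values on algebraically independent elements
-/

set_option autoImplicit false

namespace Pool.Agent.Work.MP_43381c_ag

open MvPolynomial

theorem formal_lift {F L B : Type*} [Field F] [Field L] [Algebra F L] [Algebra.IsSeparable F L]
    [CommRing B] (ι : F →+* B) (π : B →+* L) (hπ : Function.Surjective π)
    (hnil : IsNilpotent (RingHom.ker π)) (hc : ∀ a, π (ι a) = algebraMap F L a) :
    ∃ Θ : L →+* B, (∀ a, π (Θ a) = a) ∧ ∀ a : F, Θ (algebraMap F L a) = ι a := by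
  let _ : Algebra F B := ι.toAlgebra
  let π' : B →ₐ[F] L := { π with commutes' := hc }
  have : Algebra.FormallyEtale F L := Algebra.FormallyEtale.of_isSeparable F L
  have : Algebra.FormallySmooth F L := inferInstance
  let Θ : L →ₐ[F] B := Algebra.FormallySmooth.liftOfSurjective (AlgHom.id F L) π' hπ hnil
  refine ⟨Θ.toRingHom, fun a => ?_, fun a => Θ.commutes a⟩
  exact Algebra.FormallySmooth.liftOfSurjective_apply (AlgHom.id F L) π' hπ hnil a

theorem exists_deriv_of_basis {k L : Type*} [Field k] [CharZero k] [Field L] [Algebra k L]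
    {ι : Type*} {z : ι → L} (hz : IsTranscendenceBasis k z) (η : ι → L) :
    ∃ D : Derivation k L L, ∀ i, D (z i) = η i := by
  classical
  let F := IntermediateField.adjoin k (Set.range z)
  have halg : Algebra.IsAlgebraic F L := hz.isAlgebraic_field
  have : CharZero F := charZero_of_injective_algebraMap (algebraMap k F).injective
  have : Algebra.IsSeparable F L := inferInstance
  -- the ring map from the polynomial ring
  let y : ι → TrivSqZeroExt L L := fun i => TrivSqZeroExt.inl (z i) + TrivSqZeroExt.inr (η i)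
  have hfst : ∀ P : MvPolynomial ι k, (aeval y P).fst = aeval z P := by
    intro P
    have h : (TrivSqZeroExt.fstHom k L L).comp (aeval y) = aeval z := by
      apply MvPolynomial.algHom_ext
      intro i
      simp [y]
    exact DFunLike.congr_fun h P
  have hunit : ∀ P : nonZeroDivisors (MvPolynomial ι k),
      IsUnit ((aeval y : MvPolynomial ι k →ₐ[k] TrivSqZeroExt L L).toRingHom P) := by
    rintro ⟨P, hP⟩
    show IsUnit (aeval y P)
    rw [TrivSqZeroExt.isUnit_iff_isUnit_fst, hfst, isUnit_iff_ne_zero]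
    intro h0
    exact nonZeroDivisors.ne_zero hP ((algebraicIndependent_iff.mp hz.1) _ h0)
  let Ψ : FractionRing (MvPolynomial ι k) →+* TrivSqZeroExt L L := IsLocalization.lift hunit
  have hΨ : ∀ P : MvPolynomial ι k, Ψ (algebraMap _ _ P) = aeval y P := fun P =>
    IsLocalization.lift_eq hunit P
  let eq := hz.1.aevalEquivField
  let Φ : F →+* TrivSqZeroExt L L := Ψ.comp (eq.symm : F ≃+* FractionRing _).toRingHom
  have hΦ : ∀ P : MvPolynomial ι k, Φ (eq (algebraMap _ _ P)) = aeval y P := by
    intro P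
    show Ψ (eq.symm (eq (algebraMap _ _ P))) = _
    rw [AlgEquiv.symm_apply_apply, hΨ]
  have heq : ∀ P : MvPolynomial ι k, ((eq (algebraMap _ _ P) : F) : L) = aeval z P := by
    intro P
    exact hz.1.aevalEquivField_algebraMap_apply_coe P
  have hΦfst : ∀ a : F, TrivSqZeroExt.fstHom k L L (Φ a) = algebraMap F L a := by
    have h : ((TrivSqZeroExt.fstHom k L L : TrivSqZeroExt L L →ₐ[k] L).toRingHom.comp Ψ) =
        (algebraMap F L).comp (eq : FractionRing _ ≃+* F).toRingHom := by
      apply IsLocalization.ringHom_ext (nonZeroDivisors (MvPolynomial ι k))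
      refine RingHom.ext fun P => ?_
      show (Ψ (algebraMap _ _ P)).fst = ((eq (algebraMap _ _ P) : F) : L)
      rw [hΨ, hfst, heq]
    intro a
    obtain ⟨b, rfl⟩ := eq.surjective a
    have h1 := RingHom.congr_fun h b
    show (Ψ (eq.symm (eq b))).fst = _
    rw [AlgEquiv.symm_apply_apply]
    exact h1
  obtain ⟨Θ, hΘ1, hΘ2⟩ := formal_lift Φ (TrivSqZeroExt.fstHom k L L).toRingHom
    (fun a => ⟨TrivSqZeroExt.inl a, rfl⟩) ⟨2, by
      rw [Ideal.zero_eq_bot, eq_bot_iff, sq, Ideal.mul_le]
      intro a ha b hb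
      have ha' : a.fst = 0 := ha
      have hb' : b.fst = 0 := hb
      rw [Ideal.mem_bot]
      refine TrivSqZeroExt.ext ?_ ?_
      · simp [ha']
      · simp [ha', hb']⟩ hΦfst
  have hΘk : ∀ c : k, Θ (algebraMap k L c) = algebraMap k (TrivSqZeroExt L L) c := by
    intro c
    have h1 : algebraMap k L c = algebraMap F L (algebraMap k F c) := rfl
    have h2 : algebraMap k F c = eq (algebraMap (MvPolynomial ι k) (FractionRing (MvPolynomial ι k)) (C c)) := by
      have h3 : (algebraMap (MvPolynomial ι k) (FractionRing (MvPolynomial ι k)) (C c)) =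
          algebraMap k (FractionRing (MvPolynomial ι k)) c := by
        rw [IsScalarTower.algebraMap_apply k (MvPolynomial ι k) (FractionRing (MvPolynomial ι k))]
        rfl
      rw [h3, AlgEquiv.commutes]
    rw [h1, hΘ2, h2, hΦ, aeval_C]
  have hΘz : ∀ i, Θ (z i) = y i := by
    intro i
    have h1 : z i = algebraMap F L (eq (algebraMap (MvPolynomial ι k) (FractionRing (MvPolynomial ι k)) (X i))) := by
      show z i = ((eq (algebraMap (MvPolynomial ι k) (FractionRing (MvPolynomial ι k)) (X i)) : F) : L)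
      rw [heq, aeval_X]
    rw [h1, hΘ2, hΦ, aeval_X]
  have hid : ∀ f, (Θ f).fst = f := hΘ1
  refine ⟨Derivation.mk' { toFun := fun f => (Θ f).snd, map_add' := ?_, map_smul' := ?_ } ?_, ?_⟩
  · intro a b
    simp
  · intro c a
    show (Θ (c • a)).snd = c • (Θ a).snd
    rw [Algebra.smul_def, map_mul, hΘk, ← Algebra.smul_def, TrivSqZeroExt.snd_smul]
  · intro a b
    simp only [LinearMap.coe_mk, AddHom.coe_mk, map_mul, TrivSqZeroExt.snd_mul, hid]
    simp [mul_comm]
  · intro i
    show (Θ (z i)).snd = η i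
    rw [hΘz]
    simp [y]

theorem exists_deriv_of_algInd {k L : Type*} [Field k] [CharZero k] [Field L] [Algebra k L] {d : ℕ}
    {z : Fin d → L} (hz : AlgebraicIndependent k z) (η : Fin d → L) :
    ∃ D : Derivation k L L, ∀ i, D (z i) = η i := by
  classical
  obtain ⟨s, hs, hb⟩ := exists_isTranscendenceBasis_superset hz.coe_range
  let η' : s → L := fun a => if h : ∃ i, z i = a then η h.choose else 0
  obtain ⟨D, hD⟩ := exists_deriv_of_basis hb η'
  refine ⟨D, fun i => ?_⟩
  have h1 := hD ⟨z i, hs ⟨i, rfl⟩⟩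
  rw [h1]
  have h2 : ∃ j, z j = (z i : L) := ⟨i, rfl⟩
  show (if h : ∃ j, z j = (z i : L) then η h.choose else 0) = η i
  rw [dif_pos h2]
  congr 1
  exact hz.injective h2.choose_spec

end Pool.Agent.Work.MP_43381c_ag
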