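import Pool.Agent.Work.MP_43381c_ag.CI.Low
import Pool.Agent.Work.MP_43381c_ag.CI.DerivExt

/-!
# Embeddings of the function field
-/

open MvPolynomial Matrix

namespace Pool.Agent.Work.MP_43381c_ag

universe u

section relext

variable {k K : Type u} [Field k] [Field K] [Algebra k K] {n d : ℕ}

/-- the relations hold over extension fields -/
theorem Germ.rel_ext [Infinite k] (X : Germ k K n d) {F : Type u} [Field F] [Algebra k F]
    {y : Fin n → F} (hy0 : ∀ b, y b ≠ 0) (hyg : ∀ l, ev y (X.g l) = 0)
    {h : (Fin n → ℤ) →₀ k} (hh : ev X.x h = 0) : ev y h = 0 := by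
  classical
  obtain ⟨a, ha⟩ := (X.rel h).1 hh
  set N : Fin n → ℕ := fun i => shN h.support i + ∑ l, shN (a l).support i +
    ∑ l, shN (X.g l).support i with hN
  have hNh : ∀ m ∈ h.support, ∀ i, 0 ≤ m i + (N i : ℤ) := by
    intro m hm i
    have h1 := shN_le hm i
    have h2 : (N i : ℤ) = shN h.support i + (∑ l, shN (a l).support i : ℕ) +
      (∑ l, shN (X.g l).support i : ℕ) := by
      simp only [hN]
      push_cast
      ring
    omega
  have hNa : ∀ l, ∀ m ∈ (a l).support, ∀ i, 0 ≤ m i + (N i : ℤ) := by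
    intro l m hm i
    have h1 := shN_le hm i
    have h2 : (N i : ℤ) = shN h.support i + (∑ l, shN (a l).support i : ℕ) +
      (∑ l, shN (X.g l).support i : ℕ) := by
      simp only [hN]
      push_cast
      ring
    have h3 : shN (a l).support i ≤ ∑ l, shN (a l).support i :=
      Finset.single_le_sum (f := fun l => shN (a l).support i)
        (fun _ _ => Nat.zero_le _) (Finset.mem_univ l)
    omega
  have hNg : ∀ l, ∀ m ∈ (X.g l).support, ∀ i, 0 ≤ m i + (N i : ℤ) := by
    intro l m hm i
    have h1 := shN_le hm i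
    have h2 : (N i : ℤ) = shN h.support i + (∑ l, shN (a l).support i : ℕ) +
      (∑ l, shN (X.g l).support i : ℕ) := by
      simp only [hN]
      push_cast
      ring
    have h3 : shN (X.g l).support i ≤ ∑ l, shN (X.g l).support i :=
      Finset.single_le_sum (f := fun l => shN (X.g l).support i)
        (fun _ _ => Nat.zero_le _) (Finset.mem_univ l)
    omega
  let S : ((Fin n → ℤ) →₀ k) → MvPolynomial (Fin n) k := fun f => shP N f.support fun m => f m
  have hS : ∀ (f : (Fin n → ℤ) →₀ k), (∀ m ∈ f.support, ∀ i, 0 ≤ m i + (N i : ℤ)) →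
      ∀ {F : Type u} [Field F] [Algebra k F] {y : Fin n → F}, (∀ b, y b ≠ 0) →
      aeval y (S f) = mono y (fun i => (N i : ℤ)) * ev y f := by
    intro f hf F _ _ y hy
    rw [aeval_shP _ _ _ hy hf, ev_eq]
  let Z : MvPolynomial (Fin n) k := (∏ i, MvPolynomial.X i ^ N i) * S h - ∑ l, S (a l) * S (X.g l)
  have hZ : ∀ {F : Type u} [Field F] [Algebra k F] {y : Fin n → F}, (∀ b, y b ≠ 0) →
      aeval y Z = mono y (fun i => (N i : ℤ)) * mono y (fun i => (N i : ℤ)) *
        (ev y h - ∑ l, ev y (a l) * ev y (X.g l)) := by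
    intro F _ _ y hy
    simp only [Z, map_sub, map_mul, map_sum, map_prod, map_pow, aeval_X]
    rw [hS h hNh hy]
    have h1 : ∏ i, y i ^ N i = mono y (fun i => (N i : ℤ)) := by
      unfold mono
      exact Finset.prod_congr rfl fun i _ => (zpow_natCast _ _).symm
    rw [h1, mul_sub, Finset.mul_sum]
    congr 1
    · ring
    · refine Finset.sum_congr rfl fun l _ => ?_
      rw [hS _ (hNa l) hy, hS _ (hNg l) hy]
      ring
  have hZ0 : Z * ∏ i, MvPolynomial.X i = 0 := by
    apply MvPolynomial.funext
    intro p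
    rw [map_mul, map_zero]
    by_cases hp : ∀ i, p i ≠ 0
    · have h1 := hZ hp
      rw [aeval_eq_eval] at h1
      rw [ha p hp, sub_self, mul_zero] at h1
      have h2 : eval p Z = 0 := h1
      rw [h2, zero_mul]
    · push Not at hp
      obtain ⟨i, hi⟩ := hp
      rw [map_prod, Finset.prod_eq_zero (Finset.mem_univ i) (by simpa using hi), mul_zero]
  have h1 := congrArg (aeval y) hZ0
  rw [map_mul, map_zero, map_prod] at h1
  have h2 : ∏ i, aeval y (MvPolynomial.X i : MvPolynomial (Fin n) k) ≠ 0 :=
    Finset.prod_ne_zero_iff.2 fun i _ => by rw [aeval_X]; exact hy0 i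
  have h3 := (mul_eq_zero.1 h1).resolve_right h2
  rw [hZ hy0] at h3
  have h4 := (mul_eq_zero.1 h3).resolve_left
    (mul_ne_zero (mono_ne_zero hy0 _) (mono_ne_zero hy0 _))
  have h5 : ∑ l, ev y (a l) * ev y (X.g l) = 0 :=
    Finset.sum_eq_zero fun l _ => by rw [hyg l, mul_zero]
  rw [h5, sub_zero] at h4
  exact h4

/-- polynomial relations hold over extension fields -/
theorem Germ.aeval_ext [Infinite k] (X : Germ k K n d) {F : Type u} [Field F] [Algebra k F]
    {y : Fin n → F} (hy0 : ∀ b, y b ≠ 0) (hyg : ∀ l, ev y (X.g l) = 0)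
    {P : MvPolynomial (Fin n) k} (hP : aeval X.x P = 0) : aeval y P = 0 := by
  rw [aeval_eq_ev X.x_ne] at hP
  rw [aeval_eq_ev hy0]
  exact X.rel_ext hy0 hyg hP

/-- a Jacobian determinant which is not zero at a point of `X` is not zero on `X` -/
theorem Germ.det_ext [Infinite k] (X : Germ k K n d) {F : Type u} [Field F] [Algebra k F]
    {y : Fin n → F} (hy0 : ∀ b, y b ≠ 0) (hyg : ∀ l, ev y (X.g l) = 0) (ρ : Fin X.c → Fin n)
    (h : (Matrix.of fun l j => dev y (ρ j) (X.g l)).det ≠ 0) :
    (Matrix.of fun l j => dev X.x (ρ j) (X.g l)).det ≠ 0 := by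
  classical
  intro h0
  apply h
  set N : Fin n → ℕ := fun i => ∑ l, shN (X.g l).support i with hN
  have hNg : ∀ l, ∀ m ∈ (X.g l).support, ∀ i, 0 ≤ m i + (N i : ℤ) := by
    intro l m hm i
    have h1 := shN_le hm i
    have h3 : shN (X.g l).support i ≤ N i :=
      Finset.single_le_sum (f := fun l => shN (X.g l).support i)
        (fun _ _ => Nat.zero_le _) (Finset.mem_univ l)
    omega
  set M : Matrix (Fin X.c) (Fin X.c) (MvPolynomial (Fin n) k) := Matrix.of fun l j =>
    shP N (X.g l).support (fun m => X.g l m * (m (ρ j) : k)) with hM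
  have hdet : ∀ {F : Type u} [Field F] [Algebra k F] {y : Fin n → F}, (∀ b, y b ≠ 0) →
      aeval y M.det = mono y (fun i => (N i : ℤ)) ^ (Fintype.card (Fin X.c)) *
        (Matrix.of fun l j => dev y (ρ j) (X.g l)).det := by
    intro F _ _ y hy
    rw [aeval_det, ← Matrix.det_smul]
    congr 1
    ext l j
    simp only [hM, Matrix.of_apply, Matrix.smul_apply, smul_eq_mul]
    rw [aeval_shP _ _ _ hy (hNg l), dev_eq]
    congr 1
    refine Finset.sum_congr rfl fun m _ => ?_
    rw [map_mul, map_intCast]
  have h1 : aeval X.x M.det = 0 := by rw [hdet X.x_ne, h0, mul_zero]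
  have h2 := X.aeval_ext hy0 hyg h1
  rw [hdet hy0] at h2
  exact (mul_eq_zero.1 h2).resolve_left (pow_ne_zero _ (mono_ne_zero hy0 _))

end relext

section compat

variable {k K F : Type*} [Field k] [Field K] [Algebra k K] [Field F] [Algebra k F] {n : ℕ}
  {x : Fin n → K}

/-- a homomorphism from `K` with given values -/
theorem exists_hom (hgen : IntermediateField.adjoin k (Set.range x) = ⊤) (y : Fin n → F)
    (hxy : ∀ P : MvPolynomial (Fin n) k, aeval x P = 0 ↔ aeval y P = 0) :
    ∃ Φ : K →ₐ[k] F, ∀ b, Φ (x b) = y b := by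
  choose P Q hQ hPQ using exists_frac (k := k) hgen
  have hQy : ∀ f, aeval y (Q f) ≠ 0 := fun f h => hQ f ((hxy _).2 h)
  set φ : K → F := fun f => aeval y (P f) / aeval y (Q f) with hφ
  have key : ∀ (f : K) (A B : MvPolynomial (Fin n) k), aeval x B ≠ 0 → f * aeval x B = aeval x A →
      φ f * aeval y B = aeval y A := by
    intro f A B hB hAB
    have h1 : aeval x (P f * B - Q f * A) = 0 := by
      rw [map_sub, map_mul, map_mul, ← hPQ, ← hAB]
      ring
    have h2 := (hxy _).1 h1
    rw [map_sub, map_mul, map_mul, sub_eq_zero] at h2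
    simp only [hφ]
    rw [div_mul_eq_mul_div, h2, mul_comm (aeval y (Q f)), mul_div_assoc, div_self (hQy f), mul_one]
  have hone : φ 1 = 1 := by
    have h1 := key 1 1 1 (by rw [map_one]; exact one_ne_zero) (by rw [map_one, mul_one])
    rw [map_one, mul_one] at h1
    exact h1
  have hmul : ∀ f g, φ (f * g) = φ f * φ g := by
    intro f g
    have h1 := key (f * g) (P f * P g) (Q f * Q g)
      (by rw [map_mul]; exact mul_ne_zero (hQ f) (hQ g))
      (by rw [map_mul, map_mul, ← hPQ, ← hPQ]; ring)
    have h2 := key f (P f) (Q f) (hQ f) (hPQ f)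
    have h3 := key g (P g) (Q g) (hQ g) (hPQ g)
    rw [map_mul, map_mul, ← h2, ← h3] at h1
    have h4 := mul_ne_zero (hQy f) (hQy g)
    apply mul_right_cancel₀ h4
    rw [h1]
    ring
  have hadd : ∀ f g, φ (f + g) = φ f + φ g := by
    intro f g
    have h1 := key (f + g) (P f * Q g + P g * Q f) (Q f * Q g)
      (by rw [map_mul]; exact mul_ne_zero (hQ f) (hQ g))
      (by rw [map_add, map_mul, map_mul, map_mul, ← hPQ, ← hPQ]; ring)
    have h2 := key f (P f) (Q f) (hQ f) (hPQ f)
    have h3 := key g (P g) (Q g) (hQ g) (hPQ g)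
    rw [map_mul, map_add, map_mul, map_mul, ← h2, ← h3] at h1
    have h4 := mul_ne_zero (hQy f) (hQy g)
    apply mul_right_cancel₀ h4
    rw [h1]
    ring
  have halg : ∀ a : k, φ (algebraMap k K a) = algebraMap k F a := by
    intro a
    have h1 := key (algebraMap k K a) (C a) 1 (by rw [map_one]; exact one_ne_zero)
      (by rw [map_one, mul_one, aeval_C])
    rw [map_one, mul_one, aeval_C] at h1
    exact h1
  have hzero : φ 0 = 0 := by
    have := halg 0
    rwa [map_zero, map_zero] at this
  refine ⟨{ toFun := φ, map_one' := hone, map_mul' := hmul, map_zero' := hzero,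
            map_add' := hadd, commutes' := halg }, fun b => ?_⟩
  have h1 := key (x b) (X b) 1 (by rw [map_one]; exact one_ne_zero)
    (by rw [map_one, mul_one, aeval_X])
  rw [map_one, mul_one, aeval_X] at h1
  exact h1

/-- derivations that are compatible on generators are compatible -/
theorem deriv_compat (hgen : IntermediateField.adjoin k (Set.range x) = ⊤) (Φ : K →ₐ[k] F)
    (D : Derivation k K K) (δ : Derivation k F F) (h : ∀ b, δ (Φ (x b)) = Φ (D (x b))) (f : K) :
    δ (Φ f) = Φ (D f) := by
  have hP : ∀ P : MvPolynomial (Fin n) k, δ (Φ (aeval x P)) = Φ (D (aeval x P)) := by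
    intro P
    induction P using MvPolynomial.induction_on with
    | C a => simp
    | add P Q hP hQ => simp only [map_add, hP, hQ]
    | mul_X P i hP =>
      rw [map_mul, aeval_X, map_mul, δ.leibniz, D.leibniz, hP, h i]
      simp only [smul_eq_mul, map_add, map_mul]
  obtain ⟨P, Q, hQ, hPQ⟩ := exists_frac (k := k) hgen f
  have h1 := hP P
  rw [← hPQ, map_mul, δ.leibniz, D.leibniz, hP Q] at h1
  simp only [smul_eq_mul, map_add, map_mul] at h1
  have h2 : Φ (aeval x Q) ≠ 0 := by
    rw [Ne, map_eq_zero]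
    exact hQ
  apply mul_left_cancel₀ h2
  linear_combination h1

/-- uniqueness of solutions of the linear system -/
theorem jac_unique {c d : ℕ} (e : Fin d ⊕ Fin c ≃ Fin n) (Q : Fin c → Fin n → F)
    (hQ : (Matrix.of fun l j => Q l (e (Sum.inr j))).det ≠ 0) {u u' : Fin n → F}
    (hu : ∀ l, ∑ b, u b * Q l b = 0) (hu' : ∀ l, ∑ b, u' b * Q l b = 0)
    (h : ∀ i, u (e (Sum.inl i)) = u' (e (Sum.inl i))) : u = u' := by
  classical
  have h1 : (Matrix.of fun l j => Q l (e (Sum.inr j))) *ᵥ
      (fun j => u (e (Sum.inr j)) - u' (e (Sum.inr j))) = 0 := by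
    funext l
    have h2 := hu l
    have h3 := hu' l
    rw [← Equiv.sum_comp e, Fintype.sum_sum_type] at h2 h3
    simp only [h] at h2
    have h4 : ∑ j, Q l (e (Sum.inr j)) * (u (e (Sum.inr j)) - u' (e (Sum.inr j))) =
        ∑ j, u (e (Sum.inr j)) * Q l (e (Sum.inr j)) -
        ∑ j, u' (e (Sum.inr j)) * Q l (e (Sum.inr j)) := by
      rw [← Finset.sum_sub_distrib]
      exact Finset.sum_congr rfl fun j _ => by ring
    change ∑ j, Q l (e (Sum.inr j)) * (u (e (Sum.inr j)) - u' (e (Sum.inr j))) = 0
    rw [h4]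
    linear_combination h2 - h3
  have h2 := Matrix.eq_zero_of_mulVec_eq_zero hQ h1
  funext b
  obtain ⟨i, rfl⟩ := e.surjective b
  rcases i with i | j
  · exact h i
  · exact sub_eq_zero.1 (congrFun h2 j)

end compat

section algebraic

variable {k K : Type u} [Field k] [CharZero k] [Field K] [Algebra k K] {n c d : ℕ}

/-- the function field is algebraic over the field generated by the coordinates outside a
nonzero Jacobian minor -/
theorem alg_of_jac {x : Fin n → K} (hx0 : ∀ b, x b ≠ 0)
    (hgen : IntermediateField.adjoin k (Set.range x) = ⊤) (g : Fin c → (Fin n → ℤ) →₀ k)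
    (hg : ∀ l, ev x (g l) = 0) (e : Fin d ⊕ Fin c ≃ Fin n)
    (hQ : (Matrix.of fun l j => dev x (e (Sum.inr j)) (g l)).det ≠ 0)
    (hx : AlgebraicIndependent k fun i => x (e (Sum.inl i))) (h : K) :
    IsAlgebraic (Algebra.adjoin k (Set.range fun i => x (e (Sum.inl i)))) h := by
  classical
  by_contra hT
  have hT' : Transcendental (Algebra.adjoin k (Set.range fun i => x (e (Sum.inl i)))) h := hT
  rw [← hx.option_iff_transcendental] at hT'
  have h1 := hT'.comp (finSuccEquiv d) (finSuccEquiv d).injective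
  obtain ⟨D, hD⟩ := exists_deriv_of_algInd h1
    (fun i => Option.elim (finSuccEquiv d i) (1 : K) (fun _ => 0))
  have hDh : D h = 1 := by
    have h2 := hD ((finSuccEquiv d).symm none)
    simpa using h2
  have hDi : ∀ i, D (x (e (Sum.inl i))) = 0 := by
    intro i
    have h2 := hD ((finSuccEquiv d).symm (some i))
    simpa using h2
  have hz : (fun b => lD D (x b)) = fun _ => 0 := by
    refine jac_unique e (fun l b => dev x b (g l)) hQ ?_ ?_ ?_
    · intro l
      have h2 := D_ev D hx0 (g l)
      rw [hg l, map_zero] at h2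
      exact h2.symm
    · intro l
      simp
    · intro i
      simp [lD, hDi]
  have hDx : ∀ b, D (x b) = 0 := by
    intro b
    have h2 := congrFun hz b
    simp only [lD, div_eq_zero_iff] at h2
    exact h2.resolve_right (hx0 b)
  have h2 := deriv_compat hgen (AlgHom.id k K) D 0 (fun b => by simp [hDx]) h
  simp [hDh] at h2

end algebraic

section embed

variable {k K : Type u} [Field k] [Infinite k] [CharZero k] [Field K] [Algebra k K] {n d : ℕ}

/-- a point of `X` over an extension field which is generic in the sense that `d` coordinates are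
algebraically independent, and at which the Jacobian determinant in the other coordinates does
not vanish, gives an embedding of the function field -/
theorem Germ.exists_embed (X : Germ k K n d) (e : Fin d ⊕ Fin X.c ≃ Fin n) {F : Type u} [Field F]
    [Algebra k F] (y : Fin n → F) (hy0 : ∀ b, y b ≠ 0) (hyg : ∀ l, ev y (X.g l) = 0)
    (hyi : AlgebraicIndependent k fun i => y (e (Sum.inl i)))
    (hQ : (Matrix.of fun l j => dev X.x (e (Sum.inr j)) (X.g l)).det ≠ 0) :
    ∃ Φ : K →ₐ[k] F, ∀ b, Φ (X.x b) = y b := by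
  classical
  have h1 : ∀ P : MvPolynomial (Fin n) k, aeval X.x P = 0 → aeval y P = 0 := fun P hP =>
    X.aeval_ext hy0 hyg hP
  have hxi : AlgebraicIndependent k fun i => X.x (e (Sum.inl i)) := by
    rw [algebraicIndependent_iff] at hyi ⊢
    intro P hP
    apply hyi
    have h2 := h1 (rename (fun i => e (Sum.inl i)) P) (by
      rw [aeval_rename]
      exact hP)
    rw [aeval_rename] at h2
    exact h2
  apply exists_hom X.gen y
  intro P
  refine ⟨h1 P, fun hP => ?_⟩
  by_contra hne
  obtain ⟨q, hq0, hq⟩ := (alg_of_jac X.x_ne X.gen X.g X.ev_g e hQ hxi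
    (aeval X.x P)).exists_nonzero_coeff_and_aeval_eq_zero (mem_nonZeroDivisors_of_ne_zero hne)
  -- lift the coefficients to polynomials
  have hlift : ∀ a : Algebra.adjoin k (Set.range fun i => X.x (e (Sum.inl i))),
      ∃ p : MvPolynomial (Fin d) k, aeval (fun i => X.x (e (Sum.inl i))) p = (a : K) := by
    intro a
    have h2 : (a : K) ∈ (aeval (R := k) fun i => X.x (e (Sum.inl i))).range := by
      rw [← Algebra.adjoin_range_eq_range_aeval]
      exact a.2
    exact h2
  choose p hp using hlift
  have h3 : aeval X.x (∑ i ∈ Finset.range (q.natDegree + 1),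
      rename (fun i => e (Sum.inl i)) (p (q.coeff i)) * P ^ i) = 0 := by
    rw [map_sum]
    rw [Polynomial.aeval_eq_sum_range] at hq
    rw [← hq]
    refine Finset.sum_congr rfl fun i _ => ?_
    rw [map_mul, map_pow, aeval_rename]
    have h4 := hp (q.coeff i)
    change aeval (fun i => X.x (e (Sum.inl i))) (p (q.coeff i)) * _ = _
    rw [h4]
    rfl
  have h4 := h1 _ h3
  rw [map_sum, Finset.sum_range_succ'] at h4
  rw [Finset.sum_eq_zero, zero_add, pow_zero, mul_one, aeval_rename] at h4
  · have h5 := (algebraicIndependent_iff.1 hyi) _ h4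
    have h6 := hp (q.coeff 0)
    rw [h5, map_zero] at h6
    exact hq0 (Subtype.ext h6.symm)
  · intro i _
    rw [map_mul, map_pow, hP, zero_pow (Nat.succ_ne_zero i), mul_zero]

end embed

end Pool.Agent.Work.MP_43381c_ag
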