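import Pool.Agent.Work.MP_43381c_ag.CI.WalkAll

/-!
# The assembly, from the two geometric inputs
-/

open Matrix

namespace Pool.Agent.Work.MP_43381c_ag

universe u

/-- a strongly convex cone has a character that is positive on all rays -/
theorem exists_pos_char {n r : ℕ} {v : Fin r → Fin n → ℤ} (hr : 0 < r)
    (primitive : ∀ ρ, ∃ m : Fin n → ℤ, m ⬝ᵥ v ρ = 1)
    (extremal : ∀ ρ, ∃ m : Fin n → ℤ, m ⬝ᵥ v ρ = 0 ∧ ∀ τ, τ ≠ ρ → 0 < m ⬝ᵥ v τ) :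
    ∃ M : Fin n → ℤ, ∀ ρ, 0 < M ⬝ᵥ v ρ := by
  classical
  rcases Nat.lt_or_ge 1 r with h | h
  · choose m h0 h1 using extremal
    refine ⟨∑ ρ, m ρ, fun τ => ?_⟩
    rw [sum_dotProduct]
    have hnn : ∀ ρ, 0 ≤ m ρ ⬝ᵥ v τ := by
      intro ρ
      by_cases hρ : τ = ρ
      · rw [hρ, h0 ρ]
      · exact (h1 ρ τ hρ).le
    have hex : ∃ ρ : Fin r, τ ≠ ρ := by
      by_cases h2 : τ = ⟨0, hr⟩
      · exact ⟨⟨1, h⟩, by rw [h2]; intro h3; simp at h3⟩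
      · exact ⟨⟨0, hr⟩, h2⟩
    obtain ⟨ρ, hρ⟩ := hex
    exact Finset.sum_pos' (fun ρ _ => hnn ρ) ⟨ρ, Finset.mem_univ ρ, h1 ρ τ hρ⟩
  · have hr1 : r = 1 := by omega
    subst hr1
    obtain ⟨m, hm⟩ := primitive 0
    refine ⟨m, fun ρ => ?_⟩
    have : ρ = 0 := Subsingleton.elim _ _
    rw [this, hm]
    exact one_pos

theorem ci_main_of
    (ci_low : ∀ (k K : Type u) [Field k] [IsAlgClosed k] [CharZero k] [Field K] [Algebra k K]
      (n d : ℕ) (P : CIPair k K n d) (E : PrimeDivisor k K d), P.Over E →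
      IntPt P.v (P.vec E) ∧ InTrop P.g (P.vec E) ∧
        ((∀ j, P.coef j ≤ 1) → ((P.aw (P.vec E) : ℝ) : EReal) ≤ P.a E))
    (exists_div : ∀ (k K : Type u) [Field k] [IsAlgClosed k] [CharZero k] [Field K] [Algebra k K]
      (n d : ℕ) (P : CIPair k K n d), (∀ j, 0 ≤ P.coef j) → ∀ w : Fin n → ℤ, IntPt P.v w →
      (∃ m : Fin n → ℤ, m ⬝ᵥ w = 1) → InTrop P.g w →
      ∃ E : PrimeDivisor k K d, P.Over E ∧ P.vec E = w ∧ P.a E ≤ ((P.aw w : ℝ) : EReal) ∧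
        P.aX E ≤ ((P.Aw w : ℝ) : EReal))
    (n : ℕ) (Γ : Set ℝ) (hΓ : Γ ⊆ Set.Icc 0 1)
    (hdcc : ¬ ∃ u : ℕ → ℝ, StrictAnti u ∧ ∀ i, u i ∈ Γ) :
    ∃ l : ℝ, 0 < l ∧ ∀ (d : ℕ) (k K : Type u) [Field k] [IsAlgClosed k] [CharZero k] [Field K]
      [Algebra k K] (P : CIPair k K n d), P.CoefIn Γ → P.IsLC → (∃ E, P.Over E) →
      ∃ E : PrimeDivisor k K d, P.Over E ∧ P.a E = P.mld ∧ P.aX E ≤ (l : EReal) := by
  classical
  have hG1 : ∀ g ∈ insert (0 : ℝ) Γ, 0 ≤ g ∧ g ≤ 1 := by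
    rintro g (h | h)
    · rw [h]; exact ⟨le_rfl, zero_le_one⟩
    · exact hΓ h
  have hG : DCC (insert (0 : ℝ) Γ) := dcc_insert_zero (fun g hg => (hΓ hg).1) hdcc
  rcases Nat.eq_zero_or_pos n with hn | hn
  · refine ⟨1, one_pos, ?_⟩
    intro d k K _ _ _ _ _ P _ _ hE
    exfalso
    obtain ⟨E, _⟩ := hE
    obtain ⟨t, ht⟩ := E.exists_one
    subst hn
    have h1 := P.gen
    rw [Set.range_eq_empty, IntermediateField.adjoin_empty] at h1
    have h2 : t ∈ (⊥ : IntermediateField k K) := by rw [h1]; trivial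
    obtain ⟨a, ha⟩ := IntermediateField.mem_bot.1 h2
    rw [← ha] at ht
    by_cases h3 : a = 0
    · rw [h3, map_zero, E.ord.map_zero] at ht
      exact absurd ht (by decide)
    · rw [E.ord_const a h3] at ht
      exact absurd ht (by decide)
  obtain ⟨l, hl, hcomb⟩ := ci_comb n hn hG1 hG
  refine ⟨l, hl, ?_⟩
  intro d k K _ _ _ _ _ P hcoef hlc hE
  have hb : ∀ ρ, P.b ρ ∈ insert (0 : ℝ) Γ := fun ρ => hcoef.1 ρ
  have hc' : ∀ j, P.coef j = 0 ∨ P.coef j ∈ insert (0 : ℝ) Γ := fun j => by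
    rcases hcoef.2 j with h | h
    · exact Or.inl h
    · exact Or.inr (Or.inr h)
  have hc01 : ∀ j, 0 ≤ P.coef j ∧ P.coef j ≤ 1 := by
    intro j
    rcases hcoef.2 j with h | h
    · rw [h]; exact ⟨le_rfl, zero_le_one⟩
    · exact hΓ h
  have hb0 : ∀ ρ, 0 ≤ P.b ρ := fun ρ => (hG1 _ (hb ρ)).1
  have hr : 0 < P.r := by
    rcases Nat.eq_zero_or_pos P.r with h | h
    · exfalso
      have := P.full (fun _ => 1) (fun ρ => by rw [h] at ρ; exact ρ.elim0)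
      have h1 := congrFun this ⟨0, hn⟩
      simp at h1
    · exact h
  obtain ⟨M, hM⟩ := exists_pos_char hr P.primitive P.extremal
  obtain ⟨E₁, hE₁⟩ := hE
  obtain ⟨hI₁, hT₁, _⟩ := ci_low k K n d P E₁ hE₁
  obtain ⟨w, hw, hprim, hmin, hA⟩ := hcomb P.r P.c P.s P.v P.full M hM P.b hb P.coef hc'
    (fun l => (P.g l).support) P.g_supp (fun j => (P.f j).support) P.f_supp
    (fun i => (P.mK i : ℝ)) P.mK_real P.m0 P.m0_eq
    {w | IntPt P.v w ∧ InTrop P.g w} (fun w hw => hw.1)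
    (fun w t ht => by
      rw [Set.mem_ofPred_eq, Set.mem_ofPred_eq, intPt_zsmul w ht, inTrop_smul P.g w ht])
    (fun q σ _ u w hu hw N hwe => by
      obtain ⟨u', h1, h2, h3, h4⟩ := P.walk hb0 (fun j => (hc01 j).1) σ _ u w hu hw.2 N rfl hwe
      exact ⟨u', ⟨h1, h2⟩, h3, h4⟩)
    (fun w hw hp => by
      obtain ⟨E, hE, _, h1, _⟩ := exists_div k K n d P (fun j => (hc01 j).1) w hw.1 hp hw.2
      have h2 := (hlc E hE).trans h1
      exact_mod_cast h2)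
    (P.vec E₁) ⟨hI₁, hT₁⟩
  obtain ⟨E, hE, _, ha, haX⟩ := exists_div k K n d P (fun j => (hc01 j).1) w hw.1 hprim hw.2
  refine ⟨E, hE, ?_, ?_⟩
  · unfold CIPair.mld
    apply le_antisymm
    · refine le_iInf fun E' => ?_
      obtain ⟨h1, h2, h3⟩ := ci_low k K n d P E'.1 E'.2
      refine (ha.trans ?_).trans (h3 fun j => (hc01 j).2)
      have h4 : P.aw w ≤ P.aw (P.vec E'.1) := hmin _ ⟨h1, h2⟩
      exact_mod_cast h4
    · exact iInf_le (fun E' : {E // P.Over E} => P.a E'.1) ⟨E, hE⟩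
  · refine haX.trans ?_
    have h1 : P.Aw w ≤ l := hA
    exact_mod_cast h1

end Pool.Agent.Work.MP_43381c_ag
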