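import Pool.Agent.Work.MP_43381c_ag.Mono

/-!
# Newton iteration for systems over power series
-/

set_option autoImplicit false

namespace Pool.Agent.Work.MP_43381c_ag

open Finset MvPolynomial Matrix

section taylor

variable {S : Type*} [CommRing S] {σ : Type*} (I : Ideal S)

theorem newton_congr (p : MvPolynomial σ S) (x h : σ → S) (hh : ∀ i, h i ∈ I) :
    eval (fun i => x i + h i) p - eval x p ∈ I := by
  rw [← Ideal.Quotient.eq]
  have h1 : ∀ y : σ → S, Ideal.Quotient.mk I (eval y p) =
      eval₂ (Ideal.Quotient.mk I) (fun i => Ideal.Quotient.mk I (y i)) p := by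
    intro y
    rw [← eval₂_id, hom_eval₂]
    rfl
  rw [h1, h1]
  congr 1
  funext i
  rw [Ideal.Quotient.eq]
  simpa using hh i

theorem newton_taylor [Fintype σ] (p : MvPolynomial σ S) (x h : σ → S) (hh : ∀ i, h i ∈ I) :
    eval (fun i => x i + h i) p - eval x p - ∑ i, h i * eval x (pderiv i p) ∈ I ^ 2 := by
  classical
  induction p using MvPolynomial.induction_on with
  | C a => simp
  | add p q hp hq =>
    have h1 : eval (fun i => x i + h i) (p + q) - eval x (p + q) -
        ∑ i, h i * eval x (pderiv i (p + q)) =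
        (eval (fun i => x i + h i) p - eval x p - ∑ i, h i * eval x (pderiv i p)) +
        (eval (fun i => x i + h i) q - eval x q - ∑ i, h i * eval x (pderiv i q)) := by
      simp only [map_add, mul_add, Finset.sum_add_distrib]
      ring
    rw [h1]
    exact Ideal.add_mem _ hp hq
  | mul_X p i ih =>
    have h2 : ∑ j, h j * eval x (pderiv j (p * X i)) =
        (∑ j, h j * eval x (pderiv j p)) * x i + eval x p * h i := by
      have h3 : ∀ j, h j * eval x (pderiv j (p * X i)) =
          h j * eval x (pderiv j p) * x i + (if j = i then eval x p * h i else 0) := by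
        intro j
        rw [Derivation.leibniz, pderiv_X]
        by_cases hij : j = i
        · subst hij
          simp only [Pi.single_eq_same, smul_eq_mul, map_add, map_mul, eval_X, map_one, if_true]
          ring
        · rw [Pi.single_eq_of_ne (Ne.symm hij), if_neg hij]
          simp only [smul_eq_mul, map_add, map_mul, eval_X, map_zero]
          ring
      simp_rw [h3]
      rw [Finset.sum_add_distrib, ← Finset.sum_mul, Finset.sum_ite_eq' Finset.univ i,
        if_pos (Finset.mem_univ i)]
    rw [h2, map_mul, map_mul, eval_X, eval_X]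
    have h4 : eval (fun i => x i + h i) p * (x i + h i) - eval x p * x i -
        ((∑ j, h j * eval x (pderiv j p)) * x i + eval x p * h i) =
        (eval (fun i => x i + h i) p - eval x p - ∑ j, h j * eval x (pderiv j p)) * x i +
          (eval (fun i => x i + h i) p - eval x p) * h i := by ring
    rw [h4]
    refine Ideal.add_mem _ (Ideal.mul_mem_right _ _ ih) ?_
    rw [sq]
    exact Ideal.mul_mem_mul (newton_congr I p x h hh) (hh i)

end taylor

section newton

open PowerSeries (constantCoeff)

variable {L : Type*} [Field L] {n c d : ℕ}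

/-- one step -/
theorem newton_step (G : Fin c → MvPolynomial (Fin n) (PowerSeries L))
    (e : Fin d ⊕ Fin c ≃ Fin n) (a : Fin n → PowerSeries L)
    (hdet : constantCoeff (Matrix.of fun l j => eval a (pderiv (e (Sum.inr j)) (G l))).det ≠ 0)
    (m : ℕ) (y : Fin n → PowerSeries L) (hy : ∀ b, (PowerSeries.X : PowerSeries L) ∣ y b - a b)
    (hG : ∀ l, (PowerSeries.X : PowerSeries L) ^ (m + 1) ∣ eval y (G l)) :
    ∃ y' : Fin n → PowerSeries L, (∀ b, (PowerSeries.X : PowerSeries L) ^ (m + 1) ∣ y' b - y b) ∧
      (∀ i, y' (e (Sum.inl i)) = y (e (Sum.inl i))) ∧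
      ∀ l, (PowerSeries.X : PowerSeries L) ^ (m + 1 + 1) ∣ eval y' (G l) := by
  classical
  set J : Matrix (Fin c) (Fin c) (PowerSeries L) :=
    Matrix.of fun l j => eval a (pderiv (e (Sum.inr j)) (G l)) with hJ
  have hunit : IsUnit J.det := by
    rw [PowerSeries.isUnit_iff_constantCoeff, isUnit_iff_ne_zero]
    exact hdet
  have hJM : J * J⁻¹ = 1 := Matrix.mul_nonsing_inv J hunit
  let F : Fin c → PowerSeries L := fun l => eval y (G l)
  let hc : Fin c → PowerSeries L := fun j => - (J⁻¹ *ᵥ F) j
  let h : Fin n → PowerSeries L := fun b => Sum.elim (fun _ => 0) hc (e.symm b)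
  have hinl : ∀ i, h (e (Sum.inl i)) = 0 := fun i => by simp [h]
  have hinr : ∀ j, h (e (Sum.inr j)) = hc j := fun j => by simp [h]
  let I : Ideal (PowerSeries L) := Ideal.span {PowerSeries.X ^ (m + 1)}
  have hcI : ∀ j, hc j ∈ I := by
    intro j
    refine Ideal.neg_mem_iff _ |>.2 ?_
    rw [Matrix.mulVec, dotProduct]
    refine Ideal.sum_mem _ fun l _ => Ideal.mul_mem_left _ _ ?_
    exact Ideal.mem_span_singleton.2 (hG l)
  have hI : ∀ b, h b ∈ I := by
    intro b
    obtain ⟨b', rfl⟩ := e.surjective b
    cases b' with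
    | inl i => rw [hinl]; exact Ideal.zero_mem _
    | inr j => rw [hinr]; exact hcI j
  refine ⟨fun b => y b + h b, ?_, ?_, ?_⟩
  · intro b
    rw [add_sub_cancel_left]
    exact Ideal.mem_span_singleton.1 (hI b)
  · intro i
    show y (e (Sum.inl i)) + h (e (Sum.inl i)) = _
    rw [hinl, add_zero]
  · intro l
    have h1 := newton_taylor I (G l) y h hI
    have h2 : I ^ 2 ≤ Ideal.span {(PowerSeries.X : PowerSeries L) ^ (m + 1 + 1)} := by
      rw [Ideal.span_singleton_pow, Ideal.span_singleton_le_span_singleton, ← pow_mul]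
      exact pow_dvd_pow _ (by omega)
    have h3 := Ideal.mem_span_singleton.1 (h2 h1)
    -- the linear part
    have h4 : (PowerSeries.X : PowerSeries L) ^ (m + 1 + 1) ∣
        eval y (G l) + ∑ b, h b * eval y (pderiv b (G l)) := by
      have h5 : ∑ b, h b * eval y (pderiv b (G l)) =
          ∑ j, hc j * eval y (pderiv (e (Sum.inr j)) (G l)) := by
        rw [← e.sum_comp, Fintype.sum_sum_type]
        simp only [hinl, hinr, zero_mul, Finset.sum_const_zero, zero_add]
      have h6 : ∀ j, (PowerSeries.X : PowerSeries L) ^ (m + 1 + 1) ∣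
          hc j * eval y (pderiv (e (Sum.inr j)) (G l)) - J l j * hc j := by
        intro j
        have h7 : hc j * eval y (pderiv (e (Sum.inr j)) (G l)) - J l j * hc j =
            hc j * (eval y (pderiv (e (Sum.inr j)) (G l)) -
              eval a (pderiv (e (Sum.inr j)) (G l))) := by
          rw [hJ, Matrix.of_apply]
          ring
        rw [h7, pow_succ]
        refine mul_dvd_mul (Ideal.mem_span_singleton.1 (hcI j)) ?_
        have h8 := newton_congr (Ideal.span {(PowerSeries.X : PowerSeries L)})
          (pderiv (e (Sum.inr j)) (G l)) a (fun b => y b - a b)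
          (fun b => Ideal.mem_span_singleton.2 (hy b))
        simp only [add_sub_cancel] at h8
        exact Ideal.mem_span_singleton.1 h8
      have h9 : ∑ j, J l j * hc j = - eval y (G l) := by
        have h10 : ∑ j, J l j * hc j = - ((J * J⁻¹) *ᵥ F) l := by
          rw [← Matrix.mulVec_mulVec]
          conv_rhs => rw [Matrix.mulVec, dotProduct]
          rw [← Finset.sum_neg_distrib]
          refine Finset.sum_congr rfl fun j _ => ?_
          show J l j * - (J⁻¹ *ᵥ F) j = _
          ring
        rw [h10, hJM, Matrix.one_mulVec]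
      have h11 : eval y (G l) + ∑ b, h b * eval y (pderiv b (G l)) =
          ∑ j, (hc j * eval y (pderiv (e (Sum.inr j)) (G l)) - J l j * hc j) := by
        rw [h5, Finset.sum_sub_distrib, h9]
        ring
      rw [h11]
      exact Finset.dvd_sum fun j _ => h6 j
    have h12 : eval (fun b => y b + h b) (G l) =
        (eval (fun b => y b + h b) (G l) - eval y (G l) - ∑ b, h b * eval y (pderiv b (G l))) +
        (eval y (G l) + ∑ b, h b * eval y (pderiv b (G l))) := by ring
    rw [h12]
    exact dvd_add h3 h4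

/-- Newton's lemma -/
theorem newton (G : Fin c → MvPolynomial (Fin n) (PowerSeries L))
    (e : Fin d ⊕ Fin c ≃ Fin n) (a : Fin n → PowerSeries L)
    (h0 : ∀ l, constantCoeff (eval a (G l)) = 0)
    (hdet : constantCoeff (Matrix.of fun l j => eval a (pderiv (e (Sum.inr j)) (G l))).det ≠ 0) :
    ∃ y : Fin n → PowerSeries L, (∀ b, constantCoeff (y b) = constantCoeff (a b)) ∧
      (∀ i, y (e (Sum.inl i)) = a (e (Sum.inl i))) ∧ ∀ l, eval y (G l) = 0 := by
  classical
  -- the approximations
  let P : ℕ → (Fin n → PowerSeries L) → Prop := fun m y =>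
    (∀ b, (PowerSeries.X : PowerSeries L) ∣ y b - a b) ∧
    (∀ i, y (e (Sum.inl i)) = a (e (Sum.inl i))) ∧
    ∀ l, (PowerSeries.X : PowerSeries L) ^ (m + 1) ∣ eval y (G l)
  have hP0 : P 0 a := by
    refine ⟨fun b => by rw [sub_self]; exact dvd_zero _, fun i => rfl, fun l => ?_⟩
    rw [zero_add, pow_one, PowerSeries.X_dvd_iff]
    exact h0 l
  have hstep : ∀ m (y : {y // P m y}), ∃ y' : {y // P (m + 1) y},
      ∀ b, (PowerSeries.X : PowerSeries L) ^ (m + 1) ∣ y'.1 b - y.1 b := by
    rintro m ⟨y, hy1, hy2, hy3⟩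
    obtain ⟨y', h1, h2, h3⟩ := newton_step G e a hdet m y hy1 hy3
    refine ⟨⟨y', fun b => ?_, fun i => (h2 i).trans (hy2 i), h3⟩, h1⟩
    have h4 : y' b - a b = (y' b - y b) + (y b - a b) := by ring
    rw [h4]
    exact dvd_add ((dvd_pow_self _ (by omega)).trans (h1 b)) (hy1 b)
  choose nx hnx using hstep
  let Y : ∀ m, {y // P m y} := fun m => Nat.rec ⟨a, hP0⟩ (fun m y => nx m y) m
  have hY : ∀ m b, (PowerSeries.X : PowerSeries L) ^ (m + 1) ∣ (Y (m + 1)).1 b - (Y m).1 b :=
    fun m b => hnx m (Y m) b
  have hYle : ∀ m k b, m ≤ k →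
      (PowerSeries.X : PowerSeries L) ^ (m + 1) ∣ (Y k).1 b - (Y m).1 b := by
    intro m k b hmk
    induction k, hmk using Nat.le_induction with
    | base => rw [sub_self]; exact dvd_zero _
    | succ k hk ih =>
      have h4 : (Y (k + 1)).1 b - (Y m).1 b =
          ((Y (k + 1)).1 b - (Y k).1 b) + ((Y k).1 b - (Y m).1 b) := by ring
      rw [h4]
      exact dvd_add ((pow_dvd_pow _ (by omega)).trans (hY k b)) ih
  let y : Fin n → PowerSeries L := fun b => PowerSeries.mk fun m => PowerSeries.coeff m ((Y m).1 b)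
  have hy : ∀ m b, (PowerSeries.X : PowerSeries L) ^ (m + 1) ∣ y b - (Y m).1 b := by
    intro m b
    rw [PowerSeries.X_pow_dvd_iff]
    intro i hi
    rw [map_sub, PowerSeries.coeff_mk]
    have h1 := hYle i m b (by omega)
    rw [PowerSeries.X_pow_dvd_iff] at h1
    have h2 := h1 i (by omega)
    rw [map_sub, sub_eq_zero] at h2
    rw [h2, sub_self]
  refine ⟨y, ?_, ?_, ?_⟩
  · intro b
    have h1 := hy 0 b
    rw [zero_add, pow_one, PowerSeries.X_dvd_iff, map_sub, sub_eq_zero] at h1
    exact h1
  · intro i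
    ext m
    rw [PowerSeries.coeff_mk, (Y m).2.2.1 i]
  · intro l
    ext m
    rw [map_zero]
    have h1 : (PowerSeries.X : PowerSeries L) ^ (m + 1) ∣ eval y (G l) := by
      have h2 := newton_congr (Ideal.span {(PowerSeries.X : PowerSeries L) ^ (m + 1)}) (G l)
        (Y m).1 (fun b => y b - (Y m).1 b) (fun b => Ideal.mem_span_singleton.2 (hy m b))
      simp only [add_sub_cancel] at h2
      have h3 := Ideal.mem_span_singleton.1 h2
      have h4 : eval y (G l) = (eval y (G l) - eval (Y m).1 (G l)) + eval (Y m).1 (G l) := by ring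
      rw [h4]
      exact dvd_add h3 ((Y m).2.2.2 l)
    rw [PowerSeries.X_pow_dvd_iff] at h1
    exact h1 m (by omega)

end newton

end Pool.Agent.Work.MP_43381c_ag
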