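import Pool.Agent.Work.MP_43381c_ag.CI.GenericOf
import Pool.Agent.Work.MP_43381c_ag.CI.Newton

/-!
# Generic points of a complete intersection
-/

open MvPolynomial Matrix

namespace Pool.Agent.Work.MP_43381c_ag

universe u

/-- G2. A point over `L₀` of the complete intersection `g = 0` in the torus at which the Jacobian
minor in the coordinates `e (inr j)` does not vanish can be replaced by one whose coordinates
`e (inl i)` are algebraically independent. -/
theorem exists_generic {k : Type u} [Field k] [Infinite k] {n c d : ℕ}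
    (g : Fin c → (Fin n → ℤ) →₀ k) {L₀ : Type u} [Field L₀] [Algebra k L₀] (z : Fin n → L₀)
    (hz : ∀ b, z b ≠ 0) (hg : ∀ l, ev z (g l) = 0) (e : Fin d ⊕ Fin c ≃ Fin n)
    (hdet : (Matrix.of fun l j => dev z (e (Sum.inr j)) (g l)).det ≠ 0) :
    ∃ (L : Type u) (_ : Field L) (_ : Algebra k L) (z' : Fin n → L), (∀ b, z' b ≠ 0) ∧
      (∀ l, ev z' (g l) = 0) ∧ (Matrix.of fun l j => dev z' (e (Sum.inr j)) (g l)).det ≠ 0 ∧
      AlgebraicIndependent k (fun i => z' (e (Sum.inl i))) :=
  exists_generic_of g (fun e G a h0 hdet => newton G e a h0 hdet) z hz hg e hdet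

end Pool.Agent.Work.MP_43381c_ag
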