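import Mathlib

/-!
# Derivations of Laurent series
-/

namespace Pool.Agent.Work.MP_43381c_ag

open HahnSeries

variable {L : Type*} [Field L]

/-- an additive map applied to the coefficients -/
noncomputable def lder (D : L →+ L) : HahnSeries ℤ L →+ HahnSeries ℤ L where
  toFun x := ⟨fun n => D (x.coeff n), x.isPWO_support.mono fun n hn => by
    rw [Function.mem_support] at hn
    rw [HahnSeries.mem_support]
    intro h
    rw [h, map_zero] at hn
    exact hn rfl⟩
  map_zero' := by ext n; simp
  map_add' x y := by ext n; simp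

theorem lder_coeff (D : L →+ L) (x : HahnSeries ℤ L) (n : ℤ) :
    (lder D x).coeff n = D (x.coeff n) := rfl

theorem lder_support (D : L →+ L) (x : HahnSeries ℤ L) : (lder D x).support ⊆ x.support := by
  intro n hn
  rw [HahnSeries.mem_support, lder_coeff] at hn
  rw [HahnSeries.mem_support]
  intro h
  rw [h, map_zero] at hn
  exact hn rfl

theorem lder_mul (D : L →+ L) (hD : ∀ a b, D (a * b) = a * D b + b * D a)
    (x y : HahnSeries ℤ L) : lder D (x * y) = x * lder D y + y * lder D x := by
  ext n
  rw [lder_coeff, HahnSeries.coeff_add, HahnSeries.coeff_mul, map_sum,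
    HahnSeries.coeff_mul_right' y.isPWO_support (lder_support D y), mul_comm y (lder D x),
    HahnSeries.coeff_mul_left' x.isPWO_support (lder_support D x), ← Finset.sum_add_distrib]
  refine Finset.sum_congr rfl fun ij _ => ?_
  rw [hD, lder_coeff, lder_coeff]
  ring

theorem lder_single (D : L →+ L) (n : ℤ) (a : L) : lder D (single n a) = single n (D a) := by
  ext m
  rw [lder_coeff]
  by_cases h : m = n
  · subst h; simp
  · rw [HahnSeries.coeff_single_of_ne h, HahnSeries.coeff_single_of_ne h, map_zero]

/-- the Euler derivation `t d/dt` -/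
noncomputable def leul : HahnSeries ℤ L →+ HahnSeries ℤ L where
  toFun x := ⟨fun n => (n : L) * x.coeff n, x.isPWO_support.mono fun n hn => by
    rw [Function.mem_support] at hn
    rw [HahnSeries.mem_support]
    exact right_ne_zero_of_mul hn⟩
  map_zero' := by ext n; simp
  map_add' x y := by ext n; simp [mul_add]

theorem leul_coeff (x : HahnSeries ℤ L) (n : ℤ) : (leul x).coeff n = (n : L) * x.coeff n := rfl

theorem leul_support (x : HahnSeries ℤ L) : (leul x).support ⊆ x.support := by
  intro n hn
  rw [HahnSeries.mem_support, leul_coeff] at hn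
  rw [HahnSeries.mem_support]
  exact right_ne_zero_of_mul hn

theorem leul_mul (x y : HahnSeries ℤ L) : leul (x * y) = x * leul y + y * leul x := by
  ext n
  rw [leul_coeff, HahnSeries.coeff_add, HahnSeries.coeff_mul, Finset.mul_sum,
    HahnSeries.coeff_mul_right' y.isPWO_support (leul_support y), mul_comm y (leul x),
    HahnSeries.coeff_mul_left' x.isPWO_support (leul_support x), ← Finset.sum_add_distrib]
  refine Finset.sum_congr rfl fun ij hij => ?_
  have h := (Finset.mem_antidiagonal.1 hij).2.2
  rw [leul_coeff, leul_coeff, ← h]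
  push_cast
  ring

theorem leul_single (n : ℤ) (a : L) : leul (single n a) = single n ((n : L) * a) := by
  ext m
  rw [leul_coeff]
  by_cases h : m = n
  · subst h; simp
  · rw [HahnSeries.coeff_single_of_ne h, HahnSeries.coeff_single_of_ne h, mul_zero]

theorem orderTop_le_of_support {x y : HahnSeries ℤ L} (h : y.support ⊆ x.support) :
    x.orderTop ≤ y.orderTop := by
  by_cases hy : y = 0
  · rw [hy, HahnSeries.orderTop_zero]; exact le_top
  · have h1 : y.order ∈ y.support := by
      rw [HahnSeries.mem_support]
      exact mt HahnSeries.coeff_order_eq_zero.1 hy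
    have h2 := HahnSeries.orderTop_le_of_coeff_ne_zero ((HahnSeries.mem_support x _).1 (h h1))
    rw [← HahnSeries.order_eq_orderTop_of_ne_zero hy]
    exact h2

theorem orderTop_lder (D : L →+ L) (x : HahnSeries ℤ L) : x.orderTop ≤ (lder D x).orderTop :=
  orderTop_le_of_support (lder_support D x)

theorem orderTop_leul (x : HahnSeries ℤ L) : x.orderTop ≤ (leul x).orderTop :=
  orderTop_le_of_support (leul_support x)

/-- on elements of nonnegative order the Euler derivation has positive order -/
theorem orderTop_leul_pos {x : HahnSeries ℤ L} (h : 0 ≤ x.orderTop) :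
    (1 : WithTop ℤ) ≤ (leul x).orderTop := by
  by_cases hy : leul x = 0
  · rw [hy, HahnSeries.orderTop_zero]; exact le_top
  · rw [← HahnSeries.order_eq_orderTop_of_ne_zero hy]
    have h1 : (leul x).coeff (leul x).order ≠ 0 := mt HahnSeries.coeff_order_eq_zero.1 hy
    have h2 : x.orderTop ≤ ((leul x).order : ℤ) := by
      have := orderTop_leul x
      rwa [← HahnSeries.order_eq_orderTop_of_ne_zero hy] at this
    have h3 : (0 : ℤ) ≤ (leul x).order := by
      have := h.trans h2
      exact_mod_cast this
    have h4 : (leul x).order ≠ 0 := by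
      intro h5
      rw [h5, leul_coeff] at h1
      simp at h1
    have h5 : (1 : ℤ) ≤ (leul x).order := by omega
    exact_mod_cast h5

section

variable {k : Type*} [Field k] [Algebra k L]

theorem algebraMap_hahn (c : k) : algebraMap k (HahnSeries ℤ L) c = HahnSeries.C (algebraMap k L c) := by
  rw [HahnSeries.algebraMap_apply', PowerSeries.algebraMap_apply, HahnSeries.ofPowerSeries_C]

/-- derivations of a field over a subfield (the module structure is the one of the algebra) -/
abbrev KDer (k K : Type*) [Field k] [Field K] [Algebra k K] := Derivation k K K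

theorem exists_kder {k K : Type*} [Field k] [Field K] [Algebra k K] (δ : K →+ K)
    (hmul : ∀ a b, δ (a * b) = a * δ b + b * δ a) (h0 : ∀ c : k, δ (algebraMap k K c) = 0) :
    ∃ D : KDer k K, ∀ f, D f = δ f := by
  have hlin : ∀ (c : k) (x : K), δ (c • x) = c • δ x := by
    intro c x
    rw [Algebra.smul_def, hmul, h0, mul_zero, add_zero, Algebra.smul_def]
  exact ⟨Derivation.mk' { δ with map_smul' := hlin } fun x y => hmul x y, fun f => rfl⟩

/-- D3. A derivation of the coefficient field acts on the coefficients. -/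
theorem exists_lder (D : Derivation k L L) : ∃ D' : KDer k (HahnSeries ℤ L),
    (∀ f n, (D' f).coeff n = D (f.coeff n)) ∧
    (∀ f, 0 ≤ HahnSeries.addVal ℤ L f → 0 ≤ HahnSeries.addVal ℤ L (D' f)) ∧
    ∀ f, HahnSeries.addVal ℤ L f ≤ HahnSeries.addVal ℤ L (D' f) := by
  set D₀ : L →+ L := (D : L →ₗ[k] L).toAddMonoidHom with hD₀
  have hmul : ∀ a b, D₀ (a * b) = a * D₀ b + b * D₀ a := fun a b => D.leibniz a b
  have hC : ∀ c : k, lder D₀ (algebraMap k (HahnSeries ℤ L) c) = 0 := by
    intro c
    rw [algebraMap_hahn, HahnSeries.C_apply, lder_single]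
    have : D₀ (algebraMap k L c) = 0 := D.map_algebraMap c
    rw [this, HahnSeries.single_eq_zero]
  obtain ⟨D', hD'⟩ := exists_kder (k := k) (lder D₀) (lder_mul D₀ hmul) hC
  refine ⟨D', fun f n => by rw [hD']; rfl, fun f hf => ?_, fun f => ?_⟩
  · rw [hD']
    exact hf.trans (orderTop_lder D₀ f)
  · rw [hD']
    exact orderTop_lder D₀ f

/-- D3. The Euler derivation. -/
theorem exists_leul : ∃ Θ : KDer k (HahnSeries ℤ L),
    (∀ f n, (Θ f).coeff n = (n : L) * f.coeff n) ∧
    (∀ f, 0 ≤ HahnSeries.addVal ℤ L f → 0 < HahnSeries.addVal ℤ L (Θ f)) ∧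
    ∀ f, HahnSeries.addVal ℤ L f ≤ HahnSeries.addVal ℤ L (Θ f) := by
  have hC : ∀ c : k, leul (algebraMap k (HahnSeries ℤ L) c) = 0 := by
    intro c
    rw [algebraMap_hahn, HahnSeries.C_apply, leul_single, Int.cast_zero, zero_mul,
      HahnSeries.single_eq_zero]
  obtain ⟨D', hD'⟩ := exists_kder (k := k) leul leul_mul hC
  refine ⟨D', fun f n => by rw [hD']; rfl, fun f hf => ?_, fun f => ?_⟩
  · rw [hD']
    exact lt_of_lt_of_le one_pos (orderTop_leul_pos hf)
  · rw [hD']
    exact orderTop_leul f

end

end Pool.Agent.Work.MP_43381c_ag
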