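import Mathlib

/-!
# Complementary minors
-/

open Matrix

namespace Pool.Agent.Work.MP_43381c_ag

/-- D1. If `A * Bᵀ = 0`, `A` of size `d × n`, `B` of size `c × n`, `d + c = n`, then the maximal
minors of `A` are proportional to the complementary minors of `B`, up to signs. -/
theorem compl_minors {K : Type*} [Field K] {n d c : ℕ} (A : Matrix (Fin d) (Fin n) K)
    (B : Matrix (Fin c) (Fin n) K) (h : A * Bᵀ = 0) (e e' : Fin d ⊕ Fin c ≃ Fin n) :
    ∃ ε : K, (ε = 1 ∨ ε = -1) ∧
      (Matrix.of fun i j => A i (e' (Sum.inl j))).det *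
          (Matrix.of fun l j => B l (e (Sum.inr j))).det =
        ε * ((Matrix.of fun i j => A i (e (Sum.inl j))).det *
          (Matrix.of fun l j => B l (e' (Sum.inr j))).det) := by
  classical
  -- rows of `A`, then the coordinate vectors of the last `c` coordinates
  set M1 : Matrix (Fin d ⊕ Fin c) (Fin n) K :=
    Matrix.of (Sum.elim (fun i => A i) (fun j => Pi.single (e (Sum.inr j)) 1)) with hM1
  set M2 : Matrix (Fin n) (Fin d ⊕ Fin c) K :=
    Matrix.of (fun b => Sum.elim (fun j => (Pi.single (e' (Sum.inl j)) (1 : K) : Fin n → K) b)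
      (fun l => B l b)) with hM2
  have hdet1 : (M1.submatrix id e).det = (Matrix.of fun i j => A i (e (Sum.inl j))).det := by
    have h1 : M1.submatrix id e = Matrix.fromBlocks (Matrix.of fun i j => A i (e (Sum.inl j)))
        (Matrix.of fun i j => A i (e (Sum.inr j))) 0 1 := by
      ext x y
      rcases x with i | j <;> rcases y with i' | j'
      · simp [hM1]
      · simp [hM1]
      · simp [hM1, Pi.single_apply]
      · simp [hM1, Pi.single_apply, Matrix.one_apply, eq_comm]
    rw [h1, Matrix.det_fromBlocks_zero₂₁, Matrix.det_one, mul_one]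
  have hdet2 : (M2.submatrix e' id).det = (Matrix.of fun l j => B l (e' (Sum.inr j))).det := by
    have h1 : M2.submatrix e' id = Matrix.fromBlocks 1 (Matrix.of fun i l => B l (e' (Sum.inl i)))
        0 (Matrix.of fun l j => B l (e' (Sum.inr j)))ᵀ := by
      ext x y
      rcases x with i | j <;> rcases y with i' | j'
      · simp [hM2, Pi.single_apply, Matrix.one_apply]
      · simp [hM2]
      · simp [hM2, Pi.single_apply]
      · simp [hM2]
    rw [h1, Matrix.det_fromBlocks_zero₂₁, Matrix.det_one, one_mul, Matrix.det_transpose]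
  have hdet3 : (M1 * M2).det = (Matrix.of fun i j => A i (e' (Sum.inl j))).det *
      (Matrix.of fun l j => B l (e (Sum.inr j))).det := by
    have h1 : M1 * M2 = Matrix.fromBlocks (Matrix.of fun i j => A i (e' (Sum.inl j))) 0
        (Matrix.of fun j i => (Pi.single (e (Sum.inr j)) (1 : K) : Fin n → K) (e' (Sum.inl i)))
        (Matrix.of fun l j => B l (e (Sum.inr j)))ᵀ := by
      ext x y
      rw [Matrix.mul_apply]
      rcases x with i | j <;> rcases y with i' | j'
      · simp only [hM1, hM2, Matrix.of_apply, Sum.elim_inl, Matrix.fromBlocks_apply₁₁]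
        rw [Finset.sum_eq_single (e' (Sum.inl i'))]
        · rw [Pi.single_eq_same, mul_one]
        · intro b _ hb
          rw [Pi.single_eq_of_ne hb, mul_zero]
        · exact fun h => absurd (Finset.mem_univ _) h
      · simp only [hM1, hM2, Matrix.of_apply, Sum.elim_inl, Sum.elim_inr,
          Matrix.fromBlocks_apply₁₂]
        have h2 := congrFun (congrFun h i) j'
        rw [Matrix.mul_apply] at h2
        exact h2
      · simp only [hM1, hM2, Matrix.of_apply, Sum.elim_inl, Sum.elim_inr,
          Matrix.fromBlocks_apply₂₁]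
        rw [Finset.sum_eq_single (e' (Sum.inl i'))]
        · rw [Pi.single_eq_same, mul_one]
        · intro b _ hb
          rw [Pi.single_eq_of_ne hb, mul_zero]
        · exact fun h => absurd (Finset.mem_univ _) h
      · simp only [hM1, hM2, Matrix.of_apply, Sum.elim_inr,
          Matrix.fromBlocks_apply₂₂, Matrix.transpose_apply]
        rw [Finset.sum_eq_single (e (Sum.inr j))]
        · rw [Pi.single_eq_same, one_mul]
        · intro b _ hb
          rw [Pi.single_eq_of_ne hb, zero_mul]
        · exact fun h => absurd (Finset.mem_univ _) h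
    rw [h1, Matrix.det_fromBlocks_zero₁₂, Matrix.det_transpose]
  have hprod : M1 * M2 = (M1.submatrix id e) * (M2.submatrix e id) := by
    rw [Matrix.submatrix_mul_equiv, Matrix.submatrix_id_id]
  set τ : Equiv.Perm (Fin d ⊕ Fin c) := e.trans e'.symm with hτ
  have hperm : M2.submatrix e id = (M2.submatrix e' id).submatrix τ id := by
    ext x y
    simp [hτ]
  refine ⟨((Equiv.Perm.sign τ : ℤ) : K), ?_, ?_⟩
  · rcases Int.units_eq_one_or (Equiv.Perm.sign τ) with h1 | h1
    · left; rw [h1]; simp
    · right; rw [h1]; simp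
  · rw [← hdet3, hprod, Matrix.det_mul, hdet1, hperm, Matrix.det_permute, hdet2]
    ring

end Pool.Agent.Work.MP_43381c_ag
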