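import Pool.Agent.Work.MP_43381c_ag.Mono

/-!
# Algebraically independent monomials of weight zero
-/

open Matrix

namespace Pool.Agent.Work.MP_43381c_ag

section

variable {k L : Type*} [Field k] [Field L] [Algebra k L] {n d : ℕ}

open AlgebraicIndependent in
/-- D2. If `d` of the nonzero elements `z b` are algebraically independent and some character
`m₁` has nonzero weight then there are `d - 1` monomials of weight zero in the `z b` which are
algebraically independent. -/
theorem exists_weight_zero {z : Fin n → L} (hz : ∀ b, z b ≠ 0) (ι : Fin d → Fin n)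
    (hι : AlgebraicIndependent k fun i => z (ι i)) {w m₁ : Fin n → ℤ} (h1 : m₁ ⬝ᵥ w ≠ 0) :
    ∃ M : Fin (d - 1) → (Fin n → ℤ), (∀ i, M i ⬝ᵥ w = 0) ∧
      AlgebraicIndependent k fun i => mono z (M i) := by
  classical
  have : FaithfulSMul k L := (faithfulSMul_iff_algebraMap_injective k L).mpr
    (algebraMap k L).injective
  set q : ℤ := m₁ ⬝ᵥ w with hq
  set M' : Fin n → (Fin n → ℤ) := fun b => q • Pi.single b 1 - w b • m₁ with hM'
  have hM'w : ∀ b, M' b ⬝ᵥ w = 0 := by
    intro b
    rw [hM']
    simp only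
    rw [sub_dotProduct, smul_dotProduct, smul_dotProduct, ← hq, single_dotProduct, smul_eq_mul,
      smul_eq_mul]
    ring
  set s : L := mono z m₁ with hs
  have hs0 : s ≠ 0 := mono_ne_zero hz m₁
  have hzb : ∀ b, z b ^ q = mono z (M' b) * s ^ (w b) := by
    intro b
    have e1 : mono z (q • Pi.single b 1) = z b ^ q := by
      unfold mono
      rw [Finset.prod_eq_single b]
      · rw [Pi.smul_apply, Pi.single_eq_same, smul_eq_mul, mul_one]
      · intro c _ hc
        rw [Pi.smul_apply, Pi.single_eq_of_ne hc, smul_zero, zpow_zero]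
      · exact fun h => absurd (Finset.mem_univ b) h
    have e2 : s ^ (w b) = mono z (w b • m₁) := by
      rw [hs]
      unfold mono
      rw [← Finset.prod_zpow]
      refine Finset.prod_congr rfl fun i _ => ?_
      rw [Pi.smul_apply, smul_eq_mul, ← _root_.zpow_mul, mul_comm]
    rw [e2, ← mono_add hz, ← e1]
    congr 1
    rw [hM']
    simp
  set T : Set L := Set.range fun b => mono z (M' b) with hT
  set Mt := matroid k L with hMt
  -- the independent set of the `z (ι i)`
  set Z : Set L := Set.range fun i => z (ι i) with hZ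
  have hZind : Mt.Indep Z := by
    rw [hMt, matroid_indep_iff, hZ]
    exact hι.to_subtype_range
  have hinj : Function.Injective fun i => z (ι i) := hι.injective
  have hZcard : Z.encard = d := by
    rw [hZ, ← Set.image_univ, hinj.encard_image, Set.encard_univ, ENat.card_eq_coe_fintype_card,
      Fintype.card_fin]
  have hcl : Z ⊆ Mt.closure (insert s T) := by
    rintro _ ⟨i, rfl⟩
    rw [hMt, matroid_closure_eq]
    set C := Subalgebra.algebraicClosure (Algebra.adjoin k (insert s T)) L with hC
    have hmem : ∀ x ∈ insert s T, x ∈ C := fun x hx => by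
      rw [hC, Subalgebra.mem_algebraicClosure]
      exact isAlgebraic_algebraMap (⟨x, Algebra.subset_adjoin hx⟩ : Algebra.adjoin k (insert s T))
    have hs1 : s ∈ C := hmem s (Set.mem_insert _ _)
    have hs2 : s⁻¹ ∈ C := by
      rw [hC, Subalgebra.mem_algebraicClosure] at hs1 ⊢
      exact hs1.inv
    have hzp : s ^ (w (ι i)) ∈ C := by
      rcases Int.eq_nat_or_neg (w (ι i)) with ⟨t, ht | ht⟩
      · rw [ht, zpow_natCast]
        exact pow_mem hs1 t
      · rw [ht, _root_.zpow_neg, zpow_natCast, ← inv_pow]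
        exact pow_mem hs2 t
    have hq1 : z (ι i) ^ q ∈ C := by
      rw [hzb (ι i)]
      exact mul_mem (hmem _ (Set.mem_insert_of_mem _ ⟨ι i, rfl⟩)) hzp
    have hq2 : z (ι i) ^ q.natAbs ∈ C := by
      rcases Int.natAbs_eq q with h | h
      · rw [h, zpow_natCast] at hq1
        exact hq1
      · rw [h, _root_.zpow_neg, zpow_natCast] at hq1
        rw [hC, Subalgebra.mem_algebraicClosure] at hq1 ⊢
        exact IsAlgebraic.inv_iff.1 hq1
    show z (ι i) ∈ C
    rw [hC, Subalgebra.mem_algebraicClosure] at hq2 ⊢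
    exact IsAlgebraic.of_pow (Int.natAbs_pos.2 h1) hq2
  obtain ⟨I, hI⟩ := Mt.exists_isBasis T (by rw [hMt, matroid_e]; exact Set.subset_univ _)
  have hcard : (d : ℕ∞) ≤ I.encard + 1 := by
    rw [← hZcard]
    calc Z.encard ≤ Mt.eRk (Mt.closure (insert s T)) := hZind.encard_le_eRk_of_subset hcl
      _ = Mt.eRk (insert s T) := Mt.eRk_closure_eq _
      _ = Mt.eRk (insert s I) := by
          rw [← Mt.eRk_insert_closure_eq s T, ← hI.closure_eq_closure, Mt.eRk_insert_closure_eq]
      _ ≤ (insert s I).encard := Mt.eRk_le_encard _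
      _ ≤ I.encard + 1 := Set.encard_insert_le _ _
  have hcard' : ((d - 1 : ℕ) : ℕ∞) ≤ I.encard := by
    have hfin : T.Finite := Set.finite_range _
    have hIfin : I.Finite := hfin.subset hI.subset
    rw [hIfin.encard_eq_coe_toFinset_card] at hcard ⊢
    have : d ≤ hIfin.toFinset.card + 1 := by exact_mod_cast hcard
    exact_mod_cast (by omega : d - 1 ≤ hIfin.toFinset.card)
  obtain ⟨J, hJI, hJ⟩ := Set.exists_subset_encard_eq hcard'
  have hJind : AlgebraicIndepOn k id J := by
    rw [← matroid_indep_iff]
    exact hI.indep.subset hJI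
  have hJfin : J.Finite := Set.finite_of_encard_eq_coe hJ
  have : Fintype J := hJfin.fintype
  have hJc : Fintype.card J = d - 1 := by
    have h2 := hJfin.encard_eq_coe_toFinset_card
    rw [hJ] at h2
    have h3 : d - 1 = hJfin.toFinset.card := by exact_mod_cast h2
    rw [h3, Set.Finite.card_toFinset]
  let e := (Fintype.equivFinOfCardEq hJc).symm
  have hb : ∀ i, ∃ b, mono z (M' b) = (e i : L) := fun i => by
    have h2 : (e i : L) ∈ T := hI.subset (hJI (e i).2)
    exact h2
  choose b hb using hb
  refine ⟨fun i => M' (b i), fun i => hM'w _, ?_⟩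
  have h3 : (fun i => mono z (M' (b i))) = (fun x : J => (x : L)) ∘ e := by
    funext i
    exact hb i
  rw [h3]
  have h4 : AlgebraicIndependent k (fun x : J => (x : L)) := hJind
  exact h4.comp e e.injective

/-- D2'. -/
theorem exists_weight_zero' {z' : Fin d → L} (hz' : AlgebraicIndependent k z') {w' : Fin d → ℤ}
    {l : Fin d} (hl : w' l ≠ 0) :
    ∃ M : Fin (d - 1) → (Fin d → ℤ), (∀ i, M i ⬝ᵥ w' = 0) ∧
      ∀ P : MvPolynomial (Fin (d - 1)) k, P ≠ 0 →
        MvPolynomial.aeval (fun i => mono z' (M i)) P ≠ 0 := by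
  obtain ⟨M, h1, h2⟩ := exists_weight_zero (fun b => hz'.ne_zero b) id hz'
    (w := w') (m₁ := Pi.single l 1) (by rwa [single_dotProduct, one_mul])
  refine ⟨M, h1, fun P hP h0 => hP ?_⟩
  exact (algebraicIndependent_iff.1 h2) P h0

end

/-- D2''. Euler's relation: if the initial forms for `w ≠ 0` vanish at `z` and the minor of their
logarithmic Jacobian in the coordinates `e (inr j)` is not zero then `w` has a nonzero coordinate
among the `e (inl i)`. -/
theorem euler_ne {k L : Type*} [Field k] [Field L] [Algebra k L] [CharZero L] {n d c : ℕ}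
    (g : Fin c → (Fin n → ℤ) →₀ k) (w : Fin n → ℤ) (hw : w ≠ 0) (z : Fin n → L)
    (hg : ∀ l, ev z (init (g l) w) = 0) (e : Fin d ⊕ Fin c ≃ Fin n)
    (hdet : (Matrix.of fun l j => dev z (e (Sum.inr j)) (init (g l) w)).det ≠ 0) :
    ∃ i, w (e (Sum.inl i)) ≠ 0 := by
  classical
  by_contra hcon
  push Not at hcon
  -- Euler's relation
  have heul : ∀ l, ∑ b, (w b : L) * dev z b (init (g l) w) = 0 := by
    intro l
    have h1 : ∑ b, (w b : L) * dev z b (init (g l) w) =
        (phi (g l) w : L) * ev z (init (g l) w) := by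
      simp only [dev_eq, ev_eq, Finset.mul_sum]
      rw [Finset.sum_comm]
      refine Finset.sum_congr rfl fun m hm => ?_
      have hm' : m ⬝ᵥ w = phi (g l) w := by
        rw [Finsupp.mem_support_iff] at hm
        by_contra hne
        exact hm (Finsupp.filter_apply_neg _ _ hne)
      have h2 : (phi (g l) w : L) = ∑ b, (m b : L) * (w b : L) := by
        rw [← hm', dotProduct]
        push_cast
        rfl
      rw [h2, Finset.sum_mul]
      exact Finset.sum_congr rfl fun b _ => by ring
    rw [h1, hg l, mul_zero]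
  have hvec : (Matrix.of fun l j => dev z (e (Sum.inr j)) (init (g l) w)).mulVec
      (fun j => (w (e (Sum.inr j)) : L)) = 0 := by
    funext l
    rw [Matrix.mulVec, dotProduct, Pi.zero_apply, ← heul l, ← Equiv.sum_comp e,
      Fintype.sum_sum_type]
    rw [Finset.sum_eq_zero (s := Finset.univ) (f := fun i : Fin d => (w (e (Sum.inl i)) : L) *
      dev z (e (Sum.inl i)) (init (g l) w)) (fun i _ => by rw [hcon i, Int.cast_zero, zero_mul]),
      zero_add]
    exact Finset.sum_congr rfl fun j _ => by rw [Matrix.of_apply, mul_comm]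
  have h0 := Matrix.eq_zero_of_mulVec_eq_zero hdet hvec
  apply hw
  funext b
  obtain ⟨x, rfl⟩ := e.surjective b
  rcases x with i | j
  · exact hcon i
  · have h2 : (w (e (Sum.inr j)) : L) = 0 := congrFun h0 j
    have h3 : w (e (Sum.inr j)) = 0 := by exact_mod_cast h2
    exact h3

end Pool.Agent.Work.MP_43381c_ag
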