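import Pool.Agent.Work.MP_43381c_ag.CI.ArcVal
import Pool.Agent.Work.MP_43381c_ag.CI.Embed
import Pool.Agent.Work.MP_43381c_ag.CI.LaurentDer
import Pool.Agent.Work.MP_43381c_ag.CI.ResTr
import Pool.Agent.Work.MP_43381c_ag.CI.Minors
import Pool.Agent.Work.MP_43381c_ag.CI.Arc
import Pool.Agent.Work.MP_43381c_ag.CI.Generic
import Pool.Agent.Work.MP_43381c_ag.CI.FinalOf

/-!
# The prime divisor of an integral point of the tropical variety
-/

open MvPolynomial Matrix

namespace Pool.Agent.Work.MP_43381c_ag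

universe u

theorem exists_equiv_of_inj {n d c : ℕ} (e : Fin d ⊕ Fin c ≃ Fin n) (ρ : Fin c → Fin n)
    (hρ : Function.Injective ρ) : ∃ e2 : Fin d ⊕ Fin c ≃ Fin n, ∀ j, e2 (Sum.inr j) = ρ j := by
  classical
  have hcard : Fintype.card (Fin d) = Fintype.card {b // ¬ (b ∈ Set.range ρ)} := by
    have h1 := Fintype.card_congr e
    have h2 := Fintype.card_congr (Equiv.ofInjective ρ hρ)
    have h3 := Fintype.card_subtype_compl (fun b => b ∈ Set.range ρ)
    rw [Fintype.card_sum, Fintype.card_fin, Fintype.card_fin, Fintype.card_fin] at h1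
    rw [Fintype.card_fin] at h2
    rw [h3, Fintype.card_fin, Fintype.card_fin]
    have h4 : Fintype.card {b // b ∈ Set.range ρ} = c := h2.symm
    omega
  let E1 : Fin d ≃ {b // ¬ (b ∈ Set.range ρ)} := Fintype.equivOfCardEq hcard
  let E2 : Fin c ≃ {b // b ∈ Set.range ρ} := Equiv.ofInjective ρ hρ
  refine ⟨(Equiv.sumCongr E1 E2).trans ((Equiv.sumComm _ _).trans
    (Equiv.sumCompl fun b => b ∈ Set.range ρ)), fun j => ?_⟩
  rfl

section mono

variable {k L : Type*} [Field k] [Field L] [Algebra k L] {d : ℕ}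

theorem V_ev_arc {z : Fin d → L} (hz : AlgebraicIndependent k z) (w : Fin d → ℤ)
    {f : (Fin d → ℤ) →₀ k} (hf : f ≠ 0) :
    HahnSeries.addVal ℤ L (ev (fun i => HahnSeries.C (z i) *
      (HahnSeries.single (1 : ℤ) (1 : L)) ^ w i) f) = ((phi f w : ℤ) : WithTop ℤ) := by
  classical
  have hz0 : ∀ i, z i ≠ 0 := fun i => hz.ne_zero i
  set V := HahnSeries.addVal ℤ L with hV
  set t : HahnSeries ℤ L := HahnSeries.single (1 : ℤ) (1 : L) with ht
  have hVt : V t = 1 := V_t
  have ht' : V t = ((1 : ℤ) : WithTop ℤ) := by rw [hVt]; rfl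
  have ht0 : t ≠ 0 := t_ne
  set u : Fin d → HahnSeries ℤ L := fun i => HahnSeries.C (z i) with hu
  have hyu : ∀ m, mono (fun i => u i * t ^ w i) m = mono u m * t ^ (m ⬝ᵥ w) := by
    intro m
    rw [← mono_zpow ht0, ← mono_mul]
  have halg : ∀ c : k, algebraMap k (HahnSeries ℤ L) c = HahnSeries.C (algebraMap k L c) :=
    algebraMap_hahn
  have h1 := (g_congr V hVt w (fun i => V_C (hz0 i)) hyu f
    (fun m => algebraMap k (HahnSeries ℤ L) (f m)) (fun m => by
      by_cases h : f m = 0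
      · rw [h, map_zero, AddValuation.map_zero]; exact le_top
      · rw [V_algebraMap h])).2
  rw [← ev_eq, ← init_sum f w (fun m c => algebraMap k (HahnSeries ℤ L) c * mono u m),
    ← ev_eq, hu, ← map_ev (HahnSeries.C : L →+* HahnSeries ℤ L) (fun c => (halg c).symm) z
      (init f w)] at h1
  have h2 : V (HahnSeries.C (ev z (init f w))) = 0 := V_C (ev_ne_zero hz (init_ne_zero hf w))
  have h3 : V (t ^ (-phi f w) * ev (fun i => u i * t ^ w i) f) = 0 := by
    have h4 : t ^ (-phi f w) * ev (fun i => u i * t ^ w i) f = HahnSeries.C (ev z (init f w)) +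
      (t ^ (-phi f w) * ev (fun i => u i * t ^ w i) f - HahnSeries.C (ev z (init f w))) := by ring
    rw [h4, AddValuation.map_add_eq_of_lt_left, h2]
    rw [h2]
    exact h1
  have h5 : ev (fun i => u i * t ^ w i) f =
      t ^ (phi f w) * (t ^ (-phi f w) * ev (fun i => u i * t ^ w i) f) := by
    rw [← mul_assoc, ← zpow_add₀ ht0, add_neg_cancel, zpow_zero, one_mul]
  rw [h5, AddValuation.map_mul, h3, v_zpow V ht', mul_one, add_zero]

theorem algInd_arc {z : Fin d → L} (hz : AlgebraicIndependent k z) (w : Fin d → ℤ) :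
    AlgebraicIndependent k (fun i => HahnSeries.C (z i) *
      (HahnSeries.single (1 : ℤ) (1 : L)) ^ w i) := by
  have hz0 : ∀ i, z i ≠ 0 := fun i => hz.ne_zero i
  rw [algebraicIndependent_iff]
  intro P hP
  by_contra hne
  have hy0 : ∀ i, HahnSeries.C (z i) * (HahnSeries.single (1 : ℤ) (1 : L)) ^ w i ≠ 0 := fun i =>
    mul_ne_zero (by rw [Ne, map_eq_zero]; exact hz0 i) (zpow_ne_zero _ t_ne)
  rw [aeval_eq_ev hy0] at hP
  have h := V_ev_arc hz w (toF_ne_zero std comb_std_inj hne)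
  rw [hP, AddValuation.map_zero] at h
  exact WithTop.top_ne_coe h

end mono

section compat

variable {k K : Type u} [Field k] [Field K] [Algebra k K] {n c d : ℕ}

theorem map_dev {F : Type*} [Field F] [Algebra k F] (Φ : K →ₐ[k] F) (p : Fin n → K) (b : Fin n)
    (f : (Fin n → ℤ) →₀ k) : Φ (dev p b f) = dev (fun i => Φ (p i)) b f := by
  rw [dev_eq, dev_eq, map_sum]
  refine Finset.sum_congr rfl fun m _ => ?_
  rw [map_mul, map_mul, AlgHom.commutes, map_intCast]
  exact congrArg _ (map_mono Φ.toRingHom p m)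

theorem compatK {x : Fin n → K} (hx0 : ∀ b, x b ≠ 0)
    (hgen : IntermediateField.adjoin k (Set.range x) = ⊤) {F : Type u} [Field F] [Algebra k F]
    (Φ : K →ₐ[k] F) {y : Fin n → F} (hΦ : ∀ b, Φ (x b) = y b) (e : Fin d ⊕ Fin c ≃ Fin n)
    (g : Fin c → (Fin n → ℤ) →₀ k) (hg : ∀ l, ev x (g l) = 0)
    (hQ : (Matrix.of fun l j => dev y (e (Sum.inr j)) (g l)).det ≠ 0) (D : Derivation k K K)
    (δ : Derivation k F F)
    (h : ∀ i, lD δ (y (e (Sum.inl i))) = Φ (lD D (x (e (Sum.inl i))))) (f : K) :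
    δ (Φ f) = Φ (D f) := by
  have hy0 : ∀ b, y b ≠ 0 := fun b => by
    rw [← hΦ, Ne, map_eq_zero]
    exact hx0 b
  have hyx : (fun i => Φ (x i)) = y := funext hΦ
  have hyg : ∀ l, ev y (g l) = 0 := by
    intro l
    have h1 := map_ev (k := k) Φ.toRingHom (fun c => Φ.commutes c) x (g l)
    rw [hg l, map_zero] at h1
    have h2 : (fun i => Φ.toRingHom (x i)) = y := hyx
    rw [h2] at h1
    exact h1.symm
  have h1 : (fun b => lD δ (y b)) = fun b => Φ (lD D (x b)) := by
    refine jac_unique e (fun l b => dev y b (g l)) hQ ?_ ?_ h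
    · intro l
      have h2 := D_ev δ hy0 (g l)
      rw [hyg l, map_zero] at h2
      exact h2.symm
    · intro l
      have h2 := congrArg Φ (D_ev D hx0 (g l))
      rw [hg l, map_zero, map_zero, map_sum] at h2
      rw [h2]
      refine Finset.sum_congr rfl fun b _ => ?_
      rw [map_mul, map_dev, hyx]
  refine deriv_compat hgen Φ D δ (fun b => ?_) f
  have h2 := congrFun h1 b
  simp only [lD, map_div₀] at h2
  rw [hΦ] at h2 ⊢
  have h3 := hy0 b
  field_simp at h2
  exact h2

end compat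

section build

variable {k K : Type u} [Field k] [IsAlgClosed k] [CharZero k] [Field K] [Algebra k K] {n d : ℕ}

/-- the data of a generic arc with given orders -/
theorem Germ.exists_arc_embed (X : Germ k K n d) (w : Fin n → ℤ) (hw : w ≠ 0)
    (nd : Nondeg X.g w) (ht : InTrop X.g w) :
    ∃ (L : Type u) (_ : Field L) (_ : Algebra k L) (z : Fin n → L) (Y : Fin n → PowerSeries L)
      (e : Fin d ⊕ Fin X.c ≃ Fin n) (Φ : K →ₐ[k] HahnSeries ℤ L),
      (∀ b, z b ≠ 0) ∧ (∀ b, PowerSeries.constantCoeff (Y b) = z b) ∧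
      (∀ i, Y (e (Sum.inl i)) = PowerSeries.C (z (e (Sum.inl i)))) ∧
      (∀ b, Φ (X.x b) = arc Y w b) ∧
      AlgebraicIndependent k (fun i => z (e (Sum.inl i))) ∧
      (Matrix.of fun l j => dev z (e (Sum.inr j)) (init (X.g l) w)).det ≠ 0 ∧
      ∃ i, w (e (Sum.inl i)) ≠ 0 := by
  classical
  obtain ⟨L₀, _, _, z₀, hz₀, hg₀⟩ := ht
  have h1 := nd_field X.g w nd (fun _ => True) hz₀ (fun l _ => hg₀ l)
  have h2 : LinearIndependent L₀ (Matrix.of fun (l : Fin X.c) b =>
      dev z₀ b (init (X.g l) w)).row :=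
    h1.comp (fun l => (⟨l, trivial⟩ : {j : Fin X.c // True})) (by
      intro a b hab
      exact congrArg Subtype.val hab)
  obtain ⟨ρ, hρ⟩ := exists_minor _ h2
  have hinj : Function.Injective ρ := by
    intro j j' hjj
    by_contra hne
    apply hρ
    apply Matrix.det_zero_of_column_eq hne
    intro i
    simp [hjj]
  obtain ⟨e, he⟩ := exists_equiv_of_inj X.e ρ hinj
  have hdet0 : (Matrix.of fun l j => dev z₀ (e (Sum.inr j)) (init (X.g l) w)).det ≠ 0 := by
    have h3 : (Matrix.of fun l j => dev z₀ (e (Sum.inr j)) (init (X.g l) w)) =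
        (Matrix.of fun (l : Fin X.c) b => dev z₀ b (init (X.g l) w)).submatrix id ρ := by
      refine Matrix.ext fun l j => ?_
      simp only [Matrix.of_apply, Matrix.submatrix_apply, id_eq, he]
    rw [h3]
    exact hρ
  obtain ⟨L, _, _, z, hz, hgz, hdet, hzi⟩ :=
    exists_generic (fun l => init (X.g l) w) z₀ hz₀ hg₀ e hdet0
  obtain ⟨Y, hY, hYC, hYg⟩ := exists_arc X.g w z hz hgz e hdet
  have hyg : ∀ l, ev (arc Y w) (X.g l) = 0 := hYg
  have hy0 : ∀ b, arc Y w b ≠ 0 := arc_ne w hz hY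
  have hyi : AlgebraicIndependent k fun i => arc Y w (e (Sum.inl i)) := by
    have h3 := algInd_arc hzi (fun i => w (e (Sum.inl i)))
    have h4 : (fun i => arc Y w (e (Sum.inl i))) = fun i => HahnSeries.C (z (e (Sum.inl i))) *
        (HahnSeries.single (1 : ℤ) (1 : L)) ^ w (e (Sum.inl i)) := by
      funext i
      unfold arc
      rw [hYC, HahnSeries.ofPowerSeries_C]
    rw [h4]
    exact h3
  have hQy : (Matrix.of fun l j => dev (arc Y w) (e (Sum.inr j)) (X.g l)).det ≠ 0 := by
    intro h0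
    have h3 := V_det_arc w hz hY X.g (fun j => e (Sum.inr j)) hdet
    rw [h0, AddValuation.map_zero] at h3
    exact WithTop.top_ne_coe h3
  have hQx := X.det_ext hy0 hyg (fun j => e (Sum.inr j)) hQy
  obtain ⟨Φ, hΦ⟩ := X.exists_embed e (arc Y w) hy0 hyg hyi hQx
  have : CharZero L := charZero_of_injective_algebraMap (algebraMap k L).injective
  exact ⟨L, inferInstance, inferInstance, z, Y, e, Φ, hz, hY, hYC, hΦ, hzi, hdet,
    euler_ne X.g w hw z hgz e hdet⟩

/-- The prime divisor of a primitive integral point of the tropical variety: its order vector is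
the given one and the order of the residue form is as small as possible. -/
theorem Germ.exists_divisor (X : Germ k K n d) (w : Fin n → ℤ)
    (hprim : ∃ m : Fin n → ℤ, m ⬝ᵥ w = 1) (nd : Nondeg X.g w) (ht : InTrop X.g w) :
    ∃ E : PrimeDivisor k K d, X.vec E = w ∧
      X.resOrd E ≤ ((-1 - ∑ l, (phi (X.g l) w : ℝ) : ℝ) : EReal) := by
  classical
  obtain ⟨m0, hm0⟩ := hprim
  have hw : w ≠ 0 := by
    rintro rfl
    rw [dotProduct_zero] at hm0
    exact zero_ne_one hm0
  obtain ⟨L, _, _, z, Y, e, Φ, hz, hY, hYC, hΦ, hzi, hdet, i0, hi0⟩ :=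
    X.exists_arc_embed w hw nd ht
  have hcL : CharZero L := charZero_of_injective_algebraMap (algebraMap k L).injective
  set V : AddValuation (HahnSeries ℤ L) (WithTop ℤ) := HahnSeries.addVal ℤ L with hV
  set v : AddValuation K (WithTop ℤ) := V.comap Φ.toRingHom with hv
  have hvV : ∀ f, v f = V (Φ f) := fun f => rfl
  have hy0 : ∀ b, arc Y w b ≠ 0 := arc_ne w hz hY
  have hvx : ∀ b, v (X.x b) = ((w b : ℤ) : WithTop ℤ) := fun b => by
    rw [hvV, hΦ]
    exact V_arc w hz hY b
  have hvm : ∀ m, v (mono X.x m) = ((m ⬝ᵥ w : ℤ) : WithTop ℤ) := v_mono v hvx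
  have hvk : ∀ a : k, a ≠ 0 → v (algebraMap k K a) = 0 := by
    intro a ha
    rw [hvV, AlgHom.commutes]
    exact V_algebraMap ha
  have hΦx : ∀ i, Φ (X.x (e (Sum.inl i))) = HahnSeries.C (z (e (Sum.inl i))) *
      (HahnSeries.single (1 : ℤ) (1 : L)) ^ w (e (Sum.inl i)) := by
    intro i
    rw [hΦ]
    unfold arc
    rw [hYC, HahnSeries.ofPowerSeries_C]
  -- residues
  obtain ⟨M, hM0, hM⟩ := exists_weight_zero' hzi (w' := fun i => w (e (Sum.inl i))) hi0
  have hres : ∃ u : Fin (d - 1) → K, ∀ P : MvPolynomial (Fin (d - 1)) k, P ≠ 0 →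
      v (MvPolynomial.aeval u P) = 0 := by
    refine ⟨fun i => mono (fun j => X.x (e (Sum.inl j))) (M i), fun P hP => ?_⟩
    rw [hvV]
    have h1 : ∀ i, Φ (mono (fun j => X.x (e (Sum.inl j))) (M i)) =
        HahnSeries.C (mono (fun j => z (e (Sum.inl j))) (M i)) := by
      intro i
      have h2 := map_mono Φ.toRingHom (fun j => X.x (e (Sum.inl j))) (M i)
      have h3 := map_mono (HahnSeries.C : L →+* HahnSeries ℤ L) (fun j => z (e (Sum.inl j))) (M i)
      rw [h3]
      refine h2.trans ?_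
      have h4 : (fun j => Φ.toRingHom (X.x (e (Sum.inl j)))) = fun j =>
          HahnSeries.C (z (e (Sum.inl j))) *
          (HahnSeries.single (1 : ℤ) (1 : L)) ^ w (e (Sum.inl j)) := funext hΦx
      rw [h4, mono_mul, mono_zpow t_ne, hM0, zpow_zero, mul_one]
    have h2 : ∀ P : MvPolynomial (Fin (d - 1)) k,
        Φ (aeval (fun i => mono (fun j => X.x (e (Sum.inl j))) (M i)) P) =
        HahnSeries.C (aeval (fun i => mono (fun j => z (e (Sum.inl j))) (M i)) P) := by
      intro P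
      induction P using MvPolynomial.induction_on with
      | C a =>
        rw [aeval_C, aeval_C, AlgHom.commutes, algebraMap_hahn]
      | add P Q hP hQ => rw [map_add, map_add, map_add, map_add, hP, hQ]
      | mul_X P i hP => rw [map_mul, map_mul, map_mul, map_mul, hP, aeval_X, aeval_X, h1]
    rw [h2]
    exact V_C (hM P hP)
  set E : PrimeDivisor k K d :=
    { ord := v
      ord_const := hvk
      exists_one := ⟨mono X.x m0, by rw [hvm, hm0]; rfl⟩
      exists_res := hres } with hE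
  have hvec : X.vec E = w := by
    funext b
    change (v (X.x b)).untopD 0 = w b
    rw [hvx]
    rfl
  refine ⟨E, hvec, ?_⟩
  -- derivations
  have hxi : AlgebraicIndependent k fun i => X.x (e (Sum.inl i)) := by
    have h3 := algInd_arc hzi (fun i => w (e (Sum.inl i)))
    have h4 : (Φ ∘ fun i => X.x (e (Sum.inl i))) = fun i => HahnSeries.C (z (e (Sum.inl i))) *
        (HahnSeries.single (1 : ℤ) (1 : L)) ^ w (e (Sum.inl i)) := funext hΦx
    rw [← h4] at h3
    exact AlgebraicIndependent.of_comp Φ h3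
  have hQy : (Matrix.of fun l j => dev (arc Y w) (e (Sum.inr j)) (X.g l)).det ≠ 0 := by
    intro h0
    have h3 := V_det_arc w hz hY X.g (fun j => e (Sum.inr j)) hdet
    rw [h0, AddValuation.map_zero] at h3
    exact WithTop.top_ne_coe h3
  choose θ hθ using fun i : Fin d => exists_deriv_of_algInd hxi
    (fun j => (if j = i then 1 else 0) * X.x (e (Sum.inl j)))
  obtain ⟨D0, hD0⟩ := exists_deriv_of_algInd hxi
    (fun j => (w (e (Sum.inl j)) : K) * X.x (e (Sum.inl j)))
  choose DL hDL using fun i : Fin d => exists_deriv_of_algInd hzi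
    (fun j => (if j = i then 1 else 0) * z (e (Sum.inl j)))
  choose δ hδc hδ0 hδ1 using fun i : Fin d => exists_lder (k := k) (DL i)
  obtain ⟨Θ, hΘc, hΘ0, hΘ1⟩ := exists_leul (k := k) (L := L)
  have hC0 : ∀ a : L, (HahnSeries.C a : HahnSeries ℤ L) ≠ 0 ↔ a ≠ 0 := fun a => by
    rw [Ne, map_eq_zero]
  have hCz : ∀ j, (HahnSeries.C (z (e (Sum.inl j))) : HahnSeries ℤ L) ≠ 0 := fun j =>
    (hC0 _).2 (hz _)
  have hδC : ∀ i a, δ i (HahnSeries.C a) = HahnSeries.C (DL i a) := by
    intro i a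
    ext m
    rw [hδc, HahnSeries.C_apply, HahnSeries.C_apply, HahnSeries.coeff_single,
      HahnSeries.coeff_single]
    split_ifs
    · rfl
    · rw [map_zero]
  have hδt : ∀ i, δ i (HahnSeries.single (1 : ℤ) (1 : L)) = 0 := by
    intro i
    ext m
    rw [hδc, HahnSeries.coeff_single, HahnSeries.coeff_zero]
    split_ifs
    · exact (DL i).map_one_eq_zero
    · rw [map_zero]
  have hΘC : ∀ a : L, Θ (HahnSeries.C a) = 0 := by
    intro a
    ext m
    rw [hΘc, HahnSeries.C_apply, HahnSeries.coeff_single, HahnSeries.coeff_zero]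
    split_ifs with h
    · rw [h, Int.cast_zero, zero_mul]
    · rw [mul_zero]
  have hΘt : Θ (HahnSeries.single (1 : ℤ) (1 : L)) = HahnSeries.single (1 : ℤ) (1 : L) := by
    ext m
    rw [hΘc, HahnSeries.coeff_single]
    split_ifs with h
    · rw [h, Int.cast_one, one_mul]
    · rw [mul_zero]
  have hlδ : ∀ i j, lD (δ i) (arc Y w (e (Sum.inl j))) = if j = i then 1 else 0 := by
    intro i j
    rw [← hΦ, hΦx, lD_mul _ (hCz j) (zpow_ne_zero _ t_ne), lD_zpow _ t_ne]
    unfold lD
    rw [hδt, zero_div, mul_zero, add_zero, hδC, hDL, map_mul]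
    rw [mul_div_assoc, div_self (hCz j), mul_one]
    split_ifs
    · rw [map_one]
    · rw [map_zero]
  have hlΘ : ∀ j, lD Θ (arc Y w (e (Sum.inl j))) = (w (e (Sum.inl j)) : HahnSeries ℤ L) := by
    intro j
    rw [← hΦ, hΦx, lD_mul _ (hCz j) (zpow_ne_zero _ t_ne), lD_zpow _ t_ne]
    unfold lD
    rw [hΘt, hΘC, zero_div, zero_add, div_self t_ne, mul_one]
  have hcδ : ∀ i f, δ i (Φ f) = Φ (θ i f) := by
    intro i f
    refine compatK X.x_ne X.gen Φ hΦ e X.g X.ev_g hQy (θ i) (δ i) (fun j => ?_) f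
    rw [hlδ]
    unfold lD
    rw [hθ, mul_div_cancel_right₀ _ (X.x_ne _)]
    split_ifs
    · rw [map_one]
    · rw [map_zero]
  have hcΘ : ∀ f, Θ (Φ f) = Φ (D0 f) := by
    intro f
    refine compatK X.x_ne X.gen Φ hΦ e X.g X.ev_g hQy D0 Θ (fun j => ?_) f
    rw [hlΘ]
    unfold lD
    rw [hD0, mul_div_cancel_right₀ _ (X.x_ne _), map_intCast]
  set c : K := mono X.x (-m0) with hc
  have hvc : v c = ((-1 : ℤ) : WithTop ℤ) := by
    rw [hc, hvm, neg_dotProduct, hm0]
  set D : Fin d → Derivation k K K := fun i => if i = i0 then c • D0 else θ i with hD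
  have hreg : ∀ i, E.Reg (D i) := by
    intro i f hf
    by_cases h : i = i0
    · have h1 : D i f = c * D0 f := by
        simp only [hD, if_pos h]
        rfl
      have h2 : 0 < v (D0 f) := by
        rw [hvV, ← hcΘ]
        exact hΘ0 _ hf
      rw [h1]
      change 0 ≤ v (c * D0 f)
      rw [v.map_mul, hvc]
      generalize v (D0 f) = q at h2 ⊢
      induction q using WithTop.recTopCoe with
      | top => exact le_top
      | coe q =>
        have h3 : 0 < q := by exact_mod_cast h2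
        rw [← WithTop.coe_add]
        exact_mod_cast (by omega : (0 : ℤ) ≤ -1 + q)
    · have h1 : D i = θ i := by
        simp only [hD, if_neg h]
      rw [h1]
      change 0 ≤ V (Φ (θ i f))
      rw [← hcδ]
      exact hδ0 i _ hf
  -- the determinants
  set A : Matrix (Fin d) (Fin n) K := Matrix.of fun i b => D i (X.x b) / X.x b with hA
  set B : Matrix (Fin X.c) (Fin n) K := Matrix.of fun l b => dev X.x b (X.g l) with hB
  have hAB : A * Bᵀ = 0 := by
    refine Matrix.ext fun i l => ?_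
    rw [Matrix.mul_apply]
    have h1 := D_ev (D i) X.x_ne (X.g l)
    rw [X.ev_g l, map_zero] at h1
    exact h1.symm
  obtain ⟨ε, hε, hmin⟩ := compl_minors A B hAB X.e e
  have hvε : v ε = 0 := by
    rcases hε with h | h
    · rw [h, v.map_one]
    · rw [h, v.map_neg, v.map_one]
  have hdA : v (Matrix.of fun i j => A i (e (Sum.inl j))).det = ((-1 : ℤ) : WithTop ℤ) := by
    have h1 : (Matrix.of fun i j => A i (e (Sum.inl j))) =
        (1 : Matrix (Fin d) (Fin d) K).updateRow i0 (fun j => c * (w (e (Sum.inl j)) : K)) := by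
      refine Matrix.ext fun i j => ?_
      rw [Matrix.of_apply, Matrix.updateRow_apply]
      change D i (X.x (e (Sum.inl j))) / X.x (e (Sum.inl j)) = _
      by_cases h : i = i0
      · rw [if_pos h]
        have h2 : D i (X.x (e (Sum.inl j))) = c * D0 (X.x (e (Sum.inl j))) := by
          simp only [hD, if_pos h]
          rfl
        rw [h2, hD0, ← mul_assoc, mul_div_cancel_right₀ _ (X.x_ne _)]
      · rw [if_neg h]
        have h2 : D i = θ i := by
          simp only [hD, if_neg h]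
        rw [h2, hθ, mul_div_cancel_right₀ _ (X.x_ne _), Matrix.one_apply]
        simp only [eq_comm]
    have h2 : (Matrix.of fun i j => A i (e (Sum.inl j))).det =
        c * (w (e (Sum.inl i0)) : K) := by
      rw [h1, ← Matrix.cramer_transpose_apply, Matrix.transpose_one, Matrix.cramer_one]
      rfl
    rw [h2, v.map_mul, hvc]
    have h3 : v ((w (e (Sum.inl i0)) : ℤ) : K) = 0 := by
      have h4 := hvk ((w (e (Sum.inl i0)) : ℤ) : k) (by exact_mod_cast hi0)
      rwa [map_intCast] at h4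
    rw [h3, add_zero]
  have hdB : v (Matrix.of fun l j => B l (e (Sum.inr j))).det =
      ((∑ l, phi (X.g l) w : ℤ) : WithTop ℤ) := by
    rw [hvV]
    have h1 : Φ (Matrix.of fun l j => B l (e (Sum.inr j))).det =
        (Matrix.of fun l j => dev (arc Y w) (e (Sum.inr j)) (X.g l)).det := by
      rw [AlgHom.map_det]
      refine congrArg Matrix.det (Matrix.ext fun l j => ?_)
      change Φ (dev X.x (e (Sum.inr j)) (X.g l)) = dev (arc Y w) (e (Sum.inr j)) (X.g l)
      rw [map_dev]
      congr 1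
      exact funext hΦ
    rw [h1]
    exact V_det_arc w hz hY X.g (fun j => e (Sum.inr j)) hdet
  have hq := ord_coe E X.e_ne
  set q : ℤ := E.ordZ (Matrix.of fun l j => dev X.x (X.e (Sum.inr j)) (X.g l)).det with hqdef
  have hqB : v (Matrix.of fun l j => B l (X.e (Sum.inr j))).det = ((q : ℤ) : WithTop ℤ) := hq
  have hdAX : v (Matrix.of fun i j => A i (X.e (Sum.inl j))).det =
      ((-1 - ∑ l, phi (X.g l) w + q : ℤ) : WithTop ℤ) := by
    have h1 := congrArg v hmin
    rw [v.map_mul, v.map_mul, v.map_mul, hdA, hdB, hqB, hvε, zero_add] at h1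
    revert h1
    generalize v (Matrix.of fun i j => A i (X.e (Sum.inl j))).det = q1
    generalize ∑ l, phi (X.g l) w = T
    intro h1
    induction q1 using WithTop.recTopCoe with
    | top =>
      rw [WithTop.top_add, ← WithTop.coe_add] at h1
      exact absurd h1.symm WithTop.top_ne_coe
    | coe q1 =>
      have h2 : -1 + q = q1 + T := by exact_mod_cast h1
      have h3 : q1 = -1 - T + q := by omega
      rw [h3]
  unfold Germ.resOrd
  have h1 : (⨅ D : {D : Fin d → Derivation k K K // ∀ i, E.Reg (D i)},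
      toE (E.ord (Matrix.det (Matrix.of fun i j => D.1 i (X.x (X.e (Sum.inl j))) /
        X.x (X.e (Sum.inl j)))))) ≤ (((-1 - ∑ l, phi (X.g l) w + q : ℤ) : ℝ) : EReal) := by
    refine iInf_le_of_le (⟨D, hreg⟩ : {D : Fin d → Derivation k K K // ∀ i, E.Reg (D i)}) ?_
    refine le_of_eq ?_
    exact congrArg toE hdAX
  rw [hq]
  have h2 := EReal.sub_le_sub h1 (le_refl (toE ((q : ℤ) : WithTop ℤ)))
  refine le_trans h2 (le_of_eq ?_)
  change _ - (((q : ℤ) : ℝ) : EReal) = _
  rw [← EReal.coe_sub]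
  congr 1
  push_cast
  ring

end build

section pair

variable {k K : Type u} [Field k] [IsAlgClosed k] [CharZero k] [Field K] [Algebra k K] {n d : ℕ}

theorem exists_div (P : CIPair k K n d) (hc : ∀ j, 0 ≤ P.coef j) (w : Fin n → ℤ)
    (hw : IntPt P.v w) (hprim : ∃ m : Fin n → ℤ, m ⬝ᵥ w = 1) (ht : InTrop P.g w) :
    ∃ E : PrimeDivisor k K d, P.Over E ∧ P.vec E = w ∧ P.a E ≤ ((P.aw w : ℝ) : EReal) ∧
      P.aX E ≤ ((P.Aw w : ℝ) : EReal) := by
  obtain ⟨E, hvec, hres⟩ := P.toGerm.exists_divisor w hprim (P.nondeg_g hw) ht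
  have hover : P.Over E := by
    intro m hm hm0
    rw [P.toGerm.ord_mono, hvec]
    exact_mod_cast hw m hm hm0
  refine ⟨E, hover, hvec, ?_, ?_⟩
  · have h1 : ((pair P.m0 (P.vec E) - ∑ j, P.coef j * (E.ordZ (ev P.x (P.f j)) : ℝ) : ℝ) : EReal) ≤
        ((pair P.m0 w - ∑ j, P.coef j * (phi (P.f j) w : ℝ) : ℝ) : EReal) := by
      rw [EReal.coe_le_coe_iff, hvec]
      refine sub_le_sub le_rfl (Finset.sum_le_sum fun j _ => ?_)
      refine mul_le_mul_of_nonneg_left ?_ (hc j)
      have h2 := P.toGerm.phi_le_ord E (P.f_ne j)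
      rw [hvec] at h2
      exact_mod_cast h2
    have h3 : 1 + P.resOrd E ≤ 1 + ((-1 - ∑ l, (phi (P.g l) w : ℝ) : ℝ) : EReal) :=
      add_le_add le_rfl hres
    refine (add_le_add h3 h1).trans (le_of_eq ?_)
    have e1 : (1 : EReal) = ((1 : ℝ) : EReal) := rfl
    rw [e1, ← EReal.coe_add, ← EReal.coe_add]
    congr 1
    unfold CIPair.aw
    ring
  · have h3 : 1 + P.resOrd E ≤ 1 + ((-1 - ∑ l, (phi (P.g l) w : ℝ) : ℝ) : EReal) :=
      add_le_add le_rfl hres
    have h1 : ((pair (fun i => (P.mK i : ℝ)) (P.vec E) : ℝ) : EReal) ≤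
        ((pair (fun i => (P.mK i : ℝ)) w : ℝ) : EReal) := by rw [hvec]
    refine (add_le_add h3 h1).trans (le_of_eq ?_)
    have e1 : (1 : EReal) = ((1 : ℝ) : EReal) := rfl
    rw [e1, ← EReal.coe_add, ← EReal.coe_add]
    congr 1
    unfold CIPair.Aw
    ring

end pair

/-- The main theorem. -/
theorem ci_main (n : ℕ) (Γ : Set ℝ) (hΓ : Γ ⊆ Set.Icc 0 1)
    (hdcc : ¬ ∃ u : ℕ → ℝ, StrictAnti u ∧ ∀ i, u i ∈ Γ) :
    ∃ l : ℝ, 0 < l ∧ ∀ (d : ℕ) (k K : Type u) [Field k] [IsAlgClosed k] [CharZero k] [Field K]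
      [Algebra k K] (P : CIPair k K n d), P.CoefIn Γ → P.IsLC → (∃ E, P.Over E) →
      ∃ E : PrimeDivisor k K d, P.Over E ∧ P.a E = P.mld ∧ P.aX E ≤ (l : EReal) :=
  ci_main_of (fun _ _ _ _ _ _ _ _ _ P E hE => ci_low P E hE)
    (fun _ _ _ _ _ _ _ _ _ P hc w hw hprim ht => exists_div P hc w hw hprim ht) n Γ hΓ hdcc

end Pool.Agent.Work.MP_43381c_ag
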