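import Pool.Agent.Work.MP_43381c_ag.CI.Low

/-!
# The valuation of an arc
-/

open MvPolynomial Matrix

namespace Pool.Agent.Work.MP_43381c_ag

section unit

variable {L : Type*} [Field L]

theorem V_ops_nonneg (f : PowerSeries L) :
    0 ≤ HahnSeries.addVal ℤ L (HahnSeries.ofPowerSeries ℤ L f) := by
  rw [HahnSeries.addVal_apply, HahnSeries.le_orderTop_iff_forall]
  intro j hj
  have hj' : j < 0 := by exact_mod_cast hj
  have h := PowerSeries.coeff_coe f j
  rw [if_pos hj'] at h
  exact h

theorem V_ops_unit {f : PowerSeries L} (hf : PowerSeries.constantCoeff f ≠ 0) :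
    HahnSeries.addVal ℤ L (HahnSeries.ofPowerSeries ℤ L f) = 0 := by
  have h1 : f * f⁻¹ = 1 := PowerSeries.mul_inv_cancel f hf
  have h2 := V_ops_nonneg f
  have h3 := V_ops_nonneg f⁻¹
  have h4 := congrArg (fun a => HahnSeries.addVal ℤ L (HahnSeries.ofPowerSeries ℤ L a)) h1
  simp only [map_mul, map_one, AddValuation.map_mul, AddValuation.map_one] at h4
  refine le_antisymm ?_ h2
  rw [← h4]
  exact le_add_of_nonneg_right h3

theorem V_t : HahnSeries.addVal ℤ L (HahnSeries.single (1 : ℤ) (1 : L)) = 1 := by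
  rw [HahnSeries.addVal_apply, HahnSeries.orderTop_single one_ne_zero]
  rfl

theorem V_C {a : L} (ha : a ≠ 0) : HahnSeries.addVal ℤ L (HahnSeries.C a) = 0 := by
  rw [HahnSeries.addVal_apply, HahnSeries.C_apply, HahnSeries.orderTop_single ha]
  rfl

end unit

section arc

variable {k L : Type*} [Field k] [Field L] [Algebra k L] {n : ℕ}

theorem algebraMap_ops (a : k) : algebraMap k (HahnSeries ℤ L) a =
    HahnSeries.ofPowerSeries ℤ L (PowerSeries.C (algebraMap k L a)) := by
  rw [HahnSeries.algebraMap_apply', PowerSeries.algebraMap_apply]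

theorem V_algebraMap {a : k} (ha : a ≠ 0) :
    HahnSeries.addVal ℤ L (algebraMap k (HahnSeries ℤ L) a) = 0 := by
  rw [algebraMap_ops, HahnSeries.ofPowerSeries_C]
  exact V_C (by rwa [Ne, map_eq_zero])

variable {z : Fin n → L} {Y : Fin n → PowerSeries L}

theorem aeval_ops (P : MvPolynomial (Fin n) k) :
    aeval (fun b => HahnSeries.ofPowerSeries ℤ L (Y b)) P =
      HahnSeries.ofPowerSeries ℤ L (aeval Y P) := by
  induction P using MvPolynomial.induction_on with
  | C a =>
    rw [aeval_C, aeval_C, algebraMap_ops, PowerSeries.algebraMap_apply]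
  | add P Q hP hQ => rw [map_add, map_add, map_add, hP, hQ]
  | mul_X P i hP => rw [map_mul, map_mul, map_mul, hP, aeval_X, aeval_X]

theorem aeval_cc (hY : ∀ b, PowerSeries.constantCoeff (Y b) = z b)
    (P : MvPolynomial (Fin n) k) :
    PowerSeries.constantCoeff (aeval Y P) = aeval z P := by
  induction P using MvPolynomial.induction_on with
  | C a =>
    rw [aeval_C, aeval_C, PowerSeries.algebraMap_apply]
    exact PowerSeries.constantCoeff_C _
  | add P Q hP hQ => rw [map_add, map_add, map_add, hP, hQ]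
  | mul_X P i hP => rw [map_mul, map_mul, map_mul, hP, aeval_X, aeval_X, hY]

theorem V_aeval (hY : ∀ b, PowerSeries.constantCoeff (Y b) = z b)
    {P : MvPolynomial (Fin n) k} (hP : aeval z P ≠ 0) :
    HahnSeries.addVal ℤ L (aeval (fun b => HahnSeries.ofPowerSeries ℤ L (Y b)) P) = 0 := by
  rw [aeval_ops]
  apply V_ops_unit
  rw [aeval_cc hY]
  exact hP

/-- the arc -/
noncomputable def arc (Y : Fin n → PowerSeries L) (w : Fin n → ℤ) : Fin n → HahnSeries ℤ L :=
  fun b => HahnSeries.ofPowerSeries ℤ L (Y b) * (HahnSeries.single (1 : ℤ) (1 : L)) ^ w b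

variable (w : Fin n → ℤ)

theorem V_u (hz : ∀ b, z b ≠ 0) (hY : ∀ b, PowerSeries.constantCoeff (Y b) = z b) (b : Fin n) :
    HahnSeries.addVal ℤ L (HahnSeries.ofPowerSeries ℤ L (Y b)) = 0 :=
  V_ops_unit (by rw [hY]; exact hz b)

theorem V_arc (hz : ∀ b, z b ≠ 0) (hY : ∀ b, PowerSeries.constantCoeff (Y b) = z b) (b : Fin n) :
    HahnSeries.addVal ℤ L (arc Y w b) = ((w b : ℤ) : WithTop ℤ) := by
  unfold arc
  rw [AddValuation.map_mul, V_u hz hY, zero_add, v_zpow (n := 1) _ (by rw [V_t]; rfl), mul_one]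

theorem t_ne : (HahnSeries.single (1 : ℤ) (1 : L)) ≠ 0 := HahnSeries.single_ne_zero one_ne_zero

theorem arc_ne (hz : ∀ b, z b ≠ 0) (hY : ∀ b, PowerSeries.constantCoeff (Y b) = z b) (b : Fin n) :
    arc Y w b ≠ 0 := by
  intro h
  have h1 := V_arc w hz hY b
  rw [h, AddValuation.map_zero] at h1
  exact WithTop.top_ne_coe h1

theorem mono_arc (m : Fin n → ℤ) : mono (arc Y w) m =
    mono (fun b => HahnSeries.ofPowerSeries ℤ L (Y b)) m *
      (HahnSeries.single (1 : ℤ) (1 : L)) ^ (m ⬝ᵥ w) := by
  rw [← mono_zpow t_ne, ← mono_mul]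
  rfl

/-- the valuation of the Jacobian determinant on the arc -/
theorem V_det_arc {c : ℕ} (hz : ∀ b, z b ≠ 0) (hY : ∀ b, PowerSeries.constantCoeff (Y b) = z b)
    (g : Fin c → (Fin n → ℤ) →₀ k) (ρ : Fin c → Fin n)
    (hdet : (Matrix.of fun l j => dev z (ρ j) (init (g l) w)).det ≠ 0) :
    HahnSeries.addVal ℤ L (Matrix.of fun l j => dev (arc Y w) (ρ j) (g l)).det =
      ((∑ l, phi (g l) w : ℤ) : WithTop ℤ) := by
  classical
  set V := HahnSeries.addVal ℤ L with hV
  set t : HahnSeries ℤ L := HahnSeries.single (1 : ℤ) (1 : L) with ht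
  set u : Fin n → HahnSeries ℤ L := fun b => HahnSeries.ofPowerSeries ℤ L (Y b) with hu
  have hVt : V t = 1 := V_t
  have hVt' : V t = ((1 : ℤ) : WithTop ℤ) := by rw [hVt]; rfl
  have hVu : ∀ b, V (u b) = 0 := V_u hz hY
  have hu0 : ∀ b, u b ≠ 0 := by
    intro b h
    have h1 := hVu b
    rw [h, AddValuation.map_zero] at h1
    exact WithTop.top_ne_zero h1
  have hVm : ∀ m, V (mono u m) = 0 := fun m => by
    rw [v_mono V (w := fun _ => 0) (fun i => by rw [hVu i]; rfl) m]
    simp [dotProduct]
  have hk : ∀ a : k, a ≠ 0 → V (algebraMap k (HahnSeries ℤ L) a) = 0 := fun a ha =>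
    V_algebraMap ha
  -- the initial determinant is a unit
  set N : Fin n → ℕ := fun i => ∑ l, shN (init (g l) w).support i with hN
  have hNg : ∀ l, ∀ m ∈ (init (g l) w).support, ∀ i, 0 ≤ m i + (N i : ℤ) := by
    intro l m hm i
    have h1 := shN_le hm i
    have h3 : shN (init (g l) w).support i ≤ N i :=
      Finset.single_le_sum (f := fun l => shN (init (g l) w).support i)
        (fun _ _ => Nat.zero_le _) (Finset.mem_univ l)
    omega
  set M : Matrix (Fin c) (Fin c) (MvPolynomial (Fin n) k) := Matrix.of fun l j =>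
    shP N (init (g l) w).support (fun m => init (g l) w m * (m (ρ j) : k)) with hM
  have hdetz : aeval z M.det = mono z (fun i => (N i : ℤ)) ^ (Fintype.card (Fin c)) *
      (Matrix.of fun l j => dev z (ρ j) (init (g l) w)).det := by
    rw [aeval_det, ← Matrix.det_smul]
    congr 1
    ext l j
    simp only [hM, Matrix.of_apply, Matrix.smul_apply, smul_eq_mul]
    rw [aeval_shP _ _ _ hz (hNg l), dev_eq]
    congr 1
    refine Finset.sum_congr rfl fun m _ => ?_
    rw [map_mul, map_intCast]
  have hdetu : aeval u M.det = mono u (fun i => (N i : ℤ)) ^ (Fintype.card (Fin c)) *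
      (Matrix.of fun l j => dev u (ρ j) (init (g l) w)).det := by
    rw [aeval_det, ← Matrix.det_smul]
    refine congrArg Matrix.det (Matrix.ext fun l j => ?_)
    simp only [hM, Matrix.of_apply, Matrix.smul_apply, smul_eq_mul]
    rw [aeval_shP _ _ _ hu0 (hNg l), dev_eq]
    refine congrArg (fun s => mono u (fun i => (N i : ℤ)) * s) ?_
    refine Finset.sum_congr rfl fun m _ => ?_
    rw [map_mul, map_intCast]
  have h1 : V (aeval u M.det) = 0 := V_aeval hY (by
    rw [hdetz]
    exact mul_ne_zero (pow_ne_zero _ (mono_ne_zero hz _)) hdet)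
  have h2 : V (Matrix.of fun l j => dev u (ρ j) (init (g l) w)).det = 0 := by
    rw [hdetu, AddValuation.map_mul, AddValuation.map_pow, hVm, smul_zero, zero_add] at h1
    exact h1
  -- congruences
  have hxu : ∀ m, mono (arc Y w) m = mono u m * t ^ (m ⬝ᵥ w) := mono_arc w
  have hc2 : ∀ l b, 0 ≤ V (t ^ (-phi (g l) w) * dev (arc Y w) b (g l)) ∧
      0 < V (t ^ (-phi (g l) w) * dev (arc Y w) b (g l) - dev u b (init (g l) w)) := by
    intro l b
    have h1 := g_congr V hVt w hVu hxu (g l)
      (fun m => algebraMap k (HahnSeries ℤ L) (g l m) * (m b : HahnSeries ℤ L))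
      (fun m => by
        rw [AddValuation.map_mul]
        exact add_nonneg (v_const_nonneg V hk _) (v_intCast V _))
    rw [dev_eq, dev_eq, init_sum (g l) w
      (fun m c => algebraMap k (HahnSeries ℤ L) c * (m b : HahnSeries ℤ L) * mono u m)]
    exact h1
  have hdu : ∀ l b, 0 ≤ V (dev u b (init (g l) w)) := by
    intro l b
    rw [dev_eq]
    refine AddValuation.map_le_sum V fun m _ => ?_
    rw [AddValuation.map_mul, AddValuation.map_mul, hVm, add_zero]
    exact add_nonneg (v_const_nonneg V hk _) (v_intCast V _)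
  have h3 := v_det_congr V
    (Matrix.of fun l j => t ^ (-phi (g l) w) * dev (arc Y w) (ρ j) (g l))
    (Matrix.of fun l j => dev u (ρ j) (init (g l) w))
    (fun i j => (hc2 _ _).1) (fun i j => hdu _ _) (fun i j => (hc2 _ _).2)
  have h4 : V (Matrix.of fun l j => t ^ (-phi (g l) w) * dev (arc Y w) (ρ j) (g l)).det = 0 := by
    have h5 : (Matrix.of fun l j => t ^ (-phi (g l) w) * dev (arc Y w) (ρ j) (g l)).det =
        (Matrix.of fun l j => dev u (ρ j) (init (g l) w)).det +
        ((Matrix.of fun l j => t ^ (-phi (g l) w) * dev (arc Y w) (ρ j) (g l)).det -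
          (Matrix.of fun l j => dev u (ρ j) (init (g l) w)).det) := by ring
    rw [h5, AddValuation.map_add_eq_of_lt_left, h2]
    rw [h2]
    exact h3
  have h5 : (Matrix.of fun l j => t ^ (-phi (g l) w) * dev (arc Y w) (ρ j) (g l)) =
      Matrix.diagonal (fun l => t ^ (-phi (g l) w)) *
        (Matrix.of fun l j => dev (arc Y w) (ρ j) (g l)) := by
    refine Matrix.ext fun l j => ?_
    rw [Matrix.diagonal_mul]
    rfl
  rw [h5, Matrix.det_mul, Matrix.det_diagonal, AddValuation.map_mul, ← zpow_sum' t_ne,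
    v_zpow V hVt', mul_one, Finset.sum_neg_distrib] at h4
  revert h4
  generalize V (Matrix.of fun l j => dev (arc Y w) (ρ j) (g l)).det = q
  generalize ∑ l, phi (g l) w = T
  intro h4
  induction q using WithTop.recTopCoe with
  | top =>
    rw [WithTop.add_top] at h4
    exact absurd h4 WithTop.top_ne_zero
  | coe q =>
    have h6 : -T + q = 0 := by exact_mod_cast h4
    have h7 : q = T := by omega
    rw [h7]

end arc

end Pool.Agent.Work.MP_43381c_ag
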