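import Pool.Agent.Work.MP_43381c_ag.CombD

/-!
# The orthant theorem with eliminated coordinates
-/

namespace Pool.Agent.Work.MP_43381c_ag

/-- The orthant theorem, any finite index type for the hypersurfaces. -/
theorem orthant_fin (n : ℕ) {G : Set ℝ} (hG1 : ∀ g ∈ G, 0 ≤ g ∧ g ≤ 1) (hG : DCC G) :
    ∃ l : ℝ, ∀ (Λ : AddSubgroup (Fin n → ℝ)) (_ : ∀ i, Pi.single i (1 : ℝ) ∈ Λ) (ι : Type)
      [Fintype ι] (b : Fin n → ℝ) (_ : ∀ i, b i ∈ G) (c : ι → ℝ) (_ : ∀ j, c j = 0 ∨ c j ∈ G)
      (S : ι → Finset (Fin n → ℕ)) (_ : ∀ j, (S j).Nonempty) (a : (Fin n → ℝ) → ℝ)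
      (_ : ∀ u, (∀ i, 0 < u i) → a u = ∑ i, (1 - b i) * u i - ∑ j, c j * ph (S j) u)
      (_ : ∀ u ∈ Λ, (∀ i, 0 < u i) → 0 ≤ a u), ∀ u ∈ Λ, (∀ i, 0 < u i) →
      ∃ u' ∈ Λ, (∀ i, 0 < u' i) ∧ a u' ≤ a u ∧ ∑ i, u' i ≤ l := by
  obtain ⟨l, hl⟩ := orthant n hG1 hG
  refine ⟨l, ?_⟩
  intro Λ hΛ ι _ b hb c hc S hS a ha lc u hu hpos
  let e := (Fintype.equivFin ι).symm
  have hsum : ∀ u, ∑ j, c j * ph (S j) u = ∑ t, c (e t) * ph (S (e t)) u :=
    fun u => (Equiv.sum_comp e (fun j => c j * ph (S j) u)).symm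
  obtain ⟨u', h1, h2, h3, h4⟩ := hl Λ hΛ (Fintype.card ι) b hb (fun t => c (e t)) (fun t => hc _)
    (fun t => S (e t)) (fun t => hS _) (fun v hv hvp => by
      have := lc v hv hvp
      rw [ha v hvp, hsum] at this
      exact this) u hu hpos
  refine ⟨u', h1, h2, ?_, h4⟩
  rw [ha u' h2, ha u hpos, hsum, hsum]
  exact h3

/-- the coordinates outside the range of `emb` are the minimum of the representatives -/
def Cmp {N' N p : ℕ} (emb : Fin N' → Fin N) (rep : Fin (p + 1) → Fin N') (u : Fin N → ℝ) : Prop :=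
  ∀ i, i ∉ Set.range emb → (∀ a, u i ≤ u (emb (rep a))) ∧ ∃ a, u i = u (emb (rep a))

section

variable {N' N p : ℕ} (emb : Fin N' → Fin N) (rep : Fin (p + 1) → Fin N')

/-- minimum of the representatives -/
noncomputable def mu (u : Fin N' → ℝ) : ℝ :=
  Finset.univ.inf' Finset.univ_nonempty (fun a : Fin (p + 1) => u (rep a))

theorem mu_le (u : Fin N' → ℝ) (a : Fin (p + 1)) : mu rep u ≤ u (rep a) :=
  Finset.inf'_le _ (Finset.mem_univ a)

theorem exists_mu (u : Fin N' → ℝ) : ∃ a, mu rep u = u (rep a) := by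
  obtain ⟨a, _, ha⟩ := Finset.exists_mem_eq_inf' Finset.univ_nonempty
    (fun a : Fin (p + 1) => u (rep a))
  exact ⟨a, ha⟩

open Classical in
/-- extension of a vector of kept coordinates -/
noncomputable def extv (u : Fin N' → ℝ) (i : Fin N) : ℝ :=
  if h : ∃ j, emb j = i then u h.choose else mu rep u

theorem extv_emb (hemb : Function.Injective emb) (u : Fin N' → ℝ) (j : Fin N') :
    extv emb rep u (emb j) = u j := by
  have h : ∃ j', emb j' = emb j := ⟨j, rfl⟩
  rw [extv, dif_pos h]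
  congr 1
  exact hemb h.choose_spec

theorem extv_not {i : Fin N} (hi : i ∉ Set.range emb) (u : Fin N' → ℝ) :
    extv emb rep u i = mu rep u := by
  have h : ¬ ∃ j', emb j' = i := fun h => hi h
  rw [extv, dif_neg h]

theorem extv_cmp (hemb : Function.Injective emb) (u : Fin N' → ℝ) :
    Cmp emb rep (extv emb rep u) := by
  intro i hi
  rw [extv_not emb rep hi]
  refine ⟨fun a => ?_, ?_⟩
  · rw [extv_emb emb rep hemb]; exact mu_le rep u a
  · obtain ⟨a, ha⟩ := exists_mu rep u
    exact ⟨a, by rw [ha, extv_emb emb rep hemb]⟩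

theorem extv_of_cmp (hemb : Function.Injective emb) {u : Fin N → ℝ} (hu : Cmp emb rep u) :
    extv emb rep (fun j => u (emb j)) = u := by
  funext i
  by_cases hi : i ∈ Set.range emb
  · obtain ⟨j, rfl⟩ := hi
    rw [extv_emb emb rep hemb]
  · rw [extv_not emb rep hi]
    obtain ⟨h1, a, h2⟩ := hu i hi
    apply le_antisymm
    · rw [h2]
      exact mu_le rep _ a
    · obtain ⟨a', ha'⟩ := exists_mu rep (fun j => u (emb j))
      rw [ha']
      exact h1 a'

theorem extv_pos {u : Fin N' → ℝ} (hu : ∀ i, 0 < u i) (i : Fin N) : 0 < extv emb rep u i := by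
  by_cases h : ∃ j, emb j = i
  · rw [extv, dif_pos h]; exact hu _
  · rw [extv, dif_neg h]
    obtain ⟨a, ha⟩ := exists_mu rep u
    rw [ha]; exact hu _

open Classical in
/-- the eliminated indices -/
noncomputable def elim : Finset (Fin N) := Finset.univ.filter fun i => i ∉ Set.range emb

theorem mem_elim {i : Fin N} : i ∈ elim emb ↔ i ∉ Set.range emb := by
  classical
  simp [elim]

/-- splitting of a sum in kept and eliminated indices -/
theorem sum_split (hemb : Function.Injective emb) {M : Type*} [AddCommMonoid M] (f : Fin N → M) :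
    ∑ i, f i = ∑ j, f (emb j) + ∑ i ∈ elim emb, f i := by
  classical
  have h1 : Finset.univ.filter (fun i => ¬ i ∉ Set.range emb) = Finset.univ.image emb := by
    ext i
    simp
  rw [elim, ← Finset.sum_filter_not_add_sum_filter Finset.univ (fun i => i ∉ Set.range emb), h1,
    Finset.sum_image fun a _ b _ h => hemb h]

open Classical in
/-- exponents after the elimination -/
noncomputable def push (α : Fin N → ℕ) (a : Fin (p + 1)) : Fin N' → ℕ :=
  fun j => α (emb j) + if j = rep a then ∑ i ∈ elim emb, α i else 0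

theorem sum_push (α : Fin N → ℕ) (a : Fin (p + 1)) (u : Fin N' → ℝ) :
    ∑ j, (push emb rep α a j : ℝ) * u j =
      ∑ j, (α (emb j) : ℝ) * u j + (∑ i ∈ elim emb, (α i : ℝ)) * u (rep a) := by
  classical
  unfold push
  push_cast
  simp only [add_mul, Finset.sum_add_distrib, ite_mul, zero_mul]
  rw [Finset.sum_ite_eq' Finset.univ (rep a)]
  simp

theorem sum_extv (hemb : Function.Injective emb) (α : Fin N → ℕ) (u : Fin N' → ℝ) :
    ∑ i, (α i : ℝ) * extv emb rep u i =
      ∑ j, (α (emb j) : ℝ) * u j + (∑ i ∈ elim emb, (α i : ℝ)) * mu rep u := by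
  rw [sum_split emb hemb, Finset.sum_mul]
  congr 1
  · exact Finset.sum_congr rfl fun j _ => by rw [extv_emb emb rep hemb]
  · exact Finset.sum_congr rfl fun i hi => by rw [extv_not emb rep ((mem_elim emb).1 hi)]

open Classical in
/-- the set of exponents after the elimination -/
noncomputable def pushS (T : Finset (Fin N → ℕ)) : Finset (Fin N' → ℕ) :=
  (T ×ˢ (Finset.univ : Finset (Fin (p + 1)))).image fun x => push emb rep x.1 x.2

theorem pushS_nonempty {T : Finset (Fin N → ℕ)} (hT : T.Nonempty) :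
    (pushS emb rep T).Nonempty := by
  classical
  exact (hT.product Finset.univ_nonempty).image _

theorem ph_pushS (hemb : Function.Injective emb) {T : Finset (Fin N → ℕ)} (hT : T.Nonempty)
    (u : Fin N' → ℝ) : ph (pushS emb rep T) u = ph T (extv emb rep u) := by
  classical
  obtain ⟨m1, hm1, he1, hle1⟩ := ph_spec (pushS_nonempty emb rep hT) u
  obtain ⟨m2, hm2, he2, hle2⟩ := ph_spec hT (extv emb rep u)
  obtain ⟨⟨α, a⟩, hx, rfl⟩ := Finset.mem_image.1 hm1
  have hα := (Finset.mem_product.1 hx).1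
  have hnn : ∀ α : Fin N → ℕ, 0 ≤ ∑ i ∈ elim emb, (α i : ℝ) := fun α =>
    Finset.sum_nonneg fun i _ => Nat.cast_nonneg _
  apply le_antisymm
  · obtain ⟨a', ha'⟩ := exists_mu rep u
    have h1 := hle1 (push emb rep m2 a') (Finset.mem_image.2 ⟨(m2, a'),
      Finset.mem_product.2 ⟨hm2, Finset.mem_univ _⟩, rfl⟩)
    rw [sum_push, ← ha', ← sum_extv emb rep hemb, ← he2] at h1
    exact h1
  · rw [he1]
    simp only
    rw [sum_push]
    have h1 := hle2 α hα
    rw [sum_extv emb rep hemb] at h1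
    have h2 := mul_le_mul_of_nonneg_left (mu_le rep u a) (hnn α)
    linarith

theorem ph_single (u : Fin N' → ℝ) :
    ph (Finset.univ.image fun a : Fin (p + 1) => (Pi.single (rep a) 1 : Fin N' → ℕ)) u =
      mu rep u := by
  classical
  have hval : ∀ a : Fin (p + 1), ∑ i, (((Pi.single (rep a) 1 : Fin N' → ℕ) i : ℕ) : ℝ) * u i =
      u (rep a) := by
    intro a
    rw [Finset.sum_eq_single (rep a)]
    · simp
    · intro i _ hi
      simp [hi]
    · simp
  obtain ⟨m1, hm1, he1, hle1⟩ := ph_spec (S := Finset.univ.image fun a : Fin (p + 1) =>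
    (Pi.single (rep a) 1 : Fin N' → ℕ)) (Finset.univ_nonempty.image _) u
  obtain ⟨a, _, rfl⟩ := Finset.mem_image.1 hm1
  apply le_antisymm
  · obtain ⟨a', ha'⟩ := exists_mu rep u
    rw [ha', ← hval a']
    exact hle1 _ (Finset.mem_image_of_mem _ (Finset.mem_univ a'))
  · rw [he1, hval]
    exact mu_le rep u a

end

/-- The orthant theorem with eliminated coordinates. -/
theorem orthant_elim (D : ℕ) {G : Set ℝ} (hG1 : ∀ g ∈ G, 0 ≤ g ∧ g ≤ 1) (hG : DCC G) :
    ∃ l : ℝ, 0 < l ∧ ∀ (N' N p s : ℕ) (_ : N' ≤ D) (emb : Fin N' → Fin N)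
      (_ : Function.Injective emb) (rep : Fin (p + 1) → Fin N')
      (ell : {i : Fin N // i ∉ Set.range emb} → Fin s) (_ : Function.Injective ell)
      (Λ : AddSubgroup (Fin N → ℝ)) (_ : ∀ i, Pi.single i (1 : ℝ) ∈ Λ)
      (_ : ∀ u ∈ Λ, ∀ i, i ∉ Set.range emb → ∀ a, ∃ z : ℤ, u i = u (emb (rep a)) + z)
      (b : Fin N → ℝ) (_ : ∀ i, b i ∈ G) (c : Fin s → ℝ) (_ : ∀ j, c j = 0 ∨ c j ∈ G)
      (_ : ∀ i, c (ell i) = 1)
      (S : Fin s → Finset (Fin N → ℕ)) (_ : ∀ j, (S j).Nonempty)
      (_ : ∀ u : Fin N → ℝ, (∀ i, 0 < u i) → Cmp emb rep u → ∀ i, ph (S (ell i)) u = u i.1)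
      (_ : ∀ u ∈ Λ, (∀ i, 0 < u i) → Cmp emb rep u → 0 ≤ aw b c S u),
      ∀ u ∈ Λ, (∀ i, 0 < u i) → Cmp emb rep u →
      ∃ u' ∈ Λ, (∀ i, 0 < u' i) ∧ Cmp emb rep u' ∧ aw b c S u' ≤ aw b c S u ∧
        ∑ j, u' (emb j) ≤ l := by
  classical
  choose L hL using fun n : ℕ => orthant_fin n hG1 hG
  refine ⟨1 + ∑ n ∈ Finset.range (D + 1), |L n|, ?_, ?_⟩
  · have : 0 ≤ ∑ n ∈ Finset.range (D + 1), |L n| := Finset.sum_nonneg fun _ _ => abs_nonneg _
    linarith
  intro N' N p s hN' emb hemb rep ell hell Λ hΛ hint b hb c hc hc1 S hS hph lc u hu hpos hcmp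
  -- the reduced lattice
  let R : (Fin N → ℝ) →+ (Fin N' → ℝ) :=
    { toFun := fun u j => u (emb j)
      map_zero' := rfl
      map_add' := fun _ _ => rfl }
  have hR : ∀ u j, R u j = u (emb j) := fun _ _ => rfl
  set Λ' : AddSubgroup (Fin N' → ℝ) := Λ.map R with hΛ'
  have hΛ1 : ∀ j, Pi.single j (1 : ℝ) ∈ Λ' := by
    intro j
    refine ⟨Pi.single (emb j) 1, hΛ _, ?_⟩
    funext j'
    rw [hR]
    by_cases h : j' = j
    · subst h; simp
    · rw [Pi.single_eq_of_ne h, Pi.single_eq_of_ne fun h' => h (hemb h')]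
  have hintmem : ∀ z : Fin N → ℤ, (fun i => (z i : ℝ)) ∈ Λ := by
    intro z
    have : (fun i => (z i : ℝ)) = ∑ i, z i • (Pi.single i (1 : ℝ) : Fin N → ℝ) := by
      funext j
      simp only [Finset.sum_apply, zsmul_eq_mul]
      rw [Finset.sum_eq_single j]
      · simp
      · intro i _ hij
        simp [Ne.symm hij]
      · simp
    rw [this]
    exact Λ.sum_mem fun i _ => Λ.zsmul_mem (hΛ i) _
  have hext : ∀ u' ∈ Λ', extv emb rep u' ∈ Λ := by
    rintro u' ⟨w, hw, rfl⟩
    have h1 : ∀ i, ∃ z : ℤ, extv emb rep (R w) i = w i + z := by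
      intro i
      by_cases hi : i ∈ Set.range emb
      · obtain ⟨j, rfl⟩ := hi
        exact ⟨0, by rw [extv_emb emb rep hemb, hR]; simp⟩
      · rw [extv_not emb rep hi]
        obtain ⟨a, ha⟩ := exists_mu rep (R w)
        obtain ⟨z, hz⟩ := hint w hw i hi a
        exact ⟨-z, by rw [ha, hR, hz]; push_cast; ring⟩
    choose z hz using h1
    have h2 : extv emb rep (R w) = w + fun i => (z i : ℝ) := by
      funext i
      rw [hz i]; rfl
    rw [h2]
    exact Λ.add_mem hw (hintmem z)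
  -- the reduced functional
  have hval : ∀ u' : Fin N' → ℝ, (∀ i, 0 < u' i) → aw b c S (extv emb rep u') =
      ∑ j, (1 - b (emb j)) * u' j -
      ∑ x : Fin N ⊕ Fin s, (Sum.elim (fun i => if i ∈ elim emb then b i else 0)
        (fun l => if l ∈ Finset.univ.image ell then 0 else c l) x) *
        ph (Sum.elim (fun _ => Finset.univ.image fun a : Fin (p + 1) =>
          (Pi.single (rep a) 1 : Fin N' → ℕ)) (fun l => pushS emb rep (S l)) x) u' := by
    intro u' hu'
    rw [Fintype.sum_sum_type]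
    simp only [Sum.elim_inl, Sum.elim_inr]
    unfold aw
    rw [sum_split emb hemb]
    have e1 : ∑ j, (1 - b (emb j)) * extv emb rep u' (emb j) = ∑ j, (1 - b (emb j)) * u' j :=
      Finset.sum_congr rfl fun j _ => by rw [extv_emb emb rep hemb]
    have e2 : ∑ i ∈ elim emb, (1 - b i) * extv emb rep u' i =
        ∑ i ∈ elim emb, mu rep u' - ∑ i ∈ elim emb, b i * mu rep u' := by
      rw [← Finset.sum_sub_distrib]
      refine Finset.sum_congr rfl fun i hi => ?_
      rw [extv_not emb rep ((mem_elim emb).1 hi)]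
      ring
    have e3 : ∑ i, (if i ∈ elim emb then b i else 0) *
        ph (Finset.univ.image fun a : Fin (p + 1) => (Pi.single (rep a) 1 : Fin N' → ℕ)) u' =
        ∑ i ∈ elim emb, b i * mu rep u' := by
      rw [ph_single]
      simp only [ite_mul, zero_mul]
      rw [Finset.sum_ite_mem, Finset.univ_inter]
    have e4 : ∑ l, c l * ph (S l) (extv emb rep u') =
        ∑ l ∈ Finset.univ.image ell, c l * ph (S l) (extv emb rep u') +
        ∑ l, (if l ∈ Finset.univ.image ell then 0 else c l) * ph (pushS emb rep (S l)) u' := by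
      have h1 : ∀ l, c l * ph (S l) (extv emb rep u') =
          (if l ∈ Finset.univ.image ell then c l * ph (S l) (extv emb rep u') else 0) +
          (if l ∈ Finset.univ.image ell then 0 else c l) * ph (pushS emb rep (S l)) u' := by
        intro l
        rw [ph_pushS emb rep hemb (hS l)]
        split_ifs <;> ring
      rw [Finset.sum_congr rfl fun l _ => h1 l, Finset.sum_add_distrib]
      congr 1
      rw [Finset.sum_ite_mem, Finset.univ_inter]
    have e5 : ∑ l ∈ Finset.univ.image ell, c l * ph (S l) (extv emb rep u') =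
        ∑ i ∈ elim emb, mu rep u' := by
      rw [Finset.sum_image fun i _ i' _ h => hell h,
        Finset.sum_subtype (elim emb) (fun i => mem_elim emb)]
      refine Finset.sum_congr rfl fun i _ => ?_
      rw [hc1 i, one_mul, hph _ (extv_pos emb rep hu') (extv_cmp emb rep hemb u') i,
        extv_not emb rep i.2]
    rw [e1, e2, e3, e4, e5]
    ring
  obtain ⟨u', h1, h2, h3, h4⟩ := hL N' Λ' hΛ1 (Fin N ⊕ Fin s) (fun j => b (emb j))
    (fun j => hb _) _ (by
      rintro (i | l)
      · simp only [Sum.elim_inl]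
        split_ifs
        · exact Or.inr (hb i)
        · exact Or.inl rfl
      · simp only [Sum.elim_inr]
        split_ifs
        · exact Or.inl rfl
        · exact hc l) _ (by
      rintro (i | l)
      · exact Finset.univ_nonempty.image _
      · exact pushS_nonempty emb rep (hS l)) (fun u' => aw b c S (extv emb rep u')) hval
    (fun u' hu' hp => lc _ (hext u' hu') (extv_pos emb rep hp) (extv_cmp emb rep hemb u'))
    (fun j => u (emb j)) ⟨u, hu, rfl⟩ (fun j => hpos _)
  refine ⟨extv emb rep u', hext u' h1, extv_pos emb rep h2, extv_cmp emb rep hemb u', ?_, ?_⟩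
  · rw [extv_of_cmp emb rep hemb hcmp] at h3
    exact h3
  · have h5 : ∑ j, extv emb rep u' (emb j) = ∑ j, u' j :=
      Finset.sum_congr rfl fun j _ => by rw [extv_emb emb rep hemb]
    rw [h5]
    refine h4.trans ((le_abs_self _).trans ?_)
    have := Finset.single_le_sum (f := fun n => |L n|) (fun _ _ => abs_nonneg _)
      (Finset.mem_range.2 (Nat.lt_succ_of_le hN'))
    linarith

end Pool.Agent.Work.MP_43381c_ag
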