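import Pool.Agent.Work.MP_43381c_ag.CI.ArrSel
import Pool.Agent.Work.MP_43381c_ag.CI.ArrOrth

/-!
# Arrangement varieties: number of multiple blocks, the local exponents
-/

open Matrix

namespace Pool.Agent.Work.MP_43381c_ag

theorem cast_comb {n r N : ℕ} {v : Fin r → Fin n → ℤ} (σ : Fin N → Fin r) (k : Fin N → ℕ)
    (z : Fin n) : (((∑ i, k i • v (σ i)) z : ℤ) : ℝ) = ∑ i, (k i : ℝ) * (v (σ i) z : ℝ) := by
  rw [Finset.sum_apply]
  push_cast
  refine Finset.sum_congr rfl fun i _ => ?_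
  rw [Pi.smul_apply, nsmul_eq_mul]
  push_cast
  rfl

section

variable {n e p r : ℕ} {m : Fin (e + p + 1) → Fin n → ℤ}
  {v : Fin r → Fin n → ℤ} {β : Fin r → Fin (e + p + 1)} {τ : Fin r → ℤ} {μ : Fin r → ℕ}

/-- At most `2 (p + 1)` blocks contain a vector of multiplicity at least two, if `A` is
nonnegative on the integral vectors. -/
theorem card_mult_le (hv : ∀ ρ y, m y ⬝ᵥ v ρ = τ ρ + if y = β ρ then (μ ρ : ℤ) else 0)
    (E : Fin e ⊕ Fin (p + 1) ≃ Fin (e + p + 1)) {N : ℕ} (σ : Fin N → Fin r) {mK : Fin n → ℝ}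
    (hK : ∀ ρ, pair mK (v ρ) = 1 + ∑ _l : Fin e, (τ ρ : ℝ))
    (hnn : ∀ k : Fin N → ℕ, (∀ i, 0 < k i) → 0 ≤ AC mK (TE m E) (∑ i, k i • v (σ i)))
    (hall : ∀ y, ∃ i, β (σ i) = y ∧ 0 < μ (σ i)) {B : Finset (Fin (e + p + 1))}
    (hB : ∀ y ∈ B, ∃ i, β (σ i) = y ∧ 2 ≤ μ (σ i)) : B.card ≤ 2 * (p + 1) := by
  classical
  have hpk : ∀ y, ∃ i, β (σ i) = y ∧ 0 < μ (σ i) ∧ (y ∈ B → 2 ≤ μ (σ i)) := by
    intro y
    by_cases hy : y ∈ B
    · obtain ⟨i, h1, h2⟩ := hB y hy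
      exact ⟨i, h1, by omega, fun _ => h2⟩
    · obtain ⟨i, h1, h2⟩ := hall y
      exact ⟨i, h1, h2, fun h => absurd h hy⟩
  choose pk hpk1 hpk2 hpk3 using hpk
  set W : Fin (e + p + 1) → ℕ := fun y => if y ∈ B then N + 1 else 2 * (N + 1) with hW
  set k : Fin N → ℕ := fun i => 1 + ∑ y ∈ Finset.univ.filter (fun y => pk y = i), W y with hk
  have hkpos : ∀ i, 0 < k i := fun i => by rw [hk]; simp only; omega
  have hkpk : ∀ y, W y + 1 ≤ k (pk y) := by
    intro y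
    have h1 : W y ≤ ∑ y' ∈ Finset.univ.filter (fun y' => pk y' = pk y), W y' :=
      Finset.single_le_sum (f := W) (fun _ _ => Nat.zero_le _)
        (Finset.mem_filter.2 ⟨Finset.mem_univ y, rfl⟩)
    rw [hk]
    simp only
    omega
  have hksum : ∑ i, k i = N + ∑ y, W y := by
    rw [hk, Finset.sum_add_distrib, Finset.sum_fiberwise]
    simp
  have hWsum : ∑ y, W y + B.card * (N + 1) = (e + p + 1) * (2 * (N + 1)) := by
    have h1 : ∑ y, W y + ∑ y : Fin (e + p + 1), (if y ∈ B then N + 1 else 0) =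
        ∑ y : Fin (e + p + 1), 2 * (N + 1) := by
      rw [← Finset.sum_add_distrib]
      refine Finset.sum_congr rfl fun y _ => ?_
      rw [hW]
      simp only
      split_ifs <;> ring
    rw [Finset.sum_ite_mem, Finset.univ_inter, Finset.sum_const, Finset.sum_const,
      Finset.card_univ, Fintype.card_fin, smul_eq_mul, smul_eq_mul] at h1
    exact h1
  -- the value of `A`
  have h0 := hnn k hkpos
  set x : Fin n → ℤ := ∑ i, k i • v (σ i) with hx
  have hxz : ∀ z, (x z : ℝ) = ∑ i, (k i : ℝ) * (v (σ i) z : ℝ) := fun z => cast_comb σ k z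
  have hphi : ∀ l, (∑ i, (k i : ℝ) * (τ (σ i) : ℝ)) + 2 * (N + 1) ≤ (phiS (TE m E l) x : ℝ) := by
    intro l
    obtain ⟨a, ha, hae, _⟩ := phiS_spec (TE_nonempty m E l) x
    obtain ⟨y, rfl⟩ : ∃ y, a = m y := by
      rcases (mem_TE m E).1 ha with h | ⟨a, h⟩
      · exact ⟨_, h⟩
      · exact ⟨_, h⟩
    rw [hae, dot_sum (m := m y) hxz]
    have h1 : ∑ i, (k i : ℝ) * ((m y ⬝ᵥ v (σ i) : ℤ) : ℝ) =
        ∑ i, (k i : ℝ) * (τ (σ i) : ℝ) +
          ∑ i, (k i : ℝ) * (if y = β (σ i) then (μ (σ i) : ℝ) else 0) := by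
      rw [← Finset.sum_add_distrib]
      refine Finset.sum_congr rfl fun i _ => ?_
      rw [hv, ← mul_add]
      congr 1
      push_cast
      rfl
    rw [h1]
    have h2 : (k (pk y) : ℝ) * (if y = β (σ (pk y)) then (μ (σ (pk y)) : ℝ) else 0) ≤
        ∑ i, (k i : ℝ) * (if y = β (σ i) then (μ (σ i) : ℝ) else 0) := by
      refine Finset.single_le_sum
        (f := fun i => (k i : ℝ) * (if y = β (σ i) then (μ (σ i) : ℝ) else 0)) (fun i _ => ?_)
        (Finset.mem_univ (pk y))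
      refine mul_nonneg (Nat.cast_nonneg _) ?_
      split_ifs
      · exact Nat.cast_nonneg _
      · exact le_rfl
    rw [if_pos (hpk1 y).symm] at h2
    have h3 : 2 * (N + 1) ≤ k (pk y) * μ (σ (pk y)) := by
      have h4 := hkpk y
      have h5 := hpk2 y
      by_cases hy : y ∈ B
      · have h6 := hpk3 y hy
        rw [hW] at h4
        simp only [if_pos hy] at h4
        nlinarith
      · rw [hW] at h4
        simp only [if_neg hy] at h4
        nlinarith
    have h4 : ((2 * (N + 1) : ℕ) : ℝ) ≤ ((k (pk y) * μ (σ (pk y)) : ℕ) : ℝ) := by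
      exact_mod_cast h3
    push_cast at h4
    linarith
  have hpair : pair mK x = ∑ i, (k i : ℝ) + ∑ _l : Fin e, ∑ i, (k i : ℝ) * (τ (σ i) : ℝ) := by
    rw [pair_sum hxz, Finset.sum_comm, ← Finset.sum_add_distrib]
    refine Finset.sum_congr rfl fun i _ => ?_
    rw [hK, ← Finset.mul_sum]
    ring
  have hsum := Finset.sum_le_sum fun l (_ : l ∈ (Finset.univ : Finset (Fin e))) => hphi l
  rw [Finset.sum_add_distrib, Finset.sum_const (s := (Finset.univ : Finset (Fin e)))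
    (b := (2 * ((N : ℝ) + 1))), Finset.card_univ, Fintype.card_fin, nsmul_eq_mul] at hsum
  unfold AC at h0
  rw [hpair] at h0
  have h1 : (e : ℝ) * (2 * (N + 1)) ≤ ∑ i, (k i : ℝ) := by linarith
  have h2 : e * (2 * (N + 1)) ≤ ∑ i, k i := by exact_mod_cast h1
  rw [hksum] at h2
  by_contra hcon
  push Not at hcon
  have h3 : (2 * (p + 1) + 1) * (N + 1) ≤ B.card * (N + 1) := Nat.mul_le_mul_right _ hcon
  nlinarith

/-- the sum over a trivial block -/
theorem block_sum {N : ℕ} {σ : Fin N → Fin r} {w : Fin n → ℤ} {j : Fin N}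
    {y : Fin (e + p + 1)} (h : Triv m β μ σ w j y) {F : Type*} [CommRing F] (u : Fin N → F) :
    ∑ i, (if y = β (σ i) then (μ (σ i) : F) else 0) * u i = u j := by
  rw [Finset.sum_eq_single j]
  · rw [if_pos h.1.symm, h.2.1]; simp
  · intro i _ hij
    split_ifs with h1
    · have h2 : μ (σ i) = 0 := by
        by_contra h3
        exact hij (h.2.2.1 i h1.symm (Nat.pos_of_ne_zero h3))
      rw [h2]; simp
    · rw [zero_mul]
  · intro hj; exact absurd (Finset.mem_univ j) hj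

/-- the local exponents of the equations -/
theorem loc_TE (hv : ∀ ρ y, m y ⬝ᵥ v ρ = τ ρ + if y = β ρ then (μ ρ : ℤ) else 0)
    (E : Fin e ⊕ Fin (p + 1) ≃ Fin (e + p + 1)) {N : ℕ} (σ : Fin N → Fin r) (l : Fin e)
    (y : Fin (e + p + 1)) (i : Fin N) :
    (loc (TE m E l) v σ (m y) i : ℝ) = if y = β (σ i) then (μ (σ i) : ℝ) else 0 := by
  unfold loc
  rw [TE_ray m E hv, hv]
  split_ifs
  · rw [add_sub_cancel_left, Int.toNat_natCast]
  · rw [add_zero, sub_self]; simp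

theorem ph_TE (hv : ∀ ρ y, m y ⬝ᵥ v ρ = τ ρ + if y = β ρ then (μ ρ : ℤ) else 0)
    (E : Fin e ⊕ Fin (p + 1) ≃ Fin (e + p + 1)) {N : ℕ} (σ : Fin N → Fin r) {w : Fin n → ℤ}
    {l : Fin e} {i : Fin N} (hi : Triv m β μ σ w i (E (Sum.inl l))) {j : Fin (p + 1) → Fin N}
    (hj : ∀ a, Triv m β μ σ w (j a) (E (Sum.inr a))) {u : Fin N → ℝ}
    (hu : ∀ a, u i ≤ u (j a)) : ph ((TE m E l).image (loc (TE m E l) v σ)) u = u i := by
  classical
  have hval : ∀ y, ∑ i, (loc (TE m E l) v σ (m y) i : ℝ) * u i =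
      ∑ i, (if y = β (σ i) then (μ (σ i) : ℝ) else 0) * u i :=
    fun y => Finset.sum_congr rfl fun i _ => by rw [loc_TE hv]
  obtain ⟨x, hx, hxe, hxle⟩ := ph_spec ((TE_nonempty m E l).image (loc (TE m E l) v σ)) u
  apply le_antisymm
  · have h1 := hxle _ (Finset.mem_image_of_mem (loc (TE m E l) v σ)
      ((mem_TE m E).2 (Or.inl rfl)))
    rw [hval, block_sum hi] at h1
    exact h1
  · rw [hxe]
    obtain ⟨x', hx', rfl⟩ := Finset.mem_image.1 hx
    rcases (mem_TE m E).1 hx' with rfl | ⟨a, rfl⟩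
    · rw [hval, block_sum hi]
    · rw [hval, block_sum (hj a)]
      exact hu a

end

end Pool.Agent.Work.MP_43381c_ag
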