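import Pool.Agent.Work.MP_43381c_ag.CI.ConeRep

/-!
# Arrangement varieties: dimension count
-/

open Matrix

namespace Pool.Agent.Work.MP_43381c_ag

/-- `N` linearly independent vectors on which the exponents `m y`, `y ∈ Z`, agree, the `m y`
affinely independent. -/
theorem card_add_le {N n q : ℕ} {z : Fin N → Fin n → ℤ}
    (hz : LinearIndependent ℝ fun i => rv (z i)) {m : Fin q → Fin n → ℤ}
    (haff : ∀ a : Fin q → ℤ, ∑ y, a y = 0 → ∑ y, a y • m y = 0 → a = 0) {Z : Finset (Fin q)}
    {y₀ : Fin q} (hy₀ : y₀ ∈ Z) (horth : ∀ i, ∀ y ∈ Z, m y ⬝ᵥ z i = m y₀ ⬝ᵥ z i) :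
    N + Z.card ≤ n + 1 := by
  classical
  let f : Fin N ⊕ {y // y ∈ Z.erase y₀} → Fin n → ℤ := Sum.elim z (fun y => m y.1 - m y₀)
  have hf : LinearIndependent ℤ (fun x => (fun l => (f x l : ℚ) : Fin n → ℚ)) := by
    rw [Fintype.linearIndependent_iff]
    intro g hg
    have h0 : ∑ x, g x • f x = 0 := by
      funext l
      have h1 := congrFun hg l
      rw [Finset.sum_apply, Pi.zero_apply] at h1
      have h2 : ∀ x, (g x • (fun l => (f x l : ℚ) : Fin n → ℚ)) l = ((g x * f x l : ℤ) : ℚ) := by
        intro x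
        rw [Pi.smul_apply, zsmul_eq_mul]
        push_cast
        rfl
      rw [Finset.sum_congr rfl fun x _ => h2 x] at h1
      rw [Finset.sum_apply, Pi.zero_apply]
      simp only [Pi.smul_apply, smul_eq_mul]
      exact_mod_cast h1
    rw [Fintype.sum_sum_type] at h0
    set A : Fin n → ℤ := ∑ i, g (Sum.inl i) • z i with hA
    have hA' : ∑ i, g (Sum.inl i) • f (Sum.inl i) = A := rfl
    set B : Fin n → ℤ := ∑ y, g (Sum.inr y) • f (Sum.inr y) with hB
    rw [hA'] at h0
    have hBA : B ⬝ᵥ A = 0 := by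
      rw [hA, dotProduct_sum]
      refine Finset.sum_eq_zero fun i _ => ?_
      rw [dotProduct_smul, hB, sum_dotProduct]
      have h1 : ∑ y, (g (Sum.inr y) • f (Sum.inr y)) ⬝ᵥ z i = 0 := by
        refine Finset.sum_eq_zero fun y _ => ?_
        have h2 : f (Sum.inr y) = m y.1 - m y₀ := rfl
        rw [smul_dotProduct, h2, sub_dotProduct, horth i y.1 (Finset.mem_of_mem_erase y.2),
          sub_self, smul_zero]
      rw [h1, smul_zero]
    have hAA : A ⬝ᵥ A = 0 := by
      have h1 : (A + B) ⬝ᵥ A = 0 ⬝ᵥ A := by rw [h0]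
      rw [add_dotProduct, hBA, add_zero, zero_dotProduct] at h1
      exact h1
    have hA0 : A = 0 := dotProduct_self_eq_zero.1 hAA
    have hB0 : B = 0 := by rw [hA0, zero_add] at h0; exact h0
    -- the first part
    have g1 : ∀ i, g (Sum.inl i) = 0 := by
      intro i
      rw [Fintype.linearIndependent_iff] at hz
      have h1 := hz (fun i => (g (Sum.inl i) : ℝ)) (by
        funext l
        have h2 := congrFun hA0 l
        rw [hA, Finset.sum_apply] at h2
        simp only [Pi.smul_apply, smul_eq_mul, Pi.zero_apply] at h2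
        rw [Finset.sum_apply]
        simp only [Pi.smul_apply, smul_eq_mul, rv, Pi.zero_apply]
        exact_mod_cast h2) i
      exact_mod_cast h1
    -- the second part
    have g2 : ∀ y : {y // y ∈ Z.erase y₀}, g (Sum.inr y) = 0 := by
      set a : Fin q → ℤ := fun y => (if h : y ∈ Z.erase y₀ then g (Sum.inr ⟨y, h⟩) else 0) -
        (if y = y₀ then ∑ y : {y // y ∈ Z.erase y₀}, g (Sum.inr y) else 0) with ha
      have hsum : ∀ (F : Fin q → Fin n → ℤ),
          ∑ y, (if h : y ∈ Z.erase y₀ then g (Sum.inr ⟨y, h⟩) else 0) • F y =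
          ∑ y : {y // y ∈ Z.erase y₀}, g (Sum.inr y) • F y.1 := by
        intro F
        rw [Finset.univ_eq_attach, ← Finset.sum_subset (Finset.subset_univ (Z.erase y₀))
          (fun y _ hy => by rw [dif_neg hy, zero_smul]), ← Finset.sum_attach (Z.erase y₀)]
        refine Finset.sum_congr rfl fun y _ => ?_
        rw [dif_pos y.2]
      have hsum' : ∑ y, (if h : y ∈ Z.erase y₀ then g (Sum.inr ⟨y, h⟩) else 0) =
          ∑ y : {y // y ∈ Z.erase y₀}, g (Sum.inr y) := by
        rw [Finset.univ_eq_attach, ← Finset.sum_subset (Finset.subset_univ (Z.erase y₀))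
          (fun y _ hy => by rw [dif_neg hy]), ← Finset.sum_attach (Z.erase y₀)]
        refine Finset.sum_congr rfl fun y _ => ?_
        rw [dif_pos y.2]
      have ha1 : ∑ y, a y = 0 := by
        rw [ha, Finset.sum_sub_distrib, hsum', Finset.sum_ite_eq' Finset.univ y₀]
        simp
      have ha2 : ∑ y, a y • m y = 0 := by
        simp only [ha, sub_smul]
        rw [Finset.sum_sub_distrib, hsum]
        simp only [ite_smul, zero_smul]
        rw [Finset.sum_ite_eq' Finset.univ y₀, if_pos (Finset.mem_univ _), Finset.sum_smul,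
          ← Finset.sum_sub_distrib, ← hB0, hB]
        refine Finset.sum_congr rfl fun y _ => ?_
        rw [← smul_sub]
        rfl
      have ha0 := haff a ha1 ha2
      intro y
      have h1 := congrFun ha0 y.1
      have h2 : y.1 ≠ y₀ := Finset.ne_of_mem_erase y.2
      simp only [ha, if_neg h2, sub_zero, Pi.zero_apply] at h1
      rw [dif_pos y.2] at h1
      exact h1
    rintro (i | y)
    · exact g1 i
    · exact g2 y
  have hf' := (LinearIndependent.iff_fractionRing ℤ ℚ).1 hf
  have h1 := hf'.fintype_card_le_finrank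
  rw [Fintype.card_sum, Fintype.card_fin, Fintype.card_coe, Finset.card_erase_of_mem hy₀,
    Module.finrank_fin_fun] at h1
  have h2 : 0 < Z.card := Finset.card_pos.2 ⟨y₀, hy₀⟩
  omega

end Pool.Agent.Work.MP_43381c_ag
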