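import Pool.Agent.Work.MP_43381c_ag.CI.FinalOf

/-!
# Minimal embeddings: the codimension of a log canonical germ is at most its dimension
-/

open Matrix

namespace Pool.Agent.Work.MP_43381c_ag

universe u

/-- The ambient toric variety is a quotient of the affine space `A^n` by a finite abelian group
(the cone is simplicial) and in the coordinates of `A^n` every equation has order at least two. -/
def Germ.Minimal {k K : Type*} [Field k] [Field K] [Algebra k K] {n d : ℕ} (X : Germ k K n d) :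
    Prop :=
  X.r = n ∧ ∀ l, ∀ m ∈ (X.g l).support, 2 ≤ ∑ ρ, (m ⬝ᵥ X.v ρ - phi (X.g l) (X.v ρ))

/-- dual vectors of a simplicial cone -/
theorem exists_dual {n r : ℕ} (h : r = n) {v : Fin r → Fin n → ℤ}
    (full : ∀ m : Fin n → ℤ, (∀ ρ, m ⬝ᵥ v ρ = 0) → m = 0) (ρ₀ : Fin r) :
    ∃ m : Fin n → ℤ, 0 < m ⬝ᵥ v ρ₀ ∧ ∀ ρ, ρ ≠ ρ₀ → m ⬝ᵥ v ρ = 0 := by
  classical
  subst h
  set V : Matrix (Fin r) (Fin r) ℤ := Matrix.of v with hV
  have hdet : V.det ≠ 0 := by
    intro h0
    obtain ⟨m, hm, hVm⟩ := Matrix.exists_mulVec_eq_zero_iff.2 h0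
    refine hm (full m fun ρ => ?_)
    have := congrFun hVm ρ
    rw [Matrix.mulVec, Pi.zero_apply] at this
    rw [dotProduct_comm]
    exact this
  have hadj : ∀ ρ, v ρ ⬝ᵥ (fun i => V.adjugate i ρ₀) = if ρ = ρ₀ then V.det else 0 := by
    intro ρ
    have h1 := congrFun (congrFun (Matrix.mul_adjugate V) ρ) ρ₀
    rw [Matrix.mul_apply, Matrix.smul_apply, Matrix.one_apply, smul_eq_mul] at h1
    rw [dotProduct]
    refine Eq.trans ?_ (h1.trans ?_)
    · rfl
    · split_ifs <;> simp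
  refine ⟨fun i => V.det * V.adjugate i ρ₀, ?_, fun ρ hρ => ?_⟩
  · have h1 : (fun i => V.det * V.adjugate i ρ₀) ⬝ᵥ v ρ₀ =
        V.det * (v ρ₀ ⬝ᵥ (fun i => V.adjugate i ρ₀)) := by
      rw [dotProduct, dotProduct, Finset.mul_sum]
      exact Finset.sum_congr rfl fun i _ => by ring
    rw [h1, hadj, if_pos rfl]
    exact mul_self_pos.2 hdet
  · have h1 : (fun i => V.det * V.adjugate i ρ₀) ⬝ᵥ v ρ =
        V.det * (v ρ ⬝ᵥ (fun i => V.adjugate i ρ₀)) := by
      rw [dotProduct, dotProduct, Finset.mul_sum]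
      exact Finset.sum_congr rfl fun i _ => by ring
    rw [h1, hadj, if_neg hρ, mul_zero]

namespace CIPair

variable {k K : Type u} [Field k] [Field K] [Algebra k K] {n d : ℕ} (P : CIPair k K n d)

theorem n_eq : n = d + P.c := by
  have := Fintype.card_congr P.e
  rw [Fintype.card_sum, Fintype.card_fin, Fintype.card_fin, Fintype.card_fin] at this
  exact this.symm

/-- the codimension is at most the dimension -/
theorem le_two_mul [IsAlgClosed k] (hn : 0 < n) (hb : ∀ ρ, 0 ≤ P.b ρ) (hc : ∀ j, 0 ≤ P.coef j)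
    (hmin : P.Minimal)
    (hnn : ∀ w, IntPt P.v w → InTrop P.g w → 0 ≤ P.aw w)
    {w₁ : Fin n → ℤ} (hI : IntPt P.v w₁) (hT : InTrop P.g w₁) : n ≤ 2 * d := by
  classical
  obtain ⟨hrn, hord⟩ := hmin
  have hr : 0 < P.r := by omega
  obtain ⟨M, hM⟩ := exists_pos_char hr P.primitive P.extremal
  obtain ⟨q, hq, σ, c', hc', hw, hlin⟩ := exists_rep_rat hM hr hI
  -- all rays occur
  have hinj : Function.Injective σ := by
    intro i j hij
    have h1 := hlin.injective
    exact h1 (by simp only [hij])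
  have hsurj : Function.Surjective σ := by
    intro ρ₀
    by_contra hcon
    push Not at hcon
    obtain ⟨m, hm0, hm1⟩ := exists_dual hrn P.full ρ₀
    have hne : m ≠ 0 := by
      rintro rfl
      simp at hm0
    have hpos := hI m (fun ρ => by
      by_cases h : ρ = ρ₀
      · rw [h]; exact hm0.le
      · rw [hm1 ρ h]) hne
    have hwR : ∀ z, (w₁ z : ℝ) = ∑ i, (c' i : ℝ) * (P.v (σ i) z : ℝ) := by
      intro z
      have h1 := congrArg (fun y : ℚ => (y : ℝ)) (hw z)
      push_cast at h1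
      exact h1
    have h2 := dot_sum (m := m) hwR
    have h3 : ∑ i, (c' i : ℝ) * ((m ⬝ᵥ P.v (σ i) : ℤ) : ℝ) = 0 :=
      Finset.sum_eq_zero fun i _ => by rw [hm1 (σ i) (hcon i), Int.cast_zero, mul_zero]
    rw [h3] at h2
    have h4 : m ⬝ᵥ w₁ = 0 := by exact_mod_cast h2
    omega
  let eσ : Fin q ≃ Fin P.r := Equiv.ofBijective σ ⟨hinj, hsurj⟩
  have hsum : ∀ {β : Type} [AddCommMonoid β] (F : Fin P.r → β), ∑ i, F (σ i) = ∑ ρ, F ρ := by
    intro β _ F
    exact Equiv.sum_comp eσ F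
  set u : Fin n → ℤ := ∑ ρ, P.v ρ with hu
  have huI : IntPt P.v u := intPt_sum P.full
  -- walk from `u`
  have huq : ∀ z, (u z : ℚ) = ∑ i, (((fun _ => 1 : Fin q → ℤ) i : ℚ) + (0 : ℤ) * c' i) *
      (P.v (σ i) z : ℚ) := by
    intro z
    rw [hu, Finset.sum_apply, ← hsum (fun ρ => P.v ρ z)]
    push_cast
    exact Finset.sum_congr rfl fun i _ => by ring
  obtain ⟨N, hN, m, hm⟩ := exists_multiple hc' hw huq
  obtain ⟨u', hu'I, hu'T, hA, _⟩ := P.walk hb hc σ _ u (N • w₁) huI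
    ((inTrop_smul P.g w₁ hN).2 hT) m rfl hm
  -- `0 ≤ A(u')`
  have hA' : 0 ≤ P.Aw u' := by
    obtain ⟨q', _, σ', c'', hc'', hw'', _⟩ := exists_rep_rat hM hr hu'I
    have hwR : ∀ z, (u' z : ℝ) = ∑ i, (c'' i : ℝ) * (P.v (σ' i) z : ℝ) := by
      intro z
      have h1 := congrArg (fun y : ℚ => (y : ℝ)) (hw'' z)
      push_cast at h1
      exact h1
    exact (hnn u' hu'I hu'T).trans (aC_le_AC (T := fun l => (P.g l).support)
      (S := fun j => (P.f j).support) P.mK_real hb hc P.f_supp P.m0_eq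
      (fun i => by exact_mod_cast (hc'' i).le) hwR)
  have hAu : 0 ≤ P.Aw u := hA'.trans hA
  -- `A(u) ≤ n - 2 c`
  have hphi : ∀ l, ∑ ρ, phi (P.g l) (P.v ρ) + 2 ≤ phi (P.g l) u := by
    intro l
    obtain ⟨m, hm, h⟩ := exists_phi (P.g_ne l) u
    have h1 := hord l m hm
    rw [Finset.sum_sub_distrib] at h1
    rw [← h, hu, dotProduct_sum]
    omega
  have hpair : pair (fun i => (P.mK i : ℝ)) u =
      (P.r : ℝ) + ∑ l, ∑ ρ, (phi (P.g l) (P.v ρ) : ℝ) := by
    have h1 : pair (fun i => (P.mK i : ℝ)) u = ∑ ρ, pair (fun i => (P.mK i : ℝ)) (P.v ρ) := by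
      unfold pair
      rw [Finset.sum_comm]
      refine Finset.sum_congr rfl fun i _ => ?_
      rw [hu, Finset.sum_apply, ← Finset.mul_sum]
      push_cast
      rfl
    rw [h1, Finset.sum_congr rfl fun ρ _ => P.mK_real ρ, Finset.sum_add_distrib,
      Finset.sum_comm (s := (Finset.univ : Finset (Fin P.r)))]
    simp only [Finset.sum_const, Finset.card_univ, Fintype.card_fin, nsmul_eq_mul, mul_one]
    rfl
  have hfin : P.Aw u ≤ (n : ℝ) - 2 * P.c := by
    have h1 : ∑ l, ((∑ ρ, (phi (P.g l) (P.v ρ) : ℝ)) + 2) ≤ ∑ l, (phi (P.g l) u : ℝ) :=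
      Finset.sum_le_sum fun l _ => by exact_mod_cast hphi l
    rw [Finset.sum_add_distrib, Finset.sum_const, Finset.card_univ, Fintype.card_fin,
      nsmul_eq_mul] at h1
    unfold CIPair.Aw
    rw [hpair]
    have h2 : (P.r : ℝ) = n := by exact_mod_cast hrn
    linarith
  have h1 : (0 : ℝ) ≤ (n : ℝ) - 2 * P.c := hAu.trans hfin
  have h2 : 2 * P.c ≤ n := by
    have : (2 : ℝ) * P.c ≤ n := by linarith
    exact_mod_cast this
  have h3 := P.n_eq
  omega

end CIPair

end Pool.Agent.Work.MP_43381c_ag
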