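import Pool.Agent.Work.MP_43381c_ag.CI.ArrMain
import Pool.Agent.Work.MP_43381c_ag.CI.FinalOf
import Pool.Agent.Work.MP_43381c_ag.CI.Codim
import Pool.Agent.Work.MP_43381c_ag.CI.Div

/-!
# Arrangement varieties: the theorem
-/

open Matrix

namespace Pool.Agent.Work.MP_43381c_ag

universe u

/-- `X` is a general arrangement variety of complexity `p`: there are `c + p + 1` affinely
independent characters `x^(m y)` of the torus such that the `g l` are linear forms in them whose
coefficient matrix `lam` has no vanishing maximal minor. So the subtorus on which all `x^(m y)` are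
equal acts on `X`, and the quotient of the open part of `X` is the complement of `c + p + 1`
hyperplanes in general position in the projective space of dimension `p`. Along each ray `v ρ` all
but at most one of the characters have the same order, and that one has at least this order: the
divisor of `X` given by the ray dominates the projective space or one of the hyperplanes. -/
def Germ.Arrangement {k K : Type*} [Field k] [Field K] [Algebra k K] {n d : ℕ}
    (X : Germ k K n d) (p : ℕ) : Prop :=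
  ∃ (m : Fin (X.c + p + 1) → Fin n → ℤ) (lam : Fin X.c → Fin (X.c + p + 1) → k),
    (∀ a : Fin (X.c + p + 1) → ℤ, ∑ y, a y = 0 → ∑ y, a y • m y = 0 → a = 0) ∧
    (∀ l, X.g l = ∑ y, Finsupp.single (m y) (lam l y)) ∧
    (∀ f : Fin X.c → Fin (X.c + p + 1), Function.Injective f →
      (Matrix.of fun l j => lam l (f j)).det ≠ 0) ∧
    ∀ ρ, ∃ (y₀ : Fin (X.c + p + 1)) (t : ℤ), t ≤ m y₀ ⬝ᵥ X.v ρ ∧
      ∀ y, y ≠ y₀ → m y ⬝ᵥ X.v ρ = t

section

variable {k : Type u} [Field k] {n e p : ℕ} {m : Fin (e + p + 1) → Fin n → ℤ}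
  {lam : Fin e → Fin (e + p + 1) → k} {g : Fin e → (Fin n → ℤ) →₀ k}

theorem m_injective (haff : ∀ a : Fin (e + p + 1) → ℤ, ∑ y, a y = 0 → ∑ y, a y • m y = 0 → a = 0) :
    Function.Injective m := by
  classical
  intro y y' h
  by_contra hne
  have h1 := haff (Pi.single y 1 - Pi.single y' 1) (by simp [Finset.sum_sub_distrib]) (by
    simp only [Pi.sub_apply, sub_smul, Finset.sum_sub_distrib]
    rw [Finset.sum_eq_single y (fun z _ hz => by rw [Pi.single_eq_of_ne hz, zero_smul])
        (fun h => absurd (Finset.mem_univ _) h),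
      Finset.sum_eq_single y' (fun z _ hz => by rw [Pi.single_eq_of_ne hz, zero_smul])
        (fun h => absurd (Finset.mem_univ _) h), Pi.single_eq_same, Pi.single_eq_same, h, sub_self])
  have h2 := congrFun h1 y
  simp [hne] at h2

theorem row_supp (hdet : ∀ f : Fin e → Fin (e + p + 1), Function.Injective f →
      (Matrix.of fun l j => lam l (f j)).det ≠ 0) (l : Fin e) {F : Finset (Fin (e + p + 1))}
    (hF : F.card ≤ p + 1) : ∃ y, y ∉ F ∧ lam l y ≠ 0 := by
  classical
  by_contra hcon
  push Not at hcon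
  have h1 : e ≤ Fᶜ.card := by
    rw [Finset.card_compl, Fintype.card_fin]; omega
  obtain ⟨F', hF', hcard⟩ := Finset.exists_subset_card_eq h1
  refine hdet (fun j => F'.orderEmbOfFin hcard j) (F'.orderEmbOfFin hcard).injective ?_
  refine Matrix.det_eq_zero_of_row_eq_zero l fun j => ?_
  rw [Matrix.of_apply]
  refine hcon _ ?_
  exact Finset.mem_compl.1 (hF' (Finset.orderEmbOfFin_mem F' hcard j))

theorem g_apply (hm : Function.Injective m) (hg : ∀ l, g l = ∑ y, Finsupp.single (m y) (lam l y))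
    (l : Fin e) (y : Fin (e + p + 1)) : g l (m y) = lam l y := by
  classical
  rw [hg, Finsupp.finsetSum_apply, Finset.sum_eq_single y]
  · rw [Finsupp.single_eq_same]
  · intro z _ hz
    exact Finsupp.single_eq_of_ne (fun h => hz (hm h.symm))
  · intro h; exact absurd (Finset.mem_univ _) h

theorem g_supp_sub (hg : ∀ l, g l = ∑ y, Finsupp.single (m y) (lam l y)) {l : Fin e}
    {x : Fin n → ℤ} (hx : x ∈ (g l).support) : ∃ y, x = m y := by
  classical
  by_contra hcon
  push Not at hcon
  rw [Finsupp.mem_support_iff, hg, Finsupp.finsetSum_apply] at hx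
  exact hx (Finset.sum_eq_zero fun y _ => Finsupp.single_eq_of_ne (hcon y))

theorem tmin_le_g (hg : ∀ l, g l = ∑ y, Finsupp.single (m y) (lam l y)) {l : Fin e}
    (hne : (g l).support.Nonempty) (w : Fin n → ℤ) : tmin m w ≤ phiS (g l).support w := by
  obtain ⟨x, hx, h, _⟩ := phiS_spec hne w
  obtain ⟨y, rfl⟩ := g_supp_sub hg hx
  rw [h]
  exact tmin_le m w y

theorem phi_ct (hm : Function.Injective m) (hg : ∀ l, g l = ∑ y, Finsupp.single (m y) (lam l y))
    (hdet : ∀ f : Fin e → Fin (e + p + 1), Function.Injective f →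
      (Matrix.of fun l j => lam l (f j)).det ≠ 0) {w : Fin n → ℤ} (hw : (nm m w).card ≤ p)
    (l : Fin e) : phiS (g l).support w = tmin m w := by
  obtain ⟨y, hy, hl⟩ := row_supp hdet l (hw.trans (Nat.le_succ p))
  have hmem : m y ∈ (g l).support := by
    rw [Finsupp.mem_support_iff, g_apply hm hg]; exact hl
  refine le_antisymm ?_ (tmin_le_g hg ⟨_, hmem⟩ w)
  obtain ⟨_, _, _, h⟩ := phiS_spec ⟨_, hmem⟩ w
  have h1 : m y ⬝ᵥ w = tmin m w := by
    by_contra h2
    exact hy ((mem_nm m).2 h2)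
  rw [← h1]
  exact h _ hmem

theorem phi_ray (hm : Function.Injective m) (hg : ∀ l, g l = ∑ y, Finsupp.single (m y) (lam l y))
    (hdet : ∀ f : Fin e → Fin (e + p + 1), Function.Injective f →
      (Matrix.of fun l j => lam l (f j)).det ≠ 0) {r : ℕ} {v : Fin r → Fin n → ℤ}
    {β : Fin r → Fin (e + p + 1)} {τ : Fin r → ℤ} {μ : Fin r → ℕ}
    (hv : ∀ ρ y, m y ⬝ᵥ v ρ = τ ρ + if y = β ρ then (μ ρ : ℤ) else 0) (l : Fin e) (ρ : Fin r) :
    phiS (g l).support (v ρ) = τ ρ := by
  classical
  obtain ⟨y, hy, hl⟩ := row_supp hdet l (F := {β ρ}) (by rw [Finset.card_singleton]; omega)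
  have hmem : m y ∈ (g l).support := by
    rw [Finsupp.mem_support_iff, g_apply hm hg]; exact hl
  obtain ⟨x, hx, h1, h2⟩ := phiS_spec ⟨_, hmem⟩ (v ρ)
  apply le_antisymm
  · have h3 := h2 _ hmem
    rw [hv, if_neg (fun h => hy (by rw [h]; exact Finset.mem_singleton_self _)), add_zero] at h3
    exact h3
  · obtain ⟨y', rfl⟩ := g_supp_sub hg hx
    rw [h1, hv]
    split_ifs <;> omega

/-- the initial forms have a common zero only if at most `p` blocks are not minimal -/
theorem ct_of_inTrop (hm : Function.Injective m)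
    (hg : ∀ l, g l = ∑ y, Finsupp.single (m y) (lam l y))
    (hdet : ∀ f : Fin e → Fin (e + p + 1), Function.Injective f →
      (Matrix.of fun l j => lam l (f j)).det ≠ 0) {w : Fin n → ℤ} (hw : InTrop g w) :
    (nm m w).card ≤ p := by
  classical
  by_contra hcon
  push Not at hcon
  obtain ⟨L, _, _, z, hz0, hz⟩ := hw
  set Y : Finset (Fin (e + p + 1)) := Finset.univ.filter fun y => m y ⬝ᵥ w = tmin m w with hY
  have hYcard : Y.card ≤ e := by
    have h1 : Y.card + (nm m w).card = e + p + 1 := by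
      have h2 : nm m w = Finset.univ.filter fun y => ¬ m y ⬝ᵥ w = tmin m w := by
        ext y; rw [mem_nm]; simp
      rw [h2, hY, Finset.card_filter_add_card_filter_not]
      simp
    omega
  -- the relation for all `l`
  have hrel : ∀ l, ∑ y ∈ Y, algebraMap k L (lam l y) * mono z (m y) = 0 := by
    intro l
    by_cases hl : phi (g l) w = tmin m w
    · have h1 : init (g l) w = ∑ y, (Finsupp.single (m y) (lam l y)).filter
          (fun x => x ⬝ᵥ w = phi (g l) w) := by
        unfold init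
        generalize phi (g l) w = φ
        rw [hg l]
        exact map_sum (Finsupp.filterAddHom (M := k) fun x => x ⬝ᵥ w = φ) _ _
      have h2 := hz l
      rw [h1, ev_sum] at h2
      refine Eq.trans ?_ h2
      rw [hY, Finset.sum_filter]
      refine Finset.sum_congr rfl fun y _ => ?_
      split_ifs with h
      · rw [Finsupp.filter_single_of_pos _ (by rw [hl]; exact h), ev_single]
      · rw [Finsupp.filter_single_of_neg _ (by rw [hl]; exact h), ev_zero]
    · refine Finset.sum_eq_zero fun y hy => ?_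
      have h1 : lam l y = 0 := by
        by_contra h2
        have hmem : m y ∈ (g l).support := by
          rw [Finsupp.mem_support_iff, g_apply hm hg]; exact h2
        obtain ⟨_, _, _, h3⟩ := phiS_spec ⟨_, hmem⟩ w
        have h4 := h3 _ hmem
        rw [(Finset.mem_filter.1 hy).2] at h4
        exact hl (le_antisymm h4 (tmin_le_g hg ⟨_, hmem⟩ w))
      rw [h1, map_zero, zero_mul]
  obtain ⟨Y', hYY', hY'⟩ := Finset.exists_superset_card_eq hYcard (by simp; omega)
  set f : Fin e → Fin (e + p + 1) := fun j => Y'.orderEmbOfFin hY' j with hf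
  have hfinj : Function.Injective f := (Y'.orderEmbOfFin hY').injective
  have hfr : Finset.univ.image f = Y' := by
    have h1 := Finset.range_orderEmbOfFin Y' hY'
    apply Finset.coe_injective
    rw [Finset.coe_image, Finset.coe_univ, Set.image_univ]
    exact h1
  set X : Fin e → L := fun j => if f j ∈ Y then mono z (m (f j)) else 0 with hX
  have hmul : (Matrix.of fun l j => algebraMap k L (lam l (f j))).mulVec X = 0 := by
    funext l
    rw [Matrix.mulVec, Pi.zero_apply, ← hrel l]
    have h1 : ∑ y ∈ Y, algebraMap k L (lam l y) * mono z (m y) =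
        ∑ y ∈ Y', algebraMap k L (lam l y) * (if y ∈ Y then mono z (m y) else 0) := by
      rw [← Finset.sum_subset hYY' (fun y _ hy => by rw [if_neg hy, mul_zero])]
      exact Finset.sum_congr rfl fun y hy => by rw [if_pos hy]
    rw [h1, ← hfr, Finset.sum_image fun a _ b _ h => hfinj h]
    rfl
  have hdetL : (Matrix.of fun l j => algebraMap k L (lam l (f j))).det ≠ 0 := by
    have h1 : (Matrix.of fun l j => algebraMap k L (lam l (f j))) =
        (algebraMap k L).mapMatrix (Matrix.of fun l j => lam l (f j)) := by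
      ext l j; rfl
    rw [h1, ← RingHom.map_det]
    intro h2
    exact hdet f hfinj ((map_eq_zero (algebraMap k L)).1 h2)
  have hX0 := Matrix.eq_zero_of_mulVec_eq_zero hdetL hmul
  obtain ⟨y, hy⟩ := exists_tmin m w 0
  have hyY : y ∈ Y := Finset.mem_filter.2 ⟨Finset.mem_univ _, hy.symm⟩
  have hyY' : y ∈ Finset.univ.image f := by rw [hfr]; exact hYY' hyY
  obtain ⟨j, _, rfl⟩ := Finset.mem_image.1 hyY'
  have h1 := congrFun hX0 j
  simp only [hX, if_pos hyY, Pi.zero_apply] at h1
  unfold mono at h1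
  rw [Finset.prod_eq_zero_iff] at h1
  obtain ⟨i, _, hi⟩ := h1
  exact zpow_ne_zero _ (hz0 i) hi

end

/-- The theorem for arrangement varieties. -/
theorem arr_main (d : ℕ) (Γ : Set ℝ) (hΓ : Γ ⊆ Set.Icc 0 1)
    (hdcc : ¬ ∃ u : ℕ → ℝ, StrictAnti u ∧ ∀ i, u i ∈ Γ) :
    ∃ l : ℝ, 0 < l ∧ ∀ (n p : ℕ) (k K : Type u) [Field k] [IsAlgClosed k] [CharZero k] [Field K]
      [Algebra k K] (P : CIPair k K n d), P.Arrangement p → P.CoefIn Γ → P.IsLC →
      (∃ E, P.Over E) →
      ∃ E : PrimeDivisor k K d, P.Over E ∧ P.a E = P.mld ∧ P.aX E ≤ (l : EReal) := by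
  classical
  have hG1 : ∀ g ∈ insert (0 : ℝ) Γ, 0 ≤ g ∧ g ≤ 1 := by
    rintro g (h | h)
    · rw [h]; exact ⟨le_rfl, zero_le_one⟩
    · exact hΓ h
  have hG : DCC (insert (0 : ℝ) Γ) := dcc_insert_zero (fun g hg => (hΓ hg).1) hdcc
  obtain ⟨l, hl, hcomb⟩ := arr_comb d hG1 hG
  refine ⟨l, hl, ?_⟩
  intro n p k K _ _ _ _ _ P harr hcoef hlc hE
  have hn : 0 < n := by
    rcases Nat.eq_zero_or_pos n with hn | hn
    · exfalso
      obtain ⟨E, _⟩ := hE
      obtain ⟨t, ht⟩ := E.exists_one
      subst hn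
      have h1 := P.gen
      rw [Set.range_eq_empty, IntermediateField.adjoin_empty] at h1
      have h2 : t ∈ (⊥ : IntermediateField k K) := by rw [h1]; trivial
      obtain ⟨a, ha⟩ := IntermediateField.mem_bot.1 h2
      rw [← ha] at ht
      by_cases h3 : a = 0
      · rw [h3, map_zero, E.ord.map_zero] at ht
        exact absurd ht (by decide)
      · rw [E.ord_const a h3] at ht
        exact absurd ht (by decide)
    · exact hn
  obtain ⟨m, lam, haff, hg, hdet, hray⟩ := harr
  have hm := m_injective haff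
  choose β τ hβ1 hβ2 using hray
  have hv : ∀ ρ y, m y ⬝ᵥ P.v ρ = τ ρ +
      if y = β ρ then (((m (β ρ) ⬝ᵥ P.v ρ - τ ρ).toNat : ℕ) : ℤ) else 0 := by
    intro ρ y
    have h1 := hβ1 ρ
    split_ifs with h
    · rw [h, Int.toNat_of_nonneg (by omega)]; ring
    · rw [hβ2 ρ y h, add_zero]
  have hb : ∀ ρ, P.b ρ ∈ insert (0 : ℝ) Γ := fun ρ => hcoef.1 ρ
  have hc' : ∀ j, P.coef j = 0 ∨ P.coef j ∈ insert (0 : ℝ) Γ := fun j => by
    rcases hcoef.2 j with h | h
    · exact Or.inl h
    · exact Or.inr (Or.inr h)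
  have hc01 : ∀ j, 0 ≤ P.coef j ∧ P.coef j ≤ 1 := by
    intro j
    rcases hcoef.2 j with h | h
    · rw [h]; exact ⟨le_rfl, zero_le_one⟩
    · exact hΓ h
  have hb0 : ∀ ρ, 0 ≤ P.b ρ := fun ρ => (hG1 _ (hb ρ)).1
  have hr : 0 < P.r := by
    rcases Nat.eq_zero_or_pos P.r with h | h
    · exfalso
      have := P.full (fun _ => 1) (fun ρ => by rw [h] at ρ; exact ρ.elim0)
      have h1 := congrFun this ⟨0, hn⟩
      simp at h1
    · exact h
  obtain ⟨M, hM⟩ := exists_pos_char hr P.primitive P.extremal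
  obtain ⟨E₁, hE₁⟩ := hE
  obtain ⟨hI₁, hT₁, _⟩ := ci_low P E₁ hE₁
  have hct : ∀ w, InTrop P.g w → (nm m w).card ≤ p := fun w hw =>
    ct_of_inTrop hm hg hdet hw
  have hAw : ∀ w, (nm m w).card ≤ p → P.Aw w = AC (fun i => (P.mK i : ℝ)) (TA m) w := by
    intro w hw
    rw [P.Aw_eq]
    unfold AC
    congr 1
    exact Finset.sum_congr rfl fun l _ => by rw [phi_ct hm hg hdet hw l, TA_phi]
  have haw : ∀ w, (nm m w).card ≤ p → P.aw w = aC P.m0 (TA m) P.coef
      (fun j => (P.f j).support) w := by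
    intro w hw
    rw [P.aw_eq]
    unfold aC
    congr 2
    exact Finset.sum_congr rfl fun l _ => by rw [phi_ct hm hg hdet hw l, TA_phi]
  obtain ⟨w, hw, hprim, hmin, hA⟩ := hcomb n P.c p P.r P.s P.n_eq P.v hr M hM P.b hb P.coef hc'
    (fun j => (P.f j).support) P.f_supp m haff β τ _ hv
    (fun i => (P.mK i : ℝ)) (fun ρ => by
      rw [P.mK_real]
      congr 1
      exact Finset.sum_congr rfl fun l _ => by rw [phi_ray hm hg hdet hv l])
    P.m0 (fun ρ => by
      rw [P.m0_eq]
      congr 2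
      exact Finset.sum_congr rfl fun l _ => by rw [phi_eq, phi_ray hm hg hdet hv l])
    {w | IntPt P.v w ∧ InTrop P.g w} (fun w hw => hw.1)
    (fun w t ht => by
      rw [Set.mem_ofPred_eq, Set.mem_ofPred_eq, intPt_zsmul w ht, inTrop_smul P.g w ht])
    (fun w hw => hct w hw.2)
    (fun q σ u w hu hcu hw N hwe => by
      obtain ⟨u', h1, h2, h3, h4⟩ := P.walk hb0 (fun j => (hc01 j).1) σ _ u w hu hw.2 N rfl hwe
      rw [hAw u hcu, hAw u' (hct u' h2)] at h3
      rw [haw u hcu, haw u' (hct u' h2)] at h4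
      exact ⟨u', ⟨h1, h2⟩, h3, h4⟩)
    (fun w hw hp => by
      obtain ⟨E, hE, _, h1, _⟩ := exists_div P (fun j => (hc01 j).1) w hw.1 hp hw.2
      have h2 := (hlc E hE).trans h1
      rw [← haw w (hct w hw.2)]
      exact_mod_cast h2)
    (P.vec E₁) ⟨hI₁, hT₁⟩
  obtain ⟨E, hE, _, ha, haX⟩ := exists_div P (fun j => (hc01 j).1) w hw.1 hprim hw.2
  refine ⟨E, hE, ?_, ?_⟩
  · unfold CIPair.mld
    apply le_antisymm
    · refine le_iInf fun E' => ?_
      obtain ⟨h1, h2, h3⟩ := ci_low P E'.1 E'.2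
      refine (ha.trans ?_).trans (h3 fun j => (hc01 j).2)
      have h4 := hmin _ (show P.vec E'.1 ∈ {w | IntPt P.v w ∧ InTrop P.g w} from ⟨h1, h2⟩)
      rw [← haw w (hct w hw.2), ← haw _ (hct _ h2)] at h4
      exact_mod_cast h4
    · exact iInf_le (fun E' : {E // P.Over E} => P.a E'.1) ⟨E, hE⟩
  · refine haX.trans ?_
    rw [← hAw w (hct w hw.2)] at hA
    exact_mod_cast hA

end Pool.Agent.Work.MP_43381c_ag
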