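import Pool.Agent.Work.MP_43381c_ag.CI.ArrComb

/-!
# Arrangement varieties: the main combinatorial theorem
-/

open Matrix

namespace Pool.Agent.Work.MP_43381c_ag

/-- the family of all exponents, repeated `e` times -/
noncomputable def TA {n e p : ℕ} (m : Fin (e + p + 1) → Fin n → ℤ) :
    Fin e → Finset (Fin n → ℤ) := fun _ => Finset.univ.image m

theorem TA_phi {n e p : ℕ} (m : Fin (e + p + 1) → Fin n → ℤ) (l : Fin e) (w : Fin n → ℤ) :
    phiS (TA m l) w = tmin m w := rfl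

theorem TA_nonempty {n e p : ℕ} (m : Fin (e + p + 1) → Fin n → ℤ) (l : Fin e) :
    (TA m l).Nonempty := Finset.univ_nonempty.image _

theorem TA_ray {n e p r : ℕ} {m : Fin (e + p + 1) → Fin n → ℤ} {v : Fin r → Fin n → ℤ}
    {β : Fin r → Fin (e + p + 1)} {τ : Fin r → ℤ} {μ : Fin r → ℕ}
    (hv : ∀ ρ y, m y ⬝ᵥ v ρ = τ ρ + if y = β ρ then (μ ρ : ℤ) else 0) (l : Fin e) (ρ : Fin r) :
    phiS (TA m l) (v ρ) = τ ρ := by
  rw [TA_phi]
  have hl := l.2
  apply le_antisymm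
  · by_cases h : (⟨0, by omega⟩ : Fin (e + p + 1)) = β ρ
    · have h1 : (⟨1, by omega⟩ : Fin (e + p + 1)) ≠ β ρ := by
        rw [← h]; intro h2; simp at h2
      have h2 := tmin_le m (v ρ) ⟨1, by omega⟩
      rw [hv, if_neg h1, add_zero] at h2
      exact h2
    · have h2 := tmin_le m (v ρ) ⟨0, by omega⟩
      rw [hv, if_neg h, add_zero] at h2
      exact h2
  · obtain ⟨y, hy⟩ := exists_tmin m (v ρ) 0
    rw [hy, hv]
    split_ifs <;> omega

theorem AC_ct {n e p : ℕ} {m : Fin (e + p + 1) → Fin n → ℤ}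
    (E : Fin e ⊕ Fin (p + 1) ≃ Fin (e + p + 1)) {mK : Fin n → ℝ} {w : Fin n → ℤ}
    (hw : (nm m w).card ≤ p) : AC mK (TE m E) w = AC mK (TA m) w := by
  unfold AC
  congr 1
  exact Finset.sum_congr rfl fun l _ => by rw [TE_ct m E hw, TA_phi]

theorem aC_ct {n e p s : ℕ} {m : Fin (e + p + 1) → Fin n → ℤ}
    (E : Fin e ⊕ Fin (p + 1) ≃ Fin (e + p + 1)) {m0 : Fin n → ℝ} {c : Fin s → ℝ}
    {S : Fin s → Finset (Fin n → ℤ)} {w : Fin n → ℤ}
    (hw : (nm m w).card ≤ p) : aC m0 (TE m E) c S w = aC m0 (TA m) c S w := by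
  unfold aC
  congr 2
  exact Finset.sum_congr rfl fun l _ => by rw [TE_ct m E hw, TA_phi]

/-- The combinatorial theorem for arrangement varieties. -/
theorem arr_comb (d : ℕ) {G : Set ℝ} (hG1 : ∀ g ∈ G, 0 ≤ g ∧ g ≤ 1) (hG : DCC G) :
    ∃ l : ℝ, 0 < l ∧ ∀ (n e p r s : ℕ) (_ : n = d + e) (v : Fin r → Fin n → ℤ) (_ : 0 < r)
      (M : Fin n → ℤ) (_ : ∀ ρ, 0 < M ⬝ᵥ v ρ)
      (b : Fin r → ℝ) (_ : ∀ ρ, b ρ ∈ G) (c : Fin s → ℝ) (_ : ∀ j, c j = 0 ∨ c j ∈ G)
      (S : Fin s → Finset (Fin n → ℤ)) (_ : ∀ j, (S j).Nonempty)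
      (m : Fin (e + p + 1) → Fin n → ℤ)
      (_ : ∀ a : Fin (e + p + 1) → ℤ, ∑ y, a y = 0 → ∑ y, a y • m y = 0 → a = 0)
      (β : Fin r → Fin (e + p + 1)) (τ : Fin r → ℤ) (μ : Fin r → ℕ)
      (_ : ∀ ρ y, m y ⬝ᵥ v ρ = τ ρ + if y = β ρ then (μ ρ : ℤ) else 0)
      (mK : Fin n → ℝ) (_ : ∀ ρ, pair mK (v ρ) = 1 + ∑ _l : Fin e, (τ ρ : ℝ))
      (m0 : Fin n → ℝ) (_ : ∀ ρ, pair m0 (v ρ) = 1 - b ρ + ∑ _l : Fin e, (τ ρ : ℝ) +
        ∑ j, c j * (phiS (S j) (v ρ) : ℝ))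
      (Trop : Set (Fin n → ℤ)) (_ : ∀ w ∈ Trop, IntPt v w)
      (_ : ∀ (w : Fin n → ℤ) (g : ℤ), 0 < g → (g • w ∈ Trop ↔ w ∈ Trop))
      (_ : ∀ w ∈ Trop, (nm m w).card ≤ p)
      (_ : ∀ (N : ℕ) (σ : Fin N → Fin r),
        ∀ (u w : Fin n → ℤ), IntPt v u → (nm m u).card ≤ p → w ∈ Trop → ∀ k : Fin N → ℕ,
        w = u + ∑ i, k i • v (σ i) →
        ∃ u' ∈ Trop, AC mK (TA m) u' ≤ AC mK (TA m) u ∧
          aC m0 (TA m) c S u' ≤ aC m0 (TA m) c S u)
      (_ : ∀ w ∈ Trop, (∃ u : Fin n → ℤ, u ⬝ᵥ w = 1) → 0 ≤ aC m0 (TA m) c S w)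
      (w₁ : Fin n → ℤ) (_ : w₁ ∈ Trop),
      ∃ w ∈ Trop, (∃ u : Fin n → ℤ, u ⬝ᵥ w = 1) ∧
        (∀ w' ∈ Trop, aC m0 (TA m) c S w ≤ aC m0 (TA m) c S w') ∧ AC mK (TA m) w ≤ l := by
  classical
  have hG1' : ∀ g ∈ insert (1 : ℝ) G, 0 ≤ g ∧ g ≤ 1 := by
    rintro g (h | h)
    · rw [h]; exact ⟨zero_le_one, le_rfl⟩
    · exact hG1 g h
  obtain ⟨l, hl, hdesc⟩ := orthant_elim (4 * d) hG1'
    (dcc_insert_one (fun g hg => (hG1 g hg).2) hG)
  refine ⟨l, hl, ?_⟩
  intro n e p r s hn v hr M hM b hb c hc S hS m haff β τ μ hv mK hK m0 h0 Trop hint hscale hct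
    walk lc w₁ hw₁
  have hb0 : ∀ ρ, 0 ≤ b ρ := fun ρ => (hG1 _ (hb ρ)).1
  have hc0 : ∀ j, 0 ≤ c j := by
    intro j
    rcases hc j with h | h
    · rw [h]
    · exact (hG1 _ h).1
  have hne : ∀ w, IntPt v w → w ≠ 0 := by
    rintro w hw rfl
    have hM0 : M ≠ 0 := by
      rintro rfl
      have := hM ⟨0, hr⟩
      simp at this
    have := hw M (fun ρ => (hM ρ).le) hM0
    simp at this
  -- primitive parts
  have hprim : ∀ w ∈ Trop, ∃ g : ℤ, 0 < g ∧ ∃ w1 ∈ Trop, (∀ l, w l = g * w1 l) ∧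
      ∃ u : Fin n → ℤ, u ⬝ᵥ w1 = 1 := by
    intro w hw
    obtain ⟨g, hg, w1, hw1, hp⟩ := exists_primitive (hne w (hint w hw))
    refine ⟨g, hg, w1, ?_, hw1, hp⟩
    rw [← hscale w1 g hg, ← smul_eq_of hw1]
    exact hw
  have hnn : ∀ w ∈ Trop, 0 ≤ aC m0 (TA m) c S w := by
    intro w hw
    obtain ⟨g, hg, w1, hw1T, hw1, hp⟩ := hprim w hw
    rw [aC_smul m0 (TA_nonempty m) c hS hg hw1]
    exact mul_nonneg (by exact_mod_cast hg.le) (lc w1 hw1T hp)
  -- the equations in the form `E`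
  have hKE : ∀ (E : Fin e ⊕ Fin (p + 1) ≃ Fin (e + p + 1)) (ρ : Fin r),
      pair mK (v ρ) = 1 + ∑ l, (phiS (TE m E l) (v ρ) : ℝ) := by
    intro E ρ
    rw [hK]
    congr 1
    exact Finset.sum_congr rfl fun l _ => by rw [TE_ray m E hv]
  have h0E : ∀ (E : Fin e ⊕ Fin (p + 1) ≃ Fin (e + p + 1)) (ρ : Fin r),
      pair m0 (v ρ) = 1 - b ρ + ∑ l, (phiS (TE m E l) (v ρ) : ℝ) +
        ∑ j, c j * (phiS (S j) (v ρ) : ℝ) := by
    intro E ρ
    rw [h0]
    congr 2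
    exact Finset.sum_congr rfl fun l _ => by rw [TE_ray m E hv]
  have hKA : ∀ ρ : Fin r, pair mK (v ρ) = 1 + ∑ l, (phiS (TA m l) (v ρ) : ℝ) := by
    intro ρ
    rw [hK]
    congr 1
    exact Finset.sum_congr rfl fun l _ => by rw [TA_ray hv]
  have h0A : ∀ ρ : Fin r, pair m0 (v ρ) = 1 - b ρ + ∑ l, (phiS (TA m l) (v ρ) : ℝ) +
        ∑ j, c j * (phiS (S j) (v ρ) : ℝ) := by
    intro ρ
    rw [h0]
    congr 2
    exact Finset.sum_congr rfl fun l _ => by rw [TA_ray hv]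
  -- the complete walk
  have walkE : ∀ (E : Fin e ⊕ Fin (p + 1) ≃ Fin (e + p + 1)) (N : ℕ) (σ : Fin N → Fin r)
      (u w : Fin n → ℤ), IntPt v u → w ∈ Trop → ∀ k : Fin N → ℕ, w = u + ∑ i, k i • v (σ i) →
      ∃ u' ∈ Trop, AC mK (TA m) u' ≤ AC mK (TE m E) u ∧
        aC m0 (TA m) c S u' ≤ aC m0 (TE m E) c S u := by
    intro E N σ u w hu hw k hwk
    obtain ⟨u1, k1, h1, h2, h3, h4, h5⟩ := walk_gen (TE_nonempty m E) (hKE E) hb0 hc0 hS (h0E E) σ
      (fun u => (nm m u).card ≤ p) (fun u k h => arr_step m E hv σ u k h) _ u w hu (hct w hw) k rfl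
      hwk
    obtain ⟨u', h6, h7, h8⟩ := walk N σ u1 w h1 h2 hw k1 h3
    rw [AC_ct E h2] at h4
    rw [aC_ct E h2] at h5
    exact ⟨u', h6, h7.trans h4, h8.trans h5⟩
  -- for each w in Trop a bounded vector
  have key : ∀ w ∈ Trop, ∃ (x : Fin n → ℤ) (E : Fin e ⊕ Fin (p + 1) ≃ Fin (e + p + 1)),
      (∃ (N : ℕ) (σ : Fin N → Fin r) (u : Fin N → ℝ),
      (∀ i, 0 ≤ u i) ∧ (∀ z, (x z : ℝ) = ∑ i, u i * (v (σ i) z : ℝ)) ∧
        ∑ i, u i ≤ (n + 1) * l) ∧
      (∃ u' ∈ Trop, AC mK (TA m) u' ≤ l ∧ aC m0 (TA m) c S u' ≤ aC m0 (TE m E) c S x) ∧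
      aC m0 (TE m E) c S x ≤ aC m0 (TA m) c S w := by
    intro w hw
    obtain ⟨N, hN, σ, q, hq, hwq, hlin⟩ := exists_rep_rat hM hr (hint w hw)
    have hwR : ∀ z, (w z : ℝ) = ∑ i, (q i : ℝ) * (v (σ i) z : ℝ) := by
      intro z
      have h1 := congrArg (fun y : ℚ => (y : ℝ)) (hwq z)
      push_cast at h1
      exact h1
    have hN0 : 0 < N := by
      rcases Nat.eq_zero_or_pos N with h | h
      · exfalso
        subst h
        apply hne w (hint w hw)
        funext z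
        have := hwq z
        simp only [Finset.univ_eq_empty, Finset.sum_empty] at this
        exact_mod_cast this
      · exact h
    -- the walk from a vector of the lattice
    have hwalk : ∀ (E : Fin e ⊕ Fin (p + 1) ≃ Fin (e + p + 1)) (u : Fin n → ℤ) (t : Fin N → ℤ)
        (k : ℤ), (∀ i, 0 < (t i : ℚ) + k * q i) →
        (∀ z, (u z : ℚ) = ∑ i, ((t i : ℚ) + k * q i) * (v (σ i) z : ℚ)) →
        ∃ u' ∈ Trop, AC mK (TA m) u' ≤ AC mK (TE m E) u ∧
          aC m0 (TA m) c S u' ≤ aC m0 (TE m E) c S u := by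
      intro E u t k hpos hu
      obtain ⟨N₁, hN₁, k₁, hk₁⟩ := exists_multiple hq hwq hu
      have huR : ∀ z, (u z : ℝ) = ∑ i, ((t i : ℝ) + k * (q i : ℝ)) * (v (σ i) z : ℝ) := by
        intro z
        have h1 := congrArg (fun y : ℚ => (y : ℝ)) (hu z)
        push_cast at h1
        exact h1
      have huI : IntPt v u := intPt_comb (hint w hw) hwR
        (fun i => by
          have := hpos i
          exact_mod_cast this) huR
      exact walkE E N σ u (N₁ • w) huI ((hscale w N₁ hN₁).2 hw) k₁ hk₁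
    have hnonneg : ∀ (E : Fin e ⊕ Fin (p + 1) ≃ Fin (e + p + 1)) (u : Fin n → ℤ) (t : Fin N → ℤ)
        (k : ℤ), (∀ i, 0 < (t i : ℚ) + k * q i) →
        (∀ z, (u z : ℚ) = ∑ i, ((t i : ℚ) + k * q i) * (v (σ i) z : ℚ)) →
        0 ≤ aC m0 (TE m E) c S u := by
      intro E u t k hpos hu
      obtain ⟨u', hu', _, h2⟩ := hwalk E u t k hpos hu
      exact (hnn u' hu').trans h2
    -- the number of multiple blocks
    have hBb : (∀ y, ∃ i, β (σ i) = y ∧ 0 < μ (σ i)) → ∀ B : Finset (Fin (e + p + 1)),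
        (∀ y ∈ B, ∃ i, β (σ i) = y ∧ 2 ≤ μ (σ i)) → B.card ≤ 2 * (p + 1) := by
      intro hall B hB
      refine card_mult_le hv (finSumFinEquiv : Fin e ⊕ Fin (p + 1) ≃ Fin (e + (p + 1))) σ hK
        (fun k hk => ?_) hall hB
      have h1 := hnonneg (finSumFinEquiv : Fin e ⊕ Fin (p + 1) ≃ Fin (e + (p + 1)))
        (∑ i, k i • v (σ i)) (fun i => (k i : ℤ)) 0 (fun i => by
          have := hk i
          simp only [Int.cast_natCast, Int.cast_zero, zero_mul, add_zero]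
          exact_mod_cast this) (fun z => by
          rw [Finset.sum_apply]
          push_cast
          refine Finset.sum_congr rfl fun i _ => ?_
          rw [Pi.smul_apply, nsmul_eq_mul]
          push_cast
          ring)
      exact h1.trans (aC_le_AC (hKE _) hb0 hc0 hS (h0E _) (fun i => Nat.cast_nonneg (k i))
        (fun z => cast_comb σ k z))
    obtain ⟨E, N', emb, rep, ell, hN', hemb, hellinj, hell, hrep⟩ :=
      exists_sel hn hN0 hN haff hv σ hlin hq hwq (hct w hw) hBb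
    -- the combined family
    set c' : Fin (e + s) → ℝ := Fin.append (fun _ : Fin e => (1 : ℝ)) c with hc'
    set S' : Fin (e + s) → Finset (Fin n → ℤ) := Fin.append (TE m E) S with hS'
    have hc'G : ∀ j, c' j = 0 ∨ c' j ∈ insert (1 : ℝ) G := by
      intro j
      refine Fin.addCases (fun l => ?_) (fun j => ?_) j
      · right; left; rw [hc', Fin.append_left]
      · rw [hc', Fin.append_right]
        rcases hc j with h | h
        · exact Or.inl h
        · exact Or.inr (Or.inr h)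
    have hS'ne : ∀ j, (S' j).Nonempty := by
      intro j
      refine Fin.addCases (fun l => ?_) (fun j => ?_) j
      · rw [hS', Fin.append_left]; exact TE_nonempty m E l
      · rw [hS', Fin.append_right]; exact hS j
    have h0' : ∀ ρ, pair m0 (v ρ) = 1 - b ρ + ∑ j, c' j * (phiS (S' j) (v ρ) : ℝ) := by
      intro ρ
      rw [h0E E ρ, Fin.sum_univ_add]
      simp only [hc', hS', Fin.append_left, Fin.append_right, one_mul]
      ring
    have haw : ∀ (u : Fin N → ℝ) (x : Fin n → ℤ), (∀ z, (x z : ℝ) = ∑ i, u i * (v (σ i) z : ℝ)) →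
        aw (fun i => b (σ i)) c' (fun j => (S' j).image (loc (S' j) v σ)) u =
          aC m0 (TE m E) c S x := by
      intro u x hx
      rw [aw_loc hS'ne h0' hx]
      exact (aC_eq_aT m0 (TE m E) c S x).symm
    -- the lattice
    let Λ : AddSubgroup (Fin N → ℝ) :=
      { carrier := {u | ∃ (t : Fin N → ℤ) (k : ℤ), ∀ i, u i = (t i : ℝ) + k * (q i : ℝ)}
        zero_mem' := ⟨0, 0, fun l => by simp⟩
        add_mem' := by
          rintro u u' ⟨t, k, h1⟩ ⟨t', k', h2⟩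
          refine ⟨t + t', k + k', fun i => ?_⟩
          simp only [Pi.add_apply, Int.cast_add, h1 i, h2 i]
          ring
        neg_mem' := by
          rintro u ⟨t, k, h1⟩
          refine ⟨-t, -k, fun i => ?_⟩
          simp only [Pi.neg_apply, Int.cast_neg, h1 i]
          ring }
    have hΛ : ∀ i, Pi.single i (1 : ℝ) ∈ Λ := by
      intro i
      refine ⟨Pi.single i 1, 0, fun j => ?_⟩
      by_cases h : j = i
      · subst h; simp
      · simp [h]
    have hvec : ∀ (t : Fin N → ℤ) (k : ℤ), ∀ z, ((∑ i, t i * v (σ i) z + k * w z : ℤ) : ℚ) =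
        ∑ i, ((t i : ℚ) + k * q i) * (v (σ i) z : ℚ) := by
      intro t k z
      push_cast
      rw [hwq z, Finset.mul_sum, ← Finset.sum_add_distrib]
      exact Finset.sum_congr rfl fun i _ => by ring
    have hcastR : ∀ (u : Fin n → ℤ) (t : Fin N → ℤ) (k : ℤ),
        (∀ z, (u z : ℚ) = ∑ i, ((t i : ℚ) + k * q i) * (v (σ i) z : ℚ)) →
        ∀ z, (u z : ℝ) = ∑ i, ((t i : ℝ) + k * (q i : ℝ)) * (v (σ i) z : ℝ) := by
      intro u t k h z
      have h1 := congrArg (fun y : ℚ => (y : ℝ)) (h z)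
      push_cast at h1
      exact h1
    have hposR : ∀ (t : Fin N → ℤ) (k : ℤ) (i : Fin N), 0 < (t i : ℝ) + k * (q i : ℝ) →
        0 < (t i : ℚ) + k * q i := by
      intro t k i h
      exact_mod_cast h
    have hqΛ : (fun i => (q i : ℝ)) ∈ Λ := ⟨0, 1, fun i => by simp⟩
    -- the coefficient of a trivial block
    have hqtriv : ∀ j y, Triv m β μ σ w j y →
        (q j : ℝ) = (tmin m w : ℝ) - ∑ i, (q i : ℝ) * (τ (σ i) : ℝ) := by
      intro j y h
      have h1 : ((m y ⬝ᵥ w : ℤ) : ℝ) = ∑ i, (q i : ℝ) * ((m y ⬝ᵥ v (σ i) : ℤ) : ℝ) :=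
        dot_sum (m := m y) hwR
      have h2 : ∑ i, (q i : ℝ) * ((m y ⬝ᵥ v (σ i) : ℤ) : ℝ) =
          ∑ i, (q i : ℝ) * (τ (σ i) : ℝ) +
            ∑ i, (if y = β (σ i) then (μ (σ i) : ℝ) else 0) * (q i : ℝ) := by
        rw [← Finset.sum_add_distrib]
        refine Finset.sum_congr rfl fun i _ => ?_
        rw [hv, mul_comm (if y = β (σ i) then (μ (σ i) : ℝ) else 0), ← mul_add]
        congr 1
        push_cast
        rfl
      rw [h.2.2.2, h2, block_sum h (fun i => (q i : ℝ))] at h1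
      linarith
    have hcmpq : Cmp emb rep (fun i => (q i : ℝ)) := by
      intro i hi
      have h1 := hqtriv i _ (hell ⟨i, hi⟩)
      have h2 : ∀ a, (q i : ℝ) = (q (emb (rep a)) : ℝ) := fun a => by
        rw [h1, hqtriv _ _ (hrep ⟨i, hi⟩ a)]
      exact ⟨fun a => (h2 a).le, 0, h2 0⟩
    obtain ⟨u', ⟨t, k, htk⟩, hpos, hcmp', hle, hsum⟩ := hdesc N' N p (e + s) hN' emb hemb rep
      (fun i => Fin.castAdd s (ell i)) (fun i i' h => hellinj (Fin.castAdd_injective e s h)) Λ hΛ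
      (by
        rintro u ⟨t, k, hu⟩ i hi a
        refine ⟨t i - t (emb (rep a)), ?_⟩
        have h1 : (q i : ℝ) = (q (emb (rep a)) : ℝ) := by
          rw [hqtriv i _ (hell ⟨i, hi⟩), hqtriv _ _ (hrep ⟨i, hi⟩ a)]
        rw [hu i, hu (emb (rep a)), h1]
        push_cast
        ring)
      (fun i => b (σ i)) (fun i => Or.inr (hb _)) c' hc'G
      (fun i => by rw [hc', Fin.append_left])
      (fun j => (S' j).image (loc (S' j) v σ)) (fun j => (hS'ne j).image _)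
      (fun u _ hcmp i => by
        rw [hS', Fin.append_left]
        exact ph_TE hv E σ (hell i) (hrep ⟨i.1, i.2⟩) (fun a => (hcmp i.1 i.2).1 a))
      (fun u hu hup _ => by
        obtain ⟨t, k, htk⟩ := hu
        have h1 := hcastR _ t k (hvec t k)
        have h2 : ∀ z, ((fun z => (∑ i, t i * v (σ i) z + k * w z : ℤ)) z : ℝ) =
            ∑ i, u i * (v (σ i) z : ℝ) := by
          intro z
          rw [h1 z]
          exact Finset.sum_congr rfl fun i _ => by rw [htk i]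
        rw [haw u _ h2]
        exact hnonneg E _ t k (fun i => hposR t k i (by rw [← htk i]; exact hup i)) (hvec t k))
      (fun i => (q i : ℝ)) hqΛ (fun i => by exact_mod_cast hq i) hcmpq
    have h1 := hcastR _ t k (hvec t k)
    set x : Fin n → ℤ := fun z => ∑ i, t i * v (σ i) z + k * w z with hx
    have h2 : ∀ z, (x z : ℝ) = ∑ i, u' i * (v (σ i) z : ℝ) := by
      intro z
      rw [hx, h1 z]
      exact Finset.sum_congr rfl fun i _ => by rw [htk i]
    rw [haw u' x h2, haw _ w hwR, aC_ct E (hct w hw)] at hle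
    -- bound of all coordinates
    have hkept : ∀ j, u' (emb j) ≤ l := fun j =>
      (Finset.single_le_sum (f := fun j => u' (emb j)) (fun j _ => (hpos _).le)
        (Finset.mem_univ j)).trans hsum
    have helim : ∑ i ∈ elim emb, u' i ≤ N * l := by
      have h3 : ∑ i ∈ elim emb, u' i ≤ ∑ i ∈ elim emb, l := by
        refine Finset.sum_le_sum fun i hi => ?_
        exact ((hcmp' i ((mem_elim emb).1 hi)).1 0).trans (hkept _)
      rw [Finset.sum_const, nsmul_eq_mul] at h3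
      refine h3.trans (mul_le_mul_of_nonneg_right ?_ hl.le)
      have h4 := Finset.card_le_univ (elim emb)
      rw [Fintype.card_fin] at h4
      exact_mod_cast h4
    have hall : ∑ i, u' i ≤ (n + 1) * l := by
      rw [sum_split emb hemb]
      have h3 : (N : ℝ) ≤ n := by exact_mod_cast hN
      nlinarith
    -- the value of `A`
    have hAle : AC mK (TE m E) x ≤ l := by
      have h3 : AC mK (TE m E) x = ∑ i, u' i -
          ∑ l, ph ((TE m E l).image (loc (TE m E l) v σ)) u' := by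
        unfold AC
        rw [pair_sum h2]
        have h4 : ∑ l, ph ((TE m E l).image (loc (TE m E l) v σ)) u' =
            ∑ l, (phiS (TE m E l) x : ℝ) -
              ∑ l, ∑ i, u' i * (phiS (TE m E l) (v (σ i)) : ℝ) := by
          rw [← Finset.sum_sub_distrib]
          exact Finset.sum_congr rfl fun l _ => ph_loc (TE_nonempty m E l) h2
        have h5 : ∑ i, u' i * pair mK (v (σ i)) = ∑ i, u' i +
            ∑ l, ∑ i, u' i * (phiS (TE m E l) (v (σ i)) : ℝ) := by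
          rw [Finset.sum_comm, ← Finset.sum_add_distrib]
          refine Finset.sum_congr rfl fun i _ => ?_
          rw [hKE E, ← Finset.mul_sum]
          ring
        rw [h4, h5]
        ring
      have h4 : ∑ i ∈ elim emb, u' i ≤
          ∑ l, ph ((TE m E l).image (loc (TE m E l) v σ)) u' := by
        rw [Finset.sum_subtype (elim emb) (fun i => mem_elim emb)]
        have h5 : ∑ i : {i // i ∉ Set.range emb}, u' i.1 =
            ∑ l ∈ Finset.univ.image ell, ph ((TE m E l).image (loc (TE m E l) v σ)) u' := by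
          rw [Finset.sum_image fun i _ i' _ h => hellinj h]
          refine Finset.sum_congr rfl fun i _ => ?_
          exact (ph_TE hv E σ (hell i) (hrep ⟨i.1, i.2⟩) (fun a => (hcmp' i.1 i.2).1 a)).symm
        rw [h5]
        refine Finset.sum_le_sum_of_subset_of_nonneg (Finset.subset_univ _) fun l _ _ => ?_
        exact ph_nonneg ((TE_nonempty m E l).image _) fun i => (hpos i).le
      rw [h3, sum_split emb hemb]
      linarith
    obtain ⟨u'', h3, h4, h5⟩ := hwalk E x t k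
      (fun i => hposR t k i (by rw [← htk i]; exact hpos i)) (hvec t k)
    exact ⟨x, E, ⟨N, σ, u', fun i => (hpos i).le, h2, hall⟩, ⟨u'', h3, h4.trans hAle, h5⟩, hle⟩
  -- minimise
  have hfin : {x : (Fin n → ℤ) × (Fin e ⊕ Fin (p + 1) ≃ Fin (e + p + 1)) |
      (∃ (N : ℕ) (σ : Fin N → Fin r) (u : Fin N → ℝ), (∀ i, 0 ≤ u i) ∧
        (∀ z, (x.1 z : ℝ) = ∑ i, u i * (v (σ i) z : ℝ)) ∧ ∑ i, u i ≤ (n + 1) * l) ∧
      (∃ u' ∈ Trop, AC mK (TA m) u' ≤ l ∧
        aC m0 (TA m) c S u' ≤ aC m0 (TE m x.2) c S x.1)}.Finite := by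
    refine ((finite_comb v ((n + 1) * l)).prod (Set.finite_univ
      (α := Fin e ⊕ Fin (p + 1) ≃ Fin (e + p + 1)))).subset ?_
    rintro ⟨x, E⟩ hx
    exact ⟨hx.1, Set.mem_univ _⟩
  obtain ⟨x₁, E₁, hx1, hx2, _⟩ := key w₁ hw₁
  obtain ⟨⟨x₀, E₀⟩, ⟨_, u₀, hu₀, hA₀, ha₀⟩, hmin⟩ :=
    Set.exists_min_image _ (fun x : (Fin n → ℤ) × (Fin e ⊕ Fin (p + 1) ≃ Fin (e + p + 1)) =>
      aC m0 (TE m x.2) c S x.1) hfin ⟨(x₁, E₁), hx1, hx2⟩
  have hmin' : ∀ w ∈ Trop, aC m0 (TA m) c S u₀ ≤ aC m0 (TA m) c S w := by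
    intro w hw
    obtain ⟨x, E, h1, h2, h3⟩ := key w hw
    exact (ha₀.trans (hmin (x, E) ⟨h1, h2⟩)).trans h3
  obtain ⟨g, hg, w0, hw0T, hw0, hp⟩ := hprim u₀ hu₀
  have hg' : (1 : ℝ) ≤ g := by exact_mod_cast hg
  have ha0 := hnn w0 hw0T
  have hA0 : 0 ≤ AC mK (TA m) w0 := by
    obtain ⟨N, hN, σ, q, hq, hwq, _⟩ := exists_rep_rat hM hr (hint w0 hw0T)
    have hwR : ∀ z, (w0 z : ℝ) = ∑ i, (q i : ℝ) * (v (σ i) z : ℝ) := by
      intro z
      have h1 := congrArg (fun y : ℚ => (y : ℝ)) (hwq z)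
      push_cast at h1
      exact h1
    exact ha0.trans (aC_le_AC hKA hb0 hc0 hS h0A (fun i => by exact_mod_cast (hq i).le) hwR)
  refine ⟨w0, hw0T, hp, fun w' hw' => ?_, ?_⟩
  · refine le_trans ?_ (hmin' w' hw')
    rw [aC_smul m0 (TA_nonempty m) c hS hg hw0]
    nlinarith
  · refine le_trans ?_ hA₀
    rw [AC_smul mK (TA_nonempty m) hg hw0]
    nlinarith

end Pool.Agent.Work.MP_43381c_ag
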