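import Pool.Agent.Work.MP_43381c_ag.CI.ArrWalk
import Pool.Agent.Work.MP_43381c_ag.CI.ArrDim

/-!
# Arrangement varieties: the choice of the eliminated coordinates
-/

open Matrix

namespace Pool.Agent.Work.MP_43381c_ag

/-- The index `j` is the only one in the block `y`, it has multiplicity one, and the block is
minimal at `w`. -/
def Triv {n q r N : ℕ} (m : Fin q → Fin n → ℤ) (β : Fin r → Fin q) (μ : Fin r → ℕ)
    (σ : Fin N → Fin r) (w : Fin n → ℤ) (j : Fin N) (y : Fin q) : Prop :=
  β (σ j) = y ∧ μ (σ j) = 1 ∧ (∀ j', β (σ j') = y → 0 < μ (σ j') → j' = j) ∧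
    m y ⬝ᵥ w = tmin m w

theorem exists_equiv {e p : ℕ} {S : Finset (Fin (e + p + 1))} (hS : S.card = p + 1) :
    ∃ E : Fin e ⊕ Fin (p + 1) ≃ Fin (e + p + 1), (∀ a, E (Sum.inr a) ∈ S) ∧
      ∀ l, E (Sum.inl l) ∉ S := by
  classical
  have h1 : Fintype.card {y // y ∉ S} = e := by
    have h2 : Fintype.card {y // y ∉ S} = (Finset.univ.filter fun y => y ∉ S).card :=
      Fintype.card_subtype _
    have h3 : (Finset.univ.filter fun y => y ∉ S) = Sᶜ := by ext y; simp
    rw [h2, h3, Finset.card_compl, hS, Fintype.card_fin]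
    omega
  have h2 : Fintype.card {y // ¬ y ∉ S} = p + 1 := by
    have h2 : Fintype.card {y // ¬ y ∉ S} = (Finset.univ.filter fun y => ¬ y ∉ S).card :=
      Fintype.card_subtype _
    have h3 : (Finset.univ.filter fun y => ¬ y ∉ S) = S := by ext y; simp
    rw [h2, h3, hS]
  let e1 : {y // y ∉ S} ≃ Fin e := Fintype.equivFinOfCardEq h1
  let e2 : {y // ¬ y ∉ S} ≃ Fin (p + 1) := Fintype.equivFinOfCardEq h2
  refine ⟨(Equiv.sumCongr e1.symm e2.symm).trans (Equiv.sumCompl fun y => y ∉ S), fun a => ?_,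
    fun l => ?_⟩
  · have := (e2.symm a).2
    simpa using this
  · have := (e1.symm l).2
    simpa using this

/-- Selection of the coordinates. -/
theorem exists_sel {n d e p r N : ℕ} (hn : n = d + e) (hN : 0 < N) (hNn : N ≤ n)
    {m : Fin (e + p + 1) → Fin n → ℤ}
    (haff : ∀ a : Fin (e + p + 1) → ℤ, ∑ y, a y = 0 → ∑ y, a y • m y = 0 → a = 0)
    {v : Fin r → Fin n → ℤ} {β : Fin r → Fin (e + p + 1)} {τ : Fin r → ℤ} {μ : Fin r → ℕ}
    (hv : ∀ ρ y, m y ⬝ᵥ v ρ = τ ρ + if y = β ρ then (μ ρ : ℤ) else 0) (σ : Fin N → Fin r)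
    (hlin : LinearIndependent ℝ fun i => rv (v (σ i))) {x : Fin N → ℚ} (hx : ∀ i, 0 < x i)
    {w : Fin n → ℤ} (hw : ∀ z, (w z : ℚ) = ∑ i, x i * (v (σ i) z : ℚ))
    (hct : (nm m w).card ≤ p)
    (hB : (∀ y, ∃ i, β (σ i) = y ∧ 0 < μ (σ i)) → ∀ B : Finset (Fin (e + p + 1)),
      (∀ y ∈ B, ∃ i, β (σ i) = y ∧ 2 ≤ μ (σ i)) → B.card ≤ 2 * (p + 1)) :
    ∃ (E : Fin e ⊕ Fin (p + 1) ≃ Fin (e + p + 1)) (N' : ℕ) (emb : Fin N' → Fin N)
      (rep : Fin (p + 1) → Fin N') (ell : {i // i ∉ Set.range emb} → Fin e), N' ≤ 4 * d ∧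
      Function.Injective emb ∧ Function.Injective ell ∧
      (∀ i : {i // i ∉ Set.range emb}, Triv m β μ σ w i.1 (E (Sum.inl (ell i)))) ∧
      ((∃ i, i ∉ Set.range emb) → ∀ a, Triv m β μ σ w (emb (rep a)) (E (Sum.inr a))) := by
  classical
  -- no elimination
  have hno : N ≤ 4 * d → ∃ (E : Fin e ⊕ Fin (p + 1) ≃ Fin (e + p + 1)) (N' : ℕ)
      (emb : Fin N' → Fin N)
      (rep : Fin (p + 1) → Fin N') (ell : {i // i ∉ Set.range emb} → Fin e), N' ≤ 4 * d ∧
      Function.Injective emb ∧ Function.Injective ell ∧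
      (∀ i : {i // i ∉ Set.range emb}, Triv m β μ σ w i.1 (E (Sum.inl (ell i)))) ∧
      ((∃ i, i ∉ Set.range emb) → ∀ a, Triv m β μ σ w (emb (rep a)) (E (Sum.inr a))) := by
    intro h
    refine ⟨(finSumFinEquiv : Fin e ⊕ Fin (p + 1) ≃ Fin (e + (p + 1))), N, id, fun _ => ⟨0, hN⟩,
      fun i => (i.2 ⟨i.1, rfl⟩).elim, h, Function.injective_id, ?_, ?_, ?_⟩
    · intro i; exact (i.2 ⟨i.1, rfl⟩).elim
    · intro i; exact (i.2 ⟨i.1, rfl⟩).elim
    · rintro ⟨i, hi⟩; exact (hi ⟨i, rfl⟩).elim
  -- values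
  have hval : ∀ y, ((m y ⬝ᵥ w : ℤ) : ℚ) = ∑ i, x i * (τ (σ i) : ℚ) +
      ∑ i, x i * (if y = β (σ i) then (μ (σ i) : ℚ) else 0) := by
    intro y
    have h1 : ((m y ⬝ᵥ w : ℤ) : ℚ) = ∑ i, x i * ((m y ⬝ᵥ v (σ i) : ℤ) : ℚ) := by
      simp only [dotProduct]
      push_cast
      simp only [hw, Finset.mul_sum]
      rw [Finset.sum_comm]
      exact Finset.sum_congr rfl fun i _ => Finset.sum_congr rfl fun z _ => by ring
    rw [h1, ← Finset.sum_add_distrib]
    refine Finset.sum_congr rfl fun i _ => ?_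
    rw [hv, ← mul_add]
    congr 1
    push_cast
    rfl
  have hterm : ∀ y i, 0 ≤ x i * (if y = β (σ i) then (μ (σ i) : ℚ) else 0) := by
    intro y i
    refine mul_nonneg (hx i).le ?_
    split_ifs
    · positivity
    · exact le_rfl
  set Z : Finset (Fin (e + p + 1)) := Finset.univ.filter fun y => m y ⬝ᵥ w = tmin m w with hZ
  have hZcard : e + 1 ≤ Z.card := by
    have h1 : Z.card + (nm m w).card = e + p + 1 := by
      have h2 : nm m w = Finset.univ.filter fun y => ¬ m y ⬝ᵥ w = tmin m w := by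
        ext y; rw [mem_nm]; simp
      rw [h2, hZ, Finset.card_filter_add_card_filter_not]
      simp
    omega
  by_cases hall : ∀ y, ∃ i, β (σ i) = y ∧ 0 < μ (σ i)
  · have hB' := hB hall
    set J : Fin (e + p + 1) → Finset (Fin N) := fun y =>
      Finset.univ.filter fun i => β (σ i) = y ∧ 0 < μ (σ i) with hJ
    have hJmem : ∀ {y i}, i ∈ J y ↔ β (σ i) = y ∧ 0 < μ (σ i) := by
      intro y i; simp [hJ]
    have hJsum : ∑ y, (J y).card ≤ N := by
      have h1 := Finset.card_eq_sum_card_fiberwise (f := fun i => β (σ i))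
        (s := Finset.univ.filter fun i : Fin N => 0 < μ (σ i))
        (t := (Finset.univ : Finset (Fin (e + p + 1)))) (fun i _ => Finset.mem_coe.2 (Finset.mem_univ _))
      have h2 : ∀ y, J y = {i ∈ Finset.univ.filter fun i : Fin N => 0 < μ (σ i) |
          β (σ i) = y} := by
        intro y
        ext i
        rw [hJmem, Finset.mem_filter, Finset.mem_filter]
        simp [and_comm]
      rw [Finset.sum_congr rfl fun y _ => congrArg Finset.card (h2 y), ← h1]
      exact (Finset.card_le_univ _).trans (by simp)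
    have hJ1 : ∀ y, 1 ≤ (J y).card := by
      intro y
      obtain ⟨i, hi⟩ := hall y
      exact Finset.card_pos.2 ⟨i, hJmem.2 hi⟩
    set A : Finset (Fin (e + p + 1)) := Finset.univ.filter fun y => 2 ≤ (J y).card with hA
    have hAcard : e + p + 1 + A.card ≤ N := by
      have h1 : ∑ y : Fin (e + p + 1), (1 + if y ∈ A then 1 else 0) ≤ ∑ y, (J y).card := by
        refine Finset.sum_le_sum fun y _ => ?_
        split_ifs with h
        · exact (Finset.mem_filter.1 h).2
        · exact hJ1 y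
      rw [Finset.sum_add_distrib, Finset.sum_ite_mem, Finset.univ_inter, Finset.sum_const,
        Finset.sum_const, Finset.card_univ, Fintype.card_fin] at h1
      simp only [smul_eq_mul, mul_one] at h1
      exact h1.trans hJsum
    set B : Finset (Fin (e + p + 1)) := Finset.univ.filter fun y =>
      ∃ i, β (σ i) = y ∧ 2 ≤ μ (σ i) with hBdef
    have hBcard : B.card ≤ 2 * (p + 1) := hB' B fun y hy => (Finset.mem_filter.1 hy).2
    set Y0 : Finset (Fin (e + p + 1)) := (A ∪ B ∪ nm m w)ᶜ with hY0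
    have hY0card : e + p + 1 ≤ Y0.card + (A.card + B.card + (nm m w).card) := by
      have h1 := Finset.card_compl (A ∪ B ∪ nm m w)
      have h2 := Finset.card_union_le (A ∪ B) (nm m w)
      have h3 := Finset.card_union_le A B
      rw [Fintype.card_fin] at h1
      have h4 := Finset.card_le_univ (A ∪ B ∪ nm m w)
      rw [Fintype.card_fin] at h4
      rw [hY0]
      omega
    have hY0triv : ∀ y ∈ Y0, ∃ j, Triv m β μ σ w j y := by
      intro y hy
      rw [hY0, Finset.mem_compl, Finset.mem_union, Finset.mem_union] at hy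
      push Not at hy
      obtain ⟨⟨hyA, hyB⟩, hyC⟩ := hy
      have h1 : (J y).card = 1 := by
        have h2 : ¬ 2 ≤ (J y).card := fun h => hyA (Finset.mem_filter.2 ⟨Finset.mem_univ _, h⟩)
        have := hJ1 y
        omega
      obtain ⟨j, hj⟩ := Finset.card_eq_one.1 h1
      have hjmem : j ∈ J y := by rw [hj]; exact Finset.mem_singleton_self j
      obtain ⟨h2, h3⟩ := hJmem.1 hjmem
      refine ⟨j, h2, ?_, ?_, ?_⟩
      · have h4 : ¬ 2 ≤ μ (σ j) := fun h => hyB (Finset.mem_filter.2 ⟨Finset.mem_univ _, j, h2, h⟩)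
        omega
      · intro j' h4 h5
        have h6 : j' ∈ J y := hJmem.2 ⟨h4, h5⟩
        rw [hj] at h6
        exact Finset.mem_singleton.1 h6
      · by_contra h4
        exact hyC ((mem_nm m).2 h4)
    rcases Nat.lt_or_ge Y0.card (p + 1) with hlt | hge
    · exact hno (by omega)
    · obtain ⟨S, hSY, hS⟩ := Finset.exists_subset_card_eq hge
      obtain ⟨E, hE1, hE2⟩ := exists_equiv hS
      have hch : ∀ y, ∃ j, y ∈ Y0 → Triv m β μ σ w j y := by
        intro y
        by_cases hy : y ∈ Y0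
        · obtain ⟨j, hj⟩ := hY0triv y hy
          exact ⟨j, fun _ => hj⟩
        · exact ⟨⟨0, hN⟩, fun h => absurd h hy⟩
      choose jj hjj using hch
      have hinj : ∀ y ∈ Y0, ∀ y' ∈ Y0, jj y = jj y' → y = y' := by
        intro y hy y' hy' h
        rw [← (hjj y hy).1, ← (hjj y' hy').1, h]
      set El : Finset (Fin N) := (Y0 \ S).image jj with hEl
      have hElcard : El.card + (p + 1) = Y0.card := by
        rw [hEl, Finset.card_image_of_injOn (fun y hy y' hy' h =>
          hinj y (Finset.sdiff_subset hy) y' (Finset.sdiff_subset hy') h),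
          Finset.card_sdiff_of_subset hSY, hS]
        omega
      set Kp : Finset (Fin N) := Elᶜ with hKp
      have hKcard : Kp.card + El.card = N := by
        have h1 := Finset.card_compl El
        have h2 := Finset.card_le_univ El
        rw [Fintype.card_fin] at h1 h2
        rw [hKp]
        omega
      set emb : Fin Kp.card → Fin N := fun j => Kp.orderEmbOfFin rfl j with hemb
      have hrange : ∀ i, i ∈ Set.range emb ↔ i ∈ Kp := by
        intro i
        have h1 : Set.range emb = (Kp : Set (Fin N)) := Finset.range_orderEmbOfFin Kp rfl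
        rw [h1]
        exact Finset.mem_coe
      have hrange' : ∀ i, i ∉ Set.range emb ↔ i ∈ El := by
        intro i
        rw [hrange, hKp, Finset.mem_compl, not_not]
      have hrep : ∀ a : Fin (p + 1), ∃ j, emb j = jj (E (Sum.inr a)) := by
        intro a
        have h1 : jj (E (Sum.inr a)) ∈ Set.range emb := by
          rw [hrange, hKp, Finset.mem_compl, hEl, Finset.mem_image]
          rintro ⟨y, hy, h⟩
          obtain ⟨hy1, hy2⟩ := Finset.mem_sdiff.1 hy
          have h2 := hinj y hy1 _ (hSY (hE1 a)) h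
          rw [h2] at hy2
          exact hy2 (hE1 a)
        exact h1
      choose rep hrep using hrep
      have hell : ∀ i : {i // i ∉ Set.range emb}, ∃ l, Triv m β μ σ w i.1 (E (Sum.inl l)) := by
        intro i
        have h1 := (hrange' i.1).1 i.2
        rw [hEl, Finset.mem_image] at h1
        obtain ⟨y, hy, h⟩ := h1
        obtain ⟨hy1, hy2⟩ := Finset.mem_sdiff.1 hy
        obtain ⟨z, rfl⟩ := E.surjective y
        rcases z with l | a
        · exact ⟨l, by rw [← h]; exact hjj _ hy1⟩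
        · exact absurd (hE1 a) hy2
      choose ell hell using hell
      refine ⟨E, Kp.card, emb, rep, ell, by omega, (Kp.orderEmbOfFin rfl).injective, ?_, hell, ?_⟩
      · intro i i' h
        have h1 := hell i
        have h2 := hell i'
        rw [← h] at h2
        exact Subtype.ext (h2.2.2.1 i.1 h1.1 (by rw [h1.2.1]; exact one_pos))
      · intro _ a
        rw [hrep a]
        exact hjj _ (hSY (hE1 a))
  · push Not at hall
    obtain ⟨y₁, hy₁⟩ := hall
    have hz1 : ∀ i, x i * (if y₁ = β (σ i) then (μ (σ i) : ℚ) else 0) = 0 := by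
      intro i
      split_ifs with h
      · have h1 := hy₁ i h.symm
        have h2 : μ (σ i) = 0 := by omega
        rw [h2]; simp
      · simp
    have hmin : ((tmin m w : ℤ) : ℚ) = ∑ i, x i * (τ (σ i) : ℚ) := by
      apply le_antisymm
      · have h1 := tmin_le m w y₁
        have h2 : ((tmin m w : ℤ) : ℚ) ≤ ((m y₁ ⬝ᵥ w : ℤ) : ℚ) := by exact_mod_cast h1
        rw [hval, Finset.sum_eq_zero fun i _ => hz1 i, add_zero] at h2
        exact h2
      · obtain ⟨y, hy⟩ := exists_tmin m w y₁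
        rw [hy, hval]
        have := Finset.sum_nonneg fun i (_ : i ∈ Finset.univ) => hterm y i
        linarith
    have hZ0 : ∀ y ∈ Z, ∀ i, β (σ i) = y → μ (σ i) = 0 := by
      intro y hy i hi
      have h1 : m y ⬝ᵥ w = tmin m w := (Finset.mem_filter.1 hy).2
      have h2 : ((m y ⬝ᵥ w : ℤ) : ℚ) = ((tmin m w : ℤ) : ℚ) := by rw [h1]
      rw [hval, hmin] at h2
      have h3 : ∑ i, x i * (if y = β (σ i) then (μ (σ i) : ℚ) else 0) = 0 := by linarith
      have h4 := (Finset.sum_eq_zero_iff_of_nonneg fun i _ => hterm y i).1 h3 i (Finset.mem_univ i)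
      rw [if_pos hi.symm] at h4
      rcases mul_eq_zero.1 h4 with h5 | h5
      · exact absurd h5 (hx i).ne'
      · exact_mod_cast h5
    have hZne : Z.Nonempty := Finset.card_pos.1 (by omega)
    obtain ⟨y₀, hy₀⟩ := hZne
    have horth : ∀ i, ∀ y ∈ Z, m y ⬝ᵥ v (σ i) = m y₀ ⬝ᵥ v (σ i) := by
      intro i y hy
      rw [hv, hv]
      congr 1
      have h1 : ∀ y ∈ Z, (if y = β (σ i) then (μ (σ i) : ℤ) else 0) = 0 := by
        intro y hy
        split_ifs with h
        · rw [hZ0 y hy i h.symm]; rfl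
        · rfl
      rw [h1 y hy, h1 y₀ hy₀]
    have h1 := card_add_le hlin haff hy₀ horth
    exact hno (by omega)

end Pool.Agent.Work.MP_43381c_ag
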