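import Pool.Agent.Work.MP_43381c_ag.CI.WalkAll

/-!
# Arrangement varieties: blocks, combinatorially tropical vectors, the walk
-/

open Matrix

namespace Pool.Agent.Work.MP_43381c_ag

/-- The walk with an abstract step. -/
theorem walk_gen {n r e s : ℕ} {v : Fin r → Fin n → ℤ} {T : Fin e → Finset (Fin n → ℤ)}
    (hT : ∀ l, (T l).Nonempty) {mK : Fin n → ℝ}
    (hK : ∀ ρ, pair mK (v ρ) = 1 + ∑ l, (phiS (T l) (v ρ) : ℝ))
    {b : Fin r → ℝ} (hb : ∀ ρ, 0 ≤ b ρ) {c : Fin s → ℝ} (hc : ∀ j, 0 ≤ c j)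
    {S : Fin s → Finset (Fin n → ℤ)} (hS : ∀ j, (S j).Nonempty) {m0 : Fin n → ℝ}
    (h0 : ∀ ρ, pair m0 (v ρ) = 1 - b ρ + ∑ l, (phiS (T l) (v ρ) : ℝ) +
      ∑ j, c j * (phiS (S j) (v ρ) : ℝ))
    {q : ℕ} (σ : Fin q → Fin r) (Good : (Fin n → ℤ) → Prop)
    (hstep : ∀ (u : Fin n → ℤ) (k : Fin q → ℕ), Good (u + ∑ i, k i • v (σ i)) → Good u ∨
      ∃ R : Finset (Fin q), R.Nonempty ∧ (∀ i ∈ R, 0 < k i) ∧ ∃ I : Finset (Fin e),
        R.card ≤ I.card ∧ ∀ l ∈ I, ∀ m, ¬ (m ∈ T l ∧ m ⬝ᵥ u = phiS (T l) u ∧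
          ∀ i ∈ R, m ⬝ᵥ v (σ i) = phiS (T l) (v (σ i))))
    (M : ℕ) : ∀ (u w : Fin n → ℤ), IntPt v u → Good w → ∀ k : Fin q → ℕ, ∑ i, k i = M →
      w = u + ∑ i, k i • v (σ i) →
      ∃ (u' : Fin n → ℤ) (k' : Fin q → ℕ), IntPt v u' ∧ Good u' ∧
        w = u' + ∑ i, k' i • v (σ i) ∧ AC mK T u' ≤ AC mK T u ∧
        aC m0 T c S u' ≤ aC m0 T c S u := by
  classical
  induction M using Nat.strong_induction_on with
  | _ M ih =>
    intro u w hu hw k hM hwe
    rw [hwe] at hw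
    rcases hstep u k hw with h | ⟨R, hR, hRN, I, hcard, hI⟩
    · exact ⟨u, k, hu, h, hwe, le_rfl, le_rfl⟩
    · have hst := step_le hT hK hb hc hS h0 σ u R I hcard hI
      have h2 : ∑ i, (if i ∈ R then 1 else 0) • v (σ i) = ∑ i ∈ R, v (σ i) := by
        simp only [ite_smul, one_smul, zero_smul]
        rw [Finset.sum_ite_mem, Finset.univ_inter]
      set u1 : Fin n → ℤ := u + ∑ i ∈ R, v (σ i) with hu1
      have hu1I : IntPt v u1 := by
        have h1 := intPt_add hu σ (fun i => if i ∈ R then 1 else 0)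
        rw [h2] at h1
        exact h1
      have hsub : ∀ i, (if i ∈ R then 1 else 0) ≤ k i := by
        intro i
        split_ifs with h
        · exact hRN i h
        · exact Nat.zero_le _
      have hlt : ∑ i, (k i - if i ∈ R then 1 else 0) < M := by
        rw [← hM]
        obtain ⟨i₀, hi₀⟩ := hR
        refine Finset.sum_lt_sum (fun i _ => Nat.sub_le _ _) ⟨i₀, Finset.mem_univ _, ?_⟩
        rw [if_pos hi₀]
        have := hRN i₀ hi₀
        omega
      have hwe' : w = u1 + ∑ i, (k i - if i ∈ R then 1 else 0) • v (σ i) := by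
        rw [hwe, hu1, add_assoc]
        congr 1
        rw [← h2, ← Finset.sum_add_distrib]
        refine Finset.sum_congr rfl fun i _ => ?_
        rw [← add_smul, Nat.add_sub_cancel' (hsub i)]
      rw [← hwe] at hw
      obtain ⟨u', k', h1, h2, h3, h4, h5⟩ := ih _ hlt u1 w hu1I hw _ rfl hwe'
      exact ⟨u', k', h1, h2, h3, h4.trans hst.1, h5.trans hst.2⟩

section

variable {n q : ℕ} (m : Fin q → Fin n → ℤ)

/-- the minimum of the values of all exponents -/
noncomputable def tmin (w : Fin n → ℤ) : ℤ := phiS (Finset.univ.image m) w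

/-- the blocks that are not minimal at `w` -/
noncomputable def nm (w : Fin n → ℤ) : Finset (Fin q) :=
  open Classical in Finset.univ.filter fun y => m y ⬝ᵥ w ≠ tmin m w

theorem tmin_le (w : Fin n → ℤ) (y : Fin q) : tmin m w ≤ m y ⬝ᵥ w := by
  classical
  obtain ⟨_, _, _, h⟩ := phiS_spec (S := Finset.univ.image m)
    ⟨m y, Finset.mem_image_of_mem _ (Finset.mem_univ y)⟩ w
  have := h (m y) (Finset.mem_image_of_mem _ (Finset.mem_univ y))
  unfold tmin
  convert this

theorem exists_tmin (w : Fin n → ℤ) (y₀ : Fin q) : ∃ y, tmin m w = m y ⬝ᵥ w := by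
  classical
  obtain ⟨m', hm', h, _⟩ := phiS_spec (S := Finset.univ.image m)
    ⟨m y₀, Finset.mem_image_of_mem _ (Finset.mem_univ y₀)⟩ w
  obtain ⟨y, _, rfl⟩ := Finset.mem_image.1 hm'
  refine ⟨y, ?_⟩
  unfold tmin
  convert h

theorem mem_nm {w : Fin n → ℤ} {y : Fin q} : y ∈ nm m w ↔ m y ⬝ᵥ w ≠ tmin m w := by
  classical
  simp [nm]

end

section

variable {n e p : ℕ} (m : Fin (e + p + 1) → Fin n → ℤ)
  (E : Fin e ⊕ Fin (p + 1) ≃ Fin (e + p + 1))

open Classical in
/-- the exponents of the equation number `l` in the form that expresses the block `E (inl l)` in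
the blocks `E (inr a)` -/
noncomputable def TE (l : Fin e) : Finset (Fin n → ℤ) :=
  insert (m (E (Sum.inl l))) (Finset.univ.image fun a => m (E (Sum.inr a)))

theorem TE_nonempty (l : Fin e) : (TE m E l).Nonempty := by
  classical
  exact Finset.insert_nonempty _ _

theorem mem_TE {l : Fin e} {x : Fin n → ℤ} :
    x ∈ TE m E l ↔ x = m (E (Sum.inl l)) ∨ ∃ a, x = m (E (Sum.inr a)) := by
  classical
  unfold TE
  rw [Finset.mem_insert, Finset.mem_image]
  simp only [Finset.mem_univ, true_and, eq_comm]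

theorem tmin_le_TE (l : Fin e) (w : Fin n → ℤ) : tmin m w ≤ phiS (TE m E l) w := by
  obtain ⟨x, hx, h, _⟩ := phiS_spec (TE_nonempty m E l) w
  rw [h]
  rcases (mem_TE m E).1 hx with rfl | ⟨a, rfl⟩
  · exact tmin_le m w _
  · exact tmin_le m w _

theorem TE_eq_tmin {l : Fin e} {w : Fin n → ℤ} {y : Fin (e + p + 1)} (hy : m y ∈ TE m E l)
    (h : m y ⬝ᵥ w = tmin m w) : phiS (TE m E l) w = tmin m w := by
  refine le_antisymm ?_ (tmin_le_TE m E l w)
  obtain ⟨_, _, _, h1⟩ := phiS_spec (TE_nonempty m E l) w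
  rw [← h]
  exact h1 _ hy

theorem TE_ct {w : Fin n → ℤ} (hw : (nm m w).card ≤ p) (l : Fin e) :
    phiS (TE m E l) w = tmin m w := by
  classical
  by_contra hne
  have h1 : E (Sum.inl l) ∈ nm m w := by
    rw [mem_nm]
    intro h
    exact hne (TE_eq_tmin m E ((mem_TE m E).2 (Or.inl rfl)) h)
  have h2 : ∀ a, E (Sum.inr a) ∈ nm m w := by
    intro a
    rw [mem_nm]
    intro h
    exact hne (TE_eq_tmin m E ((mem_TE m E).2 (Or.inr ⟨a, rfl⟩)) h)
  have h3 : insert (E (Sum.inl l)) (Finset.univ.image fun a => E (Sum.inr a)) ⊆ nm m w := by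
    intro y hy
    rcases Finset.mem_insert.1 hy with rfl | hy
    · exact h1
    · obtain ⟨a, _, rfl⟩ := Finset.mem_image.1 hy
      exact h2 a
  have h4 := Finset.card_le_card h3
  rw [Finset.card_insert_of_notMem (by
    intro h
    obtain ⟨a, _, ha⟩ := Finset.mem_image.1 h
    have := E.injective ha
    simp at this), Finset.card_image_of_injective _ (fun a b h => by
      have := E.injective h
      simpa using this), Finset.card_univ, Fintype.card_fin] at h4
  omega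

variable {r : ℕ} {v : Fin r → Fin n → ℤ} {β : Fin r → Fin (e + p + 1)} {τ : Fin r → ℤ}
  {μ : Fin r → ℕ}

theorem TE_ray (hv : ∀ ρ y, m y ⬝ᵥ v ρ = τ ρ + if y = β ρ then (μ ρ : ℤ) else 0) (l : Fin e)
    (ρ : Fin r) : phiS (TE m E l) (v ρ) = τ ρ := by
  have hge : ∀ y, τ ρ ≤ m y ⬝ᵥ v ρ := by
    intro y
    rw [hv]
    split_ifs <;> omega
  obtain ⟨x, hx, h, h1⟩ := phiS_spec (TE_nonempty m E l) (v ρ)
  apply le_antisymm
  · by_cases h2 : E (Sum.inl l) = β ρ
    · have h3 : E (Sum.inr 0) ≠ β ρ := by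
        intro h3
        have := E.injective (h2.trans h3.symm)
        simp at this
      have h4 := h1 _ ((mem_TE m E).2 (Or.inr ⟨0, rfl⟩))
      rw [hv, if_neg h3, add_zero] at h4
      exact h4
    · have h4 := h1 _ ((mem_TE m E).2 (Or.inl rfl))
      rw [hv, if_neg h2, add_zero] at h4
      exact h4
  · rw [h]
    rcases (mem_TE m E).1 hx with rfl | ⟨a, rfl⟩
    · exact hge _
    · exact hge _

/-- One step of the walk: all minimal blocks are raised. -/
theorem arr_step (hv : ∀ ρ y, m y ⬝ᵥ v ρ = τ ρ + if y = β ρ then (μ ρ : ℤ) else 0) {N : ℕ}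
    (σ : Fin N → Fin r) (u : Fin n → ℤ) (k : Fin N → ℕ)
    (hw : (nm m (u + ∑ i, k i • v (σ i))).card ≤ p) :
    (nm m u).card ≤ p ∨
    ∃ R : Finset (Fin N), R.Nonempty ∧ (∀ i ∈ R, 0 < k i) ∧ ∃ I : Finset (Fin e),
      R.card ≤ I.card ∧ ∀ l ∈ I, ∀ x, ¬ (x ∈ TE m E l ∧ x ⬝ᵥ u = phiS (TE m E l) u ∧
        ∀ i ∈ R, x ⬝ᵥ v (σ i) = phiS (TE m E l) (v (σ i))) := by
  classical
  by_contra hcon
  push Not at hcon
  obtain ⟨hu, hcon⟩ := hcon
  set w : Fin n → ℤ := u + ∑ i, k i • v (σ i) with hwdef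
  -- the values at `w`
  have hval : ∀ y, m y ⬝ᵥ w = m y ⬝ᵥ u + ∑ i, (k i : ℤ) * τ (σ i) +
      ∑ i, (k i : ℤ) * (if y = β (σ i) then (μ (σ i) : ℤ) else 0) := by
    intro y
    rw [hwdef, dotProduct_add, dotProduct_sum, add_assoc, ← Finset.sum_add_distrib]
    congr 1
    refine Finset.sum_congr rfl fun i _ => ?_
    rw [dotProduct_smul, nsmul_eq_mul, hv]
    ring
  have hnn : ∀ y, 0 ≤ ∑ i, (k i : ℤ) * (if y = β (σ i) then (μ (σ i) : ℤ) else 0) := by
    intro y
    refine Finset.sum_nonneg fun i _ => mul_nonneg (by positivity) ?_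
    split_ifs <;> positivity
  -- every minimal block can be raised
  have hraise : ∀ y, m y ⬝ᵥ u = tmin m u → ∃ i, β (σ i) = y ∧ 0 < μ (σ i) ∧ 0 < k i := by
    intro y hy
    by_contra hno
    push Not at hno
    have h1 : ∑ i, (k i : ℤ) * (if y = β (σ i) then (μ (σ i) : ℤ) else 0) = 0 := by
      refine Finset.sum_eq_zero fun i _ => ?_
      split_ifs with h
      · by_cases h2 : 0 < μ (σ i)
        · have h3 := hno i h.symm h2
          have h4 : k i = 0 := by omega
          rw [h4]; simp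
        · have h4 : μ (σ i) = 0 := by omega
          rw [h4]; simp
      · rw [mul_zero]
    have h2 : m y ⬝ᵥ w = tmin m u + ∑ i, (k i : ℤ) * τ (σ i) := by
      rw [hval, h1, hy, add_zero]
    have h3 : tmin m w = tmin m u + ∑ i, (k i : ℤ) * τ (σ i) := by
      apply le_antisymm
      · rw [← h2]; exact tmin_le m w y
      · obtain ⟨y', hy'⟩ := exists_tmin m w y
        rw [hy', hval]
        have := tmin_le m u y'
        have := hnn y'
        omega
    refine absurd ((Finset.card_le_card fun y' hy' => ?_).trans hw) (not_le.2 hu)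
    rw [mem_nm] at hy' ⊢
    intro h4
    apply hy'
    rw [hval, h3] at h4
    have := tmin_le m u y'
    have := hnn y'
    omega
  set Y : Finset (Fin (e + p + 1)) := Finset.univ.filter fun y => m y ⬝ᵥ u = tmin m u with hY
  have hmemY : ∀ {y}, y ∈ Y ↔ m y ⬝ᵥ u = tmin m u := by
    intro y; rw [hY]; simp
  have hYcard : Y.card ≤ e := by
    have h1 : Y.card + (nm m u).card = e + p + 1 := by
      have h2 : nm m u = Finset.univ.filter fun y => ¬ m y ⬝ᵥ u = tmin m u := by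
        ext y; rw [mem_nm]; simp
      rw [h2, hY, Finset.card_filter_add_card_filter_not]
      simp
    omega
  have hch : ∀ y : Fin (e + p + 1), ∃ i : Fin N, y ∈ Y → β (σ i) = y ∧ 0 < μ (σ i) ∧ 0 < k i := by
    intro y
    by_cases hy : y ∈ Y
    · obtain ⟨i, hi⟩ := hraise y (hmemY.1 hy)
      exact ⟨i, fun _ => hi⟩
    · obtain ⟨y₁, hy₁⟩ := exists_tmin m u 0
      obtain ⟨i, _⟩ := hraise y₁ hy₁.symm
      exact ⟨i, fun h => absurd h hy⟩
  choose i hi using hch
  have hYne : Y.Nonempty := by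
    obtain ⟨y₁, hy₁⟩ := exists_tmin m u 0
    exact ⟨y₁, hmemY.2 hy₁.symm⟩
  -- the set of raised indices
  have hRcard : (Y.image i).card ≤ Y.card := Finset.card_image_le
  -- the key check
  have hkey : ∀ l, phiS (TE m E l) u = tmin m u → ∀ x, ¬ (x ∈ TE m E l ∧
      x ⬝ᵥ u = phiS (TE m E l) u ∧
      ∀ j ∈ Y.image i, x ⬝ᵥ v (σ j) = phiS (TE m E l) (v (σ j))) := by
    rintro l hl x ⟨hx, hxu, hxv⟩
    obtain ⟨y, rfl⟩ : ∃ y, x = m y := by
      rcases (mem_TE m E).1 hx with h | ⟨a, h⟩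
      · exact ⟨_, h⟩
      · exact ⟨_, h⟩
    rw [hl] at hxu
    have hyY : y ∈ Y := hmemY.2 hxu
    obtain ⟨h1, h2, _⟩ := hi y hyY
    have h3 := hxv (i y) (Finset.mem_image_of_mem _ hyY)
    rw [TE_ray m E hv, hv, h1, if_pos rfl] at h3
    omega
  by_cases hS : ∃ a, E (Sum.inr a) ∈ Y
  · obtain ⟨a, ha⟩ := hS
    obtain ⟨l, _, x, hx⟩ := hcon (Y.image i) (hYne.image _) (by
      intro j hj
      obtain ⟨y, hy, rfl⟩ := Finset.mem_image.1 hj
      exact (hi y hy).2.2) Finset.univ (by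
        rw [Finset.card_univ, Fintype.card_fin]
        exact hRcard.trans hYcard)
    refine hkey l ?_ x hx
    exact TE_eq_tmin m E ((mem_TE m E).2 (Or.inr ⟨a, rfl⟩)) (hmemY.1 ha)
  · push Not at hS
    obtain ⟨l, hl, x, hx⟩ := hcon (Y.image i) (hYne.image _) (by
      intro j hj
      obtain ⟨y, hy, rfl⟩ := Finset.mem_image.1 hj
      exact (hi y hy).2.2) (Finset.univ.filter fun l => E (Sum.inl l) ∈ Y) (by
        refine hRcard.trans ?_
        have h1 : Y ⊆ (Finset.univ.filter fun l => E (Sum.inl l) ∈ Y).image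
            fun l => E (Sum.inl l) := by
          intro y hy
          obtain ⟨z, rfl⟩ := E.surjective y
          rcases z with l | a
          · exact Finset.mem_image.2 ⟨l, Finset.mem_filter.2 ⟨Finset.mem_univ _, hy⟩, rfl⟩
          · exact absurd hy (hS a)
        exact (Finset.card_le_card h1).trans Finset.card_image_le)
    refine hkey l ?_ x hx
    exact TE_eq_tmin m E ((mem_TE m E).2 (Or.inl rfl)) (hmemY.1 (Finset.mem_filter.1 hl).2)

end

end Pool.Agent.Work.MP_43381c_ag
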