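import Pool.Agent.Work.MP_43381c_ag.CI.ConeDesc

/-!
# Cones for complete intersections, III: the combinatorial theorem relative to a set closed under
the walk
-/

open Matrix

namespace Pool.Agent.Work.MP_43381c_ag

/-- `a(w) = ⟨m, w⟩ - ∑ φ_l(w) - ∑ c_j ψ_j(w)`, the `φ_l` for the equations and the `ψ_j` for the
boundary. -/
noncomputable def aC {d e s : ℕ} (m : Fin d → ℝ) (T : Fin e → Finset (Fin d → ℤ)) (c : Fin s → ℝ)
    (S : Fin s → Finset (Fin d → ℤ)) (w : Fin d → ℤ) : ℝ :=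
  pair m w - ∑ l, (phiS (T l) w : ℝ) - ∑ j, c j * (phiS (S j) w : ℝ)

/-- `A(w) = ⟨m, w⟩ - ∑ φ_l(w)`. -/
noncomputable def AC {d e : ℕ} (m : Fin d → ℝ) (T : Fin e → Finset (Fin d → ℤ))
    (w : Fin d → ℤ) : ℝ :=
  pair m w - ∑ l, (phiS (T l) w : ℝ)

theorem dcc_insert_one {G : Set ℝ} (hG1 : ∀ g ∈ G, g ≤ 1) (hG : DCC G) : DCC (insert 1 G) := by
  rintro ⟨u, hu, hmem⟩
  have hle : ∀ n, u n ≤ 1 := fun n => by
    rcases hmem n with h | h
    · rw [h]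
    · exact hG1 _ h
  refine hG ⟨fun n => u (n + 1), fun a b hab => hu (by omega), fun n => ?_⟩
  have h2 : u (n + 1) < u n := hu (Nat.lt_succ_self n)
  rcases hmem (n + 1) with h | h
  · have := hle n
    rw [h] at h2
    linarith
  · exact h

theorem aC_eq_aT {d e s : ℕ} (m : Fin d → ℝ) (T : Fin e → Finset (Fin d → ℤ)) (c : Fin s → ℝ)
    (S : Fin s → Finset (Fin d → ℤ)) (w : Fin d → ℤ) :
    aC m T c S w = aT m (Fin.append (fun _ : Fin e => (1 : ℝ)) c) (Fin.append T S) w := by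
  unfold aC aT
  rw [Fin.sum_univ_add]
  simp only [Fin.append_left, Fin.append_right, one_mul]
  ring

theorem phiS_superadd {d r n : ℕ} {S : Finset (Fin d → ℤ)} (hS : S.Nonempty)
    {v : Fin r → Fin d → ℤ} {σ : Fin n → Fin r} {w : Fin d → ℤ} {u : Fin n → ℝ}
    (hu : ∀ i, 0 ≤ u i) (hw : ∀ l, (w l : ℝ) = ∑ i, u i * (v (σ i) l : ℝ)) :
    ∑ i, u i * (phiS S (v (σ i)) : ℝ) ≤ (phiS S w : ℝ) := by
  have h1 := ph_loc hS hw
  have h2 := ph_nonneg (hS.image (loc S v σ)) hu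
  rw [h1] at h2
  linarith

/-- `A` is at most the sum of the coordinates. -/
theorem AC_le_sum {d r n e : ℕ} {T : Fin e → Finset (Fin d → ℤ)} (hT : ∀ l, (T l).Nonempty)
    {v : Fin r → Fin d → ℤ} {mK : Fin d → ℝ}
    (hK : ∀ ρ, pair mK (v ρ) = 1 + ∑ l, (phiS (T l) (v ρ) : ℝ))
    {σ : Fin n → Fin r} {w : Fin d → ℤ} {u : Fin n → ℝ}
    (hu : ∀ i, 0 ≤ u i) (hw : ∀ l, (w l : ℝ) = ∑ i, u i * (v (σ i) l : ℝ)) :
    AC mK T w ≤ ∑ i, u i := by
  unfold AC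
  have h1 : ∑ i, u i * pair mK (v (σ i)) = ∑ i, u i +
      ∑ l, ∑ i, u i * (phiS (T l) (v (σ i)) : ℝ) := by
    rw [Finset.sum_comm, ← Finset.sum_add_distrib]
    refine Finset.sum_congr rfl fun i _ => ?_
    rw [hK, ← Finset.mul_sum]
    ring
  have h2 : ∑ l, ∑ i, u i * (phiS (T l) (v (σ i)) : ℝ) ≤ ∑ l, (phiS (T l) w : ℝ) :=
    Finset.sum_le_sum fun l _ => phiS_superadd (hT l) hu hw
  rw [pair_sum hw, h1]
  linarith

/-- `a ≤ A` on the cone. -/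
theorem aC_le_AC {d r n e s : ℕ} {T : Fin e → Finset (Fin d → ℤ)}
    {v : Fin r → Fin d → ℤ} {mK m0 : Fin d → ℝ}
    (hK : ∀ ρ, pair mK (v ρ) = 1 + ∑ l, (phiS (T l) (v ρ) : ℝ))
    {b : Fin r → ℝ} (hb : ∀ ρ, 0 ≤ b ρ) {c : Fin s → ℝ} (hc : ∀ j, 0 ≤ c j)
    {S : Fin s → Finset (Fin d → ℤ)} (hS : ∀ j, (S j).Nonempty)
    (h0 : ∀ ρ, pair m0 (v ρ) = 1 - b ρ + ∑ l, (phiS (T l) (v ρ) : ℝ) +
      ∑ j, c j * (phiS (S j) (v ρ) : ℝ))
    {σ : Fin n → Fin r} {w : Fin d → ℤ} {u : Fin n → ℝ}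
    (hu : ∀ i, 0 ≤ u i) (hw : ∀ l, (w l : ℝ) = ∑ i, u i * (v (σ i) l : ℝ)) :
    aC m0 T c S w ≤ AC mK T w := by
  unfold aC AC
  have h1 : ∑ i, u i * pair m0 (v (σ i)) ≤ ∑ i, u i * pair mK (v (σ i)) +
      ∑ j, ∑ i, c j * (u i * (phiS (S j) (v (σ i)) : ℝ)) := by
    rw [Finset.sum_comm, ← Finset.sum_add_distrib]
    refine Finset.sum_le_sum fun i _ => ?_
    rw [hK, h0]
    have h2 : ∑ j, c j * (u i * (phiS (S j) (v (σ i)) : ℝ)) =
        u i * ∑ j, c j * (phiS (S j) (v (σ i)) : ℝ) := by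
      rw [Finset.mul_sum]
      exact Finset.sum_congr rfl fun j _ => by ring
    rw [h2]
    have h3 := mul_nonneg (hu i) (hb (σ i))
    nlinarith
  have h4 : ∑ j, ∑ i, c j * (u i * (phiS (S j) (v (σ i)) : ℝ)) ≤
      ∑ j, c j * (phiS (S j) w : ℝ) := by
    refine Finset.sum_le_sum fun j _ => ?_
    rw [← Finset.mul_sum]
    exact mul_le_mul_of_nonneg_left (phiS_superadd (hS j) hu hw) (hc j)
  rw [pair_sum hw, pair_sum hw]
  linarith

/-- Positive combinations of the same generators are interior. -/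
theorem intPt_comb {d r n : ℕ} {v : Fin r → Fin d → ℤ} {σ : Fin n → Fin r} {w w' : Fin d → ℤ}
    {c u : Fin n → ℝ} (hw : IntPt v w) (hwc : ∀ l, (w l : ℝ) = ∑ i, c i * (v (σ i) l : ℝ))
    (hu : ∀ i, 0 < u i) (hw' : ∀ l, (w' l : ℝ) = ∑ i, u i * (v (σ i) l : ℝ)) : IntPt v w' := by
  intro m hm hne
  have h1 : (0 : ℝ) < ((m ⬝ᵥ w : ℤ) : ℝ) := by exact_mod_cast hw m hm hne
  rw [dot_sum hwc] at h1
  have h2 : (0 : ℝ) < ((m ⬝ᵥ w' : ℤ) : ℝ) := by
    rw [dot_sum hw']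
    have hnn : ∀ i, 0 ≤ u i * ((m ⬝ᵥ v (σ i) : ℤ) : ℝ) := fun i =>
      mul_nonneg (hu i).le (by exact_mod_cast hm (σ i))
    rcases (Finset.sum_nonneg fun i _ => hnn i).lt_or_eq with h | h
    · exact h
    · exfalso
      have h3 := (Finset.sum_eq_zero_iff_of_nonneg fun i _ => hnn i).1 h.symm
      have h4 : ∑ i, c i * ((m ⬝ᵥ v (σ i) : ℤ) : ℝ) = 0 := by
        refine Finset.sum_eq_zero fun i _ => ?_
        have := (mul_eq_zero.1 (h3 i (Finset.mem_univ i))).resolve_left (hu i).ne'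
        rw [this, mul_zero]
      linarith
  exact_mod_cast h2

/-- a large multiple of `w` dominates an element of `ℤ^n + ℤ q` -/
theorem exists_multiple {d r n : ℕ} {v : Fin r → Fin d → ℤ} {σ : Fin n → Fin r} {q : Fin n → ℚ}
    (hq : ∀ i, 0 < q i) {w : Fin d → ℤ} (hw : ∀ z, (w z : ℚ) = ∑ i, q i * (v (σ i) z : ℚ))
    {u : Fin d → ℤ} {t : Fin n → ℤ} {k : ℤ}
    (hu : ∀ z, (u z : ℚ) = ∑ i, ((t i : ℚ) + k * q i) * (v (σ i) z : ℚ)) :
    ∃ N : ℤ, 0 < N ∧ ∃ m : Fin n → ℕ, N • w = u + ∑ i, m i • v (σ i) := by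
  classical
  set D : ℕ := ∏ i, (q i).den with hD
  have hD0 : 0 < D := Finset.prod_pos fun i _ => (q i).den_pos
  have hint : ∀ i, ∃ p : ℤ, 0 < p ∧ (D : ℚ) * q i = p := by
    intro i
    have hdvd : (q i).den ∣ D := Finset.dvd_prod_of_mem _ (Finset.mem_univ i)
    obtain ⟨e, he⟩ := hdvd
    have h1 : (D : ℚ) * q i = ((e * (q i).num : ℤ) : ℚ) := by
      rw [he]
      push_cast
      have h2 : ((q i).den : ℚ) * q i = (q i).num := by
        rw [mul_comm]; exact Rat.mul_den_eq_num (q i)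
      rw [mul_comm ((q i).den : ℚ), mul_assoc, h2]
    refine ⟨e * (q i).num, ?_, h1⟩
    have h3 : (0 : ℚ) < D * q i := mul_pos (by exact_mod_cast hD0) (hq i)
    rw [h1] at h3
    exact_mod_cast h3
  choose p hp0 hp using hint
  set X : ℤ := |k| + ∑ i, |t i| + 1 with hX
  have hXk : |k| < X := by
    have : 0 ≤ ∑ i, |t i| := Finset.sum_nonneg fun _ _ => abs_nonneg _
    omega
  have hXt : ∀ i, |t i| ≤ X := by
    intro i
    have h1 : |t i| ≤ ∑ i, |t i| :=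
      Finset.single_le_sum (f := fun i => |t i|) (fun _ _ => abs_nonneg _) (Finset.mem_univ i)
    have h2 := abs_nonneg k
    omega
  have hX0 : 0 < X := lt_of_le_of_lt (abs_nonneg k) hXk
  have hDX : X ≤ D * X := by
    have : (1 : ℤ) ≤ D := by exact_mod_cast hD0
    nlinarith
  have hpX : ∀ i, 0 ≤ X * p i - t i := by
    intro i
    have h1 := hp0 i
    have h2 := hXt i
    have h3 := le_abs_self (t i)
    nlinarith
  refine ⟨k + D * X, ?_, fun i => (X * p i - t i).toNat, ?_⟩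
  · have := neg_abs_le k
    omega
  · funext z
    have h1 : (((k + D * X) • w) z : ℤ) = (u z : ℤ) + ∑ i, (X * p i - t i) * v (σ i) z := by
      have h2 : ((((k + D * X) • w) z : ℤ) : ℚ) =
          (((u z : ℤ) + ∑ i, (X * p i - t i) * v (σ i) z : ℤ) : ℚ) := by
        push_cast
        rw [Pi.smul_apply, smul_eq_mul]
        push_cast
        rw [hu z, hw z, Finset.mul_sum, ← Finset.sum_add_distrib]
        refine Finset.sum_congr rfl fun i _ => ?_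
        rw [← hp i]
        ring
      exact_mod_cast h2
    rw [h1, Pi.add_apply, Finset.sum_apply]
    congr 1
    refine Finset.sum_congr rfl fun i _ => ?_
    rw [Pi.smul_apply, nsmul_eq_mul, Int.toNat_of_nonneg (hpX i)]

end Pool.Agent.Work.MP_43381c_ag
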