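import Pool.Agent.Work.MP_43381c_ag.CI.ConeRep

/-!
# Cones for complete intersections, II: descent inside `ℤ^n + ℤ q`, and finiteness
-/

open Matrix

namespace Pool.Agent.Work.MP_43381c_ag

/-- C2. Descent: `w = ∑ q_i v_(σ i)` can be replaced by `w' = ∑ (t_i + k q_i) v_(σ i)` with
bounded `∑ (t_i + k q_i)`, without increasing `a`; the hypothesis `a ≥ 0` is used only on vectors
of this form. -/
theorem descent_rat (d : ℕ) {G : Set ℝ} (hG1 : ∀ g ∈ G, 0 ≤ g ∧ g ≤ 1) (hG : DCC G) :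
    ∃ l : ℝ, 0 < l ∧ ∀ (r s : ℕ) (v : Fin r → Fin d → ℤ)
      (b : Fin r → ℝ) (_ : ∀ ρ, b ρ ∈ G) (c : Fin s → ℝ) (_ : ∀ j, c j = 0 ∨ c j ∈ G)
      (S : Fin s → Finset (Fin d → ℤ)) (_ : ∀ j, (S j).Nonempty) (m0 : Fin d → ℝ)
      (_ : ∀ ρ, pair m0 (v ρ) = 1 - b ρ + ∑ j, c j * (phiS (S j) (v ρ) : ℝ))
      (n : ℕ) (_ : n ≤ d) (σ : Fin n → Fin r) (q : Fin n → ℚ) (_ : ∀ i, 0 < q i)
      (w : Fin d → ℤ) (_ : ∀ t, (w t : ℚ) = ∑ i, q i * (v (σ i) t : ℚ))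
      (_ : ∀ (u : Fin d → ℤ) (t : Fin n → ℤ) (k : ℤ), (∀ i, 0 < (t i : ℚ) + k * q i) →
        (∀ z, (u z : ℚ) = ∑ i, ((t i : ℚ) + k * q i) * (v (σ i) z : ℚ)) → 0 ≤ aT m0 c S u),
      ∃ (w' : Fin d → ℤ) (t : Fin n → ℤ) (k : ℤ), (∀ i, 0 < (t i : ℚ) + k * q i) ∧
        (∀ z, (w' z : ℚ) = ∑ i, ((t i : ℚ) + k * q i) * (v (σ i) z : ℚ)) ∧
        aT m0 c S w' ≤ aT m0 c S w ∧ ∑ i, ((t i : ℝ) + k * (q i : ℝ)) ≤ l := by
  classical
  choose L hL using fun n : ℕ => orthant n hG1 hG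
  refine ⟨1 + ∑ n ∈ Finset.range (d + 1), |L n|, ?_, ?_⟩
  · have : 0 ≤ ∑ n ∈ Finset.range (d + 1), |L n| := Finset.sum_nonneg fun _ _ => abs_nonneg _
    linarith
  intro r s v b hb c hc S hS m0 h0 n hn σ q hq w hw hlc
  -- the lattice
  let Λ : AddSubgroup (Fin n → ℝ) :=
    { carrier := {u | ∃ (t : Fin n → ℤ) (k : ℤ), ∀ i, u i = (t i : ℝ) + k * (q i : ℝ)}
      zero_mem' := ⟨0, 0, fun l => by simp⟩
      add_mem' := by
        rintro u u' ⟨t, k, h1⟩ ⟨t', k', h2⟩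
        refine ⟨t + t', k + k', fun i => ?_⟩
        simp only [Pi.add_apply, Int.cast_add, h1 i, h2 i]
        ring
      neg_mem' := by
        rintro u ⟨t, k, h1⟩
        refine ⟨-t, -k, fun i => ?_⟩
        simp only [Pi.neg_apply, Int.cast_neg, h1 i]
        ring }
  have hΛ : ∀ i, Pi.single i (1 : ℝ) ∈ Λ := by
    intro i
    refine ⟨Pi.single i 1, 0, fun j => ?_⟩
    by_cases h : j = i
    · subst h; simp
    · simp [h]
  -- the integral vector of an element of the lattice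
  have hvec : ∀ (t : Fin n → ℤ) (k : ℤ), ∀ z, ((∑ i, t i * v (σ i) z + k * w z : ℤ) : ℚ) =
      ∑ i, ((t i : ℚ) + k * q i) * (v (σ i) z : ℚ) := by
    intro t k z
    push_cast
    rw [hw z, Finset.mul_sum, ← Finset.sum_add_distrib]
    exact Finset.sum_congr rfl fun i _ => by ring
  have hcastR : ∀ (u : Fin d → ℤ) (t : Fin n → ℤ) (k : ℤ),
      (∀ z, (u z : ℚ) = ∑ i, ((t i : ℚ) + k * q i) * (v (σ i) z : ℚ)) →
      ∀ z, (u z : ℝ) = ∑ i, ((t i : ℝ) + k * (q i : ℝ)) * (v (σ i) z : ℝ) := by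
    intro u t k h z
    have h1 := congrArg (fun y : ℚ => (y : ℝ)) (h z)
    push_cast at h1
    exact h1
  have hposR : ∀ (t : Fin n → ℤ) (k : ℤ) (i : Fin n), 0 < (t i : ℝ) + k * (q i : ℝ) →
      0 < (t i : ℚ) + k * q i := by
    intro t k i h
    exact_mod_cast h
  have hwR : ∀ z, (w z : ℝ) = ∑ i, (q i : ℝ) * (v (σ i) z : ℝ) := by
    intro z
    have h1 := congrArg (fun y : ℚ => (y : ℝ)) (hw z)
    push_cast at h1
    exact h1
  have hqΛ : (fun i => (q i : ℝ)) ∈ Λ := ⟨0, 1, fun i => by simp⟩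
  obtain ⟨u', ⟨t, k, htk⟩, hpos, hle, hsum⟩ := hL n Λ hΛ s (fun i => b (σ i)) (fun i => hb _) c hc
    (fun j => (S j).image (loc (S j) v σ)) (fun j => (hS j).image _)
    (fun u hu hup => by
      obtain ⟨t, k, htk⟩ := hu
      have h1 := hcastR _ t k (hvec t k)
      have h2 : ∀ z, ((fun z => (∑ i, t i * v (σ i) z + k * w z : ℤ)) z : ℝ) =
          ∑ i, u i * (v (σ i) z : ℝ) := by
        intro z
        rw [h1 z]
        exact Finset.sum_congr rfl fun i _ => by rw [htk i]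
      rw [aw_loc hS h0 h2]
      exact hlc _ t k (fun i => hposR t k i (by rw [← htk i]; exact hup i)) (hvec t k))
    (fun i => (q i : ℝ)) hqΛ (fun i => by exact_mod_cast hq i)
  have h1 := hcastR _ t k (hvec t k)
  have h2 : ∀ z, ((fun z => (∑ i, t i * v (σ i) z + k * w z : ℤ)) z : ℝ) =
      ∑ i, u' i * (v (σ i) z : ℝ) := by
    intro z
    rw [h1 z]
    exact Finset.sum_congr rfl fun i _ => by rw [htk i]
  refine ⟨fun z => ∑ i, t i * v (σ i) z + k * w z, t, k,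
    fun i => hposR t k i (by rw [← htk i]; exact hpos i), hvec t k, ?_, ?_⟩
  · rw [aw_loc hS h0 h2, aw_loc hS h0 hwR] at hle
    exact hle
  · have h3 : ∑ i, ((t i : ℝ) + k * (q i : ℝ)) = ∑ i, u' i :=
      Finset.sum_congr rfl fun i _ => by rw [htk i]
    rw [h3]
    refine hsum.trans ((le_abs_self _).trans ?_)
    have := Finset.single_le_sum (f := fun n => |L n|) (fun _ _ => abs_nonneg _)
      (Finset.mem_range.2 (Nat.lt_succ_of_le hn))
    linarith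

/-- C3. Finiteness. -/
theorem finite_comb {r d : ℕ} (v : Fin r → Fin d → ℤ) (l : ℝ) :
    {w : Fin d → ℤ | ∃ (n : ℕ) (σ : Fin n → Fin r) (u : Fin n → ℝ), (∀ i, 0 ≤ u i) ∧
      (∀ z, (w z : ℝ) = ∑ i, u i * (v (σ i) z : ℝ)) ∧ ∑ i, u i ≤ l}.Finite := by
  classical
  set V : ℝ := ∑ ρ, ∑ l, |(v ρ l : ℝ)| with hV
  have hVle : ∀ ρ l, |(v ρ l : ℝ)| ≤ V := by
    intro ρ l
    have h1 : |(v ρ l : ℝ)| ≤ ∑ l, |(v ρ l : ℝ)| :=
      Finset.single_le_sum (f := fun l => |(v ρ l : ℝ)|) (fun _ _ => abs_nonneg _)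
        (Finset.mem_univ l)
    have h2 : ∑ l, |(v ρ l : ℝ)| ≤ V :=
      Finset.single_le_sum (f := fun ρ => ∑ l, |(v ρ l : ℝ)|)
        (fun _ _ => Finset.sum_nonneg fun _ _ => abs_nonneg _) (Finset.mem_univ ρ)
    exact h1.trans h2
  have hV0 : 0 ≤ V := Finset.sum_nonneg fun _ _ => Finset.sum_nonneg fun _ _ => abs_nonneg _
  refine (Set.finite_Icc (fun _ : Fin d => -⌈l * V⌉) (fun _ => ⌈l * V⌉)).subset ?_
  rintro w ⟨n, σ, c, hc, hwc, hsum⟩
  have hb : ∀ t, |(w t : ℝ)| ≤ l * V := by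
    intro t
    rw [hwc t]
    refine (Finset.abs_sum_le_sum_abs _ _).trans ?_
    calc ∑ i, |c i * (v (σ i) t : ℝ)| ≤ ∑ i, c i * V := by
          refine Finset.sum_le_sum fun i _ => ?_
          rw [abs_mul, abs_of_nonneg (hc i)]
          exact mul_le_mul_of_nonneg_left (hVle _ _) (hc i)
      _ = (∑ i, c i) * V := by rw [Finset.sum_mul]
      _ ≤ l * V := mul_le_mul_of_nonneg_right hsum hV0
  constructor
  · intro t
    have h1 := (abs_le.1 (hb t)).1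
    have h2 : (-(⌈l * V⌉ : ℤ) : ℝ) ≤ (w t : ℝ) := by
      have := Int.le_ceil (l * V)
      linarith
    exact_mod_cast h2
  · intro t
    have h1 := (abs_le.1 (hb t)).2
    exact_mod_cast h1.trans (Int.le_ceil _)

end Pool.Agent.Work.MP_43381c_ag
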