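import Pool.Agent.Work.MP_43381c_ag.CI.ConeComb

/-!
# Cones for complete intersections, IV: the main combinatorial theorem
-/

open Matrix

namespace Pool.Agent.Work.MP_43381c_ag

theorem smul_eq_of {d : ℕ} {w w1 : Fin d → ℤ} {g : ℤ} (h : ∀ l, w l = g * w1 l) : w = g • w1 := by
  funext l
  rw [h l, Pi.smul_apply, smul_eq_mul]

theorem aC_smul {d e s : ℕ} (m : Fin d → ℝ) {T : Fin e → Finset (Fin d → ℤ)}
    (hT : ∀ l, (T l).Nonempty) (c : Fin s → ℝ) {S : Fin s → Finset (Fin d → ℤ)}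
    (hS : ∀ j, (S j).Nonempty) {w w1 : Fin d → ℤ} {g : ℤ} (hg : 0 < g)
    (h : ∀ l, w l = g * w1 l) : aC m T c S w = g * aC m T c S w1 := by
  rw [aC_eq_aT, aC_eq_aT]
  refine aT_smul m _ (fun j => ?_) hg h
  refine Fin.addCases (fun l => ?_) (fun j => ?_) j
  · rw [Fin.append_left]; exact hT l
  · rw [Fin.append_right]; exact hS j

theorem AC_smul {d e : ℕ} (m : Fin d → ℝ) {T : Fin e → Finset (Fin d → ℤ)}
    (hT : ∀ l, (T l).Nonempty) {w w1 : Fin d → ℤ} {g : ℤ} (hg : 0 < g)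
    (h : ∀ l, w l = g * w1 l) : AC m T w = g * AC m T w1 := by
  have h1 : ∀ w, AC m T w = aC m T (fun _ : Fin 0 => (0 : ℝ)) (fun _ => ∅) w := by
    intro w
    unfold AC aC
    simp
  rw [h1, h1]
  exact aC_smul m hT _ (fun j => j.elim0) hg h

/-- The combinatorial theorem for a set `Trop` of interior integral vectors, invariant under
positive scaling, that can be reached by the walk. -/
theorem ci_comb (d : ℕ) (hd : 0 < d) {G : Set ℝ} (hG1 : ∀ g ∈ G, 0 ≤ g ∧ g ≤ 1) (hG : DCC G) :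
    ∃ l : ℝ, 0 < l ∧ ∀ (r e s : ℕ) (v : Fin r → Fin d → ℤ)
      (_ : ∀ m : Fin d → ℤ, (∀ ρ, m ⬝ᵥ v ρ = 0) → m = 0)
      (M : Fin d → ℤ) (_ : ∀ ρ, 0 < M ⬝ᵥ v ρ)
      (b : Fin r → ℝ) (_ : ∀ ρ, b ρ ∈ G) (c : Fin s → ℝ) (_ : ∀ j, c j = 0 ∨ c j ∈ G)
      (T : Fin e → Finset (Fin d → ℤ)) (_ : ∀ l, (T l).Nonempty)
      (S : Fin s → Finset (Fin d → ℤ)) (_ : ∀ j, (S j).Nonempty)
      (mK : Fin d → ℝ) (_ : ∀ ρ, pair mK (v ρ) = 1 + ∑ l, (phiS (T l) (v ρ) : ℝ))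
      (m0 : Fin d → ℝ) (_ : ∀ ρ, pair m0 (v ρ) = 1 - b ρ + ∑ l, (phiS (T l) (v ρ) : ℝ) +
        ∑ j, c j * (phiS (S j) (v ρ) : ℝ))
      (Trop : Set (Fin d → ℤ)) (_ : ∀ w ∈ Trop, IntPt v w)
      (_ : ∀ (w : Fin d → ℤ) (g : ℤ), 0 < g → (g • w ∈ Trop ↔ w ∈ Trop))
      (_ : ∀ (n : ℕ) (σ : Fin n → Fin r), LinearIndependent ℝ (fun i => rv (v (σ i))) →
        ∀ (u w : Fin d → ℤ), IntPt v u → w ∈ Trop → ∀ k : Fin n → ℕ, w = u + ∑ i, k i • v (σ i) →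
        ∃ u' ∈ Trop, AC mK T u' ≤ AC mK T u ∧ aC m0 T c S u' ≤ aC m0 T c S u)
      (_ : ∀ w ∈ Trop, (∃ u : Fin d → ℤ, u ⬝ᵥ w = 1) → 0 ≤ aC m0 T c S w)
      (w₁ : Fin d → ℤ) (_ : w₁ ∈ Trop),
      ∃ w ∈ Trop, (∃ u : Fin d → ℤ, u ⬝ᵥ w = 1) ∧
        (∀ w' ∈ Trop, aC m0 T c S w ≤ aC m0 T c S w') ∧ AC mK T w ≤ l := by
  classical
  have hG1' : ∀ g ∈ insert (1 : ℝ) G, 0 ≤ g ∧ g ≤ 1 := by
    rintro g (h | h)
    · rw [h]; exact ⟨zero_le_one, le_rfl⟩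
    · exact hG1 g h
  obtain ⟨l, hl, hdesc⟩ := descent_rat d hG1' (dcc_insert_one (fun g hg => (hG1 g hg).2) hG)
  refine ⟨l, hl, ?_⟩
  intro r e s v full M hM b hb c hc T hT S hS mK hK m0 h0 Trop hint hscale walk lc w₁ hw₁
  have hr : 0 < r := by
    rcases Nat.eq_zero_or_pos r with h | h
    · exfalso
      subst h
      have := full (fun _ => 1) (fun ρ => ρ.elim0)
      have h1 := congrFun this ⟨0, hd⟩
      simp at h1
    · exact h
  have hc0 : ∀ j, 0 ≤ c j := by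
    intro j
    rcases hc j with h | h
    · rw [h]
    · exact (hG1 _ h).1
  have hne : ∀ w, IntPt v w → w ≠ 0 := by
    rintro w hw rfl
    have hM0 : M ≠ 0 := by
      rintro rfl
      have := hM ⟨0, hr⟩
      simp at this
    have := hw M (fun ρ => (hM ρ).le) hM0
    simp at this
  -- primitive parts
  have hprim : ∀ w ∈ Trop, ∃ g : ℤ, 0 < g ∧ ∃ w1 ∈ Trop, (∀ l, w l = g * w1 l) ∧
      ∃ u : Fin d → ℤ, u ⬝ᵥ w1 = 1 := by
    intro w hw
    obtain ⟨g, hg, w1, hw1, hp⟩ := exists_primitive (hne w (hint w hw))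
    refine ⟨g, hg, w1, ?_, hw1, hp⟩
    rw [← hscale w1 g hg, ← smul_eq_of hw1]
    exact hw
  have hnn : ∀ w ∈ Trop, 0 ≤ aC m0 T c S w := by
    intro w hw
    obtain ⟨g, hg, w1, hw1T, hw1, hp⟩ := hprim w hw
    rw [aC_smul m0 hT c hS hg hw1]
    exact mul_nonneg (by exact_mod_cast hg.le) (lc w1 hw1T hp)
  -- the combined family
  set c' : Fin (e + s) → ℝ := Fin.append (fun _ : Fin e => (1 : ℝ)) c with hc'
  set S' : Fin (e + s) → Finset (Fin d → ℤ) := Fin.append T S with hS'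
  have hc'G : ∀ j, c' j = 0 ∨ c' j ∈ insert (1 : ℝ) G := by
    intro j
    refine Fin.addCases (fun l => ?_) (fun j => ?_) j
    · right; left; rw [hc', Fin.append_left]
    · rw [hc', Fin.append_right]
      rcases hc j with h | h
      · exact Or.inl h
      · exact Or.inr (Or.inr h)
  have hS'ne : ∀ j, (S' j).Nonempty := by
    intro j
    refine Fin.addCases (fun l => ?_) (fun j => ?_) j
    · rw [hS', Fin.append_left]; exact hT l
    · rw [hS', Fin.append_right]; exact hS j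
  have h0' : ∀ ρ, pair m0 (v ρ) = 1 - b ρ + ∑ j, c' j * (phiS (S' j) (v ρ) : ℝ) := by
    intro ρ
    rw [h0 ρ, Fin.sum_univ_add]
    simp only [hc', hS', Fin.append_left, Fin.append_right, one_mul]
    ring
  have haT : ∀ w, aT m0 c' S' w = aC m0 T c S w := fun w => (aC_eq_aT m0 T c S w).symm
  -- for each w in Trop a bounded vector
  have key : ∀ w ∈ Trop, ∃ x : Fin d → ℤ, (∃ (n : ℕ) (σ : Fin n → Fin r) (u : Fin n → ℝ),
      (∀ i, 0 ≤ u i) ∧ (∀ z, (x z : ℝ) = ∑ i, u i * (v (σ i) z : ℝ)) ∧ ∑ i, u i ≤ l) ∧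
      (∃ u' ∈ Trop, AC mK T u' ≤ l ∧ aC m0 T c S u' ≤ aC m0 T c S x) ∧
      aC m0 T c S x ≤ aC m0 T c S w := by
    intro w hw
    obtain ⟨n, hn, σ, q, hq, hwq, hlin⟩ := exists_rep_rat hM hr (hint w hw)
    have hwR : ∀ z, (w z : ℝ) = ∑ i, (q i : ℝ) * (v (σ i) z : ℝ) := by
      intro z
      have h1 := congrArg (fun y : ℚ => (y : ℝ)) (hwq z)
      push_cast at h1
      exact h1
    -- the walk from a vector of the lattice
    have hwalk : ∀ (u : Fin d → ℤ) (t : Fin n → ℤ) (k : ℤ), (∀ i, 0 < (t i : ℚ) + k * q i) →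
        (∀ z, (u z : ℚ) = ∑ i, ((t i : ℚ) + k * q i) * (v (σ i) z : ℚ)) →
        ∃ u' ∈ Trop, AC mK T u' ≤ AC mK T u ∧ aC m0 T c S u' ≤ aC m0 T c S u := by
      intro u t k hpos hu
      obtain ⟨N, hN, m, hm⟩ := exists_multiple hq hwq hu
      have huR : ∀ z, (u z : ℝ) = ∑ i, ((t i : ℝ) + k * (q i : ℝ)) * (v (σ i) z : ℝ) := by
        intro z
        have h1 := congrArg (fun y : ℚ => (y : ℝ)) (hu z)
        push_cast at h1
        exact h1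
      have huI : IntPt v u := intPt_comb (hint w hw) hwR
        (fun i => by
          have := hpos i
          exact_mod_cast this) huR
      exact walk n σ hlin u (N • w) huI ((hscale w N hN).2 hw) m hm
    obtain ⟨x, t, k, hpos, hx, hle, hsum⟩ := hdesc r (e + s) v b
      (fun ρ => Or.inr (hb ρ)) c' hc'G S' hS'ne m0 h0' n hn σ q hq w hwq
      (fun u t k hpos hu => by
        obtain ⟨u', hu', _, h2⟩ := hwalk u t k hpos hu
        rw [haT]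
        exact (hnn u' hu').trans h2)
    rw [haT, haT] at hle
    have hxR : ∀ z, (x z : ℝ) = ∑ i, ((t i : ℝ) + k * (q i : ℝ)) * (v (σ i) z : ℝ) := by
      intro z
      have h1 := congrArg (fun y : ℚ => (y : ℝ)) (hx z)
      push_cast at h1
      exact h1
    have hposR : ∀ i, 0 ≤ (t i : ℝ) + k * (q i : ℝ) := fun i => by
      have h1 : (0 : ℝ) < (t i : ℝ) + k * (q i : ℝ) := by
        have := hpos i
        exact_mod_cast this
      exact h1.le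
    refine ⟨x, ⟨n, σ, fun i => (t i : ℝ) + k * (q i : ℝ), hposR, hxR, hsum⟩, ?_, hle⟩
    obtain ⟨u', hu', h1, h2⟩ := hwalk x t k hpos hx
    exact ⟨u', hu', (h1.trans (AC_le_sum hT hK hposR hxR)).trans hsum, h2⟩
  -- minimise
  have hfin : {x : Fin d → ℤ | (∃ (n : ℕ) (σ : Fin n → Fin r)
      (u : Fin n → ℝ), (∀ i, 0 ≤ u i) ∧ (∀ z, (x z : ℝ) = ∑ i, u i * (v (σ i) z : ℝ)) ∧
      ∑ i, u i ≤ l) ∧ (∃ u' ∈ Trop, AC mK T u' ≤ l ∧ aC m0 T c S u' ≤ aC m0 T c S x)}.Finite :=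
    (finite_comb v l).subset fun x hx => hx.1
  obtain ⟨x₁, hx1, hx2, _⟩ := key w₁ hw₁
  obtain ⟨x₀, ⟨_, u₀, hu₀, hA₀, ha₀⟩, hmin⟩ :=
    Set.exists_min_image _ (fun w => aC m0 T c S w) hfin ⟨x₁, hx1, hx2⟩
  have hmin' : ∀ w ∈ Trop, aC m0 T c S u₀ ≤ aC m0 T c S w := by
    intro w hw
    obtain ⟨x, h1, h2, h3⟩ := key w hw
    exact (ha₀.trans (hmin x ⟨h1, h2⟩)).trans h3
  obtain ⟨g, hg, w0, hw0T, hw0, hp⟩ := hprim u₀ hu₀
  have hg' : (1 : ℝ) ≤ g := by exact_mod_cast hg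
  have ha0 := hnn w0 hw0T
  have hA0 : 0 ≤ AC mK T w0 := by
    obtain ⟨n, hn, σ, q, hq, hwq, _⟩ := exists_rep_rat hM hr (hint w0 hw0T)
    have hwR : ∀ z, (w0 z : ℝ) = ∑ i, (q i : ℝ) * (v (σ i) z : ℝ) := by
      intro z
      have h1 := congrArg (fun y : ℚ => (y : ℝ)) (hwq z)
      push_cast at h1
      exact h1
    exact ha0.trans (aC_le_AC hK (fun ρ => (hG1 _ (hb ρ)).1) hc0 hS h0
      (fun i => by exact_mod_cast (hq i).le) hwR)
  refine ⟨w0, hw0T, hp, fun w' hw' => ?_, ?_⟩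
  · refine le_trans ?_ (hmin' w' hw')
    rw [aC_smul m0 hT c hS hg hw0]
    nlinarith
  · refine le_trans ?_ hA₀
    rw [AC_smul mK hT hg hw0]
    nlinarith

end Pool.Agent.Work.MP_43381c_ag
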