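import Pool.Agent.Work.MP_43381c_ag.ConeC

/-!
# Cones for complete intersections, I: rational simplicial representations
-/

open Matrix

namespace Pool.Agent.Work.MP_43381c_ag

section

variable {r d : ℕ} {v : Fin r → Fin d → ℤ}

/-- Interior vectors are positive combinations of linearly independent generators (version of
`exists_rep` with the linear independence). -/
theorem exists_rep_lin {mK : Fin d → ℚ} (hmK : ∀ ρ, ∑ i, mK i * (v ρ i : ℚ) = 1) (hr : 0 < r)
    {w : Fin d → ℤ} (hw : IntPt v w) : ∃ n : ℕ, n ≤ d ∧ ∃ (σ : Fin n → Fin r) (c : Fin n → ℝ),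
      (∀ i, 0 < c i) ∧ (∀ l, (w l : ℝ) = ∑ i, c i * (v (σ i) l : ℝ)) ∧
      LinearIndependent ℝ (fun i => rv (v (σ i))) := by
  classical
  have hκ := mK_pos hmK hr hw
  set κ := ∑ l, (mK l : ℝ) * (w l : ℝ) with hκdef
  have hκv : ∀ ρ, ∑ l, (mK l : ℝ) * (v ρ l : ℝ) = 1 := by
    intro ρ
    have := congrArg (fun t : ℚ => (t : ℝ)) (hmK ρ)
    push_cast at this
    exact this
  set x : Fin d → ℝ := κ⁻¹ • rv w with hx
  have hmem : x ∈ convexHull ℝ (Set.range fun ρ => rv (v ρ)) := by
    obtain ⟨n, _, σ, c, hc, hwc⟩ := exists_rep hmK hr hw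
    have hsum : ∑ i, c i = κ := by
      rw [hκdef]
      have h := pair_sum (m := fun l => (mK l : ℝ)) hwc
      simp only [pair] at h
      rw [h]
      exact Finset.sum_congr rfl fun i _ => by rw [hκv (σ i), mul_one]
    have hxe : x = ∑ i, (κ⁻¹ * c i) • rv (v (σ i)) := by
      funext l
      simp only [hx, Pi.smul_apply, smul_eq_mul, rv, Finset.sum_apply, hwc l, Finset.mul_sum]
      exact Finset.sum_congr rfl fun i _ => by ring
    rw [hxe]
    refine (convex_convexHull ℝ _).sum_mem (fun i _ => ?_) ?_ (fun i _ => ?_)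
    · exact mul_nonneg (inv_nonneg.2 hκ.le) (hc i).le
    · rw [← Finset.mul_sum, hsum]
      exact inv_mul_cancel₀ hκ.ne'
    · exact subset_convexHull ℝ _ ⟨σ i, rfl⟩
  obtain ⟨ι, _, z, ω, hz, haff, hω, hω1, hωx⟩ := eq_pos_convex_span_of_mem_convexHull hmem
  have hσ : ∀ i, ∃ ρ, rv (v ρ) = z i := fun i => hz ⟨i, rfl⟩
  choose σ hσ using hσ
  have hlin : LinearIndependent ℝ z := by
    rw [Fintype.linearIndependent_iff]
    intro g hg i
    have h1 : ∑ i, g i = 0 := by
      have h2 : ∑ l, (mK l : ℝ) * (∑ i, g i • z i) l = 0 := by rw [hg]; simp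
      have h3 : ∑ l, (mK l : ℝ) * (∑ i, g i • z i) l = ∑ i, g i := by
        simp only [Finset.sum_apply, Pi.smul_apply, smul_eq_mul, Finset.mul_sum]
        rw [Finset.sum_comm]
        refine Finset.sum_congr rfl fun i _ => ?_
        have h4 : ∑ l, (mK l : ℝ) * (g i * z i l) = g i * ∑ l, (mK l : ℝ) * (v (σ i) l : ℝ) := by
          rw [Finset.mul_sum]
          refine Finset.sum_congr rfl fun l _ => ?_
          rw [← hσ i]
          simp only [rv]
          ring
        rw [h4, hκv, mul_one]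
      rw [← h3, h2]
    exact affineIndependent_iff.1 haff Finset.univ g h1 hg i (Finset.mem_univ i)
  have hcard : Fintype.card ι ≤ d := by
    have := hlin.fintype_card_le_finrank
    simpa using this
  let e := (Fintype.equivFin ι).symm
  refine ⟨Fintype.card ι, hcard, fun i => σ (e i), fun i => κ * ω (e i),
    fun i => mul_pos hκ (hω _), fun l => ?_, ?_⟩
  · have h1 : (w l : ℝ) = κ * x l := by
      simp only [hx, Pi.smul_apply, smul_eq_mul, rv]
      field_simp
    rw [h1, ← hωx]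
    simp only [Finset.sum_apply, Pi.smul_apply, smul_eq_mul, Finset.mul_sum]
    rw [← Equiv.sum_comp e (fun i => κ * (ω i * z i l))]
    refine Finset.sum_congr rfl fun i _ => ?_
    rw [← hσ (e i)]
    simp only [rv]
    ring
  · have h1 := hlin.comp e e.injective
    have h2 : (z ∘ e) = fun i => rv (v (σ (e i))) := by
      funext i
      simp only [Function.comp_apply]
      rw [hσ]
    rwa [h2] at h1

/-- Interior points of a rescaled family of generators. -/
theorem intPt_scale {a : Fin r → ℤ} (ha : ∀ ρ, 0 < a ρ) {w : Fin d → ℤ} (hw : IntPt v w) :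
    IntPt (fun ρ => a ρ • v ρ) w := by
  intro m hm hne
  refine hw m (fun ρ => ?_) hne
  have h1 := hm ρ
  rw [dotProduct_smul, smul_eq_mul] at h1
  exact nonneg_of_mul_nonneg_right h1 (ha ρ)

/-- A real combination of linearly independent integral vectors which is integral has rational
coefficients. -/
theorem rational_coeffs {n : ℕ} {z : Fin n → Fin d → ℤ} (hz : LinearIndependent ℝ fun i => rv (z i))
    {w : Fin d → ℤ} {c : Fin n → ℝ} (hw : ∀ l, (w l : ℝ) = ∑ i, c i * (z i l : ℝ)) :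
    ∃ q : Fin n → ℚ, ∀ i, c i = (q i : ℝ) := by
  classical
  -- rational left inverse
  have hzQ : LinearIndependent ℚ (fun i => (fun l => (z i l : ℚ) : Fin d → ℚ)) := by
    rw [Fintype.linearIndependent_iff] at hz ⊢
    intro g hg i
    have h1 := hz (fun i => (g i : ℝ)) (by
      funext l
      have h2 := congrFun hg l
      simp only [Finset.sum_apply, Pi.smul_apply, smul_eq_mul, Pi.zero_apply] at h2 ⊢
      simp only [rv]
      exact_mod_cast h2) i
    exact_mod_cast h1
  set Z : (Fin n → ℚ) →ₗ[ℚ] (Fin d → ℚ) :=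
    Fintype.linearCombination ℚ (fun i => (fun l => (z i l : ℚ) : Fin d → ℚ)) with hZ
  have hinj : LinearMap.ker Z = ⊥ := by
    rw [hZ]
    exact LinearMap.ker_eq_bot.2 (linearIndependent_iff_injective_fintypeLinearCombination.1 hzQ)
  obtain ⟨B, hB⟩ := Z.exists_leftInverse_of_injective hinj
  have hBz : ∀ i j, B (fun l => (z i l : ℚ)) j = if i = j then 1 else 0 := by
    intro i j
    have h1 : Z (Pi.single i 1) = fun l => (z i l : ℚ) := by
      rw [hZ, Fintype.linearCombination_apply_single, one_smul]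
    have h2 := congrArg (fun f => f (Pi.single i (1 : ℚ)) j) hB
    simp only [LinearMap.comp_apply, LinearMap.id_apply] at h2
    rw [h1] at h2
    rw [h2, Pi.single_apply]
    simp only [eq_comm]
  have hBe : ∀ (y : Fin d → ℚ) j, B y j = ∑ l, y l * B (Pi.single l 1) j := by
    intro y j
    conv_lhs => rw [pi_eq_sum_univ' y]
    rw [map_sum, Finset.sum_apply]
    refine Finset.sum_congr rfl fun l _ => ?_
    rw [map_smul, Pi.smul_apply, smul_eq_mul]
  refine ⟨fun i => ∑ l, (w l : ℚ) * B (Pi.single l 1) i, fun i => ?_⟩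
  push_cast
  have h1 : ∀ l, (w l : ℝ) * (B (Pi.single l 1) i : ℝ) =
      ∑ j, c j * ((z j l : ℝ) * (B (Pi.single l 1) i : ℝ)) := by
    intro l
    rw [hw l, Finset.sum_mul]
    exact Finset.sum_congr rfl fun j _ => by ring
  rw [Finset.sum_congr rfl fun l _ => h1 l, Finset.sum_comm]
  have h2 : ∀ j, ∑ l, c j * ((z j l : ℝ) * (B (Pi.single l 1) i : ℝ)) = if j = i then c j else 0 := by
    intro j
    rw [← Finset.mul_sum]
    have h3 := hBe (fun l => (z j l : ℚ)) i
    rw [hBz] at h3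
    have h4 : (∑ l, (z j l : ℝ) * (B (Pi.single l 1) i : ℝ)) = ((if j = i then 1 else 0 : ℚ) : ℝ) := by
      rw [h3]; push_cast; rfl
    rw [h4]
    split_ifs <;> simp
  rw [Finset.sum_congr rfl fun j _ => h2 j]
  simp

/-- C1. Interior vectors of a strongly convex cone are positive rational combinations of linearly
independent generators. -/
theorem exists_rep_rat {M : Fin d → ℤ} (hM : ∀ ρ, 0 < M ⬝ᵥ v ρ) (hr : 0 < r)
    {w : Fin d → ℤ} (hw : IntPt v w) : ∃ n : ℕ, n ≤ d ∧ ∃ (σ : Fin n → Fin r) (q : Fin n → ℚ),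
      (∀ i, 0 < q i) ∧ (∀ l, (w l : ℚ) = ∑ i, q i * (v (σ i) l : ℚ)) ∧
      LinearIndependent ℝ (fun i => rv (v (σ i))) := by
  classical
  set A : ℤ := ∏ ρ, M ⬝ᵥ v ρ with hA
  have hA0 : 0 < A := Finset.prod_pos fun ρ _ => hM ρ
  set a : Fin r → ℤ := fun ρ => ∏ τ ∈ Finset.univ.erase ρ, M ⬝ᵥ v τ with ha
  have ha0 : ∀ ρ, 0 < a ρ := fun ρ => Finset.prod_pos fun τ _ => hM τ
  have hamul : ∀ ρ, a ρ * (M ⬝ᵥ v ρ) = A := fun ρ => by
    rw [mul_comm]
    exact Finset.mul_prod_erase Finset.univ (fun τ => M ⬝ᵥ v τ) (Finset.mem_univ ρ)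
  have hmK : ∀ ρ, ∑ i, (fun i => (M i : ℚ) / A) i * (((fun ρ => a ρ • v ρ) ρ i : ℤ) : ℚ) = 1 := by
    intro ρ
    have h1 : ((a ρ * (M ⬝ᵥ v ρ) : ℤ) : ℚ) = A := by rw [hamul]
    have hAQ : (A : ℚ) ≠ 0 := by exact_mod_cast hA0.ne'
    have h2 : ∑ i, (fun i => (M i : ℚ) / A) i * (((fun ρ => a ρ • v ρ) ρ i : ℤ) : ℚ) =
        ((a ρ * (M ⬝ᵥ v ρ) : ℤ) : ℚ) / A := by
      simp only [Pi.smul_apply, smul_eq_mul, dotProduct]
      push_cast
      rw [Finset.mul_sum, Finset.sum_div]
      exact Finset.sum_congr rfl fun i _ => by ring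
    rw [h2, h1, div_self hAQ]
  obtain ⟨n, hn, σ, c, hc, hwc, hlin⟩ := exists_rep_lin hmK hr (intPt_scale ha0 hw)
  have hwc' : ∀ l, (w l : ℝ) = ∑ i, (c i * a (σ i)) * (v (σ i) l : ℝ) := by
    intro l
    rw [hwc l]
    refine Finset.sum_congr rfl fun i _ => ?_
    simp only [Pi.smul_apply, smul_eq_mul]
    push_cast
    ring
  have hlin' : LinearIndependent ℝ (fun i => rv (v (σ i))) := by
    rw [Fintype.linearIndependent_iff] at hlin ⊢
    intro g hg i
    have haR : ∀ ρ, (0 : ℝ) < a ρ := fun ρ => by exact_mod_cast ha0 ρ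
    have h1 := hlin (fun i => g i / a (σ i)) (by
      rw [← hg]
      refine Finset.sum_congr rfl fun i _ => ?_
      funext l
      simp only [rv, Pi.smul_apply, smul_eq_mul]
      push_cast
      have := (haR (σ i)).ne'
      field_simp) i
    have h2 := (haR (σ i)).ne'
    rcases div_eq_zero_iff.1 h1 with h | h
    · exact h
    · exact absurd h h2
  obtain ⟨q, hq⟩ := rational_coeffs hlin' hwc'
  refine ⟨n, hn, σ, q, fun i => ?_, fun l => ?_, hlin'⟩
  · have h1 : (0 : ℝ) < (q i : ℝ) := by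
      rw [← hq i]
      exact mul_pos (hc i) (by exact_mod_cast ha0 (σ i))
    exact_mod_cast h1
  · have h1 := hwc' l
    have h2 : (w l : ℝ) = ∑ i, (q i : ℝ) * (v (σ i) l : ℝ) := by
      rw [h1]
      exact Finset.sum_congr rfl fun i _ => by rw [hq i]
    exact_mod_cast h2

end

end Pool.Agent.Work.MP_43381c_ag
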