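import Mathlib

/-!
# A Jacobian bound for the height of a prime ideal
-/

open MvPolynomial IsLocalRing

namespace Pool.Agent.Work.MP_43381c_ag

section

variable {k σ L : Type*} [Field k] [Finite σ] [Field L] [Algebra k L]

open Classical in
/-- value and gradient at the point given by `Φ` -/
noncomputable def jet1 (Φ : MvPolynomial σ k →ₐ[k] L) :
    MvPolynomial σ k →ₐ[k] TrivSqZeroExt L (σ → L) :=
  aeval fun τ => TrivSqZeroExt.inl (Φ (X τ)) + TrivSqZeroExt.inr (Pi.single τ 1)

theorem jet1_fst (Φ : MvPolynomial σ k →ₐ[k] L) (P : MvPolynomial σ k) :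
    (jet1 Φ P).fst = Φ P := by
  have h : (TrivSqZeroExt.fstHom k L (σ → L)).comp (jet1 Φ) = Φ := by
    apply MvPolynomial.algHom_ext
    intro i
    simp [jet1]
  exact DFunLike.congr_fun h P

theorem jet1_snd (Φ : MvPolynomial σ k →ₐ[k] L) (P : MvPolynomial σ k) (τ : σ) :
    (jet1 Φ P).snd τ = Φ (pderiv τ P) := by
  classical
  induction P using MvPolynomial.induction_on with
  | C a =>
    have : jet1 Φ (C a) = algebraMap k _ a := by
      rw [← MvPolynomial.algebraMap_eq]
      exact (jet1 Φ).commutes a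
    rw [this, pderiv_C, map_zero, TrivSqZeroExt.algebraMap_eq_inl', TrivSqZeroExt.snd_inl,
      Pi.zero_apply]
  | add p q hp hq =>
    rw [map_add, TrivSqZeroExt.snd_add, Pi.add_apply, hp, hq, map_add, map_add]
  | mul_X p i hp =>
    rw [map_mul, TrivSqZeroExt.snd_mul, jet1_fst]
    have hX : jet1 Φ (X i) = TrivSqZeroExt.inl (Φ (X i)) + TrivSqZeroExt.inr (Pi.single i 1) := by
      rw [jet1, aeval_X]
    rw [hX]
    simp only [TrivSqZeroExt.fst_add, TrivSqZeroExt.fst_inl, TrivSqZeroExt.fst_inr, add_zero,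
      TrivSqZeroExt.snd_add, TrivSqZeroExt.snd_inl, TrivSqZeroExt.snd_inr, zero_add, Pi.add_apply,
      Pi.smul_apply, smul_eq_mul, MulOpposite.smul_eq_mul_unop, MulOpposite.unop_op, hp]
    rw [Derivation.leibniz, map_add, smul_eq_mul, smul_eq_mul, map_mul, map_mul, pderiv_X]
    by_cases h : i = τ
    · subst h; simp; ring
    · simp [h, Ne.symm h]; ring

/-- **Jacobian bound**: if `Φ` is a point with kernel `p` and the `a i ∈ p` have linearly
independent gradients at this point then their number is at most the height of `p`. -/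
theorem card_le_height (p : Ideal (MvPolynomial σ k)) [hp : p.IsPrime]
    (Φ : MvPolynomial σ k →ₐ[k] L) (hΦ : ∀ a, Φ a = 0 ↔ a ∈ p) {ι : Type*} [Fintype ι]
    (a : ι → MvPolynomial σ k) (ha : ∀ i, a i ∈ p)
    (hind : LinearIndependent L fun i τ => Φ (pderiv τ (a i))) :
    (Fintype.card ι : ℕ∞) ≤ p.height := by
  classical
  let A := Localization.AtPrime p
  have hreg : IsRegularLocalRing A := inferInstance
  have hunit : ∀ s : p.primeCompl, IsUnit ((jet1 Φ).toRingHom s) := by
    intro s
    change IsUnit (jet1 Φ s)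
    rw [TrivSqZeroExt.isUnit_iff_isUnit_fst, jet1_fst, isUnit_iff_ne_zero]
    intro h
    exact s.2 ((hΦ _).1 h)
  let Θ : A →+* TrivSqZeroExt L (σ → L) := IsLocalization.lift hunit
  have hΘ : ∀ P, Θ (algebraMap _ A P) = jet1 Φ P := fun P => IsLocalization.lift_eq hunit P
  have hmax : ∀ m ∈ maximalIdeal A, (Θ m).fst = 0 := by
    intro m hm
    by_contra h
    obtain ⟨P, s, rfl⟩ := IsLocalization.exists_mk'_eq p.primeCompl m
    have hP : P ∈ p := (IsLocalization.AtPrime.mk'_mem_maximal_iff A p P s).1 hm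
    apply h
    have h1 : Θ (IsLocalization.mk' A P s) * Θ (algebraMap _ A (s : MvPolynomial σ k)) = Θ (algebraMap _ A P) := by
      rw [← map_mul, IsLocalization.mk'_spec]
    have h2 := congrArg TrivSqZeroExt.fst h1
    rw [TrivSqZeroExt.fst_mul, hΘ, hΘ, jet1_fst, jet1_fst, (hΦ P).2 hP] at h2
    refine (mul_eq_zero.1 h2).resolve_right fun h3 => s.2 ((hΦ _).1 h3)
  have hsq : ∀ m ∈ maximalIdeal A ^ 2, Θ m = 0 := by
    intro m hm
    rw [pow_two] at hm
    refine Submodule.mul_induction_on hm ?_ ?_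
    · intro x hx y hy
      rw [map_mul]
      ext
      · simp [hmax x hx]
      · simp [TrivSqZeroExt.snd_mul, hmax x hx, hmax y hy]
    · intro x y hx hy
      rw [map_add, hx, hy, add_zero]
  have hmem : ∀ i, algebraMap _ A (a i) ∈ maximalIdeal A := fun i =>
    (IsLocalization.AtPrime.to_map_mem_maximal_iff A p (a i)).2 (ha i)
  let c : ι → CotangentSpace A := fun i => (maximalIdeal A).toCotangent ⟨_, hmem i⟩
  have hc : LinearIndependent (ResidueField A) c := by
    rw [Fintype.linearIndependent_iff]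
    intro g hg
    choose r hr using fun i => residue_surjective (g i)
    have h1 : (maximalIdeal A).toCotangent (∑ i, r i • (⟨_, hmem i⟩ : maximalIdeal A)) = 0 := by
      rw [map_sum, ← hg]
      refine Finset.sum_congr rfl fun i _ => ?_
      rw [map_smul, ← hr i]
      rfl
    rw [Ideal.toCotangent_eq_zero] at h1
    have h2 := hsq _ h1
    have h3 : ((∑ i, r i • (⟨_, hmem i⟩ : maximalIdeal A) : maximalIdeal A) : A) =
        ∑ i, r i * algebraMap _ A (a i) := by
      simp
    rw [h3, map_sum] at h2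
    have h4 : ∑ i, (Θ (r i)).fst • (fun τ => Φ (pderiv τ (a i))) = 0 := by
      funext τ
      have h5 := congrFun (congrArg TrivSqZeroExt.snd h2) τ
      rw [TrivSqZeroExt.snd_sum] at h5
      simp only [map_mul, hΘ] at h5
      rw [Finset.sum_apply] at h5 ⊢
      rw [TrivSqZeroExt.snd_zero] at h5
      refine Eq.trans (Finset.sum_congr rfl fun i _ => ?_) h5
      rw [TrivSqZeroExt.snd_mul, jet1_fst, (hΦ _).2 (ha i)]
      simp [jet1_snd]
    intro i
    have h6 := (Fintype.linearIndependent_iff.1 hind) _ h4 i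
    rw [← hr i, residue_eq_zero_iff]
    by_contra h7
    have h8 : IsUnit (r i) := by
      by_contra h9
      exact h7 ((mem_maximalIdeal _).2 h9)
    have h10 := (h8.map Θ)
    rw [TrivSqZeroExt.isUnit_iff_isUnit_fst, h6] at h10
    exact not_isUnit_zero h10
  have h1 := hc.fintype_card_le_finrank
  have h2 := (IsRegularLocalRing.iff_finrank_cotangentSpace A).1 hreg
  rw [IsLocalization.AtPrime.ringKrullDim_eq_height p A] at h2
  have h3 : ((Module.finrank (ResidueField A) (CotangentSpace A) : ℕ∞)) = p.height := by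
    exact_mod_cast h2
  rw [← h3]
  exact_mod_cast h1

end

end Pool.Agent.Work.MP_43381c_ag
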