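import Pool.Agent.Work.MP_43381c_ag.Final

/-!
# Nondegenerate complete intersections in toric germs

`X` is the closure, in the affine toric variety `U` of a cone `σ`, of a subvariety of the torus
whose ideal is generated by `c` Laurent polynomials `g 0, …, g (c - 1)`, `c` the codimension (or
the normalization of this closure).
-/

open Matrix

namespace Pool.Agent.Work.MP_43381c_ag

/-- the family is nondegenerate for the weight `w`: the initial forms that vanish at a point `p`
of the torus have linearly independent differentials at `p` -/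
def Nondeg {k : Type*} [Field k] {n : ℕ} {ι : Type*} (g : ι → (Fin n → ℤ) →₀ k)
    (w : Fin n → ℤ) : Prop :=
  ∀ p : Fin n → k, (∀ i, p i ≠ 0) →
    LinearIndependent k fun j : {j : ι // ev p (init (g j) w) = 0} =>
      fun l => dev p l (init (g j) w)

/-- A complete intersection germ. The function field `K` is generated by the coordinates `x i` of
the torus; the Laurent polynomials that vanish on `X` form the ideal generated by the `g l`
(`rel`; an identity of Laurent polynomials is stated as an identity of functions on the torus).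
`e` splits the `n` coordinates in `d` and `c` ones such that the Jacobian determinant of the `g l`
in the last `c` coordinates is not zero on `X`; so `d = n - c` is the dimension of `X`. The `v ρ`
are the primitive generators of the rays of a strongly convex full dimensional rational cone
`σ`; the point of `X` we look at is the torus fixed point. By adjunction the divisor on `X` of the
residue form (`resOrd` below) is minus the divisor of `x^mK`. -/
structure Germ (k K : Type*) [Field k] [Field K] [Algebra k K] (n d : ℕ) where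
  x : Fin n → K
  x_ne : ∀ i, x i ≠ 0
  gen : IntermediateField.adjoin k (Set.range x) = ⊤
  c : ℕ
  g : Fin c → (Fin n → ℤ) →₀ k
  rel : ∀ h : (Fin n → ℤ) →₀ k, ev x h = 0 ↔ ∃ a : Fin c → (Fin n → ℤ) →₀ k,
    ∀ p : Fin n → k, (∀ i, p i ≠ 0) → ev p h = ∑ l, ev p (a l) * ev p (g l)
  e : Fin d ⊕ Fin c ≃ Fin n
  e_ne : Matrix.det (Matrix.of fun l j => dev x (e (Sum.inr j)) (g l)) ≠ 0
  r : ℕ
  v : Fin r → Fin n → ℤ
  primitive : ∀ ρ, ∃ m : Fin n → ℤ, m ⬝ᵥ v ρ = 1
  extremal : ∀ ρ, ∃ m : Fin n → ℤ, m ⬝ᵥ v ρ = 0 ∧ ∀ τ, τ ≠ ρ → 0 < m ⬝ᵥ v τ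
  full : ∀ m : Fin n → ℤ, (∀ ρ, m ⬝ᵥ v ρ = 0) → m = 0
  mK : Fin n → ℚ
  mK_eq : ∀ ρ, ∑ i, mK i * (v ρ i : ℚ) = 1 + ∑ l, (phi (g l) (v ρ) : ℚ)

namespace Germ

variable {k K : Type*} [Field k] [Field K] [Algebra k K] {n d : ℕ} (X : Germ k K n d)

/-- `E` is a prime divisor over the torus fixed point of `X`. -/
def Over (E : PrimeDivisor k K d) : Prop :=
  ∀ m : Fin n → ℤ, (∀ ρ, 0 ≤ m ⬝ᵥ X.v ρ) → m ≠ 0 → 0 < E.ord (mono X.x m)

/-- The orders of the coordinates. -/
noncomputable def vec (E : PrimeDivisor k K d) : Fin n → ℤ := fun i => E.ordZ (X.x i)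

/-- The order along `E` of the residue form: the quotient of the form
`dlog x_(e 0) ∧ ... ∧ dlog x_(e (d-1))` by the Jacobian determinant of the `g l` in the
remaining coordinates. -/
noncomputable def resOrd (E : PrimeDivisor k K d) : EReal :=
  (⨅ D : {D : Fin d → Derivation k K K // ∀ i, E.Reg (D i)},
    toE (E.ord (Matrix.det (Matrix.of fun i j => D.1 i (X.x (X.e (Sum.inl j))) /
      X.x (X.e (Sum.inl j)))))) -
  toE (E.ord (Matrix.det (Matrix.of fun l j => dev X.x (X.e (Sum.inr j)) (X.g l))))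

/-- The log discrepancy `a(E, X, 0)`: the divisor of the residue form on `X` is minus the divisor
of `x^mK`. -/
noncomputable def aX (E : PrimeDivisor k K d) : EReal :=
  1 + X.resOrd E + ((pair (fun i => (X.mK i : ℝ)) (X.vec E) : ℝ) : EReal)

/-- `E` is a prime divisor of `X` (not only over `X`) through the torus fixed point: the functions
on `U` have nonnegative order, there are `d - 1` of them with algebraically independent residues,
and those which do not vanish at the fixed point have order `0`. -/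
def On (E : PrimeDivisor k K d) : Prop :=
  (∀ m : Fin n → ℤ, (∀ ρ, 0 ≤ m ⬝ᵥ X.v ρ) → 0 ≤ E.ord (mono X.x m)) ∧
  (∃ u : Fin (d - 1) → (Fin n → ℤ) →₀ k, (∀ i, ∀ m ∈ (u i).support, ∀ ρ, 0 ≤ m ⬝ᵥ X.v ρ) ∧
    ∀ P : MvPolynomial (Fin (d - 1)) k, P ≠ 0 →
      E.ord (MvPolynomial.aeval (fun i => ev X.x (u i)) P) = 0) ∧
  ∀ h : (Fin n → ℤ) →₀ k, (∀ m ∈ h.support, ∀ ρ, 0 ≤ m ⬝ᵥ X.v ρ) → h 0 ≠ 0 →
    E.ord (ev X.x h) = 0

end Germ

/-- A pair `(X, B)`. `B` is the restriction to `X` of `∑ b ρ D_ρ + ∑ coef j B_j`, `D_ρ` the toric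
prime divisors of `U`, `B_j` the closure in `U` of the hypersurface `f j = 0` of the torus;
`m0` says that `K_X + B` is `ℝ`-Cartier. The `g l` and the `f j` are jointly Newton nondegenerate
at the fixed point. The last condition says that the canonical divisor of `X` is the one given by
the adjunction formula (if there are no equations this is automatic). -/
structure CIPair (k K : Type*) [Field k] [Field K] [Algebra k K] (n d : ℕ) extends
    Germ k K n d where
  b : Fin r → ℝ
  s : ℕ
  f : Fin s → (Fin n → ℤ) →₀ k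
  f_ne : ∀ j, ev x (f j) ≠ 0
  coef : Fin s → ℝ
  m0 : Fin n → ℝ
  m0_eq : ∀ ρ, pair m0 (v ρ) =
    1 - b ρ + ∑ l, (phi (g l) (v ρ) : ℝ) + ∑ j, coef j * (phi (f j) (v ρ) : ℝ)
  nondeg : ∀ w, IntPt v w → Nondeg (Sum.elim g f) w
  can : 0 < c → ∀ E : PrimeDivisor k K d, toGerm.On E → toGerm.aX E = 1

namespace CIPair

variable {k K : Type*} [Field k] [Field K] [Algebra k K] {n d : ℕ} (P : CIPair k K n d)

/-- The coefficients of `B` belong to `Γ`. -/
def CoefIn (Γ : Set ℝ) : Prop :=
  (∀ ρ, P.b ρ = 0 ∨ P.b ρ ∈ Γ) ∧ ∀ j, P.coef j = 0 ∨ P.coef j ∈ Γ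

/-- The log discrepancy `a(E, X, B)`. -/
noncomputable def a (E : PrimeDivisor k K d) : EReal :=
  1 + P.resOrd E +
    ((pair P.m0 (P.vec E) - ∑ j, P.coef j * (E.ordZ (ev P.x (P.f j)) : ℝ) : ℝ) : EReal)

/-- The pair is log canonical at the point. -/
def IsLC : Prop := ∀ E, P.Over E → 0 ≤ P.a E

/-- The minimal log discrepancy at the point. -/
noncomputable def mld : EReal := ⨅ E : {E // P.Over E}, P.a E

/-- the value `⟨m0, w⟩ - ∑ φ_l(w) - ∑ coef_j ψ_j(w)` -/
noncomputable def aw (w : Fin n → ℤ) : ℝ :=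
  pair P.m0 w - ∑ l, (phi (P.g l) w : ℝ) - ∑ j, P.coef j * (phi (P.f j) w : ℝ)

/-- the value `⟨mK, w⟩ - ∑ φ_l(w)` -/
noncomputable def Aw (w : Fin n → ℤ) : ℝ :=
  pair (fun i => (P.mK i : ℝ)) w - ∑ l, (phi (P.g l) w : ℝ)

end CIPair

universe u

/-- the initial forms have a common zero in the torus, over some extension field -/
def InTrop {k : Type u} [Field k] {n c : ℕ} (g : Fin c → (Fin n → ℤ) →₀ k) (w : Fin n → ℤ) :
    Prop :=
  ∃ (L : Type u) (_ : Field L) (_ : Algebra k L) (z : Fin n → L), (∀ i, z i ≠ 0) ∧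
    ∀ l, ev z (init (g l) w) = 0

end Pool.Agent.Work.MP_43381c_ag
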