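import Pool.Agent.Work.MP_43381c_ag.CI.Nd
import Pool.Agent.Work.MP_43381c_ag.CI.Cot

/-!
# Faces of Newton polytopes and the polynomials `G`
-/

open MvPolynomial Matrix

namespace Pool.Agent.Work.MP_43381c_ag

section face

variable {k : Type*} [Field k] {n q : ℕ} (f : (Fin n → ℤ) →₀ k) (τ : Fin q → Fin n → ℤ)
  (u : Fin n → ℤ)

/-- `m` is an exponent of `f`, minimal for `u` and minimal for the `τ i`, `i ∈ S` -/
def InFace (S : Fin q → Prop) (m : Fin n → ℤ) : Prop :=
  m ∈ f.support ∧ m ⬝ᵥ u = phi f u ∧ ∀ i, S i → m ⬝ᵥ τ i = phi f (τ i)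

variable {f τ u}

theorem dot_add_sum (m : Fin n → ℤ) (N : Fin q → ℕ) :
    m ⬝ᵥ (u + ∑ i, N i • τ i) = m ⬝ᵥ u + ∑ i, N i * (m ⬝ᵥ τ i) := by
  rw [dotProduct_add, dotProduct_sum]
  congr 1
  refine Finset.sum_congr rfl fun i _ => ?_
  rw [dotProduct_smul, nsmul_eq_mul]

theorem phi_add_le (hf : f ≠ 0) (N : Fin q → ℕ) :
    phi f u + ∑ i, N i * phi f (τ i) ≤ phi f (u + ∑ i, N i • τ i) := by
  obtain ⟨m, hm, h⟩ := exists_phi hf (u + ∑ i, N i • τ i)
  rw [← h, dot_add_sum]
  refine add_le_add (phi_le u hm) (Finset.sum_le_sum fun i _ => ?_)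
  exact mul_le_mul_of_nonneg_left (phi_le (τ i) hm) (Nat.cast_nonneg _)

/-- if some exponent is minimal for `u` and the `τ i` with `0 < N i` then `phi` is additive and
the face of the sum is the common face -/
theorem face_add {S : Fin q → Prop} {N : Fin q → ℕ} (hS : ∀ i, S i ↔ 0 < N i)
    {m0 : Fin n → ℤ} (h0 : InFace f τ u S m0) :
    phi f (u + ∑ i, N i • τ i) = phi f u + ∑ i, N i * phi f (τ i) ∧
      ∀ m ∈ f.support, (m ⬝ᵥ (u + ∑ i, N i • τ i) = phi f (u + ∑ i, N i • τ i) ↔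
        InFace f τ u S m) := by
  have hf : f ≠ 0 := by
    rintro rfl
    exact absurd h0.1 (by simp)
  have key : m0 ⬝ᵥ (u + ∑ i, N i • τ i) = phi f u + ∑ i, N i * phi f (τ i) := by
    rw [dot_add_sum, h0.2.1]
    congr 1
    refine Finset.sum_congr rfl fun i _ => ?_
    by_cases hi : S i
    · rw [h0.2.2 i hi]
    · have : N i = 0 := by
        have := mt (hS i).2 hi
        omega
      simp [this]
  have e1 : phi f (u + ∑ i, N i • τ i) = phi f u + ∑ i, N i * phi f (τ i) :=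
    le_antisymm (key ▸ phi_le _ h0.1) (phi_add_le hf N)
  refine ⟨e1, fun m hm => ⟨fun h => ?_, fun h => ?_⟩⟩
  · rw [e1, dot_add_sum] at h
    have h1 := phi_le u hm
    have h2 : ∀ i ∈ Finset.univ, (N i : ℤ) * phi f (τ i) ≤ N i * (m ⬝ᵥ τ i) := fun i _ =>
      mul_le_mul_of_nonneg_left (phi_le (τ i) hm) (Nat.cast_nonneg _)
    have h3 := Finset.sum_le_sum h2
    have h4 : ∑ i, (N i : ℤ) * phi f (τ i) = ∑ i, N i * (m ⬝ᵥ τ i) := by omega
    have h5 := (Finset.sum_eq_sum_iff_of_le h2).1 h4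
    refine ⟨hm, by omega, fun i hi => ?_⟩
    have h6 := h5 i (Finset.mem_univ i)
    have h7 : (N i : ℤ) ≠ 0 := by
      have := (hS i).1 hi
      omega
    exact (mul_left_cancel₀ h7 h6).symm
  · rw [e1, dot_add_sum, h.2.1]
    congr 1
    refine Finset.sum_congr rfl fun i _ => ?_
    by_cases hi : S i
    · rw [h.2.2 i hi]
    · have : N i = 0 := by
        have := mt (hS i).2 hi
        omega
      simp [this]

end face

section poly

variable {k : Type*} [Field k] {n q : ℕ} (N0 : Fin n → ℕ) (f : (Fin n → ℤ) →₀ k)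
  (τ : Fin q → Fin n → ℤ) (u : Fin n → ℤ)

/-- the exponent of the monomial attached to `m` -/
noncomputable def expo (m : Fin n → ℤ) : Fin n ⊕ Fin q →₀ ℕ :=
  Finsupp.equivFunOnFinite.symm
    (Sum.elim (fun b => (m b + N0 b).toNat) fun i => (m ⬝ᵥ τ i - phi f (τ i)).toNat)

/-- the polynomial `∑ f_m x^(m + N0) ∏ y_i ^ (⟨m, τ i⟩ - phi f (τ i))`, `m` in the face of `u` -/
noncomputable def GP : MvPolynomial (Fin n ⊕ Fin q) k :=
  ∑ m ∈ (init f u).support, monomial (expo N0 f τ m) (f m)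

variable {N0 f τ u} {L : Type*} [Field L] [Algebra k L]

theorem mem_init {m : Fin n → ℤ} : m ∈ (init f u).support ↔ m ∈ f.support ∧ m ⬝ᵥ u = phi f u := by
  classical
  have h2 : (init f u).support = f.support.filter fun m => m ⬝ᵥ u = phi f u :=
    Finsupp.support_filter _ _
  rw [h2, Finset.mem_filter]

theorem aeval_expo (hN : ∀ m ∈ f.support, ∀ i, 0 ≤ m i + N0 i) {x : Fin n → L}
    (hx : ∀ i, x i ≠ 0) (y : Fin q → L) {m : Fin n → ℤ} (hm : m ∈ f.support) (c : k) :
    aeval (Sum.elim x y) (monomial (expo N0 f τ m) c) =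
      algebraMap k L c * (mono x (fun i => (N0 i : ℤ)) * mono x m) *
        ∏ i, y i ^ (m ⬝ᵥ τ i - phi f (τ i)).toNat := by
  rw [aeval_monomial, mul_assoc]
  congr 1
  rw [Finsupp.prod_fintype _ _ (fun i => pow_zero _), Fintype.prod_sum_type, ← mono_add hx]
  congr 1
  unfold mono
  refine Finset.prod_congr rfl fun b _ => ?_
  rw [Sum.elim_inl, ← zpow_natCast]
  congr 1
  simp only [expo, Finsupp.equivFunOnFinite_symm_apply_apply, Sum.elim_inl]
  rw [Int.toNat_of_nonneg (hN m hm b)]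
  simp [add_comm]

/-- **evaluation** of a weighted version of `GP` at a point whose `y`-coordinates vanish exactly
for `i ∈ S` -/
theorem eval_GP (hN : ∀ m ∈ f.support, ∀ i, 0 ≤ m i + N0 i) {x : Fin n → L}
    (hx : ∀ i, x i ≠ 0) (y : Fin q → L) (h : (Fin n → ℤ) → k) {S : Fin q → Prop}
    (hS : ∀ i, S i ↔ y i = 0) {N : Fin q → ℕ} (hSN : ∀ i, S i ↔ 0 < N i)
    {z : Fin n → L} {y' : Fin q → L} (hy' : ∀ i, y i ≠ 0 → y' i = y i) (hy0 : ∀ i, y' i ≠ 0)
    (hz : ∀ b, z b = x b * ∏ i, y' i ^ τ i b) {m0 : Fin n → ℤ} (h0 : InFace f τ u S m0) :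
    aeval (Sum.elim x y) (∑ m ∈ (init f u).support, monomial (expo N0 f τ m) (h m)) =
      (mono x (fun i => (N0 i : ℤ)) * ∏ i, y' i ^ (-phi f (τ i))) *
        ∑ m ∈ (init f (u + ∑ i, N i • τ i)).support, algebraMap k L (h m) * mono z m := by
  classical
  obtain ⟨e1, e2⟩ := face_add hSN h0
  have hmz : ∀ m : Fin n → ℤ, mono z m = mono x m * ∏ i, y' i ^ (m ⬝ᵥ τ i) := by
    intro m
    have : z = fun b => x b * (fun b => ∏ i, y' i ^ τ i b) b := funext hz
    rw [this, mono_mul]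
    congr 1
    unfold mono
    simp only [← Finset.prod_zpow]
    rw [Finset.prod_comm]
    refine Finset.prod_congr rfl fun i _ => ?_
    rw [dotProduct, zpow_sum' (hy0 i)]
    refine Finset.prod_congr rfl fun b _ => ?_
    rw [← _root_.zpow_mul, mul_comm]
  have hsub : (init f (u + ∑ i, N i • τ i)).support ⊆ (init f u).support := by
    intro m hm
    rw [mem_init] at hm ⊢
    have := (e2 m hm.1).1 hm.2
    exact ⟨hm.1, this.2.1⟩
  rw [map_sum, ← Finset.sum_subset hsub, Finset.mul_sum]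
  · refine Finset.sum_congr rfl fun m hm => ?_
    rw [mem_init] at hm
    have hf := (e2 m hm.1).1 hm.2
    rw [aeval_expo hN hx y hm.1, hmz]
    have : ∏ i, y i ^ (m ⬝ᵥ τ i - phi f (τ i)).toNat =
        (∏ i, y' i ^ (-phi f (τ i))) * ∏ i, y' i ^ (m ⬝ᵥ τ i) := by
      rw [← Finset.prod_mul_distrib]
      refine Finset.prod_congr rfl fun i _ => ?_
      rw [← zpow_add₀ (hy0 i)]
      by_cases hi : y i = 0
      · rw [hf.2.2 i ((hS i).2 hi)]
        simp
      · rw [hy' i hi, ← zpow_natCast, Int.toNat_of_nonneg (sub_nonneg.2 (phi_le _ hm.1))]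
        congr 1
        ring
    rw [this]
    ring
  · intro m hm hm'
    rw [mem_init] at hm
    rw [aeval_expo hN hx y hm.1]
    have hnot : ¬ InFace f τ u S m := fun hc => hm' (mem_init.2 ⟨hm.1, (e2 m hm.1).2 hc⟩)
    have : ∃ i, S i ∧ m ⬝ᵥ τ i ≠ phi f (τ i) := by
      by_contra hc
      push Not at hc
      exact hnot ⟨hm.1, hm.2, hc⟩
    obtain ⟨i, hi, hne⟩ := this
    have h1 := phi_le (τ i) hm.1
    rw [Finset.prod_eq_zero (Finset.mem_univ i), mul_zero]
    rw [(hS i).1 hi, zero_pow]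
    omega

/-- the polynomial vanishes at the point if no exponent is in the common face -/
theorem eval_GP_zero (hN : ∀ m ∈ f.support, ∀ i, 0 ≤ m i + N0 i) {x : Fin n → L}
    (hx : ∀ i, x i ≠ 0) (y : Fin q → L) (h : (Fin n → ℤ) → k) {S : Fin q → Prop}
    (hS : ∀ i, S i → y i = 0) (h0 : ∀ m, ¬ InFace f τ u S m) :
    aeval (Sum.elim x y) (∑ m ∈ (init f u).support, monomial (expo N0 f τ m) (h m)) = 0 := by
  classical
  rw [map_sum]
  refine Finset.sum_eq_zero fun m hm => ?_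
  rw [mem_init] at hm
  rw [aeval_expo hN hx y hm.1]
  have : ∃ i, S i ∧ m ⬝ᵥ τ i ≠ phi f (τ i) := by
    by_contra hc
    push Not at hc
    exact h0 m ⟨hm.1, hm.2, hc⟩
  obtain ⟨i, hi, hne⟩ := this
  have h1 := phi_le (τ i) hm.1
  rw [Finset.prod_eq_zero (Finset.mem_univ i), mul_zero]
  rw [hS i hi, zero_pow]
  omega

theorem ev_init_eq (z : Fin n → L) (w : Fin n → ℤ) :
    ev z (init f w) = ∑ m ∈ (init f w).support, algebraMap k L (f m) * mono z m := by
  rw [ev_eq, init_sum f w fun m c => algebraMap k L c * mono z m]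

theorem dev_init_eq (z : Fin n → L) (w : Fin n → ℤ) (b : Fin n) :
    dev z b (init f w) = ∑ m ∈ (init f w).support, algebraMap k L (f m * (m b : k)) * mono z m := by
  rw [dev_eq, init_sum f w fun m c => algebraMap k L c * (m b : L) * mono z m]
  refine Finset.sum_congr rfl fun m _ => ?_
  rw [map_mul, map_intCast]

/-- the Euler derivative of `GP` -/
theorem X_mul_pderiv_GP (hN : ∀ m ∈ f.support, ∀ i, 0 ≤ m i + N0 i) (b : Fin n) :
    X (Sum.inl b) * pderiv (Sum.inl b) (GP N0 f τ u) =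
      ∑ m ∈ (init f u).support, monomial (expo N0 f τ m) (f m * (m b : k)) +
        C (N0 b : k) * GP N0 f τ u := by
  unfold GP
  rw [map_sum, Finset.mul_sum, Finset.mul_sum, ← Finset.sum_add_distrib]
  refine Finset.sum_congr rfl fun m hm => ?_
  rw [X_mul_pderiv_monomial, C_mul_monomial, ← map_add, smul_monomial]
  congr 1
  have h1 : (expo N0 f τ m) (Sum.inl b) = (m b + N0 b).toNat := by
    simp [expo]
  rw [h1, nsmul_eq_mul]
  have h2 : (((m b + N0 b).toNat : ℕ) : k) = (m b : k) + (N0 b : k) := by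
    have h3 : (((m b + N0 b).toNat : ℕ) : ℤ) = m b + N0 b :=
      Int.toNat_of_nonneg (hN m (mem_init.1 hm).1 b)
    have h4 := congrArg (fun z : ℤ => (z : k)) h3
    push_cast at h4
    exact h4
  rw [h2]
  ring

end poly

end Pool.Agent.Work.MP_43381c_ag
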