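import Pool.Agent.Work.MP_43381c_ag.CI.Codim

/-!
# The assembly with a bound that depends only on the dimension
-/

open Matrix

namespace Pool.Agent.Work.MP_43381c_ag

universe u

/-- The theorem for all embedding dimensions at once: `l` depends only on `d`, `N` and `Γ`, for
pairs with `n ≤ N` and for pairs of any codimension in a minimal embedding. -/
theorem ci_dim_of
    (ci_low : ∀ (k K : Type u) [Field k] [IsAlgClosed k] [CharZero k] [Field K] [Algebra k K]
      (n d : ℕ) (P : CIPair k K n d) (E : PrimeDivisor k K d), P.Over E →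
      IntPt P.v (P.vec E) ∧ InTrop P.g (P.vec E) ∧
        ((∀ j, P.coef j ≤ 1) → ((P.aw (P.vec E) : ℝ) : EReal) ≤ P.a E))
    (exists_div : ∀ (k K : Type u) [Field k] [IsAlgClosed k] [CharZero k] [Field K] [Algebra k K]
      (n d : ℕ) (P : CIPair k K n d), (∀ j, 0 ≤ P.coef j) → ∀ w : Fin n → ℤ, IntPt P.v w →
      (∃ m : Fin n → ℤ, m ⬝ᵥ w = 1) → InTrop P.g w →
      ∃ E : PrimeDivisor k K d, P.Over E ∧ P.vec E = w ∧ P.a E ≤ ((P.aw w : ℝ) : EReal) ∧
        P.aX E ≤ ((P.Aw w : ℝ) : EReal))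
    (d N : ℕ) (Γ : Set ℝ) (hΓ : Γ ⊆ Set.Icc 0 1)
    (hdcc : ¬ ∃ u : ℕ → ℝ, StrictAnti u ∧ ∀ i, u i ∈ Γ) :
    ∃ l : ℝ, 0 < l ∧ ∀ (n : ℕ) (k K : Type u) [Field k] [IsAlgClosed k] [CharZero k] [Field K]
      [Algebra k K] (P : CIPair k K n d), (n ≤ N ∨ P.Minimal) → P.CoefIn Γ → P.IsLC →
      (∃ E, P.Over E) →
      ∃ E : PrimeDivisor k K d, P.Over E ∧ P.a E = P.mld ∧ P.aX E ≤ (l : EReal) := by
  classical
  choose L hL0 hL using fun n : ℕ => ci_main_of.{u} ci_low exists_div n Γ hΓ hdcc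
  refine ⟨∑ n ∈ Finset.range (max N (2 * d) + 1), L n, ?_, ?_⟩
  · exact Finset.sum_pos (fun n _ => hL0 n) ⟨0, Finset.mem_range.2 (by omega)⟩
  intro n k K _ _ _ _ _ P hmin hcoef hlc hE
  have hn : n ≤ max N (2 * d) := by
    rcases hmin with h | h
    · exact h.trans (le_max_left _ _)
    · refine le_trans ?_ (le_max_right _ _)
      rcases Nat.eq_zero_or_pos n with h0 | h0
      · omega
      have hc01 : ∀ j, 0 ≤ P.coef j ∧ P.coef j ≤ 1 := by
        intro j
        rcases hcoef.2 j with h | h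
        · rw [h]; exact ⟨le_rfl, zero_le_one⟩
        · exact hΓ h
      have hb0 : ∀ ρ, 0 ≤ P.b ρ := by
        intro ρ
        rcases hcoef.1 ρ with h | h
        · rw [h]
        · exact (hΓ h).1
      have hr : 0 < P.r := by rw [h.1]; exact h0
      obtain ⟨M, hM⟩ := exists_pos_char hr P.primitive P.extremal
      obtain ⟨E₁, hE₁⟩ := hE
      obtain ⟨hI₁, hT₁, _⟩ := ci_low k K n d P E₁ hE₁
      refine P.le_two_mul h0 hb0 (fun j => (hc01 j).1) h (fun w hw hT => ?_) hI₁ hT₁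
      have hne : w ≠ 0 := by
        rintro rfl
        have hM0 : M ≠ 0 := by
          rintro rfl
          have := hM ⟨0, hr⟩
          simp at this
        have := hw M (fun ρ => (hM ρ).le) hM0
        simp at this
      obtain ⟨t, ht, w1, hw1, hp⟩ := exists_primitive hne
      have hwt : w = t • w1 := smul_eq_of hw1
      have hw1I : IntPt P.v w1 := by rw [← intPt_zsmul w1 ht, ← hwt]; exact hw
      have hw1T : InTrop P.g w1 := by rw [← inTrop_smul P.g w1 ht, ← hwt]; exact hT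
      obtain ⟨E, hE, _, h1, _⟩ := exists_div k K n d P (fun j => (hc01 j).1) w1 hw1I hp hw1T
      have h2 := (hlc E hE).trans h1
      have h3 : 0 ≤ P.aw w1 := by exact_mod_cast h2
      have h4 : P.aw w = t * P.aw w1 := aC_smul P.m0 P.g_supp P.coef P.f_supp ht hw1
      rw [h4]
      exact mul_nonneg (by exact_mod_cast ht.le) h3
  obtain ⟨E, h1, h2, h3⟩ := hL n d k K P hcoef hlc hE
  refine ⟨E, h1, h2, h3.trans ?_⟩
  have h4 : L n ≤ ∑ n ∈ Finset.range (max N (2 * d) + 1), L n :=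
    Finset.single_le_sum (f := L) (fun n _ => (hL0 n).le) (Finset.mem_range.2 (by omega))
  exact_mod_cast h4

end Pool.Agent.Work.MP_43381c_ag
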