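import Pool.Agent.Work.MP_43381c_ag.CI.Walk

/-!
# Generic points of a complete intersection (from the Newton lemma)
-/

open MvPolynomial Matrix

namespace Pool.Agent.Work.MP_43381c_ag

universe u

section

variable {k : Type u} [Field k] {n c d : ℕ}

/-- Euler derivative of `shP` -/
theorem X_mul_pderiv_shP (N : Fin n → ℕ) (S : Finset (Fin n → ℤ)) (g : (Fin n → ℤ) → k)
    (hN : ∀ m ∈ S, ∀ i, 0 ≤ m i + N i) (b : Fin n) :
    X b * pderiv b (shP N S g) = shP N S (fun m => g m * (m b : k)) + C (N b : k) * shP N S g := by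
  unfold shP
  rw [map_sum, Finset.mul_sum, Finset.mul_sum, ← Finset.sum_add_distrib]
  refine Finset.sum_congr rfl fun m hm => ?_
  rw [shP_term, shP_term, X_mul_pderiv_monomial, C_mul_monomial, ← map_add, smul_monomial]
  congr 1
  rw [Finsupp.equivFunOnFinite_symm_apply_apply, nsmul_eq_mul]
  have h2 : (((m b + N b).toNat : ℕ) : k) = (m b : k) + (N b : k) := by
    have h3 : (((m b + N b).toNat : ℕ) : ℤ) = m b + N b := Int.toNat_of_nonneg (hN m hm b)
    have h4 := congrArg (fun z : ℤ => (z : k)) h3
    push_cast at h4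
    exact h4
  rw [h2]
  ring

end

/-- the Newton lemma for a system with coefficients in the power series ring, as a statement -/
def NewtonStmt (L : Type u) [Field L] (n c d : ℕ) : Prop :=
  ∀ (e : Fin d ⊕ Fin c ≃ Fin n) (G : Fin c → MvPolynomial (Fin n) (PowerSeries L))
    (a : Fin n → PowerSeries L), (∀ l, PowerSeries.constantCoeff (eval a (G l)) = 0) →
    PowerSeries.constantCoeff (Matrix.det (Matrix.of fun l j =>
      eval a (pderiv (e (Sum.inr j)) (G l)))) ≠ 0 →
    ∃ y : Fin n → PowerSeries L,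
      (∀ b, PowerSeries.constantCoeff (y b) = PowerSeries.constantCoeff (a b)) ∧
      (∀ i, y (e (Sum.inl i)) = a (e (Sum.inl i))) ∧ ∀ l, eval y (G l) = 0

theorem exists_generic_of {k : Type u} [Field k] [Infinite k] {n c d : ℕ}
    (g : Fin c → (Fin n → ℤ) →₀ k) {L₀ : Type u} [Field L₀] [Algebra k L₀]
    (newton : NewtonStmt L₀ n c d) (z : Fin n → L₀)
    (hz : ∀ b, z b ≠ 0) (hg : ∀ l, ev z (g l) = 0) (e : Fin d ⊕ Fin c ≃ Fin n)
    (hdet : (Matrix.of fun l j => dev z (e (Sum.inr j)) (g l)).det ≠ 0) :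
    ∃ (L : Type u) (_ : Field L) (_ : Algebra k L) (z' : Fin n → L), (∀ b, z' b ≠ 0) ∧
      (∀ l, ev z' (g l) = 0) ∧ (Matrix.of fun l j => dev z' (e (Sum.inr j)) (g l)).det ≠ 0 ∧
      AlgebraicIndependent k (fun i => z' (e (Sum.inl i))) := by
  classical
  set N0 : Fin n → ℕ := fun b => ∑ l, shN (g l).support b with hN0
  have hN : ∀ l, ∀ m ∈ (g l).support, ∀ i, 0 ≤ m i + N0 i := by
    intro l m hm i
    have h1 := shN_le hm i
    have h2 : shN (g l).support i ≤ N0 i :=
      Finset.single_le_sum (f := fun l => shN (g l).support i)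
        (fun _ _ => Nat.zero_le _) (Finset.mem_univ l)
    omega
  set G : Fin c → MvPolynomial (Fin n) k := fun l => shP N0 (g l).support (fun m => g l m) with hG
  set H : Fin c → Fin c → MvPolynomial (Fin n) k := fun l j =>
    shP N0 (g l).support (fun m => g l m * (m (e (Sum.inr j)) : k)) with hH
  set Δ : MvPolynomial (Fin n) k := (Matrix.of fun l j => H l j).det with hΔ
  have hGev : ∀ {L : Type u} [Field L] [Algebra k L] (y : Fin n → L), (∀ b, y b ≠ 0) → ∀ l,
      aeval y (G l) = mono y (fun i => (N0 i : ℤ)) * ev y (g l) := by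
    intro L _ _ y hy l
    rw [hG]
    simp only
    rw [aeval_shP N0 _ _ hy (hN l), ev_eq]
  have hHev : ∀ {L : Type u} [Field L] [Algebra k L] (y : Fin n → L), (∀ b, y b ≠ 0) → ∀ l j,
      aeval y (H l j) = mono y (fun i => (N0 i : ℤ)) * dev y (e (Sum.inr j)) (g l) := by
    intro L _ _ y hy l j
    rw [hH]
    simp only
    rw [aeval_shP N0 _ _ hy (hN l), dev_eq]
    congr 1
    refine Finset.sum_congr rfl fun m _ => ?_
    rw [map_mul, map_intCast]
  have hΔev : ∀ {L : Type u} [Field L] [Algebra k L] (y : Fin n → L), (∀ b, y b ≠ 0) →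
      aeval y Δ = mono y (fun i => (N0 i : ℤ)) ^ c *
        (Matrix.of fun l j => dev y (e (Sum.inr j)) (g l)).det := by
    intro L _ _ y hy
    rw [hΔ, AlgHom.map_det]
    have h1 : (aeval y).mapMatrix (Matrix.of fun l j => H l j) =
        mono y (fun i => (N0 i : ℤ)) • (Matrix.of fun l j => dev y (e (Sum.inr j)) (g l)) := by
      ext l j
      simp only [AlgHom.mapMatrix_apply, Matrix.map_apply, Matrix.of_apply, Matrix.smul_apply,
        smul_eq_mul]
      exact hHev y hy l j
    rw [h1, Matrix.det_smul, Fintype.card_fin]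
  have hGz : ∀ l, aeval z (G l) = 0 := fun l => by rw [hGev z hz l, hg l, mul_zero]
  have hΔz : aeval z Δ ≠ 0 := by
    rw [hΔev z hz]
    exact mul_ne_zero (pow_ne_zero _ (mono_ne_zero hz _)) hdet
  -- the ordinary Jacobian
  have hJz : (Matrix.of fun l j => aeval z (pderiv (e (Sum.inr j)) (G l))).det ≠ 0 := by
    intro h0
    apply hΔz
    rw [hΔ, AlgHom.map_det]
    have h1 : (aeval z).mapMatrix (Matrix.of fun l j => H l j) =
        (Matrix.of fun l j => aeval z (pderiv (e (Sum.inr j)) (G l))) *
          Matrix.diagonal (fun j => z (e (Sum.inr j))) := by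
      ext l j
      rw [Matrix.mul_diagonal]
      simp only [AlgHom.mapMatrix_apply, Matrix.map_apply, Matrix.of_apply]
      have h2 := congrArg (aeval z) (X_mul_pderiv_shP N0 (g l).support (fun m => g l m) (hN l)
        (e (Sum.inr j)))
      rw [map_mul, map_add, map_mul, aeval_X] at h2
      have h3 : aeval z (shP N0 (g l).support (fun m => g l m)) = 0 := hGz l
      rw [h3, mul_zero, add_zero] at h2
      rw [mul_comm, ← h2]
    rw [h1, Matrix.det_mul, h0, zero_mul]
  -- the multiplicative set
  let T : Submonoid (MvPolynomial (Fin n) k) :=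
    { carrier := {t | ∃ (a b : ℕ) (P : MvPolynomial (Fin d) k), P ≠ 0 ∧
        t = (∏ i, X i) ^ a * Δ ^ b * rename (fun i => e (Sum.inl i)) P}
      one_mem' := ⟨0, 0, 1, one_ne_zero, by simp⟩
      mul_mem' := by
        rintro _ _ ⟨a, b, P, hP, rfl⟩ ⟨a', b', P', hP', rfl⟩
        refine ⟨a + a', b + b', P * P', mul_ne_zero hP hP', ?_⟩
        rw [map_mul, pow_add, pow_add]
        ring }
  set I0 : Ideal (MvPolynomial (Fin n) k) := Ideal.span (Set.range G) with hI0
  have hdisj : Disjoint (I0 : Set (MvPolynomial (Fin n) k)) (T : Set (MvPolynomial (Fin n) k)) := by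
    rw [Set.disjoint_left]
    rintro t ht ⟨a, b, P, hP, rfl⟩
    obtain ⟨p, hp⟩ : ∃ p : Fin d → k, eval p P ≠ 0 := by
      by_contra hcon
      push Not at hcon
      exact hP (MvPolynomial.funext fun x => by rw [hcon x, map_zero])
    -- the line
    set line : Fin n → PowerSeries L₀ := fun t =>
      Sum.elim (fun i => PowerSeries.C (z t) + PowerSeries.X * PowerSeries.C
        (algebraMap k L₀ (p i) - z t)) (fun _ => PowerSeries.C (z t)) (e.symm t) with hline
    have hline0 : ∀ t, PowerSeries.constantCoeff (line t) = z t := by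
      intro t
      rw [hline]
      simp only
      rcases e.symm t with i | j
      · simp
      · simp
    -- coefficients
    set κ : k →+* PowerSeries L₀ := (PowerSeries.C (R := L₀)).comp (algebraMap k L₀) with hκ
    have hccκ : (PowerSeries.constantCoeff (R := L₀)).comp κ = algebraMap k L₀ := by
      ext x
      simp [hκ]
    have hcc : ∀ (y : Fin n → PowerSeries L₀), (∀ t, PowerSeries.constantCoeff (y t) = z t) →
        ∀ Q : MvPolynomial (Fin n) k, PowerSeries.constantCoeff (eval₂ κ y Q) = aeval z Q := by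
      intro y hy Q
      rw [hom_eval₂, hccκ, aeval_def]
      congr 1
      funext t
      exact hy t
    obtain ⟨y, hy0, hyl, hyG⟩ := newton e (fun l => map κ (G l)) line
      (fun l => by rw [eval_map, hcc line hline0, hGz l])
      (by
        rw [RingHom.map_det]
        convert hJz using 2
        ext l j
        simp only [RingHom.mapMatrix_apply, Matrix.map_apply, Matrix.of_apply]
        rw [pderiv_map, eval_map, hcc line hline0])
    have hy0' : ∀ t, PowerSeries.constantCoeff (y t) = z t := fun t => by rw [hy0, hline0]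
    set Ψ : MvPolynomial (Fin n) k →+* PowerSeries L₀ := eval₂Hom κ y with hΨ
    have hΨI : ∀ t ∈ I0, Ψ t = 0 := by
      intro t ht
      have h1 : I0 ≤ RingHom.ker Ψ := by
        rw [hI0, Ideal.span_le]
        rintro _ ⟨l, rfl⟩
        rw [SetLike.mem_coe, RingHom.mem_ker, hΨ, coe_eval₂Hom]
        have := hyG l
        rwa [eval_map] at this
      exact h1 ht
    have h0 := hΨI _ ht
    have hΨne : ∀ Q : MvPolynomial (Fin n) k, aeval z Q ≠ 0 → Ψ Q ≠ 0 := by
      intro Q hQ h1
      apply hQ
      rw [← hcc y hy0' Q]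
      have h2 : eval₂ κ y Q = 0 := h1
      rw [h2, map_zero]
    rw [map_mul, map_mul, map_pow, map_pow] at h0
    have hX : Ψ (∏ i, X i) ≠ 0 := by
      refine hΨne _ ?_
      rw [map_prod]
      refine Finset.prod_ne_zero_iff.2 fun i _ => ?_
      rw [aeval_X]
      exact hz i
    have hΔ' : Ψ Δ ≠ 0 := hΨne _ hΔz
    rcases mul_eq_zero.1 h0 with h1 | h1
    · exact mul_ne_zero (pow_ne_zero _ hX) (pow_ne_zero _ hΔ') h1
    · -- the polynomial part
      rw [hΨ, coe_eval₂Hom, eval₂_rename] at h1
      set q : Polynomial L₀ := eval₂ ((Polynomial.C).comp (algebraMap k L₀))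
        (fun i => Polynomial.C (z (e (Sum.inl i))) + Polynomial.X *
          Polynomial.C (algebraMap k L₀ (p i) - z (e (Sum.inl i)))) P with hq
      have h2 : (Polynomial.coeToPowerSeries.ringHom (R := L₀)) q = 0 := by
        rw [hq, hom_eval₂, ← h1]
        congr 1
        · ext x
          simp [hκ]
        · funext i
          rw [Function.comp_apply, hyl i, hline]
          simp
      have h3 : q = 0 := by
        have h4 : (q : PowerSeries L₀) = ((0 : Polynomial L₀) : PowerSeries L₀) := by
          rw [Polynomial.coe_zero]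
          exact h2
        exact Polynomial.coe_injective L₀ h4
      have h4 : Polynomial.eval 1 q = algebraMap k L₀ (eval p P) := by
        have h5 : Polynomial.eval 1 q = (Polynomial.evalRingHom (1 : L₀)) q := rfl
        rw [h5, hq, hom_eval₂]
        have h6 : algebraMap k L₀ (eval p P) = eval₂ (algebraMap k L₀) (algebraMap k L₀ ∘ p) P :=
          eval₂_comp _ _ _
        rw [h6]
        congr 1
        · ext x
          simp
        · funext i
          simp
      rw [h3, Polynomial.eval_zero] at h4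
      exact hp ((map_eq_zero (algebraMap k L₀)).1 h4.symm)
  -- the prime
  obtain ⟨pr, hprime, hle, hdis⟩ := Ideal.exists_le_prime_disjoint I0 T hdisj
  set R := MvPolynomial (Fin n) k ⧸ pr with hR
  have : IsDomain R := Ideal.Quotient.isDomain pr
  set L := FractionRing R with hL
  set π : MvPolynomial (Fin n) k →ₐ[k] L :=
    (IsScalarTower.toAlgHom k R L).comp (Ideal.Quotient.mkₐ k pr) with hπ
  have hπ0 : ∀ Q, π Q = 0 ↔ Q ∈ pr := by
    intro Q
    rw [hπ, AlgHom.comp_apply, IsScalarTower.coe_toAlgHom', Ideal.Quotient.mkₐ_eq_mk,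
      map_eq_zero_iff _ (IsFractionRing.injective R L), Ideal.Quotient.eq_zero_iff_mem]
  set z' : Fin n → L := fun b => π (X b) with hz'
  have hπe : ∀ Q, aeval z' Q = π Q := by
    intro Q
    have : aeval z' = π := by
      apply MvPolynomial.algHom_ext
      intro i
      rw [aeval_X]
    rw [this]
  have hTn : ∀ t ∈ T, t ∉ pr := fun t ht htp => Set.disjoint_left.1 hdis htp ht
  have hXmem : (∏ i, X i : MvPolynomial (Fin n) k) ∈ T := ⟨1, 0, 1, one_ne_zero, by simp⟩
  have hz'0 : ∀ b, z' b ≠ 0 := by
    intro b h0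
    have h1 : (X b : MvPolynomial (Fin n) k) ∈ pr := (hπ0 _).1 h0
    refine hTn _ hXmem ?_
    rw [← Finset.mul_prod_erase Finset.univ _ (Finset.mem_univ b)]
    exact Ideal.mul_mem_right _ _ h1
  refine ⟨L, inferInstance, inferInstance, z', hz'0, ?_, ?_, ?_⟩
  · intro l
    have h1 := hGev z' hz'0 l
    have h2 : π (G l) = 0 := (hπ0 _).2 (hle (Ideal.subset_span ⟨l, rfl⟩))
    rw [hπe, h2] at h1
    exact (mul_eq_zero.1 h1.symm).resolve_left (mono_ne_zero hz'0 _)
  · intro h0
    have h1 := hΔev z' hz'0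
    rw [h0, mul_zero, hπe] at h1
    exact hTn Δ ⟨0, 1, 1, one_ne_zero, by simp⟩ ((hπ0 _).1 h1)
  · rw [algebraicIndependent_iff]
    intro P hP
    by_contra hne
    refine hTn _ ⟨0, 0, P, hne, rfl⟩ ?_
    rw [pow_zero, pow_zero, one_mul, one_mul, ← hπ0, ← hπe, aeval_rename]
    exact hP

end Pool.Agent.Work.MP_43381c_ag
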