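import Pool.Agent.Work.MP_43381c_ag.CI.Nd
import Pool.Agent.Work.MP_43381c_ag.CI.Defs

/-!
# Lower bound for the order of the residue form along a divisor
-/

open MvPolynomial Matrix

namespace Pool.Agent.Work.MP_43381c_ag

universe u

section rel

variable {K : Type*} [Field K] {n c d : ℕ}

/-- duality between the minors of `P` and of `Q` when `P * Qᵀ = 0` -/
theorem det_rel (e : Fin d ⊕ Fin c ≃ Fin n) (P : Matrix (Fin d) (Fin n) K)
    (Q R : Matrix (Fin c) (Fin n) K) (hPQ : P * Qᵀ = 0) :
    (Matrix.of fun (i : Fin d ⊕ Fin c) (b : Fin d ⊕ Fin c) =>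
      Sum.elim (fun i => P i (e b)) (fun l => R l (e b)) i).det *
      (Matrix.of fun l j => Q l (e (Sum.inr j))).det =
      (Matrix.of fun i j => P i (e (Sum.inl j))).det * (R * Qᵀ).det := by
  classical
  have hsum : ∀ F : Fin n → K, ∑ b, F b = ∑ i, F (e (Sum.inl i)) + ∑ j, F (e (Sum.inr j)) := by
    intro F
    rw [← Equiv.sum_comp e, Fintype.sum_sum_type]
  have h1 : (Matrix.of fun (i : Fin d ⊕ Fin c) (b : Fin d ⊕ Fin c) =>
      Sum.elim (fun i => P i (e b)) (fun l => R l (e b)) i) *
      Matrix.fromBlocks 1 (Matrix.of fun i l => Q l (e (Sum.inl i))) 0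
        (Matrix.of fun j l => Q l (e (Sum.inr j))) =
      Matrix.fromBlocks (Matrix.of fun i j => P i (e (Sum.inl j))) 0
        (Matrix.of fun l j => R l (e (Sum.inl j))) (R * Qᵀ) := by
    have h2 : (Matrix.of fun (i : Fin d ⊕ Fin c) (b : Fin d ⊕ Fin c) =>
        Sum.elim (fun i => P i (e b)) (fun l => R l (e b)) i) =
        Matrix.fromBlocks (Matrix.of fun i j => P i (e (Sum.inl j)))
          (Matrix.of fun i j => P i (e (Sum.inr j)))
          (Matrix.of fun l j => R l (e (Sum.inl j))) (Matrix.of fun l j => R l (e (Sum.inr j))) := by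
      ext i b
      rcases i with i | i <;> rcases b with b | b <;> rfl
    rw [h2, Matrix.fromBlocks_multiply]
    congr 1
    · simp
    · ext i l
      have h3 := congrFun (congrFun hPQ i) l
      rw [Matrix.mul_apply, hsum] at h3
      exact h3
    · simp
    · ext l l'
      rw [Matrix.mul_apply, hsum]
      rfl
  have h2 := congrArg Matrix.det h1
  rw [Matrix.det_mul, Matrix.det_fromBlocks_zero₂₁, Matrix.det_fromBlocks_zero₁₂, Matrix.det_one,
    one_mul] at h2
  rw [← h2]
  congr 1
  rw [← Matrix.det_transpose]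
  rfl

end rel

section rinv

variable {K : Type*} [Field K] (v : AddValuation K (WithTop ℤ))

theorem v_adj {J : Type*} [Fintype J] [DecidableEq J] (U : Matrix J J K)
    (hU : ∀ i j, 0 ≤ v (U i j)) (i j : J) : 0 ≤ v (U.adjugate i j) := by
  rw [Matrix.adjugate_apply]
  refine v_det_nonneg v _ fun a b => ?_
  rw [Matrix.updateRow_apply]
  split_ifs
  · rw [Pi.single_apply]
    split_ifs
    · rw [v.map_one]
    · rw [v.map_zero]; exact le_top
  · exact hU a b

/-- a matrix with integral entries and a unit minor has an integral right inverse -/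
theorem exists_int_rinv {J b : Type*} [Fintype J] [DecidableEq J] [Fintype b] [DecidableEq b]
    (A : Matrix J b K) (hA : ∀ i j, 0 ≤ v (A i j)) (ρ : J → b)
    (hρ : v (A.submatrix id ρ).det = 0) :
    ∃ B : Matrix b J K, (∀ i j, 0 ≤ v (B i j)) ∧ A * B = 1 := by
  classical
  set U := A.submatrix id ρ with hU
  have h0 : U.det ≠ 0 := by
    intro h
    rw [h, v.map_zero] at hρ
    exact WithTop.top_ne_zero hρ
  have hinv : v (U.det)⁻¹ = 0 := by
    have h1 := v.map_mul U.det (U.det)⁻¹
    rw [mul_inv_cancel₀ h0, v.map_one, hρ, zero_add] at h1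
    exact h1.symm
  refine ⟨(Matrix.of fun i j' => if i = ρ j' then (1 : K) else 0) * ((U.det)⁻¹ • U.adjugate), ?_, ?_⟩
  · intro i j
    rw [Matrix.mul_apply]
    refine v.map_le_sum fun j' _ => ?_
    rw [v.map_mul]
    refine add_nonneg ?_ ?_
    · rw [Matrix.of_apply]
      split_ifs
      · rw [v.map_one]
      · rw [v.map_zero]; exact le_top
    · rw [Matrix.smul_apply, smul_eq_mul, v.map_mul, hinv, zero_add]
      exact v_adj v U (fun _ _ => hA _ _) _ _
  · rw [← Matrix.mul_assoc]
    have h1 : A * (Matrix.of fun i j' => if i = ρ j' then (1 : K) else 0) = U := by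
      ext j j'
      rw [Matrix.mul_apply, Finset.sum_eq_single (ρ j')]
      · simp [hU]
      · intro b' _ hb
        simp [hb]
      · exact fun h => absurd (Finset.mem_univ _) h
    rw [h1, Matrix.mul_smul, Matrix.mul_adjugate, smul_smul, inv_mul_cancel₀ h0, one_smul]

end rinv

section trop

/-- the residues of the normalized coordinates are a common zero of the initial forms -/
theorem inTrop_of {k K : Type u} [Field k] [Field K] [Algebra k K] {n c : ℕ}
    (v : AddValuation K (WithTop ℤ))
    (hk : ∀ a : k, a ≠ 0 → v (algebraMap k K a) = 0) {t : K} (ht : v t = 1)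
    (x : Fin n → K) (w : Fin n → ℤ) (hx : ∀ i, v (x i) = ((w i : ℤ) : WithTop ℤ))
    (g : Fin c → (Fin n → ℤ) →₀ k) (hg : ∀ l, ev x (g l) = 0) : InTrop g w := by
  classical
  have ht' : v t = ((1 : ℤ) : WithTop ℤ) := by simpa using ht
  have ht0 : t ≠ 0 := by
    rintro rfl
    rw [v.map_zero] at ht'
    exact WithTop.top_ne_coe ht'
  have hx0 : ∀ i, x i ≠ 0 := by
    intro i h
    have := hx i
    rw [h, v.map_zero] at this
    exact WithTop.top_ne_coe this
  set y : Fin n → K := fun i => x i * t ^ (-w i) with hydef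
  have hy : ∀ i, v (y i) = 0 := fun i => by
    rw [hydef]
    simp only
    rw [v.map_mul, hx, v_zpow v ht', mul_one, ← WithTop.coe_add, add_neg_cancel]
    rfl
  have hy0 : ∀ i, y i ≠ 0 := fun i => mul_ne_zero (hx0 i) (zpow_ne_zero _ ht0)
  have hxy : ∀ m, mono x m = mono y m * t ^ (m ⬝ᵥ w) := by
    intro m
    rw [← mono_zpow ht0, ← mono_mul]
    congr 1
    funext i
    simp only [hydef]
    rw [mul_assoc, ← zpow_add₀ ht0, neg_add_cancel, zpow_zero, mul_one]
  have hvm : ∀ m, v (mono y m) = 0 := fun m => by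
    rw [v_mono v (w := fun _ => 0) (fun i => by rw [hy i]; rfl) m]
    simp [dotProduct]
  let O : Subalgebra k K :=
    { carrier := {a | 0 ≤ v a}
      mul_mem' := fun {a b} ha hb => by
        change 0 ≤ v (a * b)
        rw [v.map_mul]
        exact add_nonneg ha hb
      add_mem' := fun {a b} ha hb => v.map_le_add ha hb
      algebraMap_mem' := fun a => v_const_nonneg v hk a }
  let m : Ideal O :=
    { carrier := {a | 0 < v (a : K)}
      add_mem' := fun {a b} ha hb => v.map_lt_add ha hb
      zero_mem' := by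
        change 0 < v ((0 : O) : K)
        rw [ZeroMemClass.coe_zero, v.map_zero]
        exact WithTop.coe_lt_top (0 : ℤ)
      smul_mem' := fun a b hb => by
        change 0 < v ((a * b : O) : K)
        rw [MulMemClass.coe_mul, v.map_mul]
        exact lt_of_lt_of_le hb (le_add_of_nonneg_left a.2) }
  have hm : ∀ a : O, a ∈ m ↔ 0 < v (a : K) := fun a => Iff.rfl
  have hmp : m.IsPrime := by
    refine ⟨?_, ?_⟩
    · rw [Ideal.ne_top_iff_one, hm, OneMemClass.coe_one, v.map_one]
      exact lt_irrefl _
    · intro a b hab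
      by_contra hc
      push Not at hc
      rw [hm, hm] at hc
      rw [hm, MulMemClass.coe_mul, v.map_mul] at hab
      have h1 : v (a : K) = 0 := le_antisymm (not_lt.1 hc.1) a.2
      have h2 : v (b : K) = 0 := le_antisymm (not_lt.1 hc.2) b.2
      rw [h1, h2, add_zero] at hab
      exact lt_irrefl _ hab
  let L := FractionRing (O ⧸ m)
  let π : O →ₐ[k] L := (IsScalarTower.toAlgHom k (O ⧸ m) L).comp (Ideal.Quotient.mkₐ k m)
  have hπ : ∀ a : O, π a = 0 ↔ 0 < v (a : K) := by
    intro a
    rw [← hm, ← Ideal.Quotient.eq_zero_iff_mem]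
    change algebraMap (O ⧸ m) L (Ideal.Quotient.mk m a) = 0 ↔ _
    exact map_eq_zero_iff _ (IsFractionRing.injective (O ⧸ m) L)
  let y' : Fin n → O := fun i => ⟨y i, by change 0 ≤ v (y i); rw [hy i]⟩
  have hz : ∀ i, π (y' i) ≠ 0 := by
    intro i h
    rw [hπ] at h
    change 0 < v (y i) at h
    rw [hy i] at h
    exact lt_irrefl _ h
  refine ⟨L, inferInstance, inferInstance, fun i => π (y' i), hz, fun l => ?_⟩
  have hN : ∀ m ∈ (init (g l) w).support, ∀ i, 0 ≤ m i + (shN (init (g l) w).support i : ℤ) := by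
    intro m' hm' i
    have h1 := shN_le hm' i
    omega
  set p : MvPolynomial (Fin n) k := shP (shN (init (g l) w).support) (init (g l) w).support
    (fun m => init (g l) w m) with hp
  have h1 : aeval (fun i => π (y' i)) p = mono (fun i => π (y' i))
      (fun i => (shN (init (g l) w).support i : ℤ)) *
      ev (fun i => π (y' i)) (init (g l) w) := by
    rw [hp, aeval_shP _ _ _ hz hN, ev_eq]
  have h2 : aeval y p = mono y (fun i => (shN (init (g l) w).support i : ℤ)) *
      ev y (init (g l) w) := by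
    rw [hp, aeval_shP _ _ _ hy0 hN, ev_eq]
  have h3 : aeval (fun i => π (y' i)) p = π (aeval y' p) := by
    rw [← comp_aeval_apply]
  have h4 : ((aeval y' p : O) : K) = aeval y p := by
    have := comp_aeval_apply (B := K) y' O.val p
    exact this
  have h5 : 0 < v (ev y (init (g l) w)) := by
    have h6 := (g_congr v ht w hy hxy (g l) (fun m => algebraMap k K (g l m))
      (fun m => v_const_nonneg v hk _)).2
    rw [← ev_eq, hg l, mul_zero, zero_sub, v.map_neg] at h6
    rw [ev_eq, init_sum (g l) w (fun m c => algebraMap k K c * mono y m)]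
    exact h6
  have h6 : π (aeval y' p) = 0 := by
    rw [hπ, h4, h2, v.map_mul, hvm, zero_add]
    exact h5
  rw [← h3, h1] at h6
  exact (mul_eq_zero.1 h6).resolve_left (mono_ne_zero hz _)

end trop

section core

variable {k K : Type u} [Field k] [Field K] [Algebra k K] {n c s d : ℕ}

theorem ci_low_core [IsAlgClosed k] (v : AddValuation K (WithTop ℤ))
    (hk : ∀ a : k, a ≠ 0 → v (algebraMap k K a) = 0) {t : K} (ht : v t = 1)
    (x : Fin n → K) (w : Fin n → ℤ) (hx : ∀ i, v (x i) = ((w i : ℤ) : WithTop ℤ))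
    (g : Fin c → (Fin n → ℤ) →₀ k) (hg : ∀ l, ev x (g l) = 0)
    (f : Fin s → (Fin n → ℤ) →₀ k) (nf : Fin s → ℤ)
    (hn : ∀ j, v (ev x (f j)) = ((nf j : ℤ) : WithTop ℤ)) (hle : ∀ j, phi (f j) w ≤ nf j)
    (nd : Nondeg (Sum.elim g f) w) (e : Fin d ⊕ Fin c ≃ Fin n)
    (D : Fin d → Derivation k K K) (hD : ∀ i, ∀ f, 0 ≤ v f → 0 ≤ v (D i f)) :
    ((∑ j, (nf j - phi (f j) w) - 1 - ∑ l, phi (g l) w : ℤ) : WithTop ℤ) +
      v (Matrix.of fun l j => dev x (e (Sum.inr j)) (g l)).det ≤
      v (Matrix.of fun i j => D i (x (e (Sum.inl j))) / x (e (Sum.inl j))).det := by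
  classical
  have ht' : v t = ((1 : ℤ) : WithTop ℤ) := by simpa using ht
  have ht0 : t ≠ 0 := by
    rintro rfl
    rw [v.map_zero] at ht'
    exact WithTop.top_ne_coe ht'
  have hx0 : ∀ i, x i ≠ 0 := by
    intro i h
    have := hx i
    rw [h, v.map_zero] at this
    exact WithTop.top_ne_coe this
  set u : Fin n → K := fun i => x i * t ^ (-w i) with hudef
  have hu : ∀ i, v (u i) = 0 := fun i => by
    rw [hudef]
    simp only
    rw [v.map_mul, hx, v_zpow v ht', mul_one, ← WithTop.coe_add, add_neg_cancel]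
    rfl
  have hxu : ∀ m, mono x m = mono u m * t ^ (m ⬝ᵥ w) := by
    intro m
    rw [← mono_zpow ht0, ← mono_mul]
    congr 1
    funext i
    simp only [hudef]
    rw [mul_assoc, ← zpow_add₀ ht0, neg_add_cancel, zpow_zero, mul_one]
  have hvm : ∀ m, v (mono u m) = 0 := fun m => by
    rw [v_mono v (w := fun _ => 0) (fun i => by rw [hu i]; rfl) m]
    simp [dotProduct]
  set F : Fin c ⊕ Fin s → (Fin n → ℤ) →₀ k := Sum.elim g f with hF
  set J : Fin c ⊕ Fin s → Prop := Sum.elim (fun _ => True) (fun j => phi (f j) w < nf j) with hJ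
  -- congruences
  have hc1 : ∀ j, 0 < v (t ^ (-phi (F j) w) * ev x (F j) - ev u (init (F j) w)) := by
    intro j
    have h1 := (g_congr v ht w hu hxu (F j) (fun m => algebraMap k K (F j m))
      (fun m => v_const_nonneg v hk _)).2
    rw [ev_eq, ev_eq, init_sum (F j) w (fun m c => algebraMap k K c * mono u m)]
    exact h1
  have hc2 : ∀ j l, 0 ≤ v (t ^ (-phi (F j) w) * dev x l (F j)) ∧
      0 < v (t ^ (-phi (F j) w) * dev x l (F j) - dev u l (init (F j) w)) := by
    intro j l
    have h1 := g_congr v ht w hu hxu (F j) (fun m => algebraMap k K (F j m) * (m l : K))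
      (fun m => by
        rw [v.map_mul]
        exact add_nonneg (v_const_nonneg v hk _) (v_intCast v _))
    rw [dev_eq, dev_eq, init_sum (F j) w (fun m c => algebraMap k K c * (m l : K) * mono u m)]
    exact h1
  have hdu : ∀ j l, 0 ≤ v (dev u l (init (F j) w)) := by
    intro j l
    rw [dev_eq]
    refine v.map_le_sum fun m _ => ?_
    rw [v.map_mul, v.map_mul, hvm, add_zero]
    exact add_nonneg (v_const_nonneg v hk _) (v_intCast v _)
  -- a unit minor
  set A : Matrix {j // J j} (Fin n) K :=
    Matrix.of fun j l => t ^ (-phi (F j.1) w) * dev x l (F j.1) with hA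
  obtain ⟨ρ, hρ⟩ : ∃ ρ : {j // J j} → Fin n, v (A.submatrix id ρ).det = 0 := by
    rcases nd_alt F w nd J v hk hu with ⟨j, hj, ha⟩ | ⟨ρ, ha⟩
    · exfalso
      apply ha
      have h1 := hc1 j
      have h2 : 0 < v (t ^ (-phi (F j) w) * ev x (F j)) := by
        rcases j with l | j
        · change 0 < v (t ^ (-phi (F (Sum.inl l)) w) * ev x (g l))
          rw [hg l, mul_zero, v.map_zero]
          exact WithTop.coe_lt_top (0 : ℤ)
        · change 0 < v (t ^ (-phi (f j) w) * ev x (f j))
          rw [v.map_mul, hn, v_zpow v ht', mul_one, ← WithTop.coe_add]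
          have : 0 < -phi (f j) w + nf j := by
            have : phi (f j) w < nf j := hj
            omega
          exact_mod_cast this
      have h3 : ev u (init (F j) w) = t ^ (-phi (F j) w) * ev x (F j) -
          (t ^ (-phi (F j) w) * ev x (F j) - ev u (init (F j) w)) := by ring
      rw [h3, sub_eq_add_neg]
      exact v.map_lt_add h2 (by rw [v.map_neg]; exact h1)
    · refine ⟨ρ, ?_⟩
      have h1 := v_det_congr v (A.submatrix id ρ)
        ((Matrix.of fun (j : {j // J j}) (l : Fin n) =>
          dev u l (init (F j) w)).submatrix id ρ)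
        (fun i j => (hc2 _ _).1) (fun i j => hdu _ _) (fun i j => (hc2 _ _).2)
      have h2 := v_det_nonneg v (A.submatrix id ρ) (fun i j => (hc2 _ _).1)
      rcases h2.lt_or_eq with h | h
      · exfalso
        apply ha
        have h3 := v.map_lt_add h (show (0 : WithTop ℤ) < v (-(_ - _)) by
          rw [v.map_neg]
          exact h1)
        rw [← sub_eq_add_neg, sub_sub_cancel] at h3
        exact h3
      · exact h.symm
  obtain ⟨B, hB0, hAB⟩ := exists_int_rinv v A (fun i j => (hc2 _ _).1) ρ hρ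
  set R : Matrix (Fin c) (Fin n) K := Matrix.of fun l b => B b ⟨Sum.inl l, trivial⟩ with hR
  set P : Matrix (Fin d) (Fin n) K := Matrix.of fun i b => D i (x b) / x b with hP
  set Q : Matrix (Fin c) (Fin n) K := Matrix.of fun l b => dev x b (g l) with hQ
  have hPF : ∀ i j, ∑ b, P i b * dev x b (F j) = D i (ev x (F j)) := by
    intro i j
    rw [D_ev (D i) hx0]
    exact Finset.sum_congr rfl fun b _ => rfl
  have hPQ : P * Qᵀ = 0 := by
    ext i l
    rw [Matrix.mul_apply]
    have h1 := hPF i (Sum.inl l)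
    have h2 : ev x (F (Sum.inl l)) = 0 := hg l
    rw [h2, map_zero] at h1
    exact h1
  have hRA : ∀ l j, ∑ b, R l b * A j b = if j = ⟨Sum.inl l, trivial⟩ then 1 else 0 := by
    intro l j
    have h1 := congrFun (congrFun hAB j) ⟨Sum.inl l, trivial⟩
    rw [Matrix.mul_apply, Matrix.one_apply] at h1
    rw [← h1]
    exact Finset.sum_congr rfl fun b _ => mul_comm _ _
  have hRQ : R * Qᵀ = Matrix.diagonal fun l => t ^ (phi (g l) w) := by
    ext l l'
    rw [Matrix.mul_apply, Matrix.diagonal_apply]
    have h1 := hRA l ⟨Sum.inl l', trivial⟩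
    have h2 : ∑ b, R l b * Qᵀ b l' = t ^ (phi (g l') w) *
        ∑ b, R l b * A ⟨Sum.inl l', trivial⟩ b := by
      rw [Finset.mul_sum]
      refine Finset.sum_congr rfl fun b _ => ?_
      change R l b * dev x b (g l') =
        t ^ (phi (g l') w) * (R l b * (t ^ (-phi (g l') w) * dev x b (g l')))
      have h3 : t ^ (phi (g l') w) * t ^ (-phi (g l') w) = 1 := by
        rw [← zpow_add₀ ht0, add_neg_cancel, zpow_zero]
      linear_combination (-(R l b * dev x b (g l'))) * h3
    rw [h2, h1]
    by_cases h : l = l'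
    · subst h
      simp
    · rw [if_neg, if_neg h, mul_zero]
      intro h3
      have h4 := congrArg Subtype.val h3
      exact h (Sum.inl_injective h4).symm
  set G : Matrix (Fin d ⊕ Fin c) (Fin d ⊕ Fin c) K := Matrix.of fun i b =>
    Sum.elim (fun i => P i (e b)) (fun l => R l (e b)) i with hG
  have hrel := det_rel e P Q R hPQ
  rw [hRQ, Matrix.det_diagonal] at hrel
  -- the main bound
  set a : Fin d → K := fun i => lD (D i) t with ha
  set h : Fin s → K := fun j => t ^ (-nf j) * ev x (f j) with hh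
  have hvh : ∀ j, v (h j) = 0 := fun j => by
    rw [hh]
    simp only
    rw [v.map_mul, hn, v_zpow v ht', mul_one, ← WithTop.coe_add, neg_add_cancel]
    rfl
  have hsume : ∀ X Y : Fin n → K, ∑ b, X (e b) * Y (e b) = ∑ b, X b * Y b := by
    intro X Y
    exact Equiv.sum_comp e fun b => X b * Y b
  have hfin := main_bound v G (Matrix.of fun (j : {j // J j}) b => A j (e b))
    (fun j => e.symm (ρ j)) (by
      rw [← hρ]
      congr 2
      ext i j
      simp) ht
    (fun j => Sum.elim (fun _ => 0) (fun j => (nf j - phi (f j) w).toNat) j.1)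
    (Sum.elim a fun _ => 0) (fun b => (w (e b) : K))
    (fun j => Sum.elim (fun _ => 0) (fun j => h j * (nf j : K)) j.1)
    (fun i j => Sum.elim
      (fun i => Sum.elim (fun _ => 0)
        (fun j => h j * (lD (D i) (ev x (f j)) - nf j * lD (D i) t)) j.1)
      (fun l => if j = ⟨Sum.inl l, trivial⟩ then 1 else 0) i)
    (by
      rintro (i | l)
      · exact v_lD_t v (hD i) ht
      · simp)
    (fun b => v_intCast v _)
    (by
      rintro ⟨l | j, hj⟩
      · simp
      · change 0 ≤ v (h j * (nf j : K))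
        rw [v.map_mul, hvh, zero_add]
        exact v_intCast v _)
    (by
      rintro (i | l) ⟨l' | j, hj⟩
      · simp
      · change 0 ≤ v (h j * (lD (D i) (ev x (f j)) - nf j * lD (D i) t))
        rw [v.map_mul, hvh, zero_add]
        exact v_lD v (hD i) ht (hn j)
      · simp only [Sum.elim_inr]
        split_ifs
        · rw [v.map_one]
        · rw [v.map_zero]; exact le_top
      · simp only [Sum.elim_inr]
        split_ifs
        · rw [v.map_one]
        · rw [v.map_zero]; exact le_top)
    (by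
      rintro (i | l) b
      · have h1 := v_lD v (hD i) ht (hx (e b))
        rw [mul_comm] at h1
        exact h1
      · simp only [hG, Matrix.of_apply, Sum.elim_inr, zero_mul, sub_zero]
        exact hB0 _ _)
    (by
      rintro (i | l) j
      · have h0 : ∑ b, G (Sum.inl i) b * (Matrix.of fun (j : {j // J j}) b => A j (e b)) j b =
            t ^ (-phi (F j.1) w) * D i (ev x (F j.1)) := by
          have h1 := hsume (fun b => P i b) (fun b => A j b)
          refine h1.trans ?_
          rw [← hPF, Finset.mul_sum]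
          refine Finset.sum_congr rfl fun b _ => ?_
          change P i b * (t ^ (-phi (F j.1) w) * dev x b (F j.1)) = _
          ring
        rw [h0]
        obtain ⟨l' | j, hj⟩ := j
        · have h2 : ev x (F (Sum.inl l')) = 0 := hg l'
          simp only [h2, map_zero, mul_zero, Sum.elim_inl, add_zero]
        · change t ^ (-phi (f j) w) * D i (ev x (f j)) =
            t ^ ((nf j - phi (f j) w).toNat) *
              (h j * (lD (D i) (ev x (f j)) - nf j * lD (D i) t) + a i * (h j * (nf j : K)))
          have hne : ev x (f j) ≠ 0 := by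
            intro h0
            have := hn j
            rw [h0, v.map_zero] at this
            exact WithTop.top_ne_coe this
          have h2 : D i (ev x (f j)) = ev x (f j) * lD (D i) (ev x (f j)) := by
            rw [lD, mul_div_cancel₀ _ hne]
          have h3 : t ^ (-phi (f j) w) = t ^ ((nf j - phi (f j) w).toNat) * t ^ (-nf j) := by
            rw [← zpow_natCast, Int.toNat_of_nonneg (sub_nonneg.mpr (hle j)), ← zpow_add₀ ht0]
            congr 1
            ring
          rw [h2, h3]
          simp only [hh, ha]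
          ring
      · have h1 := hsume (fun b => R l b) (fun b => A j b)
        rw [hRA] at h1
        refine h1.trans ?_
        obtain ⟨l' | j, hj⟩ := j
        · simp
        · have hne : ¬ ((⟨Sum.inr j, hj⟩ : {j // J j}) = ⟨Sum.inl l, trivial⟩) := by
            intro h3
            have h4 := congrArg Subtype.val h3
            exact absurd h4 (by simp)
          simp only [Sum.elim_inr, if_neg hne, zero_mul, add_zero, mul_zero])
  have hsum : ∑ j, (nf j - phi (f j) w) =
      ((∑ j : {j // J j}, Sum.elim (fun _ => 0) (fun j => (nf j - phi (f j) w).toNat) j.1 : ℕ) :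
        ℤ) := by
    have h1 : (∑ j : {j // J j}, Sum.elim (fun _ => 0) (fun j => (nf j - phi (f j) w).toNat) j.1 :
        ℕ) = ∑ j : Fin c ⊕ Fin s, if J j then
          Sum.elim (fun _ => 0) (fun j => (nf j - phi (f j) w).toNat) j else 0 := by
      rw [← Finset.sum_filter,
        Finset.sum_subtype (p := J) (Finset.univ.filter J) (fun j => by simp)]
    rw [h1, Fintype.sum_sum_type]
    push_cast
    have h2 : ∑ x : Fin c, (if J (Sum.inl x) then ((Sum.elim (fun _ => 0)
        (fun j => (nf j - phi (f j) w).toNat) (Sum.inl x : Fin c ⊕ Fin s) : ℕ) : ℤ) else 0) = 0 :=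
      Finset.sum_eq_zero fun l _ => by simp
    rw [h2, zero_add]
    refine Finset.sum_congr rfl fun j _ => ?_
    have h3 := hle j
    by_cases h4 : phi (f j) w < nf j
    · rw [if_pos (show J (Sum.inr j) from h4)]
      simp only [Sum.elim_inr]
      omega
    · rw [if_neg (show ¬ J (Sum.inr j) from h4)]
      omega
  have hvG : v G.det + v (Matrix.of fun l j => dev x (e (Sum.inr j)) (g l)).det =
      v (Matrix.of fun i j => D i (x (e (Sum.inl j))) / x (e (Sum.inl j))).det +
        ((∑ l, phi (g l) w : ℤ) : WithTop ℤ) := by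
    have h1 := congrArg v hrel
    rw [v.map_mul, v.map_mul] at h1
    have h2 : v (∏ l, t ^ (phi (g l) w)) = ((∑ l, phi (g l) w : ℤ) : WithTop ℤ) := by
      rw [← zpow_sum' ht0, v_zpow v ht', mul_one]
    rw [h2] at h1
    exact h1
  rw [v.map_mul, ht] at hfin
  rw [hsum]
  revert hfin hvG
  generalize v G.det = q1
  generalize v (Matrix.of fun l j => dev x (e (Sum.inr j)) (g l)).det = q2
  generalize v (Matrix.of fun i j => D i (x (e (Sum.inl j))) / x (e (Sum.inl j))).det = q3
  generalize (∑ j : {j // J j}, Sum.elim (fun _ => 0)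
    (fun j => (nf j - phi (f j) w).toNat) j.1) = S
  generalize ∑ l, phi (g l) w = T
  intro hfin hvG
  induction q3 using WithTop.recTopCoe with
  | top => exact le_top
  | coe q3 =>
    induction q1 using WithTop.recTopCoe with
    | top =>
      rw [WithTop.top_add, ← WithTop.coe_add] at hvG
      exact absurd hvG WithTop.top_ne_coe
    | coe q1 =>
      induction q2 using WithTop.recTopCoe with
      | top =>
        rw [WithTop.add_top, ← WithTop.coe_add] at hvG
        exact absurd hvG WithTop.top_ne_coe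
      | coe q2 =>
        have h1 : ((S : ℤ) : WithTop ℤ) ≤ ((1 + q1 : ℤ) : WithTop ℤ) := by
          push_cast
          exact_mod_cast hfin
        have h2 : (S : ℤ) ≤ 1 + q1 := by exact_mod_cast h1
        have h3 : q1 + q2 = q3 + T := by exact_mod_cast hvG
        rw [← WithTop.coe_add]
        exact_mod_cast (by omega : (S : ℤ) - 1 - T + q2 ≤ q3)

end core

section pair

variable {k K : Type u} [Field k] [Field K] [Algebra k K] {n d : ℕ}

theorem Germ.ord_x (X : Germ k K n d) (E : PrimeDivisor k K d) (i : Fin n) :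
    E.ord (X.x i) = ((X.vec E i : ℤ) : WithTop ℤ) :=
  ord_coe E (X.x_ne i)

theorem Germ.ord_mono (X : Germ k K n d) (E : PrimeDivisor k K d) (m : Fin n → ℤ) :
    E.ord (mono X.x m) = ((m ⬝ᵥ X.vec E : ℤ) : WithTop ℤ) :=
  v_mono E.ord (X.ord_x E) m

theorem Germ.intPt_vec (X : Germ k K n d) {E : PrimeDivisor k K d} (hE : X.Over E) :
    IntPt X.v (X.vec E) := by
  intro m hm hm0
  have h := hE m hm hm0
  rw [X.ord_mono] at h
  exact_mod_cast h

theorem Germ.ev_g (X : Germ k K n d) (l : Fin X.c) : ev X.x (X.g l) = 0 := by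
  classical
  rw [X.rel]
  refine ⟨fun l' => if l' = l then Finsupp.single 0 1 else 0, fun p hp => ?_⟩
  rw [Finset.sum_eq_single l]
  · simp only [if_true]
    rw [ev_single, mono_zero', map_one, mul_one, one_mul]
  · intro l' _ h
    simp only [if_neg h]
    rw [ev_zero, zero_mul]
  · exact fun h => absurd (Finset.mem_univ l) h

theorem Germ.phi_le_ord (X : Germ k K n d) (E : PrimeDivisor k K d) {f : (Fin n → ℤ) →₀ k}
    (hf : ev X.x f ≠ 0) : phi f (X.vec E) ≤ E.ordZ (ev X.x f) := by
  have h1 := ord_coe E hf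
  have h2 : ((phi f (X.vec E) : ℤ) : WithTop ℤ) ≤ E.ord (ev X.x f) := by
    rw [ev_eq]
    refine E.ord.map_le_sum fun m hm => ?_
    rw [E.ord.map_mul, X.ord_mono]
    refine le_trans ?_ (le_add_of_nonneg_left (v_const_nonneg E.ord E.ord_const _))
    exact_mod_cast phi_le _ hm
  rw [h1] at h2
  exact_mod_cast h2

/-- The lower bound for the order of the residue form. -/
theorem CIPair.le_resOrd [IsAlgClosed k] (P : CIPair k K n d) {E : PrimeDivisor k K d}
    (hE : P.Over E) :
    ((∑ j, ((E.ordZ (ev P.x (P.f j)) : ℝ) - (phi (P.f j) (P.vec E) : ℝ)) - 1 -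
      ∑ l, (phi (P.g l) (P.vec E) : ℝ) : ℝ) : EReal) ≤ P.resOrd E := by
  obtain ⟨t, ht⟩ := E.exists_one
  have hq := ord_eq E P.e_ne
  set q : ℤ := E.ordZ (Matrix.of fun l j => dev P.x (P.e (Sum.inr j)) (P.g l)).det with hqdef
  have h1 : (((∑ j, (E.ordZ (ev P.x (P.f j)) - phi (P.f j) (P.vec E)) - 1 -
      ∑ l, phi (P.g l) (P.vec E) + q : ℤ) : ℝ) : EReal) ≤
      ⨅ D : {D : Fin d → Derivation k K K // ∀ i, E.Reg (D i)},
        toE (E.ord (Matrix.det (Matrix.of fun i j => D.1 i (P.x (P.e (Sum.inl j))) /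
          P.x (P.e (Sum.inl j))))) := by
    refine le_iInf fun D => ?_
    have h := toE_mono (ci_low_core E.ord E.ord_const ht P.x (P.vec E) (P.ord_x E) P.g P.ev_g P.f
      (fun j => E.ordZ (ev P.x (P.f j))) (fun j => ord_coe E (P.f_ne j))
      (fun j => P.phi_le_ord E (P.f_ne j)) (P.nondeg _ (P.intPt_vec hE)) P.e D.1 D.2)
    rw [hq, ← WithTop.coe_add] at h
    exact h
  unfold Germ.resOrd
  rw [hq]
  have h2 := EReal.sub_le_sub h1 (le_refl (toE ((q : ℤ) : WithTop ℤ)))
  refine le_trans (le_of_eq ?_) h2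
  change _ = _ - (((q : ℤ) : ℝ) : EReal)
  rw [← EReal.coe_sub]
  congr 1
  push_cast
  ring

theorem ci_low [IsAlgClosed k] [CharZero k] (P : CIPair k K n d) (E : PrimeDivisor k K d)
    (hE : P.Over E) :
    IntPt P.v (P.vec E) ∧ InTrop P.g (P.vec E) ∧
      ((∀ j, P.coef j ≤ 1) → ((P.aw (P.vec E) : ℝ) : EReal) ≤ P.a E) := by
  refine ⟨P.intPt_vec hE, ?_, fun hc => ?_⟩
  · obtain ⟨t, ht⟩ := E.exists_one
    exact inTrop_of E.ord E.ord_const ht P.x (P.vec E) (P.ord_x E) P.g P.ev_g
  · have h1 := P.le_resOrd hE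
    have h2 : ((P.aw (P.vec E) : ℝ) : EReal) ≤
        1 + ((∑ j, ((E.ordZ (ev P.x (P.f j)) : ℝ) - (phi (P.f j) (P.vec E) : ℝ)) - 1 -
          ∑ l, (phi (P.g l) (P.vec E) : ℝ) : ℝ) : EReal) +
        ((pair P.m0 (P.vec E) - ∑ j, P.coef j * (E.ordZ (ev P.x (P.f j)) : ℝ) : ℝ) : EReal) := by
      have e1 : (1 : EReal) = ((1 : ℝ) : EReal) := rfl
      rw [e1, ← EReal.coe_add, ← EReal.coe_add]
      rw [EReal.coe_le_coe_iff]
      have h3 : ∑ j, P.coef j * (E.ordZ (ev P.x (P.f j)) : ℝ) ≤
          ∑ j, (((E.ordZ (ev P.x (P.f j)) : ℝ) - (phi (P.f j) (P.vec E) : ℝ)) +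
            P.coef j * (phi (P.f j) (P.vec E) : ℝ)) := by
        refine Finset.sum_le_sum fun j _ => ?_
        have h4 : (phi (P.f j) (P.vec E) : ℝ) ≤ (E.ordZ (ev P.x (P.f j)) : ℝ) := by
          exact_mod_cast P.phi_le_ord E (P.f_ne j)
        have h5 := hc j
        nlinarith
      rw [Finset.sum_add_distrib] at h3
      unfold CIPair.aw
      linarith
    refine h2.trans ?_
    unfold CIPair.a
    gcongr

end pair

end Pool.Agent.Work.MP_43381c_ag
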