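import Pool.Agent.Work.MP_43381c_ag.Mono

/-!
# Nondegeneracy at points over extension fields
-/

open MvPolynomial Matrix

namespace Pool.Agent.Work.MP_43381c_ag

section triv

/-- the trivial valuation -/
noncomputable def trivVal (L : Type*) [Field L] : AddValuation L (WithTop ℤ) := by
  classical
  exact AddValuation.of (fun a => if a = 0 then ⊤ else 0) (by simp) (by simp) (by
    intro x y
    by_cases hx : x = 0
    · simp [hx]
    by_cases hy : y = 0
    · simp [hy]
    simp only [hx, hy, if_false, min_self]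
    split_ifs <;> simp) (by
    intro x y
    by_cases hx : x = 0
    · simp [hx]
    by_cases hy : y = 0
    · simp [hy]
    simp [hx, hy])

theorem trivVal_ne {L : Type*} [Field L] {a : L} (ha : a ≠ 0) : trivVal L a = 0 := by
  classical
  change (if a = 0 then ⊤ else 0 : WithTop ℤ) = 0
  rw [if_neg ha]

theorem trivVal_pos {L : Type*} [Field L] {a : L} (h : ¬ 0 < trivVal L a) : a ≠ 0 := by
  rintro rfl
  apply h
  rw [(trivVal L).map_zero]
  exact WithTop.coe_lt_top (0 : ℤ)

end triv

section core

variable {k : Type*} [Field k] {n : ℕ} {ι : Type*} [Fintype ι] [DecidableEq ι]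

/-- polynomials detecting the degeneracy of the initial forms -/
noncomputable def degQ (f : ι → (Fin n → ℤ) →₀ k) (w : Fin n → ℤ) (J : ι → Prop)
    (N : Fin n → ℕ) [DecidablePred J] :
    ({j // J j} ⊕ ({j // J j} → Fin n)) → MvPolynomial (Fin n) k
  | Sum.inl j => shP N (init (f j) w).support (fun m => init (f j) w m)
  | Sum.inr ρ => (Matrix.of fun j j' : {j // J j} =>
      shP N (init (f j) w).support (fun m => init (f j) w m * (m (ρ j') : k))).det

variable {L : Type*} [Field L] [Algebra k L]

theorem aeval_degQ_inl (f : ι → (Fin n → ℤ) →₀ k) (w : Fin n → ℤ) (J : ι → Prop)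
    (N : Fin n → ℕ) [DecidablePred J]
    (hN : ∀ j, ∀ m ∈ (init (f j) w).support, ∀ i, 0 ≤ m i + N i)
    {y : Fin n → L} (hy : ∀ i, y i ≠ 0) (j : {j // J j}) :
    aeval y (degQ f w J N (Sum.inl j)) =
      mono y (fun i => (N i : ℤ)) * ev y (init (f j) w) := by
  unfold degQ
  rw [aeval_shP N _ _ hy (hN j), ev_eq]

theorem aeval_degQ_inr (f : ι → (Fin n → ℤ) →₀ k) (w : Fin n → ℤ) (J : ι → Prop)
    (N : Fin n → ℕ) [DecidablePred J]
    (hN : ∀ j, ∀ m ∈ (init (f j) w).support, ∀ i, 0 ≤ m i + N i)
    {y : Fin n → L} (hy : ∀ i, y i ≠ 0) (ρ : {j // J j} → Fin n) :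
    aeval y (degQ f w J N (Sum.inr ρ)) =
      mono y (fun i => (N i : ℤ)) ^ (Fintype.card {j // J j}) *
        ((Matrix.of fun (j : {j // J j}) (l : Fin n) =>
          dev y l (init (f j) w)).submatrix id ρ).det := by
  unfold degQ
  rw [aeval_det, ← Matrix.det_smul]
  congr 1
  ext j j'
  simp only [Matrix.of_apply, Matrix.smul_apply, Matrix.submatrix_apply, id_eq, smul_eq_mul]
  rw [aeval_shP N _ _ hy (hN j), dev_eq]
  congr 1
  refine Finset.sum_congr rfl fun m _ => ?_
  rw [map_mul, map_intCast]

/-- the alternative: at a point of the residue torus either some initial form is not zero or some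
minor is not zero -/
theorem nd_alt [IsAlgClosed k] (f : ι → (Fin n → ℤ) →₀ k) (w : Fin n → ℤ)
    (nd : ∀ p : Fin n → k, (∀ i, p i ≠ 0) →
      LinearIndependent k fun j : {j : ι // ev p (init (f j) w) = 0} =>
        fun l => dev p l (init (f j) w))
    (J : ι → Prop) [DecidablePred J] (v : AddValuation L (WithTop ℤ))
    (hk : ∀ c : k, c ≠ 0 → v (algebraMap k L c) = 0) {u : Fin n → L} (hu : ∀ i, v (u i) = 0) :
    (∃ j, J j ∧ ¬ 0 < v (ev u (init (f j) w))) ∨
    ∃ ρ : {j // J j} → Fin n, ¬ 0 < v ((Matrix.of fun (j : {j // J j}) (l : Fin n) =>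
      dev u l (init (f j) w)).submatrix id ρ).det := by
  classical
  have hu0 : ∀ i, u i ≠ 0 := by
    intro i h
    have := hu i
    rw [h, v.map_zero] at this
    exact WithTop.top_ne_zero this
  set N : Fin n → ℕ := fun i => ∑ j, shN (init (f j) w).support i with hNdef
  have hN : ∀ j, ∀ m ∈ (init (f j) w).support, ∀ i, 0 ≤ m i + N i := by
    intro j m hm i
    have h1 := shN_le hm i
    have h2 : shN (init (f j) w).support i ≤ N i :=
      Finset.single_le_sum (f := fun j => shN (init (f j) w).support i)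
        (fun _ _ => Nat.zero_le _) (Finset.mem_univ j)
    omega
  have hvm : ∀ m, v (mono u m) = 0 := fun m => by
    rw [v_mono v (w := fun _ => 0) (fun i => by rw [hu i]; rfl) m]
    simp [dotProduct]
  obtain ⟨a, ha⟩ := nullst v (degQ f w J N) (by
    intro p hp
    by_contra hc
    push Not at hc
    have hNp : mono p (fun i => (N i : ℤ)) ≠ 0 := mono_ne_zero hp _
    have h1 : ∀ j : {j // J j}, ev p (init (f j) w) = 0 := by
      intro j
      have h2 := aeval_degQ_inl f w J N hN hp j
      rw [aeval_eq_eval] at h2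
      have h3 := hc (Sum.inl j)
      rw [h2] at h3
      exact (mul_eq_zero.mp h3).resolve_left hNp
    have h4 : LinearIndependent k (Matrix.of fun (j : {j // J j}) (l : Fin n) =>
        dev p l (init (f j) w)).row :=
      (nd p hp).comp (fun j : {j // J j} =>
        (⟨j, h1 j⟩ : {j : ι // ev p (init (f j) w) = 0})) (by
          intro a b hab
          have h5 := congrArg Subtype.val hab
          exact Subtype.ext h5)
    obtain ⟨ρ, hρ⟩ := exists_minor _ h4
    have h2 := aeval_degQ_inr f w J N hN hp ρ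
    rw [aeval_eq_eval] at h2
    have h3 := hc (Sum.inr ρ)
    rw [h2] at h3
    rcases mul_eq_zero.mp h3 with h | h
    · exact pow_ne_zero _ hNp h
    · exact hρ h) hk u hu
  rcases a with j | ρ
  · left
    refine ⟨j, j.2, ?_⟩
    rw [aeval_degQ_inl f w J N hN hu0 j, v.map_mul, hvm, zero_add] at ha
    exact ha
  · right
    refine ⟨ρ, ?_⟩
    rw [aeval_degQ_inr f w J N hN hu0 ρ, v.map_mul, v.map_pow, hvm, smul_zero, zero_add] at ha
    exact ha

/-- nondegeneracy over an extension field -/
theorem nd_field [IsAlgClosed k] (f : ι → (Fin n → ℤ) →₀ k) (w : Fin n → ℤ)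
    (nd : ∀ p : Fin n → k, (∀ i, p i ≠ 0) →
      LinearIndependent k fun j : {j : ι // ev p (init (f j) w) = 0} =>
        fun l => dev p l (init (f j) w))
    (J : ι → Prop) {z : Fin n → L} (hz : ∀ i, z i ≠ 0)
    (hJ : ∀ j, J j → ev z (init (f j) w) = 0) :
    LinearIndependent L fun j : {j // J j} => fun l => dev z l (init (f j) w) := by
  classical
  rcases nd_alt f w nd J (trivVal L) (fun c hc => trivVal_ne
    (by rwa [Ne, map_eq_zero])) (u := z) (fun i => trivVal_ne (hz i)) with ⟨j, hj, h⟩ | ⟨ρ, hρ⟩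
  · exact absurd (hJ j hj) (trivVal_pos h)
  · have h1 := trivVal_pos hρ
    have h2 := Matrix.linearIndependent_rows_of_det_ne_zero h1
    have h3 : LinearIndependent L fun j : {j // J j} =>
        LinearMap.funLeft L L ρ (fun l => dev z l (init (f j) w)) := h2
    exact h3.of_comp _

end core

end Pool.Agent.Work.MP_43381c_ag
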