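import Pool.Agent.Work.MP_43381c_ag.CI.Face
import Pool.Agent.Work.MP_43381c_ag.CI.Defs

/-!
# The walk to the tropical variety
-/

open MvPolynomial Matrix

namespace Pool.Agent.Work.MP_43381c_ag

universe u

theorem walk_step {k : Type u} [Field k] [IsAlgClosed k] {n c q : ℕ}
    (g : Fin c → (Fin n → ℤ) →₀ k) (hg : ∀ l, g l ≠ 0) (τ : Fin q → Fin n → ℤ) (u0 : Fin n → ℤ)
    (N : Fin q → ℕ) (hw : InTrop g (u0 + ∑ i, N i • τ i))
    (nd : ∀ N' : Fin q → ℕ, Nondeg g (u0 + ∑ i, N' i • τ i)) :
    InTrop g u0 ∨ ∃ S : Finset (Fin q), S.Nonempty ∧ (∀ i ∈ S, 0 < N i) ∧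
      ∃ I : Finset (Fin c), S.card ≤ I.card ∧
        ∀ l ∈ I, ∀ m, ¬ InFace (g l) τ u0 (fun i => i ∈ S) m := by
  classical
  obtain ⟨L, _, _, z, hz, hzg⟩ := hw
  set N0 : Fin n → ℕ := fun b => ∑ l, shN (g l).support b with hN0
  have hN : ∀ l, ∀ m ∈ (g l).support, ∀ i, 0 ≤ m i + N0 i := by
    intro l m hm i
    have h1 := shN_le hm i
    have h2 : shN (g l).support i ≤ N0 i :=
      Finset.single_le_sum (f := fun l => shN (g l).support i)
        (fun _ _ => Nat.zero_le _) (Finset.mem_univ l)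
    omega
  set G : Fin c → MvPolynomial (Fin n ⊕ Fin q) k := fun l => GP N0 (g l) τ u0 with hG
  set Φ : MvPolynomial (Fin n ⊕ Fin q) k →ₐ[k] L :=
    aeval (Sum.elim z fun i => if 0 < N i then 0 else 1) with hΦ
  have hΦG : ∀ l, Φ (G l) = 0 := by
    intro l
    by_cases h0 : ∃ m0, InFace (g l) τ u0 (fun i => 0 < N i) m0
    · obtain ⟨m0, h0⟩ := h0
      have h1 := eval_GP (hN l) hz (fun i => if 0 < N i then (0 : L) else 1) (fun m => g l m)
        (S := fun i => 0 < N i) (N := N) (z := z) (y' := fun _ => 1)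
        (fun i => by by_cases h : 0 < N i <;> simp [h]) (fun i => Iff.rfl)
        (fun i h => by
          by_cases h' : 0 < N i
          · simp [h'] at h
          · simp [h']) (fun _ => one_ne_zero) (fun b => by simp) h0
      rw [← ev_init_eq, hzg l, mul_zero] at h1
      exact h1
    · push Not at h0
      exact eval_GP_zero (hN l) hz _ (fun m => g l m) (S := fun i => 0 < N i)
        (fun i h => by simp [h]) h0
  have hΦx : ∀ b, Φ (X (Sum.inl b)) = z b := fun b => by simp [hΦ]
  have hΦy : ∀ i, Φ (X (Sum.inr i)) = if 0 < N i then 0 else 1 := fun i => by simp [hΦ]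
  set Q : Ideal (MvPolynomial (Fin n ⊕ Fin q) k) := RingHom.ker Φ with hQ
  have hQp : Q.IsPrime := RingHom.ker_isPrime Φ
  have hIQ : Ideal.span (Set.range G) ≤ Q := by
    rw [Ideal.span_le]
    rintro _ ⟨l, rfl⟩
    exact hΦG l
  obtain ⟨p, hpmin, hpQ⟩ := Ideal.exists_minimalPrimes_le hIQ
  have hp : p.IsPrime := hpmin.1.1
  have hht : p.height ≤ (c : ℕ∞) := by
    refine (Ideal.height_le_card_of_mem_minimalPrimes_span (Set.finite_range G) hpmin).trans ?_
    have h1 : (Set.range G).ncard ≤ c := by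
      rw [← Set.image_univ]
      refine (Set.ncard_image_le Set.finite_univ).trans ?_
      rw [Set.ncard_univ, Nat.card_eq_fintype_card, Fintype.card_fin]
    exact_mod_cast h1
  have hGp : ∀ l, G l ∈ p := fun l => hpmin.1.2 (Ideal.subset_span ⟨l, rfl⟩)
  let A := MvPolynomial (Fin n ⊕ Fin q) k
  let κ := FractionRing (A ⧸ p)
  let Ψ : A →ₐ[k] κ := (IsScalarTower.toAlgHom k (A ⧸ p) κ).comp (Ideal.Quotient.mkₐ k p)
  have hΨ : ∀ a, Ψ a = 0 ↔ a ∈ p := by
    intro a
    change algebraMap (A ⧸ p) κ (Ideal.Quotient.mk p a) = 0 ↔ _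
    rw [← Ideal.Quotient.eq_zero_iff_mem]
    exact map_eq_zero_iff _ (IsFractionRing.injective (A ⧸ p) κ)
  set x : Fin n → κ := fun b => Ψ (X (Sum.inl b)) with hx
  set y : Fin q → κ := fun i => Ψ (X (Sum.inr i)) with hy
  have hΨe : Ψ = aeval (Sum.elim x y) := by
    apply MvPolynomial.algHom_ext
    rintro (b | i) <;> simp [hx, hy]
  have hx0 : ∀ b, x b ≠ 0 := by
    intro b h
    have h1 := hpQ ((hΨ _).1 h)
    rw [hQ, RingHom.mem_ker] at h1
    exact hz b ((hΦx b).symm.trans h1)
  have hyN : ∀ i, y i = 0 → 0 < N i := by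
    intro i h
    have h1 := hpQ ((hΨ _).1 h)
    rw [hQ, RingHom.mem_ker] at h1
    by_contra h2
    have h3 := (hΦy i).symm.trans h1
    rw [if_neg h2] at h3
    exact one_ne_zero h3
  have hΨG : ∀ l, aeval (Sum.elim x y) (∑ m ∈ (init (g l) u0).support,
      monomial (expo N0 (g l) τ m) (g l m)) = 0 := by
    intro l
    have := (hΨ _).2 (hGp l)
    rw [hΨe] at this
    exact this
  set y' : Fin q → κ := fun i => if y i = 0 then 1 else y i with hy'
  have hy'1 : ∀ i, y i ≠ 0 → y' i = y i := fun i h => by simp [hy', h]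
  have hy'0 : ∀ i, y' i ≠ 0 := by
    intro i
    by_cases h : y i = 0
    · simp [hy', h]
    · simp [hy', h]
  set z' : Fin n → κ := fun b => x b * ∏ i, y' i ^ τ i b with hz'
  have hz'0 : ∀ b, z' b ≠ 0 := fun b =>
    mul_ne_zero (hx0 b) (Finset.prod_ne_zero_iff.2 fun i _ => zpow_ne_zero _ (hy'0 i))
  set S : Finset (Fin q) := Finset.univ.filter fun i => y i = 0 with hS
  have hSy : ∀ i, i ∈ S ↔ y i = 0 := fun i => by simp [hS]
  set N' : Fin q → ℕ := fun i => if i ∈ S then 1 else 0 with hN'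
  have hSN' : ∀ i, i ∈ S ↔ 0 < N' i := fun i => by
    by_cases h : i ∈ S <;> simp [hN', h]
  have hunit : ∀ l, mono x (fun i => (N0 i : ℤ)) * ∏ i, y' i ^ (-phi (g l) (τ i)) ≠ 0 := fun l =>
    mul_ne_zero (mono_ne_zero hx0 _)
      (Finset.prod_ne_zero_iff.2 fun i _ => zpow_ne_zero _ (hy'0 i))
  have hkey : ∀ l, (∃ m0, InFace (g l) τ u0 (fun i => i ∈ S) m0) →
      ev z' (init (g l) (u0 + ∑ i, N' i • τ i)) = 0 := by
    rintro l ⟨m0, h0⟩
    have h1 := eval_GP (hN l) hx0 y (fun m => g l m) hSy hSN' hy'1 hy'0 (fun _ => rfl) h0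
    rw [hΨG l, ← ev_init_eq] at h1
    exact (mul_eq_zero.1 h1.symm).resolve_left (hunit l)
  by_cases hSe : S = ∅
  · left
    refine ⟨κ, inferInstance, inferInstance, z', hz'0, fun l => ?_⟩
    obtain ⟨m0, hm0, h0⟩ := exists_phi (hg l) u0
    have h1 := hkey l ⟨m0, hm0, h0, fun i hi => by rw [hSe] at hi; exact absurd hi (by simp)⟩
    have h2 : u0 + ∑ i, N' i • τ i = u0 := by
      rw [Finset.sum_eq_zero, add_zero]
      intro i _
      simp [hN', hSe]
    rwa [h2] at h1
  · right
    refine ⟨S, Finset.nonempty_iff_ne_empty.2 hSe, fun i hi => hyN i ((hSy i).1 hi),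
      Finset.univ.filter fun l => ∀ m, ¬ InFace (g l) τ u0 (fun i => i ∈ S) m, ?_, fun l hl =>
      (Finset.mem_filter.1 hl).2⟩
    set J : Fin c → Prop := fun l => ∃ m, InFace (g l) τ u0 (fun i => i ∈ S) m with hJ
    -- the independent family
    have hind : LinearIndependent κ fun (j : {i // i ∈ S} ⊕ {l // J l}) τ' =>
        Ψ (pderiv τ' (Sum.elim (fun i : {i // i ∈ S} => X (Sum.inr i.1))
          (fun l : {l // J l} => G l) j)) := by
      rw [Fintype.linearIndependent_iff]
      intro α hα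
      have hcoord : ∀ τ', ∑ i : {i // i ∈ S}, α (Sum.inl i) * Ψ (pderiv τ' (X (Sum.inr i.1))) +
          ∑ l : {l // J l}, α (Sum.inr l) * Ψ (pderiv τ' (G l)) = 0 := by
        intro τ'
        have h1 := congrFun hα τ'
        rw [Finset.sum_apply, Fintype.sum_sum_type] at h1
        simpa using h1
      have hβ : ∀ l : {l // J l}, α (Sum.inr l) = 0 := by
        have hnd := nd_field g (u0 + ∑ i, N' i • τ i) (nd N') J hz'0 hkey
        rw [Fintype.linearIndependent_iff] at hnd
        have h2 := hnd (fun l => α (Sum.inr l) *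
          (mono x (fun i => (N0 i : ℤ)) * ∏ i, y' i ^ (-phi (g l) (τ i)))) (by
          funext b
          rw [Finset.sum_apply]
          have h3 := hcoord (Sum.inl b)
          rw [Finset.sum_eq_zero (s := Finset.univ)
            (f := fun i : {i // i ∈ S} => α (Sum.inl i) * Ψ (pderiv (Sum.inl b) (X (Sum.inr i.1))))
            (fun i _ => by rw [pderiv_X_of_ne (by simp), map_zero, mul_zero]), zero_add] at h3
          · have h4 := congrArg (fun t => x b * t) h3
            rw [mul_zero, Finset.mul_sum] at h4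
            rw [Pi.zero_apply]
            refine Eq.trans (Finset.sum_congr rfl fun l _ => ?_) h4
            have h5 : x b * Ψ (pderiv (Sum.inl b) (G l)) =
                (mono x (fun i => (N0 i : ℤ)) * ∏ i, y' i ^ (-phi (g l) (τ i))) *
                  dev z' b (init (g l) (u0 + ∑ i, N' i • τ i)) := by
              have h6 := congrArg Ψ (X_mul_pderiv_GP (f := g l) (τ := τ) (u := u0) (hN l) b)
              rw [map_mul, map_add, map_mul] at h6
              have h7 : Ψ (GP N0 (g l) τ u0) = 0 := (hΨ _).2 (hGp l)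
              rw [h7, mul_zero, add_zero] at h6
              refine h6.trans ?_
              rw [dev_init_eq, hΨe]
              obtain ⟨m0, h0⟩ := l.2
              exact eval_GP (hN l) hx0 y (fun m => g l m * (m b : k)) hSy hSN' hy'1 hy'0
                (fun _ => rfl) h0
            simp only [Pi.smul_apply, smul_eq_mul]
            rw [mul_assoc, ← h5]
            ring)
        intro l
        exact (mul_eq_zero.1 (h2 l)).resolve_right (hunit l)
      rintro (i | l)
      · have h3 := hcoord (Sum.inr i.1)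
        rw [Finset.sum_eq_single i] at h3
        · rw [Finset.sum_eq_zero (s := Finset.univ)
            (f := fun l : {l // J l} => α (Sum.inr l) * Ψ (pderiv (Sum.inr i.1) (G l)))
            (fun l _ => by rw [hβ l, zero_mul])] at h3
          rw [pderiv_X_self, map_one, mul_one, add_zero] at h3
          exact h3
        · intro i' _ hne
          rw [pderiv_X_of_ne, map_zero, mul_zero]
          intro h
          exact hne (Subtype.ext (Sum.inr_injective h))
        · exact fun h => absurd (Finset.mem_univ i) h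
      · exact hβ l
    have h1 := card_le_height p Ψ hΨ (fun j : {i // i ∈ S} ⊕ {l // J l} =>
      Sum.elim (fun i : {i // i ∈ S} => X (Sum.inr i.1)) (fun l : {l // J l} => G l) j) (by
        rintro (i | l)
        · exact (hΨ _).1 ((hSy i.1).1 i.2)
        · exact hGp l) hind
    have h2 := h1.trans hht
    have h3 : Fintype.card ({i // i ∈ S} ⊕ {l // J l}) ≤ c := by exact_mod_cast h2
    rw [Fintype.card_sum, Fintype.card_coe, Fintype.card_subtype] at h3
    have h4 := Finset.card_filter_add_card_filter_not (s := (Finset.univ : Finset (Fin c))) J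
    rw [Finset.card_univ, Fintype.card_fin] at h4
    have h5 : (Finset.univ.filter fun l => ∀ m, ¬ InFace (g l) τ u0 (fun i => i ∈ S) m).card =
        (Finset.univ.filter fun l => ¬ J l).card := by
      congr 1
      refine Finset.filter_congr fun l _ => ?_
      simp [hJ]
    rw [h5]
    have h6 : (Finset.univ.filter J).card = (Finset.univ.filter fun l => J l).card := rfl
    convert (by omega : S.card ≤ (Finset.univ.filter fun l => ¬ J l).card) using 1

/-- integrality: if no exponent is minimal for `u` and the `τ i` with `0 < N i` then `phi`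
increases by at least one more -/
theorem phi_add_lt {k : Type*} [Field k] {n q : ℕ} {f : (Fin n → ℤ) →₀ k} (hf : f ≠ 0)
    {τ : Fin q → Fin n → ℤ} {u : Fin n → ℤ} {S : Fin q → Prop} {N : Fin q → ℕ}
    (hS : ∀ i, S i ↔ 0 < N i) (h0 : ∀ m, ¬ InFace f τ u S m) :
    phi f u + ∑ i, N i * phi f (τ i) + 1 ≤ phi f (u + ∑ i, N i • τ i) := by
  rcases (phi_add_le (τ := τ) (u := u) hf N).lt_or_eq with h | h
  · omega
  · exfalso
    obtain ⟨m, hm, h1⟩ := exists_phi hf (u + ∑ i, N i • τ i)
    rw [← h, dot_add_sum] at h1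
    have h2 : ∀ i ∈ Finset.univ, (N i : ℤ) * phi f (τ i) ≤ N i * (m ⬝ᵥ τ i) := fun i _ =>
      mul_le_mul_of_nonneg_left (phi_le (τ i) hm) (Nat.cast_nonneg _)
    have h3 := Finset.sum_le_sum h2
    have h3' := phi_le u hm
    have h4 : ∑ i, (N i : ℤ) * phi f (τ i) = ∑ i, N i * (m ⬝ᵥ τ i) := by omega
    have h5 := (Finset.sum_eq_sum_iff_of_le h2).1 h4
    refine h0 m ⟨hm, by omega, fun i hi => ?_⟩
    have h6 := h5 i (Finset.mem_univ i)
    have h7 : (N i : ℤ) ≠ 0 := by
      have := (hS i).1 hi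
      omega
    exact (mul_left_cancel₀ h7 h6).symm

/-- The walk: from any lattice point `u0` one reaches the tropical variety by adding vectors
`τ i` (at most `N i` times), and the functions `w ↦ ⟨m, w⟩ - ∑ φ_l(w)` with
`⟨m, τ i⟩ = 1 + ∑ φ_l(τ i)` do not increase. -/
theorem walk {k : Type u} [Field k] [IsAlgClosed k] {n c q : ℕ}
    (g : Fin c → (Fin n → ℤ) →₀ k) (hg : ∀ l, g l ≠ 0) (τ : Fin q → Fin n → ℤ) (u0 : Fin n → ℤ)
    (N : Fin q → ℕ) (hw : InTrop g (u0 + ∑ i, N i • τ i))
    (nd : ∀ N' : Fin q → ℕ, Nondeg g (u0 + ∑ i, N' i • τ i)) :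
    ∃ N' : Fin q → ℕ, (∀ i, N' i ≤ N i) ∧ InTrop g (u0 + ∑ i, N' i • τ i) ∧
      ∑ i, (N' i : ℤ) * (1 + ∑ l, phi (g l) (τ i)) ≤
        ∑ l, (phi (g l) (u0 + ∑ i, N' i • τ i) - phi (g l) u0) := by
  classical
  induction hs : ∑ i, N i using Nat.strong_induction_on generalizing u0 N with
  | _ s ih =>
  rcases walk_step g hg τ u0 N hw nd with h | ⟨S, hSne, hSN, I, hSI, hI⟩
  · refine ⟨fun _ => 0, fun _ => Nat.zero_le _, ?_, ?_⟩
    · simpa using h
    · simp
  · set N1 : Fin q → ℕ := fun i => if i ∈ S then 1 else 0 with hN1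
    have hN1S : ∀ i, i ∈ S ↔ 0 < N1 i := fun i => by
      by_cases h : i ∈ S <;> simp [hN1, h]
    have hN1N : ∀ i, N1 i ≤ N i := fun i => by
      by_cases h : i ∈ S
      · have := hSN i h
        simp only [hN1, if_pos h]
        omega
      · simp [hN1, h]
    set u1 : Fin n → ℤ := u0 + ∑ i, N1 i • τ i with hu1
    have hadd : ∀ N' : Fin q → ℕ, u1 + ∑ i, N' i • τ i = u0 + ∑ i, (N1 i + N' i) • τ i := by
      intro N'
      simp only [hu1, add_smul, Finset.sum_add_distrib]
      rw [add_assoc]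
    have hcard : ∑ i, N1 i = S.card := by
      simp [hN1]
    have hpos : 0 < S.card := Finset.card_pos.2 hSne
    have hlt : ∑ i, (N i - N1 i) < s := by
      have h1 : ∑ i, (N i - N1 i) + ∑ i, N1 i = ∑ i, N i := by
        rw [← Finset.sum_add_distrib]
        exact Finset.sum_congr rfl fun i _ => Nat.sub_add_cancel (hN1N i)
      omega
    obtain ⟨N2, hN2, htrop, hle⟩ := ih _ hlt u1 (fun i => N i - N1 i) (by
      rw [hadd]
      have h1 : ∀ i, N1 i + (N i - N1 i) = N i := fun i => Nat.add_sub_cancel' (hN1N i)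
      simp only [h1]
      exact hw) (fun N' => by rw [hadd]; exact nd _) rfl
    rw [hadd] at htrop hle
    refine ⟨fun i => N1 i + N2 i, fun i => ?_, htrop, ?_⟩
    · have h1 := hN1N i
      have h2 : N2 i ≤ N i - N1 i := hN2 i
      change N1 i + N2 i ≤ N i
      omega
    · have hstep : ∀ l, phi (g l) u0 + ∑ i, N1 i * phi (g l) (τ i) + (if l ∈ I then 1 else 0) ≤
          phi (g l) u1 := by
        intro l
        by_cases h : l ∈ I
        · rw [if_pos h]
          exact phi_add_lt (hg l) hN1S (hI l h)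
        · rw [if_neg h, add_zero]
          exact phi_add_le (hg l) N1
      have h1 := Finset.sum_le_sum fun l (_ : l ∈ Finset.univ) => hstep l
      rw [Finset.sum_add_distrib, Finset.sum_add_distrib] at h1
      have h2 : ∑ l : Fin c, (if l ∈ I then (1 : ℤ) else 0) = I.card := by simp
      have h3 : ∑ i, (N1 i : ℤ) * (1 + ∑ l, phi (g l) (τ i)) =
          S.card + ∑ l, ∑ i, (N1 i : ℤ) * phi (g l) (τ i) := by
        rw [Finset.sum_comm, ← hcard]
        push_cast
        rw [← Finset.sum_add_distrib]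
        refine Finset.sum_congr rfl fun i _ => ?_
        rw [mul_add, mul_one, Finset.mul_sum]
      have h4 : ∑ i, ((N1 i + N2 i : ℕ) : ℤ) * (1 + ∑ l, phi (g l) (τ i)) =
          ∑ i, (N1 i : ℤ) * (1 + ∑ l, phi (g l) (τ i)) +
            ∑ i, (N2 i : ℤ) * (1 + ∑ l, phi (g l) (τ i)) := by
        rw [← Finset.sum_add_distrib]
        refine Finset.sum_congr rfl fun i _ => ?_
        push_cast
        ring
      rw [h4, h3]
      rw [Finset.sum_sub_distrib] at hle ⊢
      have h5 : (S.card : ℤ) ≤ I.card := by exact_mod_cast hSI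
      rw [h2] at h1
      linarith

end Pool.Agent.Work.MP_43381c_ag
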