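import Pool.Agent.Work.MP_43381c_ag.CI.Walk
import Pool.Agent.Work.MP_43381c_ag.CI.ConeMain

/-!
# The walk, all steps; the set of interior tropical vectors
-/

open Matrix

namespace Pool.Agent.Work.MP_43381c_ag

universe u

theorem phiS_add_sum {n r q : ℕ} {T : Finset (Fin n → ℤ)} (hT : T.Nonempty)
    (v : Fin r → Fin n → ℤ) (σ : Fin q → Fin r) (u : Fin n → ℤ) (S : Finset (Fin q)) :
    (phiS T u : ℤ) + ∑ i ∈ S, phiS T (v (σ i)) ≤ phiS T (u + ∑ i ∈ S, v (σ i)) := by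
  obtain ⟨m, hm, h, _⟩ := phiS_spec hT (u + ∑ i ∈ S, v (σ i))
  rw [h, dotProduct_add, dotProduct_sum]
  obtain ⟨_, _, _, h1⟩ := phiS_spec hT u
  refine add_le_add (h1 m hm) (Finset.sum_le_sum fun i _ => ?_)
  obtain ⟨_, _, _, h2⟩ := phiS_spec hT (v (σ i))
  exact h2 m hm

theorem phiS_add_sum_lt {n r q : ℕ} {T : Finset (Fin n → ℤ)} (hT : T.Nonempty)
    (v : Fin r → Fin n → ℤ) (σ : Fin q → Fin r) (u : Fin n → ℤ) (S : Finset (Fin q))
    (hS : ∀ m, ¬ (m ∈ T ∧ m ⬝ᵥ u = phiS T u ∧ ∀ i ∈ S, m ⬝ᵥ v (σ i) = phiS T (v (σ i)))) :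
    (phiS T u : ℤ) + ∑ i ∈ S, phiS T (v (σ i)) + 1 ≤ phiS T (u + ∑ i ∈ S, v (σ i)) := by
  obtain ⟨m, hm, h, _⟩ := phiS_spec hT (u + ∑ i ∈ S, v (σ i))
  have h3 := phiS_add_sum hT v σ u S
  rcases h3.lt_or_eq with h4 | h4
  · omega
  · exfalso
    refine hS m ⟨hm, ?_⟩
    rw [h, dotProduct_add, dotProduct_sum] at h4
    obtain ⟨_, _, _, h1⟩ := phiS_spec hT u
    have h1' := h1 m hm
    have h2' : ∀ i ∈ S, phiS T (v (σ i)) ≤ m ⬝ᵥ v (σ i) := fun i _ => by
      obtain ⟨_, _, _, h2⟩ := phiS_spec hT (v (σ i))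
      exact h2 m hm
    have h5 := Finset.sum_le_sum h2'
    have h6 : ∑ i ∈ S, phiS T (v (σ i)) = ∑ i ∈ S, m ⬝ᵥ v (σ i) := by omega
    refine ⟨by omega, fun i hi => ?_⟩
    exact ((Finset.sum_eq_sum_iff_of_le h2').1 h6 i hi).symm

theorem pair_add_sum {n q r : ℕ} (m : Fin n → ℝ) (v : Fin r → Fin n → ℤ) (σ : Fin q → Fin r)
    (u : Fin n → ℤ) (S : Finset (Fin q)) :
    pair m (u + ∑ i ∈ S, v (σ i)) = pair m u + ∑ i ∈ S, pair m (v (σ i)) := by
  unfold pair
  rw [Finset.sum_comm, ← Finset.sum_add_distrib]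
  refine Finset.sum_congr rfl fun l _ => ?_
  rw [Pi.add_apply, Finset.sum_apply, ← Finset.mul_sum]
  push_cast
  ring

/-- interior vector plus a sum of generators -/
theorem intPt_add {r n q : ℕ} {v : Fin r → Fin n → ℤ} {u : Fin n → ℤ} (hu : IntPt v u)
    (σ : Fin q → Fin r) (N : Fin q → ℕ) : IntPt v (u + ∑ i, N i • v (σ i)) := by
  intro m hm hne
  rw [dotProduct_add, dotProduct_sum]
  have h1 := hu m hm hne
  have h2 : 0 ≤ ∑ i, m ⬝ᵥ (N i • v (σ i)) := by
    refine Finset.sum_nonneg fun i _ => ?_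
    rw [dotProduct_smul, nsmul_eq_mul]
    exact mul_nonneg (by positivity) (hm _)
  omega

section

variable {k : Type u} [Field k] {n r e s : ℕ}

/-- one step of the walk does not increase `A` and `a` -/
theorem step_le {v : Fin r → Fin n → ℤ} {T : Fin e → Finset (Fin n → ℤ)}
    (hT : ∀ l, (T l).Nonempty) {mK : Fin n → ℝ}
    (hK : ∀ ρ, pair mK (v ρ) = 1 + ∑ l, (phiS (T l) (v ρ) : ℝ))
    {b : Fin r → ℝ} (hb : ∀ ρ, 0 ≤ b ρ) {c : Fin s → ℝ} (hc : ∀ j, 0 ≤ c j)
    {S : Fin s → Finset (Fin n → ℤ)} (hS : ∀ j, (S j).Nonempty) {m0 : Fin n → ℝ}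
    (h0 : ∀ ρ, pair m0 (v ρ) = 1 - b ρ + ∑ l, (phiS (T l) (v ρ) : ℝ) +
      ∑ j, c j * (phiS (S j) (v ρ) : ℝ))
    {q : ℕ} (σ : Fin q → Fin r) (u : Fin n → ℤ) (R : Finset (Fin q)) (I : Finset (Fin e))
    (hcard : R.card ≤ I.card)
    (hI : ∀ l ∈ I, ∀ m, ¬ (m ∈ T l ∧ m ⬝ᵥ u = phiS (T l) u ∧
      ∀ i ∈ R, m ⬝ᵥ v (σ i) = phiS (T l) (v (σ i)))) :
    AC mK T (u + ∑ i ∈ R, v (σ i)) ≤ AC mK T u ∧
      aC m0 T c S (u + ∑ i ∈ R, v (σ i)) ≤ aC m0 T c S u := by
  classical
  have h1 : ∀ l, (phiS (T l) u : ℝ) + ∑ i ∈ R, (phiS (T l) (v (σ i)) : ℝ) +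
      (if l ∈ I then 1 else 0) ≤ (phiS (T l) (u + ∑ i ∈ R, v (σ i)) : ℝ) := by
    intro l
    split_ifs with h
    · have := phiS_add_sum_lt (hT l) v σ u R (hI l h)
      exact_mod_cast this
    · have := phiS_add_sum (hT l) v σ u R
      rw [add_zero]
      exact_mod_cast this
  have h2 : ∑ l, (phiS (T l) u : ℝ) + ∑ i ∈ R, ∑ l, (phiS (T l) (v (σ i)) : ℝ) + I.card ≤
      ∑ l, (phiS (T l) (u + ∑ i ∈ R, v (σ i)) : ℝ) := by
    have h3 := Finset.sum_le_sum fun l (_ : l ∈ Finset.univ) => h1 l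
    rw [Finset.sum_add_distrib, Finset.sum_add_distrib, Finset.sum_comm] at h3
    have h4 : ∑ l, (if l ∈ I then (1 : ℝ) else 0) = I.card := by
      rw [Finset.sum_ite_mem, Finset.univ_inter, Finset.sum_const, nsmul_eq_mul, mul_one]
    rw [h4] at h3
    exact h3
  have hcR : (R.card : ℝ) ≤ I.card := by exact_mod_cast hcard
  constructor
  · unfold AC
    rw [pair_add_sum]
    have h5 : ∑ i ∈ R, pair mK (v (σ i)) =
        R.card + ∑ i ∈ R, ∑ l, (phiS (T l) (v (σ i)) : ℝ) := by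
      rw [Finset.sum_congr rfl fun i _ => hK (σ i), Finset.sum_add_distrib, Finset.sum_const,
        nsmul_eq_mul, mul_one]
    rw [h5]
    linarith
  · unfold aC
    rw [pair_add_sum]
    have h5 : ∑ i ∈ R, pair m0 (v (σ i)) ≤
        R.card + ∑ i ∈ R, ∑ l, (phiS (T l) (v (σ i)) : ℝ) +
          ∑ j, c j * ∑ i ∈ R, (phiS (S j) (v (σ i)) : ℝ) := by
      have h6 : ∑ j, c j * ∑ i ∈ R, (phiS (S j) (v (σ i)) : ℝ) =
          ∑ i ∈ R, ∑ j, c j * (phiS (S j) (v (σ i)) : ℝ) := by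
        rw [Finset.sum_comm]
        exact Finset.sum_congr rfl fun j _ => by rw [Finset.mul_sum]
      have h8 : (R.card : ℝ) + ∑ i ∈ R, ∑ l, (phiS (T l) (v (σ i)) : ℝ) +
          ∑ i ∈ R, ∑ j, c j * (phiS (S j) (v (σ i)) : ℝ) =
          ∑ i ∈ R, (1 + ∑ l, (phiS (T l) (v (σ i)) : ℝ) +
            ∑ j, c j * (phiS (S j) (v (σ i)) : ℝ)) := by
        rw [Finset.sum_add_distrib, Finset.sum_add_distrib, Finset.sum_const, nsmul_eq_mul,
          mul_one]
      rw [h6, h8]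
      refine Finset.sum_le_sum fun i _ => ?_
      rw [h0]
      have := hb (σ i)
      linarith
    have h7 : ∑ j, c j * (phiS (S j) u : ℝ) + ∑ j, c j * ∑ i ∈ R, (phiS (S j) (v (σ i)) : ℝ) ≤
        ∑ j, c j * (phiS (S j) (u + ∑ i ∈ R, v (σ i)) : ℝ) := by
      rw [← Finset.sum_add_distrib]
      refine Finset.sum_le_sum fun j _ => ?_
      rw [← mul_add]
      refine mul_le_mul_of_nonneg_left ?_ (hc j)
      have := phiS_add_sum (hS j) v σ u R
      exact_mod_cast this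
    linarith

theorem init_smul (f : (Fin n → ℤ) →₀ k) (w : Fin n → ℤ) {t : ℤ} (ht : 0 < t) :
    init f (t • w) = init f w := by
  classical
  rcases eq_or_ne f 0 with rfl | hf
  · unfold init
    rw [Finsupp.filter_zero, Finsupp.filter_zero]
  · have hne : f.support.Nonempty := Finsupp.support_nonempty_iff.mpr hf
    have h1 : phi f (t • w) = t * phi f w := by
      rw [phi_eq, phi_eq]
      exact phiS_smul hne ht fun l => by rw [Pi.smul_apply, smul_eq_mul]
    unfold init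
    congr 1
    funext m
    rw [h1, dotProduct_smul, smul_eq_mul]
    apply propext
    constructor
    · intro h
      exact mul_left_cancel₀ ht.ne' h
    · intro h
      rw [h]

theorem inTrop_smul {c : ℕ} (g : Fin c → (Fin n → ℤ) →₀ k) (w : Fin n → ℤ) {t : ℤ} (ht : 0 < t) :
    InTrop g (t • w) ↔ InTrop g w := by
  unfold InTrop
  simp only [init_smul _ _ ht]

theorem intPt_zsmul {v : Fin r → Fin n → ℤ} (w : Fin n → ℤ) {t : ℤ} (ht : 0 < t) :
    IntPt v (t • w) ↔ IntPt v w := by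
  unfold IntPt
  simp only [dotProduct_smul, smul_eq_mul]
  refine forall_congr' fun m => forall_congr' fun _ => forall_congr' fun _ => ?_
  constructor
  · intro h
    exact pos_of_mul_pos_right h ht.le
  · intro h
    exact mul_pos ht h

end

namespace CIPair

variable {k K : Type u} [Field k] [Field K] [Algebra k K] {n d : ℕ} (P : CIPair k K n d)

theorem aw_eq (w : Fin n → ℤ) : P.aw w = aC P.m0 (fun l => (P.g l).support) P.coef
    (fun j => (P.f j).support) w := rfl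

theorem Aw_eq (w : Fin n → ℤ) : P.Aw w = AC (fun i => (P.mK i : ℝ)) (fun l => (P.g l).support) w :=
  rfl

theorem g_ne (l : Fin P.c) : P.g l ≠ 0 := by
  intro h
  apply P.e_ne
  refine Matrix.det_eq_zero_of_row_eq_zero l fun j => ?_
  rw [Matrix.of_apply, h]
  simp [dev]

theorem f_ne' (j : Fin P.s) : P.f j ≠ 0 := by
  intro h
  apply P.f_ne j
  rw [h]
  simp [ev]

theorem g_supp (l : Fin P.c) : ((P.g l).support).Nonempty :=
  Finsupp.support_nonempty_iff.mpr (P.g_ne l)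

theorem f_supp (j : Fin P.s) : ((P.f j).support).Nonempty :=
  Finsupp.support_nonempty_iff.mpr (P.f_ne' j)

theorem nondeg_g {w : Fin n → ℤ} (hw : IntPt P.v w) : Nondeg P.g w := by
  intro p hp
  have h := P.nondeg w hw p hp
  have h1 := h.comp (fun j : {j : Fin P.c // ev p (init (P.g j) w) = 0} =>
    (⟨Sum.inl j.1, j.2⟩ : {j : Fin P.c ⊕ Fin P.s // ev p (init (Sum.elim P.g P.f j) w) = 0}))
    (fun a b hab => by
      have := congrArg Subtype.val hab
      exact Subtype.ext (Sum.inl_injective this))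
  exact h1

theorem mK_real (ρ : Fin P.r) : pair (fun i => (P.mK i : ℝ)) (P.v ρ) =
    1 + ∑ l, (phiS (P.g l).support (P.v ρ) : ℝ) := by
  have h1 := congrArg (fun y : ℚ => (y : ℝ)) (P.mK_eq ρ)
  push_cast at h1
  exact h1

/-- The walk. -/
theorem walk [IsAlgClosed k] (hb : ∀ ρ, 0 ≤ P.b ρ) (hc : ∀ j, 0 ≤ P.coef j) {q : ℕ} (σ : Fin q → Fin P.r)
    (M : ℕ) : ∀ (u w : Fin n → ℤ), IntPt P.v u → InTrop P.g w → ∀ N : Fin q → ℕ, ∑ i, N i = M →
      w = u + ∑ i, N i • P.v (σ i) →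
      ∃ u', IntPt P.v u' ∧ InTrop P.g u' ∧ P.Aw u' ≤ P.Aw u ∧ P.aw u' ≤ P.aw u := by
  classical
  induction M using Nat.strong_induction_on with
  | _ M ih =>
    intro u w hu hw N hM hwe
    rw [hwe] at hw
    rcases walk_step P.g P.g_ne (fun i => P.v (σ i)) u N hw
      (fun N' => P.nondeg_g (intPt_add hu σ N')) with h | ⟨R, hR, hRN, I, hcard, hI⟩
    · exact ⟨u, hu, h, le_rfl, le_rfl⟩
    · have hstep := step_le (T := fun l => (P.g l).support) (S := fun j => (P.f j).support)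
        P.g_supp P.mK_real hb hc P.f_supp P.m0_eq σ u R I hcard
        (fun l hl m h => hI l hl m ⟨h.1, h.2.1, h.2.2⟩)
      set u1 : Fin n → ℤ := u + ∑ i ∈ R, P.v (σ i) with hu1
      have hu1I : IntPt P.v u1 := by
        have h1 := intPt_add hu σ (fun i => if i ∈ R then 1 else 0)
        have h2 : ∑ i, (if i ∈ R then 1 else 0) • P.v (σ i) = ∑ i ∈ R, P.v (σ i) := by
          rw [← Finset.sum_filter_add_sum_filter_not Finset.univ (fun i => i ∈ R)]
          rw [Finset.sum_congr rfl (g := fun i => P.v (σ i)) (fun i hi => by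
            rw [if_pos (Finset.mem_filter.1 hi).2, one_smul]),
            Finset.sum_eq_zero (s := Finset.univ.filter fun i => ¬ i ∈ R) (fun i hi => by
              rw [if_neg (Finset.mem_filter.1 hi).2, zero_smul]), add_zero]
          congr 1
          ext i
          simp
        rw [h2] at h1
        exact h1
      have hsub : ∀ i, (if i ∈ R then 1 else 0) ≤ N i := by
        intro i
        split_ifs with h
        · exact hRN i h
        · exact Nat.zero_le _
      have hlt : ∑ i, (N i - if i ∈ R then 1 else 0) < M := by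
        rw [← hM]
        obtain ⟨i₀, hi₀⟩ := hR
        refine Finset.sum_lt_sum (fun i _ => Nat.sub_le _ _) ⟨i₀, Finset.mem_univ _, ?_⟩
        rw [if_pos hi₀]
        have := hRN i₀ hi₀
        omega
      have hwe' : w = u1 + ∑ i, (N i - if i ∈ R then 1 else 0) • P.v (σ i) := by
        rw [hwe, hu1, add_assoc]
        congr 1
        have h2 : ∑ i, (if i ∈ R then 1 else 0) • P.v (σ i) = ∑ i ∈ R, P.v (σ i) := by
          rw [← Finset.sum_filter_add_sum_filter_not Finset.univ (fun i => i ∈ R)]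
          rw [Finset.sum_congr rfl (g := fun i => P.v (σ i)) (fun i hi => by
            rw [if_pos (Finset.mem_filter.1 hi).2, one_smul]),
            Finset.sum_eq_zero (s := Finset.univ.filter fun i => ¬ i ∈ R) (fun i hi => by
              rw [if_neg (Finset.mem_filter.1 hi).2, zero_smul]), add_zero]
          congr 1
          ext i
          simp
        rw [← h2, ← Finset.sum_add_distrib]
        refine Finset.sum_congr rfl fun i _ => ?_
        rw [← add_smul, Nat.add_sub_cancel' (hsub i)]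
      rw [← hwe] at hw
      obtain ⟨u', h1, h2, h3, h4⟩ := ih _ hlt u1 w hu1I hw _ rfl hwe'
      exact ⟨u', h1, h2, h3.trans hstep.1, h4.trans hstep.2⟩

end CIPair

end Pool.Agent.Work.MP_43381c_ag
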